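import Pool.Agent.Helper64.Proc8

set_option autoImplicit false

namespace Pool.Agent.Helper64.Proc

open Finset
open scoped Classical

namespace Sys2

variable {D : Sys2}

lemma Yk_nonneg {X0 : ℕ → ℝ} {t : ℕ} {S : Finset ℕ} {w d : ℕ → ℝ} (hok : ∀ v, D.Ok v (w v)) (k : ℕ) :
    0 ≤ 4 * D.Wk t w k + 2 * D.cd k * D.Qk t w k ∧ 0 ≤ D.Yk X0 t S w d k := by
  have h1 : 0 ≤ D.Wk t w k := sum_nonneg (fun z _ => (hok z).nonneg)
  have h2 : 0 ≤ D.Qk t w k := by
    apply sum_nonneg
    intro z _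
    have h3 := (hok z).nonneg
    have h4 := (hok z).le_pm
    have := D.pm_pos z
    apply mul_nonneg h3
    linarith
  have h3 := D.cd_nonneg k
  have h4 : 0 ≤ 4 * D.Wk t w k + 2 * D.cd k * D.Qk t w k := by positivity
  refine ⟨h4, ?_⟩
  unfold Yk
  nlinarith [sq_nonneg (D.Xk t S w d k - X0 k)]

lemma Phi_parts {al : ℕ → ℝ} (hal : ∀ z, 0 ≤ al z) {K : Finset ℕ} {be X0 : ℕ → ℝ} (hbe : ∀ k, 0 ≤ be k)
    {t : ℕ} {S : Finset ℕ} {w d : ℕ → ℝ} (hok : ∀ v, D.Ok v (w v)) (hd : ∀ z, 0 ≤ d z)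
    (h : D.Phi al K be X0 t S w d < 1) :
    (∑ z ∈ range D.M, al z * (Real.exp (D.Zm z) * d z) < 1) ∧ (∀ k ∈ K, be k * D.Yk X0 t S w d k < 1)
      ∧ (∀ e ∈ D.prs, D.xi t w e.1 e.2 < 1) := by
  unfold Phi at h
  have h1 : 0 ≤ ∑ z ∈ Ico t D.M, al z * D.Fz t S w z := by
    apply sum_nonneg
    intro z _
    apply mul_nonneg (hal z)
    unfold Sys.Fz
    have := D.w0_pos z
    positivity
  have h2 : 0 ≤ ∑ z ∈ range D.M, al z * (Real.exp (D.Zm z) * d z) := by
    apply sum_nonneg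
    intro z _
    have := hd z
    have := hal z
    positivity
  have h3' : ∀ k ∈ K, 0 ≤ be k * D.Yk X0 t S w d k := by
    intro k _
    exact mul_nonneg (hbe k) (Yk_nonneg hok k).2
  have h3 : 0 ≤ ∑ k ∈ K, be k * D.Yk X0 t S w d k := sum_nonneg h3'
  have h4' : ∀ e ∈ D.prs, 0 ≤ D.xi t w e.1 e.2 := fun e _ => (Real.exp_pos _).le
  have h4 : 0 ≤ ∑ e ∈ D.prs, D.xi t w e.1 e.2 := sum_nonneg h4'
  refine ⟨by linarith, ?_, ?_⟩
  · intro k hk
    have := single_le_sum h3' hk
    linarith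
  · intro e he
    have := single_le_sum h4' he
    linarith

/-- no three collinear -/
def NT (D : Sys2) (S : Finset ℕ) : Prop :=
  ∀ a ∈ S, ∀ b ∈ S, ∀ c ∈ S, a ≠ b → a ≠ c → b ≠ c → ¬ D.C a b c

def AL (D : Sys2) (t : ℕ) (S : Finset ℕ) (w : ℕ → ℝ) : Prop :=
  ∀ v, t ≤ v → w v ≠ 0 → ∀ a ∈ S, ∀ b ∈ S, a ≠ b → ¬ D.C a b v

structure Good (D : Sys2) (al : ℕ → ℝ) (K : Finset ℕ) (be X0 : ℕ → ℝ) (t : ℕ) (S : Finset ℕ) (w d : ℕ → ℝ) : Prop where
  inv : D.Inv t S w
  hd : ∀ z, 0 ≤ d z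
  nt : D.NT S
  al' : D.AL t S w
  phi : D.Phi al K be X0 t S w d < 1

lemma next {al : ℕ → ℝ} (hal : ∀ z, 0 ≤ al z) {K : Finset ℕ} {be X0 : ℕ → ℝ} (hbe : ∀ k, 0 ≤ be k)
    {t : ℕ} {S : Finset ℕ} {w d : ℕ → ℝ} (hS : ∀ a ∈ S, a < t) (hok : ∀ v, D.Ok2 v (w v))
    (hlt : ∀ v < t, D.Ok v (w v)) (hd : ∀ z, 0 ≤ d z) (nt : D.NT S) (hal' : D.AL t S w)
    (hphi : D.Phi al K be X0 t S w d < 1) : D.Good al K be X0 t S (D.wd t S w) (D.dd t S w d) := by
  have hok' : ∀ v, D.Ok v (D.wd t S w v) := fun v => wd_ok hok hlt v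
  have hd' : ∀ z, 0 ≤ D.dd t S w d z := by
    intro z
    unfold dd
    have := hd z
    have := (hok z).nonneg
    split_ifs <;> linarith
  have hphi' := (Phi_wd hal hbe (d := d) (K := K) (X0 := X0) (S := S) (t := t) hok).trans_lt hphi
  refine ⟨⟨hS, hok', ?_⟩, hd', nt, ?_, hphi'⟩
  · intro P Q h1 h2 h3
    have h4 := (Phi_parts hal hbe hok' hd' hphi').2.2 (P, Q) (mem_prs.2 ⟨h1, h2, h3⟩)
    unfold Sys.xi at h4
    rw [Real.exp_lt_one_iff] at h4
    have := D.s_pos Q
    by_contra hcon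
    push Not at hcon
    have := mul_nonneg this.le hcon
    linarith
  · intro v hv hw
    apply hal' v hv
    intro h0
    apply hw
    unfold wd
    split_ifs
    · rfl
    · exact h0

lemma Good_step {al : ℕ → ℝ} (hal : ∀ z, 0 ≤ al z) {K : Finset ℕ} {be X0 : ℕ → ℝ} (hbe : ∀ k, 0 ≤ be k)
    {t : ℕ} (ht : t < D.M) {S : Finset ℕ} {w d : ℕ → ℝ} (G : D.Good al K be X0 t S w d) :
    ∃ S' w' d', D.Good al K be X0 (t + 1) S' w' d' := by
  have I := G.inv
  have hp := I.p_le t
  have h1p : 0 < 1 - w t := by linarith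
  have hp0 := I.w_nonneg t
  have hstep := Phi_step hal hbe (K := K) (X0 := X0) (d := d) I ht
  have hphi := G.phi
  by_cases hsel : w t ≠ 0 ∧ D.Phi al K be X0 (t + 1) (insert t S) (D.wsel t S w) d < 1
  · obtain ⟨hwt, hsel⟩ := hsel
    have hAL := G.al' t le_rfl hwt
    refine ⟨_, _, _, next hal hbe (t := t + 1) (S := insert t S) (w := D.wsel t S w) (d := d) ?_ ?_ ?_ G.hd ?_ ?_ hsel⟩
    · intro a ha
      rw [mem_insert] at ha
      rcases ha with ha | ha
      · omega
      · have := I.hS a ha; omega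
    · intro v; exact (I.ok_sel v).ok2
    · intro v _; exact I.ok_sel v
    · intro a ha b hb c hc hab hac hbc hC
      rw [mem_insert] at ha hb hc
      rcases ha with rfl | ha
      · rcases hb with rfl | hb
        · exact hab rfl
        · rcases hc with rfl | hc
          · exact hac rfl
          · exact hAL b hb c hc hbc (D.C231 hC)
      · rcases hb with rfl | hb
        · rcases hc with rfl | hc
          · exact hbc rfl
          · exact hAL a ha c hc hac (D.C23 _ _ _ hC)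
        · rcases hc with rfl | hc
          · exact hAL a ha b hb hab hC
          · exact G.nt a ha b hb c hc hab hac hbc hC
    · intro v hv hw a ha b hb hab hC
      have h1 : ¬ (t < v ∧ D.Sp S v t) := by
        intro h
        apply hw
        unfold Sys.wsel
        rw [if_pos h]
      have h2 : w v ≠ 0 := by
        unfold Sys.wsel at hw
        rw [if_neg h1] at hw
        exact hw
      have h3 : ¬ D.Sp S v t := fun h => h1 ⟨by omega, h⟩
      rw [mem_insert] at ha hb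
      rcases ha with rfl | ha
      · rcases hb with rfl | hb
        · exact hab rfl
        · exact h3 ⟨b, hb, D.C12 _ _ _ hC⟩
      · rcases hb with rfl | hb
        · exact h3 ⟨a, ha, hC⟩
        · exact G.al' v (by omega) h2 a ha b hb hab hC
  · have hnon : D.Phi al K be X0 (t + 1) S (D.wnon t S w) d < 1 := by
      by_contra hcon
      push Not at hcon hsel
      by_cases hwt : w t = 0
      · rw [hwt] at hstep
        simp only [zero_mul, zero_add, sub_zero, one_mul] at hstep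
        linarith
      · have h1 := hsel hwt
        have h2 := mul_le_mul_of_nonneg_left h1 hp0
        have h3 := mul_le_mul_of_nonneg_left hcon h1p.le
        linarith
    refine ⟨_, _, _, next hal hbe (t := t + 1) (S := S) (w := D.wnon t S w) (d := d) ?_ ?_ ?_ G.hd G.nt ?_ hnon⟩
    · intro a ha
      have := I.hS a ha; omega
    · intro v; exact I.ok_non v
    · intro v hv
      rw [Sys.wnon_le_t v (by omega)]
      exact I.hok v
    · intro v hv hw a ha b hb hab hC
      have h2 : w v ≠ 0 := by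
        intro h0
        apply hw
        unfold Sys.wnon
        rw [h0]
        simp
      exact G.al' v (by omega) h2 a ha b hb hab hC

lemma Good_all {al : ℕ → ℝ} (hal : ∀ z, 0 ≤ al z) {K : Finset ℕ} {be X0 : ℕ → ℝ} (hbe : ∀ k, 0 ≤ be k)
    (h0 : ∃ S w d, D.Good al K be X0 0 S w d) : ∀ t ≤ D.M, ∃ S w d, D.Good al K be X0 t S w d := by
  intro t
  induction t with
  | zero => intro _; exact h0
  | succ t ih =>
    intro ht
    obtain ⟨S, w, d, G⟩ := ih (by omega)
    exact Good_step hal hbe (by omega) G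

/-- class mass -/
noncomputable def mass0 (D : Sys2) (k : ℕ) : ℝ := ∑ z ∈ (range D.M).filter (fun v => D.cls v = k), D.w0 z

lemma hh_w0 (D : Sys2) (v : ℕ) : D.hh D.w0 v = D.w0 v := by
  unfold Sys.hh Sys.hat
  rw [div_self (D.w0_pos v).ne', Real.log_one]
  ring

/-- the pair sum at time 0 -/
noncomputable def T0 (D : Sys2) (z : ℕ) : ℝ :=
  ∑ v ∈ range z, ∑ x ∈ range z, if x ≠ v ∧ D.C x v z then D.w0 x * D.w0 v else 0

lemma Ex0 (D : Sys2) (z : ℕ) : D.Ex 0 ∅ (D.hh D.w0) z = D.T0 z := by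
  unfold Sys.Ex Sys.Dt Sys.Tt T0
  have hsp : ∀ v, ¬ D.Sp ∅ z v := by
    intro v h
    obtain ⟨a, ha, _⟩ := h
    simp at ha
  simp only [hsp, if_false, sum_const_zero, mul_zero, zero_add, not_false_eq_true, and_true, range_eq_Ico, hh_w0]

theorem process (D : Sys2) (K : Finset ℕ) (hm : ∀ k ∈ K, 0 < D.mass0 k)
    (hinit : ∑ z ∈ range D.M, 8 / (Real.exp (D.Zm z) * D.mass0 (D.cls z)) * (D.w0 z * Real.exp (D.T0 z))
      + ∑ k ∈ K, 16 / (D.mass0 k) ^ 2 * (4 * D.mass0 k + 2 * D.cd k *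
          ∑ z ∈ (range D.M).filter (fun v => D.cls v = k), D.w0 z * (2 * D.pm z))
      + ∑ e ∈ D.prs, Real.exp (D.s e.2 * (∑ v ∈ range D.M, (if D.C e.1 e.2 v then D.w0 v else 0) - 1 / 128)) < 1) :
    ∃ S : Finset ℕ, S ⊆ range D.M ∧ D.NT S ∧
      ∀ k ∈ K, D.mass0 k / 2 ≤ ((S.filter (fun v => D.cls v = k)).card : ℝ) := by
  set al : ℕ → ℝ := fun z => 8 / (Real.exp (D.Zm z) * D.mass0 (D.cls z)) with hal_def
  set be : ℕ → ℝ := fun k => 16 / (D.mass0 k) ^ 2 with hbe_def
  have hmass : ∀ k, 0 ≤ D.mass0 k := fun k => sum_nonneg (fun z _ => (D.w0_pos z).le)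
  have hal : ∀ z, 0 ≤ al z := by
    intro z
    have := hmass (D.cls z)
    simp only [hal_def]
    positivity
  have hbe : ∀ k, 0 ≤ be k := by
    intro k
    simp only [hbe_def]
    positivity
  have hok0 : ∀ v, D.Ok v (D.w0 v) := fun v => Or.inr ⟨le_rfl, D.w0_le_pm v⟩
  -- initial potential
  have hphi0 : D.Phi al K be D.mass0 0 ∅ D.w0 (fun _ => 0) < 1 := by
    refine lt_of_le_of_lt ?_ hinit
    unfold Phi
    have e1 : ∑ z ∈ Ico 0 D.M, al z * D.Fz 0 ∅ D.w0 z
        = ∑ z ∈ range D.M, 8 / (Real.exp (D.Zm z) * D.mass0 (D.cls z)) * (D.w0 z * Real.exp (D.T0 z)) := by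
      rw [← range_eq_Ico]
      apply sum_congr rfl
      intro z _
      unfold Sys.Fz
      rw [Ex0]
      have := (D.w0_pos z).ne'
      simp only [hal_def]
      congr 2
      field_simp
    have e2 : ∑ z ∈ range D.M, al z * (Real.exp (D.Zm z) * (0 : ℝ)) = 0 := by simp
    have e3 : ∑ k ∈ K, be k * D.Yk D.mass0 0 ∅ D.w0 (fun _ => 0) k
        ≤ ∑ k ∈ K, 16 / (D.mass0 k) ^ 2 * (4 * D.mass0 k + 2 * D.cd k *
          ∑ z ∈ (range D.M).filter (fun v => D.cls v = k), D.w0 z * (2 * D.pm z)) := by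
      apply sum_le_sum
      intro k _
      apply mul_le_mul_of_nonneg_left _ (hbe k)
      unfold Yk
      have x0 : D.Xk 0 ∅ D.w0 (fun _ => 0) k = D.mass0 k := by
        unfold Xk Wk mass0
        rw [Finset.range_eq_Ico]
        simp only [filter_empty, card_empty, Nat.cast_zero, zero_add, sum_const_zero, add_zero]
      have w0' : D.Wk 0 D.w0 k = D.mass0 k := by
        unfold Wk mass0
        rw [Finset.range_eq_Ico]
      rw [x0, w0', sub_self]
      have q0 : D.Qk 0 D.w0 k ≤ ∑ z ∈ (range D.M).filter (fun v => D.cls v = k), D.w0 z * (2 * D.pm z) := by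
        unfold Qk
        rw [Finset.range_eq_Ico]
        apply sum_le_sum
        intro z _
        have := D.w0_pos z
        nlinarith
      have := mul_le_mul_of_nonneg_left q0 (D.cd_nonneg k)
      nlinarith
    have e4 : ∑ e ∈ D.prs, D.xi 0 D.w0 e.1 e.2
        = ∑ e ∈ D.prs, Real.exp (D.s e.2 * (∑ v ∈ range D.M, (if D.C e.1 e.2 v then D.w0 v else 0) - 1 / 128)) := by
      apply sum_congr rfl
      intro e _
      unfold Sys.xi Sys.ez Sys.rm Sys.bb
      simp only [hh_w0, Finset.range_eq_Ico, Ico_self, sum_empty, mul_zero, add_zero]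
    rw [e1, e2, e4]
    linarith
  have hinv0 : D.Inv 0 ∅ D.w0 := by
    refine ⟨by simp, hok0, ?_⟩
    intro P Q h1 h2 h3
    have h4 := (Phi_parts hal hbe hok0 (fun _ => le_rfl) hphi0).2.2 (P, Q) (mem_prs.2 ⟨h1, h2, h3⟩)
    unfold Sys.xi at h4
    rw [Real.exp_lt_one_iff] at h4
    have := D.s_pos Q
    by_contra hcon
    push Not at hcon
    have := mul_nonneg this.le hcon
    linarith
  have hgood0 : D.Good al K be D.mass0 0 ∅ D.w0 (fun _ => 0) := by
    refine ⟨hinv0, fun _ => le_rfl, ?_, ?_, hphi0⟩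
    · intro a ha; simp at ha
    · intro v _ _ a ha; simp at ha
  obtain ⟨S, w, d, G⟩ := Good_all hal hbe ⟨_, _, _, hgood0⟩ D.M le_rfl
  refine ⟨S, ?_, G.nt, ?_⟩
  · intro a ha
    rw [mem_range]
    exact G.inv.hS a ha
  · intro k hk
    have hmk := hm k hk
    obtain ⟨p1, p2, _⟩ := Phi_parts hal hbe G.inv.hok G.hd G.phi
    have hY := p2 k hk
    have hW : D.Wk D.M w k = 0 := by unfold Wk; simp
    have hQ : D.Qk D.M w k = 0 := by unfold Qk; simp
    have hdk : ∑ z ∈ (range D.M).filter (fun v => D.cls v = k), d z < D.mass0 k / 8 := by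
      have h1 : ∑ z ∈ (range D.M).filter (fun v => D.cls v = k), al z * (Real.exp (D.Zm z) * d z)
          ≤ ∑ z ∈ range D.M, al z * (Real.exp (D.Zm z) * d z) := by
        apply sum_le_sum_of_subset_of_nonneg (filter_subset _ _)
        intro z _ _
        have := hal z
        have := G.hd z
        positivity
      have h2 : ∑ z ∈ (range D.M).filter (fun v => D.cls v = k), al z * (Real.exp (D.Zm z) * d z)
          = 8 / D.mass0 k * ∑ z ∈ (range D.M).filter (fun v => D.cls v = k), d z := by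
        rw [mul_sum]
        apply sum_congr rfl
        intro z hz
        rw [mem_filter] at hz
        simp only [hal_def]
        rw [hz.2]
        have := (Real.exp_pos (D.Zm z)).ne'
        field_simp
      rw [h2] at h1
      have h3 := h1.trans_lt p1
      rw [div_mul_eq_mul_div, div_lt_one hmk] at h3
      linarith
    have hX : |D.Xk D.M S w d k - D.mass0 k| < D.mass0 k / 4 := by
      apply abs_lt_of_sq_lt_sq _ (by positivity)
      have h1 : be k * (D.Xk D.M S w d k - D.mass0 k) ^ 2 < 1 := by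
        unfold Yk at hY
        rw [hW, hQ] at hY
        simpa using hY
      simp only [hbe_def] at h1
      rw [div_mul_eq_mul_div, div_lt_one (by positivity)] at h1
      nlinarith
    rw [abs_lt] at hX
    have hXe : D.Xk D.M S w d k = ((S.filter (fun v => D.cls v = k)).card : ℝ)
        + ∑ z ∈ (range D.M).filter (fun v => D.cls v = k), d z := by
      unfold Xk
      rw [hW, add_zero]
    linarith [hX.1]

end Sys2

end Pool.Agent.Helper64.Proc
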