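import Pool.Agent.Helper64.Res13
import Pool.Agent.Helper64.Proc9

set_option autoImplicit false

namespace Pool.Agent.Helper64

open Finset Res
open scoped Classical

lemma exists_enum (V : Finset Pt) (hV : ∀ p ∈ V, 0 < p.1) :
    ∃ pt : ℕ → Pt, Function.Injective pt ∧ (∀ i < V.card, pt i ∈ V) ∧ (∀ p ∈ V, ∃ i < V.card, pt i = p)
      ∧ (∀ i j, i < j → j < V.card → (pt i).1 ≤ (pt j).1) := by
  set V' : Finset (ℤ ×ₗ ℤ) := V.image (fun p => toLex p) with hV'
  have hcard : V'.card = V.card := card_image_of_injective _ toLex.injective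
  set e := V'.orderEmbOfFin hcard with he
  have hmem : ∀ i, ofLex (e i) ∈ V := by
    intro i
    have h1 : e i ∈ V.image (fun p => toLex p) := V'.orderEmbOfFin_mem hcard i
    obtain ⟨p, hp, hpe⟩ := mem_image.1 h1
    rw [← hpe]
    exact hp
  refine ⟨fun i => if h : i < V.card then ofLex (e ⟨i, h⟩) else (-((i : ℤ) + 1), 0), ?_, ?_, ?_, ?_⟩
  · intro i j hij
    simp only at hij
    by_cases hi : i < V.card
    · by_cases hj : j < V.card
      · rw [dif_pos hi, dif_pos hj] at hij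
        have := e.injective (ofLex.injective hij)
        simpa using this
      · rw [dif_pos hi, dif_neg hj] at hij
        have h1 := hV _ (hmem ⟨i, hi⟩)
        rw [hij] at h1
        simp only at h1
        omega
    · by_cases hj : j < V.card
      · rw [dif_neg hi, dif_pos hj] at hij
        have h1 := hV _ (hmem ⟨j, hj⟩)
        rw [← hij] at h1
        simp only at h1
        omega
      · rw [dif_neg hi, dif_neg hj] at hij
        have := congrArg Prod.fst hij
        simp only at this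
        omega
  · intro i hi
    simp only [hi, dif_pos]
    exact hmem _
  · intro p hp
    have h1 : toLex p ∈ V' := mem_image_of_mem _ hp
    have h2 : toLex p ∈ Set.range e := by
      rw [he, V'.range_orderEmbOfFin hcard]
      exact h1
    obtain ⟨⟨i, hi⟩, h3⟩ := h2
    refine ⟨i, hi, ?_⟩
    simp only [hi, dif_pos]
    rw [h3]
    rfl
  · intro i j hij hj
    have hi : i < V.card := hij.trans hj
    simp only [hi, hj, dif_pos]
    have h1 : e ⟨i, hi⟩ < e ⟨j, hj⟩ := e.strictMono (by simpa using hij)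
    have h2 : toLex (ofLex (e ⟨i, hi⟩)) < toLex (ofLex (e ⟨j, hj⟩)) := h1
    rw [Prod.Lex.toLex_lt_toLex] at h2
    rcases h2 with h2 | h2
    · exact h2.le
    · exact h2.1.le

lemma cl_mono {p q : Pt} {a b : ℕ} (hp : p ∈ Bx a) (hq : q ∈ Bx b) (h : p.1 ≤ q.1) : a ≤ b := by
  by_contra hcon
  push Not at hcon
  have h1 := (mem_Bx.1 hp).1.1
  have h2 := (mem_Bx.1 hq).1.2
  have h3 : nn a ≥ 2 * nn b := by
    unfold nn
    calc 2 ^ (2000 * a) ≥ 2 ^ (2000 * b + 1) := Nat.pow_le_pow_right (by norm_num) (by omega)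
      _ = 2 * 2 ^ (2000 * b) := by rw [pow_succ]; ring
  have : (nn a : ℤ) ≥ 2 * nn b := by exact_mod_cast h3
  omega

/-- conditions on `k0` needed for the process -/
structure Good0 (k0 : ℕ) : Prop where
  one : 1 ≤ k0
  lin : ∀ k ≥ k0, 256 * ((k : ℝ) + 1) ≤ 2 ^ k
  t1 : ∀ k ≥ k0, 8 * (3 / 4 : ℝ) ^ k ≤ 1 / (4 * ((k + 1) * (k + 2)))
  t2 : ∀ k ≥ k0, (2 ^ 21 + 128) * (1 : ℝ) / 2 ^ k ≤ 1 / (4 * ((k + 1) * (k + 2)))
  t3 : ∀ k ≥ k0, 4 * nR k ^ 4 * Real.exp (-(2 ^ k / 256)) ≤ 1 / (4 * ((k + 1) * (k + 2)))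

noncomputable def clf (k0 M : ℕ) (pt : ℕ → Pt) (v : ℕ) : ℕ := if v < M then cl (pt v) else k0

lemma mem_filter_any {s : Finset ℕ} {p : ℕ → Prop} {inst : DecidablePred p} {a : ℕ}
    (h : a ∈ @Finset.filter _ p inst s) : a ∈ s ∧ p a := Finset.mem_filter.1 h

lemma deg_aux {k0 N : ℕ} {V : Finset Pt} (R : Resv k0 N V) {pt : ℕ → Pt}
    (inj : Function.Injective pt) (mem : ∀ i < V.card, pt i ∈ V)
    (mono : ∀ i j, i < j → j < V.card → (pt i).1 ≤ (pt j).1) {t k : ℕ} (ht : t < V.card) {Z : Finset ℕ}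
    (hZ : ∀ v ∈ Z, (t + 1 ≤ v ∧ v < V.card) ∧ clf k0 V.card pt v = k ∧ ∃ a, a < t ∧ col (pt a) (pt t) (pt v)) :
    (Z.card : ℝ) ≤ 2 ^ (1996 * k) := by
  have clmono : ∀ i j, i < j → j < V.card → cl (pt i) ≤ cl (pt j) := by
    intro i j hij hj
    exact cl_mono (UU_Bx (R.sub (mem i (hij.trans hj)))) (UU_Bx (R.sub (mem j hj))) (mono i j hij hj)
  rcases Z.eq_empty_or_nonempty with h0 | ⟨v0, hv0⟩
  · rw [h0]; simp
  · have hcl : cl (pt t) ≤ k := by
      obtain ⟨h1, h2, _⟩ := hZ v0 hv0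
      have h3 := clmono t v0 (by omega) h1.2
      unfold clf at h2
      rw [if_pos h1.2] at h2
      omega
    refine le_trans ?_ (R.deg (pt t) (mem t ht) k hcl)
    have : Z.card ≤ (V.filter (fun v => cl v = k ∧ v ≠ pt t ∧ ∃ a ∈ V, a ≠ pt t ∧ a ≠ v ∧ cl a ≤ k ∧ col a (pt t) v)).card := by
      apply card_le_card_of_injOn pt
      · intro v hv
        obtain ⟨h1, h2, a, ha, hc⟩ := hZ v (mem_coe.1 hv)
        unfold clf at h2
        rw [if_pos h1.2] at h2
        rw [mem_coe, mem_filter]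
        refine ⟨mem v h1.2, h2, ?_, pt a, mem a (by omega), ?_, ?_, ?_, hc⟩
        · intro h; have := inj h; omega
        · intro h; have := inj h; omega
        · intro h; have := inj h; omega
        · have := clmono a v (by omega) h1.2
          omega
      · intro x _ y _ hxy
        exact inj hxy
    exact_mod_cast this

/-- the process data -/
noncomputable def mkSys (k0 N : ℕ) (hk : Good0 k0) (V : Finset Pt) (R : Resv k0 N V) (pt : ℕ → Pt)
    (inj : Function.Injective pt) (mem : ∀ i < V.card, pt i ∈ V)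
    (mono : ∀ i j, i < j → j < V.card → (pt i).1 ≤ (pt j).1) : Proc.Sys2 where
  M := V.card
  C := fun a b c => col (pt a) (pt b) (pt c)
  C12 := fun _ _ _ h => col_12 h
  C23 := fun _ _ _ h => col_23 h
  Cd := fun _ _ => col_self _ _
  Ctr := fun _ _ _ _ hab h1 h2 => col_trans (fun h => hab (inj h)) h1 h2
  w0 := fun v => lam / 2 ^ (4 * clf k0 V.card pt v)
  Zm := fun v => clf k0 V.card pt v * Real.log 2
  ga := fun v => 1 / 2 ^ (clf k0 V.card pt v)
  s := fun v => 2 ^ (clf k0 V.card pt v)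
  w0_pos := fun v => by have := lam_pos; positivity
  Zm_nonneg := fun v => by
    have := Real.log_nonneg (show (1 : ℝ) ≤ 2 by norm_num)
    positivity
  gaZ := fun v => by
    have hc : k0 ≤ clf k0 V.card pt v := by
      unfold clf
      split_ifs with h
      · exact (mem_UU.1 (R.sub (mem v h))).1.1
      · exact le_rfl
    have h1 := hk.lin _ hc
    have h2 : Real.log 2 ≤ 1 := by
      have := Real.log_two_lt_d9; linarith
    have h3 : (0 : ℝ) ≤ (clf k0 V.card pt v : ℝ) := by positivity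
    rw [one_div_mul_eq_div, div_le_iff₀ (by positivity)]
    nlinarith
  pm_ga := fun v => by
    set c := clf k0 V.card pt v with hc
    have e1 : Real.exp (c * Real.log 2) = 2 ^ c := by
      rw [mul_comm, Real.exp_mul, Real.exp_log (by norm_num), Real.rpow_natCast]
    rw [e1]
    have e2 : 5 / 4 * (lam / 2 ^ (4 * c) * 2 ^ c) = (5 / 4 * lam) / 2 ^ (3 * c) := by
      have : (2 : ℝ) ^ (4 * c) = 2 ^ (3 * c) * 2 ^ c := by rw [← pow_add]; congr 1; ring
      rw [this]; field_simp
    rw [e2]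
    have h1 : (2 : ℝ) ^ c ≤ 2 ^ (3 * c) := pow_le_pow_right₀ (by norm_num) (by omega)
    apply div_le_div₀ (by norm_num) _ (by positivity) h1
    unfold lam; norm_num
  s_pos := fun v => by positivity
  s_le := fun P Q v hPQ hQ hv hr hC => by
    have e1 : ∀ c : ℕ, Real.exp (c * Real.log 2) = 2 ^ c := by
      intro c
      rw [mul_comm, Real.exp_mul, Real.exp_log (by norm_num), Real.rpow_natCast]
    rw [e1]
    have hP : P < V.card := hPQ.trans hQ
    have cQ : clf k0 V.card pt Q = cl (pt Q) := by unfold clf; rw [if_pos hQ]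
    have cv : clf k0 V.card pt v = cl (pt v) := by unfold clf; rw [if_pos hv]
    rw [cQ, cv]
    have key : cl (pt Q) ≤ 2 * cl (pt v) := by
      by_cases h1 : v = Q
      · rw [h1]; omega
      · by_cases h2 : v = P
        · obtain ⟨c, hc, hcP, hcQ, hcol⟩ := hr
          have := R.win (pt Q) (mem Q hQ) (pt P) (mem P hP) (pt c) (mem c hc) (fun h => hPQ.ne (inj h).symm)
            (fun h => hcQ (inj h).symm) (fun h => hcP (inj h).symm) (col_12 hcol)
          rw [h2]; omega
        · have := R.win (pt Q) (mem Q hQ) (pt v) (mem v hv) (pt P) (mem P hP) (fun h => h1 (inj h).symm)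
            (fun h => hPQ.ne (inj h).symm) (fun h => h2 (inj h)) (col_231 hC)
          omega
    set a := cl (pt Q)
    set b := cl (pt v)
    have e2 : (2 : ℝ) ^ a * (lam / 2 ^ (4 * b) * 2 ^ b) = (lam * 2 ^ a) / 2 ^ (3 * b) := by
      have : (2 : ℝ) ^ (4 * b) = 2 ^ (3 * b) * 2 ^ b := by rw [← pow_add]; congr 1; ring
      rw [this]; field_simp
    rw [e2, div_le_div_iff₀ (by positivity) (by positivity)]
    have h3 : (2 : ℝ) ^ a * 2 ^ b ≤ 2 ^ (3 * b) := by
      rw [← pow_add]; exact pow_le_pow_right₀ (by norm_num) (by omega)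
    have h4 : lam ≤ 1 := by unfold lam; norm_num
    have h5 := lam_pos
    have h6 : (0 : ℝ) < 2 ^ a * 2 ^ b := by positivity
    nlinarith
  notri := fun a b c ha hb hc hn r1 r2 r3 => by
    obtain ⟨e, he, h1, h2, h3⟩ := r1
    obtain ⟨f, hf, h4, h5, h6⟩ := r2
    obtain ⟨g, hg, h7, h8, h9⟩ := r3
    exact R.notri _ (mem a ha) _ (mem b hb) _ (mem c hc) _ (mem e he) _ (mem f hf) _ (mem g hg) hn
      (fun h => h1 (inj h)) (fun h => h2 (inj h)) h3 (fun h => h4 (inj h)) (fun h => h5 (inj h)) h6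
      (fun h => h7 (inj h)) (fun h => h8 (inj h)) h9
  noquad := fun a b c d ha hb hc hd n1 n2 n3 n4 r1 r2 r3 r4 => by
    obtain ⟨e, he, h1, h2, h3⟩ := r1
    obtain ⟨f, hf, h4, h5, h6⟩ := r2
    obtain ⟨g, hg, h7, h8, h9⟩ := r3
    obtain ⟨i, hi, h10, h11, h12⟩ := r4
    exact R.noquad _ (mem a ha) _ (mem b hb) _ (mem c hc) _ (mem d hd) _ (mem e he) _ (mem f hf) _ (mem g hg) _ (mem i hi)
      n1 n2 n3 n4
      (fun h => h1 (inj h)) (fun h => h2 (inj h)) h3 (fun h => h4 (inj h)) (fun h => h5 (inj h)) h6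
      (fun h => h7 (inj h)) (fun h => h8 (inj h)) h9 (fun h => h10 (inj h)) (fun h => h11 (inj h)) h12
  cls := clf k0 V.card pt
  cd := fun k => 2 ^ (1996 * k)
  cd_nonneg := fun k => by positivity
  deg := fun t k ht => deg_aux R inj mem mono ht (fun v hv => by
    have h1 := mem_filter_any hv
    exact ⟨mem_Ico.1 h1.1, h1.2.1, h1.2.2⟩)

end Pool.Agent.Helper64
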