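import Pool.Agent.Helper64.Fin1

set_option autoImplicit false

namespace Pool.Agent.Helper64

open Finset Res Filter
open scoped Classical

lemma exp_log2 (c : ℕ) : Real.exp (c * Real.log 2) = 2 ^ c := by
  rw [mul_comm, Real.exp_mul, Real.exp_log (by norm_num), Real.rpow_natCast]

lemma heavy_small2 : ∀ᶠ k : ℕ in atTop, 4 * nR k ^ 4 * Real.exp (-(2 ^ k / 256))
    ≤ 1 / (4 * ((k + 1) * (k + 2))) := by
  filter_upwards [lin_small (256 * 8006)] with k hk
  have hk0 : (0 : ℝ) ≤ k := by positivity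
  have e1 : (8002 * (k : ℝ) + 4) ≤ 2 ^ k / 256 := by
    rw [le_div_iff₀ (by norm_num)]
    nlinarith
  have e2 : nR k ^ 4 ≤ Real.exp (8000 * k) := by
    have h2 : (2 : ℝ) ≤ Real.exp 1 := by
      have := Real.add_one_le_exp (1 : ℝ); linarith
    have : nR k ^ 4 = (2 : ℝ) ^ (8000 * k) := by
      unfold nR; rw [← pow_mul]; congr 1; ring
    rw [this]
    calc (2 : ℝ) ^ (8000 * k) ≤ (Real.exp 1) ^ (8000 * k) := pow_le_pow_left₀ (by norm_num) h2 _
      _ = Real.exp (8000 * k) := by
        rw [← Real.exp_nat_mul]; push_cast; ring_nf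
  have e3 : 16 * (((k : ℝ) + 1) * (k + 2)) ≤ Real.exp (2 * k + 4) := by
    have a1 : (k : ℝ) + 1 ≤ Real.exp k := Real.add_one_le_exp _
    have a2 : (k : ℝ) + 2 ≤ Real.exp (k + 1) := by
      have := Real.add_one_le_exp ((k : ℝ) + 1); linarith
    have a3 : (16 : ℝ) ≤ Real.exp 3 := by
      have h := Real.exp_one_gt_d9
      have : Real.exp 3 = Real.exp 1 ^ 3 := by rw [← Real.exp_nat_mul]; norm_num
      rw [this]
      have : (2.7 : ℝ) ^ 3 ≤ Real.exp 1 ^ 3 := pow_le_pow_left₀ (by norm_num) (by linarith) 3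
      linarith
    calc 16 * (((k : ℝ) + 1) * (k + 2)) ≤ Real.exp 3 * (Real.exp k * Real.exp (k + 1)) := by
          gcongr
      _ = Real.exp (2 * k + 4) := by rw [← Real.exp_add, ← Real.exp_add]; congr 1; ring
  have hpos : (0 : ℝ) < 4 * ((k + 1) * (k + 2)) := by positivity
  rw [le_div_iff₀ hpos]
  calc 4 * nR k ^ 4 * Real.exp (-(2 ^ k / 256)) * (4 * ((k + 1) * (k + 2)))
      = (nR k ^ 4 * (16 * ((k + 1) * (k + 2)))) * Real.exp (-(2 ^ k / 256)) := by ring
    _ ≤ (Real.exp (8000 * k) * Real.exp (2 * k + 4)) * Real.exp (-(8002 * k + 4)) := by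
        apply mul_le_mul _ _ (Real.exp_pos _).le (by positivity)
        · apply mul_le_mul e2 e3 (by positivity) (Real.exp_pos _).le
        · apply Real.exp_le_exp.2; linarith
    _ = 1 := by
        rw [← Real.exp_add, ← Real.exp_add, ← Real.exp_zero]
        congr 1; ring

lemma exists_Good0 : ∃ k2 : ℕ, ∀ k0 ≥ k2, Good0 k0 := by
  have h1 : ∀ᶠ k : ℕ in atTop, 256 * ((k : ℝ) + 1) ≤ 2 ^ k := lin_small 256
  have h2 : ∀ᶠ k : ℕ in atTop, 8 * (3 / 4 : ℝ) ^ k ≤ 1 / (4 * (((k : ℝ) + 1) * (k + 2))) := by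
    have h1 : Tendsto (fun k : ℕ => (k : ℝ) ^ 2 * (3 / 4 : ℝ) ^ k) atTop (nhds 0) :=
      tendsto_pow_const_mul_const_pow_of_abs_lt_one 2 (by rw [abs_of_pos] <;> norm_num)
    have h2 : Tendsto (fun k : ℕ => ((k + 1 : ℕ) : ℝ) ^ 2 * (3 / 4 : ℝ) ^ (k + 1)) atTop (nhds 0) :=
      h1.comp (tendsto_add_atTop_nat 1)
    have h3 : Tendsto (fun k : ℕ => (256 / 3) * (((k + 1 : ℕ) : ℝ) ^ 2 * (3 / 4 : ℝ) ^ (k + 1))) atTop (nhds ((256 / 3) * 0)) :=
      h2.const_mul _
    rw [mul_zero] at h3
    have h4 := h3.eventually (gt_mem_nhds (show (0 : ℝ) < 1 by norm_num))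
    filter_upwards [h4] with k hk
    have hk0 : (0 : ℝ) ≤ k := by positivity
    rw [le_div_iff₀ (by positivity)]
    refine le_trans ?_ hk.le
    push_cast
    rw [pow_succ (3 / 4 : ℝ) k]
    have h5 : (k : ℝ) + 2 ≤ 2 * (k + 1) := by linarith
    calc 8 * (3 / 4 : ℝ) ^ k * (4 * (((k : ℝ) + 1) * (k + 2))) ≤ 8 * (3 / 4 : ℝ) ^ k * (4 * (((k : ℝ) + 1) * (2 * (k + 1)))) := by gcongr
      _ = _ := by ring
  have h3 : ∀ᶠ k : ℕ in atTop, (2 ^ 21 + 128) * (1 : ℝ) / 2 ^ k ≤ 1 / (4 * (((k : ℝ) + 1) * (k + 2))) := by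
    filter_upwards [poly_small (8 * (2 ^ 21 + 128)) 2] with k hk
    have hk0 : (0 : ℝ) ≤ k := by positivity
    rw [le_div_iff₀ (by positivity)]
    refine le_trans ?_ hk
    rw [div_mul_eq_mul_div]
    apply div_le_div_of_nonneg_right _ (by positivity)
    nlinarith
  obtain ⟨a, ha⟩ := eventually_atTop.1 (h1.and (h2.and (h3.and heavy_small2)))
  refine ⟨max a 1, ?_⟩
  intro k0 hk0
  have hk0' : a ≤ k0 := le_trans (le_max_left _ _) hk0
  exact ⟨le_trans (le_max_right _ _) hk0, fun k hk => (ha k (hk0'.trans hk)).1, fun k hk => (ha k (hk0'.trans hk)).2.1,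
    fun k hk => (ha k (hk0'.trans hk)).2.2.1, fun k hk => (ha k (hk0'.trans hk)).2.2.2⟩

section

variable {k0 N : ℕ} {V : Finset Pt} {pt : ℕ → Pt}

lemma sum_pt_le (inj : Function.Injective pt) (mem : ∀ i < V.card, pt i ∈ V) {s : Finset ℕ}
    (hs : ∀ i ∈ s, i < V.card) {g : Pt → ℝ} (hg : ∀ p, 0 ≤ g p) :
    ∑ i ∈ s, g (pt i) ≤ ∑ p ∈ V, g p := by
  rw [← sum_image (f := g) (g := pt) (by intro x _ y _ h; exact inj h)]
  apply sum_le_sum_of_subset_of_nonneg
  · intro p hp
    obtain ⟨i, hi, rfl⟩ := mem_image.1 hp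
    exact mem i (hs i hi)
  · intro p _ _; exact hg p

lemma filter_card (inj : Function.Injective pt) (mem : ∀ i < V.card, pt i ∈ V) (surj : ∀ p ∈ V, ∃ i < V.card, pt i = p)
    (k : ℕ) : ((range V.card).filter (fun v => clf k0 V.card pt v = k)).card = (vk k V).card := by
  apply card_bij (fun i _ => pt i)
  · intro i hi
    rw [mem_filter, mem_range] at hi
    unfold clf at hi
    rw [if_pos hi.1] at hi
    rw [vk, mem_filter]
    exact ⟨mem i hi.1, hi.2⟩
  · intro i _ j _ h; exact inj h
  · intro p hp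
    rw [vk, mem_filter] at hp
    obtain ⟨i, hi, rfl⟩ := surj p hp.1
    refine ⟨i, ?_, rfl⟩
    rw [mem_filter, mem_range]
    unfold clf
    rw [if_pos hi]
    exact ⟨hi, hp.2⟩

end

theorem stage (k0 N : ℕ) (hk : Good0 k0) (V : Finset Pt) (R : Resv k0 N V) :
    ∃ T : Finset Pt, (∀ a ∈ T, ∀ b ∈ T, ∀ c ∈ T, a ≠ b → a ≠ c → b ≠ c → ¬ col a b c) ∧
      ∀ k ∈ Finset.Icc k0 N, lam / 4 * nR k ≤ ((T.filter (fun p => p ∈ Bx k)).card : ℝ) := by
  have hVpos : ∀ p ∈ V, 0 < p.1 := by
    intro p hp
    have := (mem_Bx.1 (UU_Bx (R.sub hp))).1.1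
    have h2 := nn_pos (cl p)
    omega
  obtain ⟨pt, inj, mem, surj, mono⟩ := exists_enum V hVpos
  set D := mkSys k0 N hk V R pt inj mem mono with hD
  have hl := lam_pos
  have DM : D.M = V.card := rfl
  have Dcls : D.cls = clf k0 V.card pt := rfl
  have Dw0 : ∀ v, D.w0 v = lam / 2 ^ (4 * clf k0 V.card pt v) := fun v => rfl
  have DZm : ∀ v, Real.exp (D.Zm v) = 2 ^ (clf k0 V.card pt v) := fun v => exp_log2 _
  have Dpm : ∀ v, D.pm v = lam / 2 ^ (3 * clf k0 V.card pt v) := by
    intro v
    unfold Proc.Sys.pm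
    rw [Dw0, DZm]
    have : (2 : ℝ) ^ (4 * clf k0 V.card pt v) = 2 ^ (3 * clf k0 V.card pt v) * 2 ^ clf k0 V.card pt v := by
      rw [← pow_add]; congr 1; ring
    rw [this]; field_simp
  have Dw0' : ∀ v < V.card, D.w0 v = ww (pt v) := by
    intro v hv
    rw [Dw0]
    unfold ww clf
    rw [if_pos hv]
  have clmono : ∀ i j, i < j → j < V.card → cl (pt i) ≤ cl (pt j) := by
    intro i j hij hj
    exact cl_mono (UU_Bx (R.sub (mem i (hij.trans hj)))) (UU_Bx (R.sub (mem j hj))) (mono i j hij hj)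
  have clK : ∀ v < V.card, clf k0 V.card pt v ∈ Finset.Icc k0 N := by
    intro v hv
    unfold clf
    rw [if_pos hv]
    exact Finset.mem_Icc.2 (mem_UU.1 (R.sub (mem v hv))).1
  have hmass : ∀ k, D.mass0 k = ((vk k V).card : ℝ) * (lam / 2 ^ (4 * k)) := by
    intro k
    unfold Proc.Sys2.mass0
    have e1 : ∑ z ∈ (range D.M).filter (fun v => D.cls v = k), D.w0 z
        = ∑ z ∈ (range V.card).filter (fun v => clf k0 V.card pt v = k), lam / 2 ^ (4 * k) := by
      apply sum_congr rfl
      intro z hz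
      rw [mem_filter] at hz
      rw [Dw0]
      rw [show clf k0 V.card pt z = k from hz.2]
    rw [e1, sum_const, nsmul_eq_mul, filter_card inj mem surj]
  have hmass_ge : ∀ k ∈ Finset.Icc k0 N, lam / 2 * nR k ≤ D.mass0 k := by
    intro k hkk
    rw [hmass]
    have h1 := R.size k hkk
    have h2 : (0 : ℝ) < 2 ^ (4 * k) := by positivity
    calc lam / 2 * nR k = ((1 / 2) * (2 ^ (4 * k) * nR k)) * (lam / 2 ^ (4 * k)) := by field_simp
      _ ≤ _ := mul_le_mul_of_nonneg_right h1 (by positivity)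
  have hmass_pos : ∀ k ∈ Finset.Icc k0 N, 0 < D.mass0 k := by
    intro k hkk
    have := hmass_ge k hkk
    have h2 := nR_pos k
    have : 0 < lam / 2 * nR k := by positivity
    linarith
  -- the pair sums
  have hT0 : ∀ z < V.card, Real.exp (D.T0 z) ≤ (3 / 2) ^ (clf k0 V.card pt z) := by
    intro z hz
    have hcz : clf k0 V.card pt z = cl (pt z) := by unfold clf; rw [if_pos hz]
    have h1 := R.tsum (pt z) (mem z hz)
    have hfpos : ∀ x v : Pt, 0 ≤ (if x ≠ v ∧ x ≠ pt z ∧ v ≠ pt z ∧ cl x ≤ cl (pt z) ∧ cl v ≤ cl (pt z) ∧ col x v (pt z) then ww x * ww v else 0) := by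
      intro x v
      have := ww_pos x
      have := ww_pos v
      split_ifs <;> positivity
    have h2 : D.T0 z ≤ ∑ x ∈ V, ∑ v ∈ V,
        (if x ≠ v ∧ x ≠ pt z ∧ v ≠ pt z ∧ cl x ≤ cl (pt z) ∧ cl v ≤ cl (pt z) ∧ col x v (pt z) then ww x * ww v else 0) := by
      rw [sum_comm]
      unfold Proc.Sys2.T0
      calc _ ≤ ∑ v ∈ range z, ∑ x ∈ range z, (if pt x ≠ pt v ∧ pt x ≠ pt z ∧ pt v ≠ pt z ∧ cl (pt x) ≤ cl (pt z) ∧ cl (pt v) ≤ cl (pt z) ∧ col (pt x) (pt v) (pt z) then ww (pt x) * ww (pt v) else 0) := by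
            apply sum_le_sum
            intro v hv
            apply sum_le_sum
            intro x hx
            rw [mem_range] at hv hx
            by_cases h : x ≠ v ∧ D.C x v z
            · rw [if_pos h, if_pos, Dw0' x (hx.trans hz), Dw0' v (hv.trans hz)]
              refine ⟨fun e => h.1 (inj e), fun e => hx.ne (inj e), fun e => hv.ne (inj e), clmono x z hx hz, clmono v z hv hz, h.2⟩
            · rw [if_neg h]
              exact hfpos _ _
        _ ≤ ∑ v ∈ range z, ∑ x ∈ V, (if x ≠ pt v ∧ x ≠ pt z ∧ pt v ≠ pt z ∧ cl x ≤ cl (pt z) ∧ cl (pt v) ≤ cl (pt z) ∧ col x (pt v) (pt z) then ww x * ww (pt v) else 0) := by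
            apply sum_le_sum
            intro v _
            exact sum_pt_le inj mem (fun i hi => (mem_range.1 hi).trans hz) (fun p => hfpos p (pt v))
        _ ≤ _ := by
            exact sum_pt_le inj mem (fun i hi => (mem_range.1 hi).trans hz)
              (g := fun v => ∑ x ∈ V, (if x ≠ v ∧ x ≠ pt z ∧ v ≠ pt z ∧ cl x ≤ cl (pt z) ∧ cl v ≤ cl (pt z) ∧ col x v (pt z) then ww x * ww v else 0))
              (fun p => sum_nonneg (fun x _ => hfpos x p))
    rw [hcz]
    set c := cl (pt z) with hc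
    have hc1 : 1 ≤ c := by
      have := (Finset.mem_Icc.1 (clK z hz)).1
      rw [hcz] at this
      exact hk.one.trans this
    have hcR : (1 : ℝ) ≤ c := by exact_mod_cast hc1
    have h3 : D.T0 z ≤ c * (1 / 16) := by
      have h4 := LL_le2 c
      have h5 : 2 * (lam ^ 2 * tau c) = LL c / 2 ^ 16 := by
        unfold lam tau; ring
      rw [h5] at h1
      have : LL c / 2 ^ 16 ≤ c * (1 / 16) := by
        rw [div_le_iff₀ (by positivity)]
        nlinarith
      linarith
    have h6 : Real.exp (1 / 16) ≤ 3 / 2 := by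
      have := Real.abs_exp_sub_one_sub_id_le (x := 1 / 16) (by rw [abs_of_pos] <;> norm_num)
      rw [abs_le] at this
      norm_num at this ⊢
      linarith [this.2]
    calc Real.exp (D.T0 z) ≤ Real.exp (c * (1 / 16)) := Real.exp_le_exp.2 h3
      _ = Real.exp (1 / 16) ^ c := by rw [Real.exp_nat_mul]
      _ ≤ (3 / 2) ^ c := pow_le_pow_left₀ (Real.exp_pos _).le h6 c
  -- line mass
  have hline : ∀ e ∈ D.prs, ∑ v ∈ range D.M, (if D.C e.1 e.2 v then D.w0 v else 0) ≤ 1 / 256 := by
    intro e he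
    rw [Proc.Sys2.mem_prs] at he
    obtain ⟨h1, h2, c, hc, hcP, hcQ, hcol⟩ := he
    have h3 := R.mass (pt e.1) (mem _ (h1.trans h2)) (pt e.2) (mem _ h2) (pt c) (mem c hc)
      (fun h => h1.ne (inj h)) (fun h => hcP (inj h)) (fun h => hcQ (inj h)) hcol
    refine le_trans ?_ h3
    refine le_trans (le_of_eq ?_) (sum_pt_le inj mem (s := range V.card) (fun i hi => mem_range.1 hi)
      (g := fun v => if col (pt e.1) (pt e.2) v then ww v else 0) ?_)
    · apply sum_congr rfl
      intro v hv
      have hv' : v < V.card := mem_range.1 hv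
      by_cases h : D.C e.1 e.2 v
      · rw [if_pos h, if_pos (show col (pt e.1) (pt e.2) (pt v) from h), Dw0' v hv']
      · rw [if_neg h, if_neg (show ¬ col (pt e.1) (pt e.2) (pt v) from h)]
    · intro p
      have := ww_pos p
      split_ifs <;> positivity
  -- sums by class
  have fiber : ∀ g : ℕ → ℝ, ∑ z ∈ range V.card, g (clf k0 V.card pt z)
      = ∑ k ∈ Finset.Icc k0 N, ((vk k V).card : ℝ) * g k := by
    intro g
    rw [← sum_fiberwise_of_maps_to (s := range V.card) (t := Finset.Icc k0 N) (g := clf k0 V.card pt)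
      (fun z hz => clK z (mem_range.1 hz))]
    apply sum_congr rfl
    intro k _
    rw [← filter_card (k0 := k0) inj mem surj k, ← nsmul_eq_mul, ← sum_const]
    apply sum_congr rfl
    intro z hz
    rw [(mem_filter.1 hz).2]
  have main := Proc.Sys2.process D (Finset.Icc k0 N) hmass_pos ?_
  · obtain ⟨S, hS1, hS2, hS3⟩ := main
    refine ⟨S.image pt, ?_, ?_⟩
    · intro a ha b hb c hc hab hac hbc hcol
      obtain ⟨i, hi, rfl⟩ := mem_image.1 ha
      obtain ⟨j, hj, rfl⟩ := mem_image.1 hb
      obtain ⟨l, hl, rfl⟩ := mem_image.1 hc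
      exact hS2 i hi j hj l hl (fun h => hab (by rw [h])) (fun h => hac (by rw [h])) (fun h => hbc (by rw [h])) hcol
    · intro k hkk
      have h1 := hS3 k hkk
      have h2 := hmass_ge k hkk
      have h3 : ((S.filter (fun v => D.cls v = k)).card : ℝ) ≤ (((S.image pt).filter (fun p => p ∈ Bx k)).card : ℝ) := by
        have : (S.filter (fun v => D.cls v = k)).card ≤ ((S.image pt).filter (fun p => p ∈ Bx k)).card := by
          apply card_le_card_of_injOn pt
          · intro v hv
            have hv' := mem_filter.1 (mem_coe.1 hv)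
            have hvM : v < V.card := mem_range.1 (hS1 hv'.1)
            rw [mem_coe, mem_filter]
            refine ⟨mem_image_of_mem _ hv'.1, ?_⟩
            have h5 : clf k0 V.card pt v = k := hv'.2
            unfold clf at h5
            rw [if_pos hvM] at h5
            rw [← h5]
            exact UU_Bx (R.sub (mem v hvM))
          · intro x _ y _ h; exact inj h
        exact_mod_cast this
      calc lam / 4 * nR k = (lam / 2 * nR k) / 2 := by ring
        _ ≤ D.mass0 k / 2 := by linarith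
        _ ≤ _ := h1.trans h3
  · -- the initial potential
    have T1 : ∑ z ∈ range D.M, 8 / (Real.exp (D.Zm z) * D.mass0 (D.cls z)) * (D.w0 z * Real.exp (D.T0 z))
        ≤ ∑ k ∈ Finset.Icc k0 N, 8 * (3 / 4 : ℝ) ^ k := by
      calc _ ≤ ∑ z ∈ range V.card, (fun k => 8 / (2 ^ k * D.mass0 k) * (lam / 2 ^ (4 * k) * (3 / 2) ^ k)) (clf k0 V.card pt z) := by
            apply sum_le_sum
            intro z hz
            have hz' : z < V.card := mem_range.1 hz
            rw [DZm, Dw0, Dcls]
            have := hmass_pos _ (clK z hz')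
            simp only
            apply mul_le_mul_of_nonneg_left _ (by positivity)
            apply mul_le_mul_of_nonneg_left (hT0 z hz') (by positivity)
        _ = ∑ k ∈ Finset.Icc k0 N, ((vk k V).card : ℝ) * (8 / (2 ^ k * D.mass0 k) * (lam / 2 ^ (4 * k) * (3 / 2) ^ k)) :=
            fiber (fun k => 8 / (2 ^ k * D.mass0 k) * (lam / 2 ^ (4 * k) * (3 / 2) ^ k))
        _ = _ := by
            apply sum_congr rfl
            intro k hkk
            have h1 := hmass_pos k hkk
            have h2 := hmass k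
            have e : ((vk k V).card : ℝ) * (8 / (2 ^ k * D.mass0 k) * (lam / 2 ^ (4 * k) * (3 / 2) ^ k))
                = 8 / (2 ^ k * D.mass0 k) * (((vk k V).card : ℝ) * (lam / 2 ^ (4 * k))) * (3 / 2) ^ k := by ring
            rw [e, ← h2]
            have e2 : (3 / 4 : ℝ) ^ k = (3 / 2) ^ k / 2 ^ k := by
              rw [← div_pow]; norm_num
            rw [e2]
            field_simp
    have T2 : ∑ k ∈ Finset.Icc k0 N, 16 / (D.mass0 k) ^ 2 * (4 * D.mass0 k + 2 * D.cd k *
          ∑ z ∈ (range D.M).filter (fun v => D.cls v = k), D.w0 z * (2 * D.pm z))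
        ≤ ∑ k ∈ Finset.Icc k0 N, (2 ^ 21 + 128) * (1 : ℝ) / 2 ^ k := by
      apply sum_le_sum
      intro k hkk
      have h1 := hmass_pos k hkk
      have h2 := hmass_ge k hkk
      have hn := nR_pos k
      have e1 : ∑ z ∈ (range D.M).filter (fun v => D.cls v = k), D.w0 z * (2 * D.pm z)
          = D.mass0 k * (2 * (lam / 2 ^ (3 * k))) := by
        unfold Proc.Sys2.mass0
        rw [sum_mul]
        apply sum_congr rfl
        intro z hz
        rw [Dpm]
        rw [show clf k0 V.card pt z = k from (mem_filter.1 hz).2]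
      have e2 : D.cd k = 2 ^ (1996 * k) := rfl
      rw [e1, e2]
      have e3 : 16 / (D.mass0 k) ^ 2 * (4 * D.mass0 k + 2 * 2 ^ (1996 * k) * (D.mass0 k * (2 * (lam / 2 ^ (3 * k)))))
          = (64 * (1 + 2 ^ (1996 * k) * (lam / 2 ^ (3 * k)))) / D.mass0 k := by
        field_simp
        ring
      rw [e3]
      have e4 : (64 * (1 + 2 ^ (1996 * k) * (lam / 2 ^ (3 * k)))) / D.mass0 k
          ≤ (64 * (1 + 2 ^ (1996 * k) * (lam / 2 ^ (3 * k)))) / (lam / 2 * nR k) := by
        apply div_le_div_of_nonneg_left (by positivity) (by positivity) h2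
      refine e4.trans ?_
      have e5 : (2 : ℝ) ^ (1996 * k) = 2 ^ (1993 * k) * 2 ^ (3 * k) := by rw [← pow_add]; congr 1; ring
      have e6 : (64 * (1 + 2 ^ (1996 * k) * (lam / 2 ^ (3 * k)))) / (lam / 2 * nR k)
          = 2 ^ 21 / nR k + 128 * (2 ^ (1993 * k) / nR k) := by
        rw [e5]
        unfold lam
        field_simp
        ring
      rw [e6]
      have hp : (0 : ℝ) < 2 ^ k := by positivity
      have e7 : 2 ^ 21 / nR k ≤ 2 ^ 21 / (2 : ℝ) ^ k := by
        apply div_le_div_of_nonneg_left (by positivity) hp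
        unfold nR
        exact pow_le_pow_right₀ (by norm_num) (by omega)
      have e8 : (2 : ℝ) ^ (1993 * k) / nR k ≤ 1 / 2 ^ k := by
        rw [div_le_div_iff₀ hn hp, one_mul]
        unfold nR
        rw [← pow_add]
        exact pow_le_pow_right₀ (by norm_num) (by omega)
      have e9 : (2 ^ 21 + 128) * (1 : ℝ) / 2 ^ k = 2 ^ 21 / (2 : ℝ) ^ k + 128 * (1 / 2 ^ k) := by ring
      rw [e9]
      linarith
    have T3 : ∑ e ∈ D.prs, Real.exp (D.s e.2 * (∑ v ∈ range D.M, (if D.C e.1 e.2 v then D.w0 v else 0) - 1 / 128))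
        ≤ ∑ k ∈ Finset.Icc k0 N, 4 * nR k ^ 4 * Real.exp (-(2 ^ k / 256)) := by
      have Ds : ∀ v, D.s v = 2 ^ (clf k0 V.card pt v) := fun v => rfl
      calc _ ≤ ∑ e ∈ D.prs, Real.exp (-(2 ^ (clf k0 V.card pt e.2) / 256)) := by
            apply sum_le_sum
            intro e he
            apply Real.exp_le_exp.2
            have h1 := hline e he
            rw [Ds]
            have h2 : (0 : ℝ) < 2 ^ (clf k0 V.card pt e.2) := by positivity
            nlinarith
        _ ≤ ∑ e ∈ (range V.card).sigma (fun Q => range Q), Real.exp (-(2 ^ (clf k0 V.card pt e.1) / 256)) := by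
            -- compare through the map (P,Q) to (Q,P)
            have : ∑ e ∈ D.prs, Real.exp (-(2 ^ (clf k0 V.card pt e.2) / 256))
                = ∑ e ∈ D.prs.image (fun e => (⟨e.2, e.1⟩ : Σ _ : ℕ, ℕ)), Real.exp (-(2 ^ (clf k0 V.card pt e.1) / 256)) := by
              rw [sum_image]
              intro x _ y _ h
              simp only [Sigma.mk.injEq, heq_eq_eq] at h
              ext
              · exact h.2
              · exact h.1
            rw [this]
            apply sum_le_sum_of_subset_of_nonneg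
            · intro e he
              obtain ⟨p, hp, rfl⟩ := mem_image.1 he
              rw [Proc.Sys2.mem_prs] at hp
              rw [mem_sigma, mem_range, mem_range]
              exact ⟨hp.2.1, hp.1⟩
            · intro e _ _; exact (Real.exp_pos _).le
        _ = ∑ Q ∈ range V.card, (Q : ℝ) * Real.exp (-(2 ^ (clf k0 V.card pt Q) / 256)) := by
            rw [sum_sigma]
            apply sum_congr rfl
            intro Q _
            simp only [sum_const, card_range, nsmul_eq_mul]
        _ ≤ ∑ Q ∈ range V.card, (fun k => 4 * (nR k * nR k) * Real.exp (-(2 ^ k / 256))) (clf k0 V.card pt Q) := by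
            apply sum_le_sum
            intro Q hQ
            have hQ' : Q < V.card := mem_range.1 hQ
            simp only
            apply mul_le_mul_of_nonneg_right _ (Real.exp_pos _).le
            have hcQ : clf k0 V.card pt Q = cl (pt Q) := by unfold clf; rw [if_pos hQ']
            rw [hcQ]
            refine le_trans ?_ (card_UB (cl (pt Q)))
            have : (range Q).card ≤ (UB (cl (pt Q))).card := by
              apply card_le_card_of_injOn pt
              · intro P hP
                have hP' : P < Q := mem_range.1 (mem_coe.1 hP)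
                exact mem_coe.2 (UU_UB (R.sub (mem P (hP'.trans hQ'))) (clmono P Q hP' hQ'))
              · intro x _ y _ h; exact inj h
            rw [card_range] at this
            exact_mod_cast this
        _ = ∑ k ∈ Finset.Icc k0 N, ((vk k V).card : ℝ) * (4 * (nR k * nR k) * Real.exp (-(2 ^ k / 256))) :=
            fiber (fun k => 4 * (nR k * nR k) * Real.exp (-(2 ^ k / 256)))
        _ ≤ _ := by
            apply sum_le_sum
            intro k _
            have h1 : (((vk k V).card : ℕ) : ℝ) ≤ nR k * nR k := by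
              have : vk k V ⊆ Bx k := by
                intro p hp
                rw [vk, mem_filter] at hp
                rw [← hp.2]
                exact UU_Bx (R.sub hp.1)
              have := card_le_card this
              rw [card_Bx] at this
              rw [← nn_cast]
              exact_mod_cast this
            have hn := nR_pos k
            have he := Real.exp_pos (-((2 : ℝ) ^ k / 256))
            calc ((vk k V).card : ℝ) * (4 * (nR k * nR k) * Real.exp (-(2 ^ k / 256)))
                ≤ (nR k * nR k) * (4 * (nR k * nR k) * Real.exp (-(2 ^ k / 256))) :=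
                  mul_le_mul_of_nonneg_right h1 (by positivity)
              _ = _ := by ring
    have hsum : ∑ k ∈ Finset.Icc k0 N, 8 * (3 / 4 : ℝ) ^ k + ∑ k ∈ Finset.Icc k0 N, (2 ^ 21 + 128) * (1 : ℝ) / 2 ^ k
        + ∑ k ∈ Finset.Icc k0 N, 4 * nR k ^ 4 * Real.exp (-(2 ^ k / 256)) ≤ 3 / 4 := by
      rw [← sum_add_distrib, ← sum_add_distrib]
      calc _ ≤ ∑ k ∈ Finset.Icc k0 N, (3 / 4) * ((1 : ℝ) / (((k : ℝ) + 1) * (k + 2))) := by
            apply sum_le_sum
            intro k hkk
            have hkk' := (Finset.mem_Icc.1 hkk).1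
            have a1 := hk.t1 k hkk'
            have a2 := hk.t2 k hkk'
            have a3 := hk.t3 k hkk'
            have e : (3 / 4) * ((1 : ℝ) / (((k : ℝ) + 1) * (k + 2))) = 1 / (4 * (((k : ℝ) + 1) * (k + 2)))
              + 1 / (4 * (((k : ℝ) + 1) * (k + 2))) + 1 / (4 * (((k : ℝ) + 1) * (k + 2))) := by
              have : (0 : ℝ) ≤ k := by positivity
              field_simp
              norm_num
            rw [e]
            linarith
        _ = (3 / 4) * ∑ k ∈ Finset.Icc k0 N, ((1 : ℝ) / (((k : ℝ) + 1) * (k + 2))) := by rw [mul_sum]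
        _ ≤ (3 / 4) * (1 / (k0 + 1)) := mul_le_mul_of_nonneg_left (tele k0 N) (by norm_num)
        _ ≤ (3 / 4) * 1 := by
            apply mul_le_mul_of_nonneg_left _ (by norm_num)
            rw [div_le_one (by positivity)]
            have : (0 : ℝ) ≤ k0 := by positivity
            linarith
        _ = 3 / 4 := by norm_num
    linarith

end Pool.Agent.Helper64
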