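import Pool.Agent.Helper64.Fin2

set_option autoImplicit false

namespace Pool.Agent.Helper64

open Finset Res Filter
open scoped Classical

/-- an infinite set with no three collinear points and linear growth -/
theorem infinite_set : ∃ (A : Set Pt) (k0 : ℕ),
    (∀ a ∈ A, ∀ b ∈ A, ∀ c ∈ A, a ≠ b → a ≠ c → b ≠ c → ¬ col a b c) ∧
    (∀ p ∈ A, 1 ≤ p.1 ∧ 1 ≤ p.2) ∧
    ∀ k ≥ k0, ∃ T : Finset Pt, (T : Set Pt) ⊆ A ∧ T ⊆ Bx k ∧ lam / 4 * nR k ≤ (T.card : ℝ) := by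
  obtain ⟨k1, _, h1⟩ := exists_Resv
  obtain ⟨k2, h2⟩ := exists_Good0
  set k0 := max k1 k2 with hk0
  have hstage : ∀ N, ∃ T : Finset Pt, (∀ a ∈ T, ∀ b ∈ T, ∀ c ∈ T, a ≠ b → a ≠ c → b ≠ c → ¬ col a b c) ∧
      ∀ k ∈ Finset.Icc k0 N, lam / 4 * nR k ≤ ((T.filter (fun p => p ∈ Bx k)).card : ℝ) := by
    intro N
    obtain ⟨V, R⟩ := h1 k0 (le_max_left _ _) N
    exact stage k0 N (h2 k0 (le_max_right _ _)) V R
  choose T hT1 hT2 using hstage
  set F := Filter.hyperfilter ℕ with hF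
  have hFtop : ∀ k, ∀ᶠ N in (F : Filter ℕ), k ≤ N := fun k =>
    (eventually_ge_atTop k).filter_mono Nat.hyperfilter_le_atTop
  set A : Set Pt := {p | (1 ≤ p.1 ∧ 1 ≤ p.2) ∧ ∀ᶠ N in (F : Filter ℕ), p ∈ T N} with hA
  refine ⟨A, k0, ?_, fun p hp => hp.1, ?_⟩
  · intro a ha b hb c hc hab hac hbc hcol
    have := (ha.2.and (hb.2.and hc.2)).exists
    obtain ⟨N, h3, h4, h5⟩ := this
    exact hT1 N a h3 b h4 c h5 hab hac hbc hcol
  · intro k hk
    have hall : ∀ᶠ N in (F : Filter ℕ), ∀ p ∈ Bx k, (p ∈ T N ↔ ∀ᶠ M in (F : Filter ℕ), p ∈ T M) := by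
      rw [eventually_all_finset]
      intro p _
      by_cases h : ∀ᶠ M in (F : Filter ℕ), p ∈ T M
      · filter_upwards [h] with N hN
        exact ⟨fun _ => h, fun _ => hN⟩
      · have h' := Ultrafilter.eventually_not.2 h
        filter_upwards [h'] with N hN
        exact ⟨fun h3 => absurd h3 hN, fun h3 => absurd h3 h⟩
    obtain ⟨N, hN1, hN2⟩ := (hall.and (hFtop k)).exists
    refine ⟨(T N).filter (fun p => p ∈ Bx k), ?_, ?_, hT2 N k (Finset.mem_Icc.2 ⟨hk, hN2⟩)⟩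
    · intro p hp
      have hp' := mem_filter.1 (mem_coe.1 hp)
      refine ⟨?_, (hN1 p hp'.2).1 hp'.1⟩
      have h3 := mem_Bx.1 hp'.2
      have h4 := nn_pos k
      constructor
      · omega
      · exact h3.2.1
    · intro p hp
      exact (mem_filter.1 hp).2

/-- scale selection -/
lemma exists_scale {m k0 : ℕ} (hm : nn k0 ≤ m) : ∃ k ≥ k0, nn k ≤ m ∧ m < nn (k + 1) := by
  have h1 : ∃ j, m < nn (j + 1) := by
    refine ⟨m, ?_⟩
    unfold nn
    calc m < 2 ^ m := Nat.lt_two_pow_self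
      _ ≤ _ := Nat.pow_le_pow_right (by norm_num) (by omega)
  classical
  set k := Nat.find h1 with hk
  have hk1 : m < nn (k + 1) := Nat.find_spec h1
  have hk2 : nn k ≤ m := by
    by_cases h0 : k = 0
    · rw [h0]
      exact (nn_mono (Nat.zero_le k0)).trans hm
    · have := Nat.find_min h1 (m := k - 1) (by omega)
      push Not at this
      have e : k - 1 + 1 = k := by omega
      rwa [e] at this
  refine ⟨k, ?_, hk2, hk1⟩
  by_contra hcon
  have : nn (k + 1) ≤ nn k0 := nn_mono (by omega)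
  omega

/-- linear growth in the square `[1,n]^2` -/
theorem linear_growth : ∃ (A : Set Pt) (c : ℝ) (n0 : ℕ), 0 < c ∧
    (∀ a ∈ A, ∀ b ∈ A, ∀ c ∈ A, a ≠ b → a ≠ c → b ≠ c → ¬ col a b c) ∧
    (∀ p ∈ A, 1 ≤ p.1 ∧ 1 ≤ p.2) ∧
    ∀ n ≥ n0, ∃ T : Finset Pt, (T : Set Pt) ⊆ A ∧ (∀ p ∈ T, p.1 < n ∧ p.2 < n) ∧ c * n ≤ (T.card : ℝ) := by
  obtain ⟨A, k0, h1, h2, h3⟩ := infinite_set
  have hl := lam_pos
  refine ⟨A, lam / (8 * 2 ^ 2000), 2 * nn k0 + 1, by positivity, h1, h2, ?_⟩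
  intro n hn
  obtain ⟨k, hk0, hk1, hk2⟩ := exists_scale (m := (n - 1) / 2) (k0 := k0) (by omega)
  obtain ⟨T, hT1, hT2, hT3⟩ := h3 k hk0
  refine ⟨T, hT1, ?_, ?_⟩
  · intro p hp
    have h4 := mem_Bx.1 (hT2 hp)
    omega
  · refine le_trans ?_ hT3
    have h5 : n ≤ 2 * nn (k + 1) := by omega
    have h6 : (n : ℝ) ≤ 2 * nR (k + 1) := by
      rw [← nn_cast]; exact_mod_cast h5
    have h7 : nR (k + 1) = 2 ^ 2000 * nR k := by
      unfold nR; rw [← pow_add]; congr 1; ring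
    rw [h7] at h6
    have hb : (0 : ℝ) < 2 ^ 2000 := by positivity
    generalize (2 : ℝ) ^ 2000 = b at *
    calc lam / (8 * b) * n ≤ lam / (8 * b) * (2 * (b * nR k)) := mul_le_mul_of_nonneg_left h6 (by positivity)
      _ = lam / 4 * nR k := by field_simp; ring

end Pool.Agent.Helper64
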