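import Pool.Agent.Helper64.Gow9

set_option autoImplicit false

namespace Pool.Agent.Helper64.Gow

open Finset
open scoped Classical

/-- shear -/
def sh (t : ℝ) (p : Pt) : Pt := (p.1 + t * p.2, p.2)

lemma sh_inj (t : ℝ) : Function.Injective (sh t) := by
  intro p q h
  unfold sh at h
  simp only [Prod.mk.injEq] at h
  obtain ⟨h1, h2⟩ := h
  apply Prod.ext _ h2
  rw [h2] at h1
  linarith

lemma sh_col (t : ℝ) (a b c : Pt) : col (sh t a) (sh t b) (sh t c) ↔ col a b c := by
  unfold sh col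
  simp only
  constructor
  · intro h; linarith
  · intro h; linarith

lemma exists_sh (P : Finset Pt) : ∃ t : ℝ, XI (P.image (sh t)) := by
  set bad : Finset ℝ := P.offDiag.image (fun q => -(q.1.1 - q.2.1) / (q.1.2 - q.2.2)) with hbad
  obtain ⟨t, ht⟩ := Infinite.exists_notMem_finset bad
  refine ⟨t, ?_⟩
  intro p hp q hq hpq
  rw [mem_image] at hp hq
  obtain ⟨a, ha, rfl⟩ := hp
  obtain ⟨b, hb, rfl⟩ := hq
  by_contra hne
  have hab : a ≠ b := fun h => hne (by rw [h])
  have h1 : a.1 + t * a.2 = b.1 + t * b.2 := hpq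
  apply ht
  rw [hbad, mem_image]
  refine ⟨(a, b), mem_offDiag.2 ⟨ha, hb, hab⟩, ?_⟩
  have h2 : a.2 - b.2 ≠ 0 := by
    intro h
    apply hab
    have e : a.2 = b.2 := by linarith
    apply Prod.ext _ e
    rw [e] at h1
    linarith
  simp only
  rw [div_eq_iff h2]
  linarith

/-- **Main theorem in coordinates.** -/
theorem main_coord : ∃ N0 : ℕ, ∀ P : Finset Pt, N0 ≤ P.card →
    (∀ a ∈ P, ∀ b ∈ P, a ≠ b → (P.filter (fun c => col a b c)).card ^ 2 ≤ P.card) →
    ∃ S ⊆ P, (∀ a ∈ S, ∀ b ∈ S, ∀ c ∈ S, a ≠ b → a ≠ c → b ≠ c → ¬ col a b c) ∧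
      (P.card : ℝ) ≤ (2 ^ 15 * (S.card : ℝ)) ^ 2 := by
  obtain ⟨nu0, hnu0⟩ := Filter.eventually_atTop.1 cnd_eventually
  set m := max nu0 1 with hm
  obtain ⟨N0, hN0⟩ := exists_nat_ge (m ^ 1000)
  refine ⟨N0, ?_⟩
  intro P hP hline
  set nu : ℝ := (P.card : ℝ) ^ ((1 : ℝ) / 1000) with hnu
  have hPm : m ^ 1000 ≤ (P.card : ℝ) := hN0.trans (by exact_mod_cast hP)
  have hm1 : (1 : ℝ) ≤ m := le_max_right _ _
  have hpow : nu ^ 1000 = (P.card : ℝ) := by
    rw [hnu, ← Real.rpow_natCast, ← Real.rpow_mul (Nat.cast_nonneg _)]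
    norm_num
  have hnu_ge : nu0 ≤ nu := by
    have h1 : m ^ 1000 ≤ nu ^ 1000 := by rw [hpow]; exact hPm
    have h2 : m ≤ nu := le_of_pow_le_pow_left₀ (by norm_num) (by positivity) h1
    exact (le_max_left _ _).trans h2
  have hc := hnu0 nu hnu_ge
  obtain ⟨t, ht⟩ := exists_sh P
  have hcard : (P.image (sh t)).card = P.card := card_image_of_injective _ (sh_inj t)
  obtain ⟨S, hS1, hS2, hS3⟩ := big_case ht (by
    intro L hL
    obtain ⟨a', ha', b', hb', hab', hl⟩ := mem_lines.1 hL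
    have hne := ht.ne ha' hb' hab'
    rw [mem_image] at ha' hb'
    obtain ⟨a, ha, rfl⟩ := ha'
    obtain ⟨b, hb, rfl⟩ := hb'
    have hab : a ≠ b := fun h => hab' (by rw [h])
    rw [hcard]
    refine le_trans ?_ (hline a ha b hb hab)
    apply Nat.pow_le_pow_left
    have h1 : pl (P.image (sh t)) L ⊆ (P.filter (fun c => col a b c)).image (sh t) := by
      intro q hq
      unfold pl at hq
      rw [mem_filter, mem_image] at hq
      obtain ⟨⟨c, hc', rfl⟩, hon⟩ := hq
      rw [← hl, ← col_on hne, sh_col] at hon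
      exact mem_image_of_mem _ (mem_filter.2 ⟨hc', hon⟩)
    refine (card_le_card h1).trans card_image_le) hc (by rw [hcard]; exact hpow)
  refine ⟨P.filter (fun p => sh t p ∈ S), filter_subset _ _, ?_, ?_⟩
  · intro a ha b hb c hc' hab hac hbc hcol
    rw [mem_filter] at ha hb hc'
    exact hS2 _ ha.2 _ hb.2 _ hc'.2 (fun h => hab (sh_inj t h)) (fun h => hac (sh_inj t h))
      (fun h => hbc (sh_inj t h)) ((sh_col t a b c).2 hcol)
  · have h1 : S ⊆ (P.filter (fun p => sh t p ∈ S)).image (sh t) := by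
      intro q hq
      have := hS1 hq
      rw [mem_image] at this
      obtain ⟨c, hc', rfl⟩ := this
      exact mem_image_of_mem _ (mem_filter.2 ⟨hc', hq⟩)
    have h2 : (S.card : ℝ) ≤ ((P.filter (fun p => sh t p ∈ S)).card : ℝ) := by
      have := (card_le_card h1).trans card_image_le
      exact_mod_cast this
    have h3 : nu ^ 500 ≤ 2 ^ 15 * ((P.filter (fun p => sh t p ∈ S)).card : ℝ) := by
      rw [div_le_iff₀ (by norm_num)] at hS3
      linarith
    have hnn : 0 ≤ nu := by rw [hnu]; positivity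
    have h4 : (P.card : ℝ) = (nu ^ 500) ^ 2 := by
      rw [← pow_mul]
      exact hpow.symm
    calc (P.card : ℝ) = (nu ^ 500) ^ 2 := h4
      _ ≤ _ := pow_le_pow_left₀ (pow_nonneg hnn 500) h3 2

abbrev Pl := EuclideanSpace ℝ (Fin 2)

def cd (v : Pl) : Pt := (v 0, v 1)

lemma cd_inj : Function.Injective cd := by
  intro v w h
  unfold cd at h
  simp only [Prod.mk.injEq] at h
  ext i
  fin_cases i
  · exact h.1
  · exact h.2

lemma collinear_of_col {a b : Pl} (hab : a ≠ b) {s : Set Pl} (ha : a ∈ s) (hs : ∀ c ∈ s, col (cd a) (cd b) (cd c)) :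
    Collinear ℝ s := by
  rw [collinear_iff_of_mem ha]
  refine ⟨b - a, ?_⟩
  intro c hc
  have h := hs c hc
  unfold col cd at h
  simp only at h
  by_cases hx : b 0 - a 0 = 0
  · have hy : b 1 - a 1 ≠ 0 := by
      intro hy
      apply hab
      ext i
      fin_cases i
      · simp only [Fin.zero_eta]; linarith
      · simp only [Fin.mk_one]; linarith
    rw [hx, zero_mul] at h
    have h0 : c 0 - a 0 = 0 := by
      rcases mul_eq_zero.1 h.symm with h1 | h1
      · exact absurd h1 hy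
      · exact h1
    refine ⟨(c 1 - a 1) / (b 1 - a 1), ?_⟩
    ext i
    fin_cases i
    · simp only [Fin.zero_eta, vadd_eq_add, PiLp.add_apply, PiLp.smul_apply, PiLp.sub_apply, smul_eq_mul]
      rw [hx]; linarith
    · simp only [Fin.mk_one, vadd_eq_add, PiLp.add_apply, PiLp.smul_apply, PiLp.sub_apply, smul_eq_mul]
      field_simp
      ring
  · refine ⟨(c 0 - a 0) / (b 0 - a 0), ?_⟩
    ext i
    fin_cases i
    · simp only [Fin.zero_eta, vadd_eq_add, PiLp.add_apply, PiLp.smul_apply, PiLp.sub_apply, smul_eq_mul]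
      field_simp
      ring
    · simp only [Fin.mk_one, vadd_eq_add, PiLp.add_apply, PiLp.smul_apply, PiLp.sub_apply, smul_eq_mul]
      field_simp
      linarith

lemma col_of_collinear {a b c : Pl} (h : Collinear ℝ ({a, b, c} : Set Pl)) : col (cd a) (cd b) (cd c) := by
  rw [collinear_iff_of_mem (p₀ := a) (by simp)] at h
  obtain ⟨v, hv⟩ := h
  obtain ⟨r, hr⟩ := hv b (by simp)
  obtain ⟨s, hs⟩ := hv c (by simp)
  unfold col cd
  simp only
  have e1 : b 0 = r * v 0 + a 0 := by rw [hr]; simp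
  have e2 : b 1 = r * v 1 + a 1 := by rw [hr]; simp
  have e3 : c 0 = s * v 0 + a 0 := by rw [hs]; simp
  have e4 : c 1 = s * v 1 + a 1 := by rw [hs]; simp
  rw [e1, e2, e3, e4]
  ring

end Pool.Agent.Helper64.Gow
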