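import Mathlib

set_option autoImplicit false

namespace Pool.Agent.Helper64.Res

open Finset
open scoped Classical

variable {α : Type*}

/-- probability of the subset `V` -/
noncomputable def PP (U : Finset α) (ρ : α → ℝ) (V : Finset α) : ℝ :=
  (∏ x ∈ V, ρ x) * ∏ x ∈ U \ V, (1 - ρ x)

/-- expectation -/
noncomputable def EE (U : Finset α) (ρ : α → ℝ) (f : Finset α → ℝ) : ℝ :=
  ∑ V ∈ U.powerset, PP U ρ V * f V

lemma PP_nonneg {U : Finset α} {ρ : α → ℝ} (h0 : ∀ x ∈ U, 0 ≤ ρ x) (h1 : ∀ x ∈ U, ρ x ≤ 1)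
    {V : Finset α} (hV : V ⊆ U) : 0 ≤ PP U ρ V := by
  unfold PP
  apply mul_nonneg
  · exact prod_nonneg (fun x hx => h0 x (hV hx))
  · apply prod_nonneg
    intro x hx
    have := h1 x (mem_sdiff.1 hx).1
    linarith

lemma EE_prod (U : Finset α) (ρ : α → ℝ) (g1 g0 : α → ℝ) :
    EE U ρ (fun V => (∏ x ∈ V, g1 x) * ∏ x ∈ U \ V, g0 x) = ∏ x ∈ U, (ρ x * g1 x + (1 - ρ x) * g0 x) := by
  rw [Finset.prod_add]
  unfold EE PP
  apply sum_congr rfl
  intro V _
  rw [prod_mul_distrib, prod_mul_distrib]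
  ring

lemma EE_prod1 (U : Finset α) (ρ : α → ℝ) (g1 : α → ℝ) :
    EE U ρ (fun V => ∏ x ∈ V, g1 x) = ∏ x ∈ U, (ρ x * g1 x + (1 - ρ x)) := by
  have := EE_prod U ρ g1 (fun _ => 1)
  simpa using this

lemma EE_one (U : Finset α) (ρ : α → ℝ) : EE U ρ (fun _ => 1) = 1 := by
  have := EE_prod1 U ρ (fun _ => 1)
  simpa using this

/-- indicator of containing `A` -/
noncomputable def ind (A V : Finset α) : ℝ := if A ⊆ V then 1 else 0

lemma ind_nonneg (A V : Finset α) : 0 ≤ ind A V := by unfold ind; split_ifs <;> norm_num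
lemma ind_le_one (A V : Finset α) : ind A V ≤ 1 := by unfold ind; split_ifs <;> norm_num

lemma EE_ind {U : Finset α} {ρ : α → ℝ} {A : Finset α} (hA : A ⊆ U) :
    EE U ρ (ind A) = ∏ x ∈ A, ρ x := by
  have h := EE_prod U ρ (fun _ => 1) (fun x => if x ∈ A then 0 else 1)
  have e1 : EE U ρ (fun V => (∏ x ∈ V, (1 : ℝ)) * ∏ x ∈ U \ V, (if x ∈ A then (0 : ℝ) else 1)) = EE U ρ (ind A) := by
    unfold EE
    apply sum_congr rfl
    intro V _
    congr 1
    simp only [prod_const_one, one_mul]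
    unfold ind
    split_ifs with hAV
    · apply prod_eq_one
      intro x hx
      rw [if_neg]
      intro hxA
      exact (mem_sdiff.1 hx).2 (hAV hxA)
    · rw [not_subset] at hAV
      obtain ⟨x, hxA, hxV⟩ := hAV
      apply prod_eq_zero (mem_sdiff.2 ⟨hA hxA, hxV⟩)
      rw [if_pos hxA]
  rw [← e1, h]
  rw [← prod_subset hA (f := fun x => (ρ x * 1 + (1 - ρ x) * (if x ∈ A then 0 else 1)))]
  · apply prod_congr rfl
    intro x hx
    rw [if_pos hx]; ring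
  · intro x _ hx
    rw [if_neg hx]; ring

lemma EE_add (U : Finset α) (ρ : α → ℝ) (f g : Finset α → ℝ) :
    EE U ρ (fun V => f V + g V) = EE U ρ f + EE U ρ g := by
  unfold EE
  rw [← sum_add_distrib]
  apply sum_congr rfl
  intros; ring

lemma EE_mul (U : Finset α) (ρ : α → ℝ) (c : ℝ) (f : Finset α → ℝ) :
    EE U ρ (fun V => c * f V) = c * EE U ρ f := by
  unfold EE
  rw [mul_sum]
  apply sum_congr rfl
  intros; ring

lemma EE_sum {ι : Type*} (U : Finset α) (ρ : α → ℝ) (I : Finset ι) (f : ι → Finset α → ℝ) :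
    EE U ρ (fun V => ∑ i ∈ I, f i V) = ∑ i ∈ I, EE U ρ (f i) := by
  unfold EE
  rw [sum_comm]
  apply sum_congr rfl
  intro V _
  rw [mul_sum]

lemma EE_const (U : Finset α) (ρ : α → ℝ) (c : ℝ) : EE U ρ (fun _ => c) = c := by
  have := EE_mul U ρ c (fun _ => 1)
  simp only [mul_one, EE_one] at this
  exact this

lemma EE_mono {U : Finset α} {ρ : α → ℝ} (h0 : ∀ x ∈ U, 0 ≤ ρ x) (h1 : ∀ x ∈ U, ρ x ≤ 1)
    {f g : Finset α → ℝ} (h : ∀ V ⊆ U, f V ≤ g V) : EE U ρ f ≤ EE U ρ g := by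
  unfold EE
  apply sum_le_sum
  intro V hV
  rw [mem_powerset] at hV
  exact mul_le_mul_of_nonneg_left (h V hV) (PP_nonneg h0 h1 hV)

lemma EE_congr {U : Finset α} {ρ : α → ℝ}
    {f g : Finset α → ℝ} (h : ∀ V ⊆ U, f V = g V) : EE U ρ f = EE U ρ g := by
  unfold EE
  apply sum_congr rfl
  intro V hV
  rw [mem_powerset] at hV
  rw [h V hV]

/-- existence of a good outcome -/
lemma exists_lt {U : Finset α} {ρ : α → ℝ} (h0 : ∀ x ∈ U, 0 ≤ ρ x) (h1 : ∀ x ∈ U, ρ x ≤ 1)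
    {f : Finset α → ℝ} {c : ℝ} (h : EE U ρ f < c) : ∃ V ⊆ U, f V < c := by
  by_contra hcon
  push Not at hcon
  have := EE_mono h0 h1 (f := fun _ => c) (g := f) hcon
  rw [EE_const] at this
  linarith

/-- second moment of a weighted count -/
lemma EE_count_sq {U : Finset α} {ρ : α → ℝ} {A : Finset α} (hA : A ⊆ U) :
    EE U ρ (fun V => (∑ x ∈ A, ind {x} V - ∑ x ∈ A, ρ x) ^ 2) ≤ ∑ x ∈ A, ρ x := by
  set μ := ∑ x ∈ A, ρ x with hμ
  have e1 : EE U ρ (fun V => (∑ x ∈ A, ind {x} V - μ) ^ 2)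
      = EE U ρ (fun V => ∑ x ∈ A, ∑ y ∈ A, ind {x, y} V + ((-2 * μ) * (∑ x ∈ A, ind {x} V) + μ ^ 2)) := by
    apply EE_congr
    intro V _
    have : (∑ x ∈ A, ind {x} V) ^ 2 = ∑ x ∈ A, ∑ y ∈ A, ind {x, y} V := by
      rw [sq, sum_mul_sum]
      apply sum_congr rfl
      intro x _
      apply sum_congr rfl
      intro y _
      unfold ind
      by_cases hx : x ∈ V <;> by_cases hy : y ∈ V <;> simp [hx, hy, insert_subset_iff]
    rw [← this]
    ring
  rw [e1, EE_add, EE_add, EE_mul, EE_const, EE_sum, EE_sum]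
  have e2 : ∑ x ∈ A, EE U ρ (ind {x}) = μ := by
    rw [hμ]
    apply sum_congr rfl
    intro x hx
    rw [EE_ind (singleton_subset_iff.2 (hA hx)), prod_singleton]
  have e3 : ∑ x ∈ A, EE U ρ (fun V => ∑ y ∈ A, ind {x, y} V) ≤ ∑ x ∈ A, (ρ x * μ + ρ x) := by
    apply sum_le_sum
    intro x hx
    rw [EE_sum]
    have : ∀ y ∈ A, EE U ρ (ind {x, y}) ≤ ρ x * ρ y + if y = x then ρ x else 0 := by
      intro y hy
      rw [EE_ind (insert_subset_iff.2 ⟨hA hx, singleton_subset_iff.2 (hA hy)⟩)]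
      by_cases hxy : x = y
      · subst hxy
        simp only [pair_eq_singleton, prod_singleton, if_true]
        nlinarith [sq_nonneg (ρ x)]
      · rw [prod_pair hxy, if_neg (fun h => hxy h.symm), add_zero]
    calc ∑ y ∈ A, EE U ρ (ind {x, y}) ≤ ∑ y ∈ A, (ρ x * ρ y + if y = x then ρ x else 0) := sum_le_sum this
      _ = ρ x * μ + ρ x := by
        rw [sum_add_distrib, ← mul_sum, sum_ite_eq', if_pos hx]
  rw [e2]
  have e4 : ∑ x ∈ A, (ρ x * μ + ρ x) = μ ^ 2 + μ := by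
    rw [sum_add_distrib, ← sum_mul]; ring
  rw [e4] at e3
  nlinarith

end Pool.Agent.Helper64.Res
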