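import Pool.Agent.Helper64.Gow1
import Pool.Agent.Helper64.Res1

set_option autoImplicit false

namespace Pool.Agent.Helper64.Gow

open Finset Res
open scoped Classical

/-- planar data without the crossing condition -/
structure PG0 (V : Finset Pt) (E : Finset Ed) : Prop where
  xinj : ∀ p ∈ V, ∀ q ∈ V, p.1 = q.1 → p = q
  e1 : ∀ e ∈ E, e.1 ∈ V
  e2 : ∀ e ∈ E, e.2 ∈ V
  lt : ∀ e ∈ E, e.1.1 < e.2.1
  nv : ∀ e ∈ E, ∀ w ∈ V, e.1.1 < w.1 → w.1 < e.2.1 → w.2 ≠ fe e w.1

def crs (e e' : Ed) : Prop :=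
  e ≠ e' ∧ ∃ x, e.1.1 < x ∧ x < e.2.1 ∧ e'.1.1 < x ∧ x < e'.2.1 ∧ fe e x = fe e' x

noncomputable def XX (E : Finset Ed) : Finset (Ed × Ed) := (E ×ˢ E).filter (fun q => crs q.1 q.2)

noncomputable def e2s (e : Ed) : Finset Pt := {e.1, e.2}
noncomputable def x4s (q : Ed × Ed) : Finset Pt := {q.1.1, q.1.2, q.2.1, q.2.2}

variable {V : Finset Pt} {E : Finset Ed}

lemma PG0.sub (h : PG0 V E) {R : Finset Pt} (hR : R ⊆ V) :
    (E.filter (fun e => e2s e ⊆ R)).card ≤ 3 * R.card + ((XX E).filter (fun q => x4s q ⊆ R)).card := by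
  set ER := E.filter (fun e => e2s e ⊆ R) with hER
  set XR := (XX E).filter (fun q => x4s q ⊆ R) with hXR
  have hmemE : ∀ e ∈ ER, e ∈ E ∧ e.1 ∈ R ∧ e.2 ∈ R := by
    intro e he
    rw [hER, mem_filter] at he
    unfold e2s at he
    exact ⟨he.1, he.2 (by simp), he.2 (by simp)⟩
  have hpg : PG R (ER \ XR.image Prod.fst) := by
    refine ⟨?_, ?_, ?_, ?_, ?_, ?_⟩
    · intro p hp q hq
      exact h.xinj p (hR hp) q (hR hq)
    · intro e he
      exact (hmemE e (mem_sdiff.1 he).1).2.1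
    · intro e he
      exact (hmemE e (mem_sdiff.1 he).1).2.2
    · intro e he
      exact h.lt e (hmemE e (mem_sdiff.1 he).1).1
    · intro e he w hw
      exact h.nv e (hmemE e (mem_sdiff.1 he).1).1 w (hR hw)
    · intro e he e' he' hne x h1 h2 h3 h4 h5
      rw [mem_sdiff] at he he'
      obtain ⟨a1, a2, a3⟩ := hmemE e he.1
      obtain ⟨b1, b2, b3⟩ := hmemE e' he'.1
      apply he.2
      rw [mem_image]
      refine ⟨(e, e'), ?_, rfl⟩
      rw [hXR, mem_filter]
      unfold XX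
      rw [mem_filter, mem_product]
      refine ⟨⟨⟨a1, b1⟩, hne, x, h1, h2, h3, h4, h5⟩, ?_⟩
      unfold x4s
      intro p hp
      simp only [mem_insert, mem_singleton] at hp
      rcases hp with rfl | rfl | rfl | rfl <;> assumption
  have h1 := hpg.card_le
  have h2 : ER.card ≤ (ER \ XR.image Prod.fst).card + (XR.image Prod.fst).card := by
    have := card_le_card_sdiff_add_card (s := ER) (t := XR.image Prod.fst)
    omega
  have h3 : (XR.image Prod.fst).card ≤ XR.card := card_image_le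
  omega

lemma PG0.x4 (h : PG0 V E) {q : Ed × Ed} (hq : q ∈ XX E) : (x4s q).card = 4 ∧ x4s q ⊆ V := by
  unfold XX at hq
  rw [mem_filter, mem_product] at hq
  obtain ⟨⟨he, he'⟩, hne, x, h1, h2, h3, h4, h5⟩ := hq
  obtain ⟨e, e'⟩ := q
  simp only at *
  have l1 := h.lt e he
  have l2 := h.lt e' he'
  have n1 : e.1 ≠ e.2 := fun h => by rw [h] at l1; exact lt_irrefl _ l1
  have n2 : e'.1 ≠ e'.2 := fun h => by rw [h] at l2; exact lt_irrefl _ l2
  have n3 : e.1 ≠ e'.2 := fun h => by rw [h] at h1; linarith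
  have n4 : e.2 ≠ e'.1 := fun h => by rw [h] at h2; linarith
  have n5 : e.1 ≠ e'.1 := by
    intro h6
    have hs : sl e = sl e' := by
      have a1 := fe_sub e x e.1.1
      have a2 := fe_sub e' x e'.1.1
      rw [fe_left] at a1 a2
      rw [h6] at a1
      have : (sl e - sl e') * (x - e'.1.1) = 0 := by linarith
      rcases mul_eq_zero.1 this with h7 | h7
      · linarith
      · linarith
    have hf : ∀ y, fe e y = fe e' y := by
      intro y
      unfold fe
      rw [hs, h6]
    rcases lt_trichotomy e.2.1 e'.2.1 with h7 | h7 | h7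
    · apply h.nv e' he' e.2 (h.e2 e he) (by rw [← h6]; exact l1) h7
      rw [← hf, fe_right l1]
    · apply hne
      exact Prod.ext h6 (h.xinj _ (h.e2 e he) _ (h.e2 e' he') h7)
    · apply h.nv e he e'.2 (h.e2 e' he') (by rw [h6]; exact l2) h7
      rw [hf, fe_right l2]
  have n6 : e.2 ≠ e'.2 := by
    intro h6
    have hs : sl e = sl e' := by
      have a1 := fe_sub e x e.2.1
      have a2 := fe_sub e' x e'.2.1
      rw [fe_right l1] at a1
      rw [fe_right l2] at a2
      rw [h6] at a1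
      have : (sl e - sl e') * (x - e'.2.1) = 0 := by linarith
      rcases mul_eq_zero.1 this with h7 | h7
      · linarith
      · linarith
    have hf : ∀ y, fe e y = fe e' y := by
      intro y
      rw [fe_sub e y e.2.1, fe_sub e' y e'.2.1, fe_right l1, fe_right l2, hs, h6]
    rcases lt_trichotomy e.1.1 e'.1.1 with h7 | h7 | h7
    · apply h.nv e he e'.1 (h.e1 e' he') h7 (by rw [h6]; exact l2)
      rw [hf, fe_left]
    · apply hne
      exact Prod.ext (h.xinj _ (h.e1 e he) _ (h.e1 e' he') h7) h6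
    · apply h.nv e' he' e.1 (h.e1 e he) h7 (by rw [← h6]; exact l1)
      rw [← hf, fe_left]
  constructor
  · unfold x4s
    rw [card_insert_of_notMem, card_insert_of_notMem, card_insert_of_notMem, card_singleton]
    · simpa using n2
    · simp only [mem_insert, mem_singleton, not_or]
      exact ⟨n4, n6⟩
    · simp only [mem_insert, mem_singleton, not_or]
      exact ⟨n1, n5, n3⟩
  · unfold x4s
    intro p hp
    simp only [mem_insert, mem_singleton] at hp
    rcases hp with rfl | rfl | rfl | rfl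
    · exact h.e1 e he
    · exact h.e2 e he
    · exact h.e1 e' he'
    · exact h.e2 e' he'

lemma PG0.e2c (h : PG0 V E) {e : Ed} (he : e ∈ E) : (e2s e).card = 2 ∧ e2s e ⊆ V := by
  have l1 := h.lt e he
  have n1 : e.1 ≠ e.2 := fun h => by rw [h] at l1; exact lt_irrefl _ l1
  unfold e2s
  refine ⟨card_pair n1, ?_⟩
  intro p hp
  simp only [mem_insert, mem_singleton] at hp
  rcases hp with rfl | rfl
  · exact h.e1 e he
  · exact h.e2 e he

lemma card_filter_ind {ι : Type*} (S : Finset ι) (f : ι → Finset Pt) (R : Finset Pt) :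
    ((S.filter (fun i => f i ⊆ R)).card : ℝ) = ∑ i ∈ S, ind (f i) R := by
  have : ∀ i ∈ S, ind (f i) R = if f i ⊆ R then (1 : ℝ) else 0 := by
    intro i _
    unfold ind
    by_cases h : f i ⊆ R
    · rw [if_pos h, if_pos h]
    · rw [if_neg h, if_neg h]
  rw [sum_congr rfl this, sum_boole]

lemma cardR_eq {R : Finset Pt} (hR : R ⊆ V) : (R.card : ℝ) = ∑ x ∈ V, ind {x} R := by
  rw [← card_filter_ind]
  congr 1
  congr 1
  ext x
  rw [mem_filter, singleton_subset_iff]
  exact ⟨fun h => ⟨hR h, h⟩, fun h => h.2⟩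

lemma EE_ind_const {q : ℝ} {A : Finset Pt} {k : ℕ} (hA : A ⊆ V) (hk : A.card = k) :
    EE V (fun _ => q) (ind A) = q ^ k := by
  rw [EE_ind hA, prod_const, hk]

theorem PG0.cross (h : PG0 V E) {q : ℝ} (h0 : 0 ≤ q) (h1 : q ≤ 1) :
    q ^ 2 * E.card ≤ 3 * (q * V.card) + q ^ 4 * (XX E).card := by
  have key : EE V (fun _ => q) (fun R => ∑ e ∈ E, ind (e2s e) R)
      ≤ EE V (fun _ => q) (fun R => 3 * ∑ x ∈ V, ind {x} R + ∑ c ∈ XX E, ind (x4s c) R) := by
    apply EE_mono (fun _ _ => h0) (fun _ _ => h1)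
    intro R hR
    rw [← card_filter_ind, ← cardR_eq hR, ← card_filter_ind]
    have := h.sub hR
    exact_mod_cast this
  rw [EE_sum, EE_add, EE_mul, EE_sum, EE_sum] at key
  have k1 : ∑ e ∈ E, EE V (fun _ => q) (ind (e2s e)) = q ^ 2 * E.card := by
    rw [sum_congr rfl (fun e he => EE_ind_const (h.e2c he).2 (h.e2c he).1), sum_const, nsmul_eq_mul, mul_comm]
  have k2 : ∑ x ∈ V, EE V (fun _ => q) (ind {x}) = q * V.card := by
    rw [sum_congr rfl (fun x hx => EE_ind_const (singleton_subset_iff.2 hx) (card_singleton x)), sum_const,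
      nsmul_eq_mul, pow_one, mul_comm]
  have k3 : ∑ c ∈ XX E, EE V (fun _ => q) (ind (x4s c)) = q ^ 4 * (XX E).card := by
    rw [sum_congr rfl (fun c hc => EE_ind_const (h.x4 hc).2 (h.x4 hc).1), sum_const, nsmul_eq_mul, mul_comm]
  rw [k1, k2, k3] at key
  exact key

end Pool.Agent.Helper64.Gow
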