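import Pool.Agent.Helper64.Gow2

set_option autoImplicit false

namespace Pool.Agent.Helper64.Gow

open Finset Res
open scoped Classical

def on (L p : Pt) : Prop := p.2 = L.1 * p.1 + L.2

noncomputable def ln (e : Ed) : Pt := (sl e, e.1.2 - sl e * e.1.1)

lemma ln_fe (e : Ed) (x : ℝ) : fe e x = (ln e).1 * x + (ln e).2 := by
  unfold fe ln; ring

lemma on_fe (e : Ed) (p : Pt) : on (ln e) p ↔ p.2 = fe e p.1 := by
  rw [ln_fe]; rfl

lemma on_left (e : Ed) : on (ln e) e.1 := by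
  rw [on_fe, fe_left]

lemma on_right {e : Ed} (h : e.1.1 < e.2.1) : on (ln e) e.2 := by
  rw [on_fe, fe_right h]

/-- a line through two points with distinct abscissae is their line -/
lemma ln_of_on {L : Pt} {e : Ed} (h : e.1.1 < e.2.1) (h1 : on L e.1) (h2 : on L e.2) : ln e = L := by
  unfold on at h1 h2
  have hne : e.2.1 - e.1.1 ≠ 0 := by linarith
  have hs : sl e = L.1 := by
    unfold sl
    rw [div_eq_iff hne, h1, h2]
    ring
  apply Prod.ext
  · exact hs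
  · unfold ln
    simp only
    rw [hs, h1]
    ring

/-- consecutive pairs on lines of `Ls` -/
noncomputable def cons (V : Finset Pt) (Ls : Finset Pt) : Finset Ed :=
  (V ×ˢ V).filter (fun e => e.1.1 < e.2.1 ∧ ln e ∈ Ls ∧ ∀ w ∈ V, on (ln e) w → e.1.1 < w.1 → e.2.1 ≤ w.1)

variable {V Ls : Finset Pt}

lemma mem_cons {e : Ed} : e ∈ cons V Ls ↔ (e.1 ∈ V ∧ e.2 ∈ V) ∧ e.1.1 < e.2.1 ∧ ln e ∈ Ls ∧
    ∀ w ∈ V, on (ln e) w → e.1.1 < w.1 → e.2.1 ≤ w.1 := by
  unfold cons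
  rw [mem_filter, mem_product]

lemma cons_pg (hx : ∀ p ∈ V, ∀ q ∈ V, p.1 = q.1 → p = q) : PG0 V (cons V Ls) := by
  refine ⟨hx, fun e he => (mem_cons.1 he).1.1, fun e he => (mem_cons.1 he).1.2,
    fun e he => (mem_cons.1 he).2.1, ?_⟩
  intro e he w hw h1 h2 h3
  have := (mem_cons.1 he).2.2.2 w hw ((on_fe e w).2 h3) h1
  linarith

lemma cons_same (hx : ∀ p ∈ V, ∀ q ∈ V, p.1 = q.1 → p = q) {e g : Ed} (he : e ∈ cons V Ls) (hg : g ∈ cons V Ls)
    (hl : ln e = ln g) {x : ℝ} (h1 : e.1.1 < x) (h2 : x < e.2.1) (h3 : g.1.1 < x) (h4 : x < g.2.1) : e = g := by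
  obtain ⟨⟨a1, a2⟩, a3, a4, a5⟩ := mem_cons.1 he
  obtain ⟨⟨b1, b2⟩, b3, b4, b5⟩ := mem_cons.1 hg
  have e1 : e.1 = g.1 := by
    apply hx _ a1 _ b1
    rcases lt_trichotomy e.1.1 g.1.1 with h | h | h
    · have := a5 g.1 b1 (by rw [hl]; exact on_left g) h
      linarith
    · exact h
    · have := b5 e.1 a1 (by rw [← hl]; exact on_left e) h
      linarith
  have e2 : e.2 = g.2 := by
    apply hx _ a2 _ b2
    apply le_antisymm
    · exact a5 g.2 b2 (by rw [hl]; exact on_right b3) (by rw [e1]; exact b3)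
    · exact b5 e.2 a2 (by rw [← hl]; exact on_right a3) (by rw [← e1]; exact a3)
  exact Prod.ext e1 e2

lemma cons_cross (hx : ∀ p ∈ V, ∀ q ∈ V, p.1 = q.1 → p = q) : (XX (cons V Ls)).card ≤ Ls.card ^ 2 := by
  rw [sq, ← card_product]
  apply card_le_card_of_injOn (fun q => (ln q.1, ln q.2))
  · intro q hq
    rw [mem_coe] at hq
    unfold XX at hq
    rw [mem_filter, mem_product] at hq
    rw [mem_coe, mem_product]
    exact ⟨(mem_cons.1 hq.1.1).2.2.1, (mem_cons.1 hq.1.2).2.2.1⟩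
  · intro q hq r hr hqr
    rw [mem_coe] at hq hr
    unfold XX at hq hr
    rw [mem_filter, mem_product] at hq hr
    obtain ⟨⟨q1, q2⟩, qne, x, x1, x2, x3, x4, x5⟩ := hq
    obtain ⟨⟨r1, r2⟩, rne, y, y1, y2, y3, y4, y5⟩ := hr
    simp only [Prod.mk.injEq] at hqr
    obtain ⟨l1, l2⟩ := hqr
    have hl : ln q.1 ≠ ln q.2 := by
      intro h
      exact qne (cons_same hx q1 q2 h x1 x2 x3 x4)
    have hxy : x = y := by
      rw [ln_fe, ln_fe] at x5 y5
      rw [← l1, ← l2] at y5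
      have h0 : ((ln q.1).1 - (ln q.2).1) * (x - y) = 0 := by linarith
      rcases mul_eq_zero.1 h0 with h1 | h1
      · exfalso
        apply hl
        have h2 : (ln q.1).1 = (ln q.2).1 := by linarith
        apply Prod.ext h2
        rw [h2] at x5
        linarith
      · linarith
    rw [← hxy] at y1 y2 y3 y4
    exact Prod.ext (cons_same hx q1 r1 l1 x1 x2 y1 y2) (cons_same hx q2 r2 l2 x3 x4 y3 y4)

lemma cons_fiber (hx : ∀ p ∈ V, ∀ q ∈ V, p.1 = q.1 → p = q) {L : Pt} (hL : L ∈ Ls) :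
    (V.filter (fun p => on L p)).card ≤ ((cons V Ls).filter (fun e => ln e = L)).card + 1 := by
  set S := V.filter (fun p => on L p) with hS
  rcases S.eq_empty_or_nonempty with h0 | h0
  · rw [h0]; simp
  obtain ⟨m, hm, hmax⟩ := exists_max_image S (fun p => p.1) h0
  have hsub : S.erase m ⊆ ((cons V Ls).filter (fun e => ln e = L)).image Prod.fst := by
    intro u hu
    rw [mem_erase] at hu
    obtain ⟨hum, huS⟩ := hu
    have huV := (mem_filter.1 huS).1
    have hmV := (mem_filter.1 hm).1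
    have hlt : u.1 < m.1 := by
      rcases (hmax u huS).lt_or_eq with h | h
      · exact h
      · exact absurd (hx u huV m hmV h) hum
    obtain ⟨v, hv, hvmin⟩ := exists_min_image (S.filter (fun p => u.1 < p.1)) (fun p => p.1)
      ⟨m, mem_filter.2 ⟨hm, hlt⟩⟩
    rw [mem_filter] at hv
    obtain ⟨hvS, huv⟩ := hv
    have hvV := (mem_filter.1 hvS).1
    have hln : ln (u, v) = L := ln_of_on huv (mem_filter.1 huS).2 (mem_filter.1 hvS).2
    rw [mem_image]
    refine ⟨(u, v), ?_, rfl⟩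
    rw [mem_filter, mem_cons]
    refine ⟨⟨⟨huV, hvV⟩, huv, by rw [hln]; exact hL, ?_⟩, hln⟩
    intro w hw hon hlt2
    rw [hln] at hon
    exact hvmin w (mem_filter.2 ⟨mem_filter.2 ⟨hw, hon⟩, hlt2⟩)
  have h1 := card_le_card hsub
  have h2 : (((cons V Ls).filter (fun e => ln e = L)).image Prod.fst).card ≤ _ := card_image_le
  rw [card_erase_of_mem hm] at h1
  have h3 : 0 < S.card := card_pos.2 h0
  omega

lemma cons_card (hx : ∀ p ∈ V, ∀ q ∈ V, p.1 = q.1 → p = q) {k : ℕ}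
    (h : ∀ L ∈ Ls, k + 1 ≤ (V.filter (fun p => on L p)).card) : k * Ls.card ≤ (cons V Ls).card := by
  have h1 : (cons V Ls).card = ∑ L ∈ Ls, ((cons V Ls).filter (fun e => ln e = L)).card :=
    card_eq_sum_card_fiberwise (fun e he => (mem_cons.1 (mem_coe.1 he)).2.2.1)
  rw [h1, mul_comm, ← smul_eq_mul, ← sum_const]
  apply sum_le_sum
  intro L hL
  have := h L hL
  have := cons_fiber hx hL
  omega

/-- Szemerédi-Trotter for rich lines -/
theorem ST (hx : ∀ p ∈ V, ∀ q ∈ V, p.1 = q.1 → p = q) {k : ℕ} (hk : k ^ 2 ≤ 12 * V.card)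
    (h : ∀ L ∈ Ls, k + 1 ≤ (V.filter (fun p => on L p)).card) : k ^ 3 * Ls.card ≤ 72 * V.card ^ 2 := by
  rcases Nat.eq_zero_or_pos Ls.card with ht | ht
  · rw [ht]; simp
  have hE := cons_card hx h
  have hX := cons_cross (Ls := Ls) hx
  have hpg := cons_pg (Ls := Ls) hx
  set e := (cons V Ls).card with he
  set n := V.card with hn
  set t := Ls.card with ht'
  rcases lt_or_ge e (6 * n) with h1 | h1
  · have h2 : k * t ≤ 6 * n := by omega
    calc k ^ 3 * t = k ^ 2 * (k * t) := by ring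
      _ ≤ (12 * n) * (6 * n) := Nat.mul_le_mul hk h2
      _ = 72 * n ^ 2 := by ring
  · rcases Nat.eq_zero_or_pos n with hn0 | hn0
    · have : k ^ 2 ≤ 0 := by rw [hn0] at hk; simpa using hk
      have : k = 0 := by
        rcases Nat.eq_zero_or_pos k with h | h
        · exact h
        · have := Nat.pow_pos (n := 2) h
          omega
      rw [this]; simp
    have hepos : 0 < e := by omega
    have heR : (0 : ℝ) < e := by exact_mod_cast hepos
    have hnR : (0 : ℝ) < n := by exact_mod_cast hn0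
    have htR : (0 : ℝ) < t := by exact_mod_cast ht
    have h1R : 6 * (n : ℝ) ≤ e := by exact_mod_cast h1
    have hc := hpg.cross (q := 6 * n / e) (by positivity) (by rw [div_le_one heR]; exact h1R)
    rw [← he, ← hn] at hc
    have hXR : ((XX (cons V Ls)).card : ℝ) ≤ t ^ 2 := by exact_mod_cast hX
    have hc2 : (6 * n / e : ℝ) ^ 2 * e ≤ 3 * (6 * n / e * n) + (6 * n / e) ^ 4 * t ^ 2 := by
      refine hc.trans ?_
      have : (6 * n / e : ℝ) ^ 4 * ((XX (cons V Ls)).card : ℝ) ≤ (6 * n / e) ^ 4 * t ^ 2 :=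
        mul_le_mul_of_nonneg_left hXR (by positivity)
      linarith
    have e1 : (6 * n / e : ℝ) ^ 2 * e = 36 * n ^ 2 / e := by field_simp; ring
    have e2 : 3 * (6 * n / e * n : ℝ) = 18 * n ^ 2 / e := by field_simp; ring
    have e3 : (6 * n / e : ℝ) ^ 4 * t ^ 2 = 1296 * n ^ 4 * t ^ 2 / e ^ 4 := by field_simp; ring
    rw [e1, e2, e3] at hc2
    have h3 : 18 * (n : ℝ) ^ 2 / e ≤ 1296 * n ^ 4 * t ^ 2 / e ^ 4 := by
      have : 36 * (n : ℝ) ^ 2 / e = 18 * n ^ 2 / e + 18 * n ^ 2 / e := by ring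
      linarith
    rw [div_le_div_iff₀ heR (by positivity)] at h3
    have h4 : (e : ℝ) ^ 3 ≤ 72 * n ^ 2 * t ^ 2 := by
      have h5 : (18 * (n : ℝ) ^ 2 * (e : ℝ)) * (e : ℝ) ^ 3 ≤ (18 * (n : ℝ) ^ 2 * (e : ℝ)) * (72 * (n : ℝ) ^ 2 * (t : ℝ) ^ 2) := by
        have a1 : (18 * (n : ℝ) ^ 2 * (e : ℝ)) * (e : ℝ) ^ 3 = 18 * (n : ℝ) ^ 2 * (e : ℝ) ^ 4 := by ring
        have a2 : (18 * (n : ℝ) ^ 2 * (e : ℝ)) * (72 * (n : ℝ) ^ 2 * (t : ℝ) ^ 2) = 1296 * (n : ℝ) ^ 4 * (t : ℝ) ^ 2 * (e : ℝ) := by ring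
        rw [a1, a2]
        exact h3
      exact le_of_mul_le_mul_left h5 (by positivity)
    have h6 : ((k : ℝ) * t) ^ 3 ≤ 72 * n ^ 2 * t ^ 2 := by
      refine le_trans ?_ h4
      apply pow_le_pow_left₀ (by positivity)
      exact_mod_cast hE
    have h7 : (k : ℝ) ^ 3 * t ≤ 72 * n ^ 2 := by
      have h8 : (t : ℝ) ^ 2 * ((k : ℝ) ^ 3 * (t : ℝ)) ≤ (t : ℝ) ^ 2 * (72 * (n : ℝ) ^ 2) := by
        have a1 : (t : ℝ) ^ 2 * ((k : ℝ) ^ 3 * (t : ℝ)) = ((k : ℝ) * (t : ℝ)) ^ 3 := by ring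
        have a2 : (t : ℝ) ^ 2 * (72 * (n : ℝ) ^ 2) = 72 * (n : ℝ) ^ 2 * (t : ℝ) ^ 2 := by ring
        rw [a1, a2]
        exact h6
      exact le_of_mul_le_mul_left h8 (by positivity)
    exact_mod_cast h7

end Pool.Agent.Helper64.Gow
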