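import Pool.Agent.Helper64.Gow3

set_option autoImplicit false

namespace Pool.Agent.Helper64.Gow

open Finset Res
open scoped Classical

def col (a b c : Pt) : Prop := (b.1 - a.1) * (c.2 - a.2) = (b.2 - a.2) * (c.1 - a.1)

lemma col_on {a b c : Pt} (h : a.1 ≠ b.1) : col a b c ↔ on (ln (a, b)) c := by
  rw [on_fe]
  unfold col fe sl
  simp only
  have hne : b.1 - a.1 ≠ 0 := sub_ne_zero.2 (Ne.symm h)
  constructor
  · intro h1
    have : c.2 - a.2 = (b.2 - a.2) / (b.1 - a.1) * (c.1 - a.1) := by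
      field_simp
      rw [← h1]; ring
    linarith
  · intro h1
    have : c.2 - a.2 = (b.2 - a.2) / (b.1 - a.1) * (c.1 - a.1) := by linarith
    rw [this]
    field_simp

lemma ln_of_on' {L a b : Pt} (h : a.1 ≠ b.1) (h1 : on L a) (h2 : on L b) : ln (a, b) = L := by
  unfold on at h1 h2
  have hne : b.1 - a.1 ≠ 0 := sub_ne_zero.2 (Ne.symm h)
  have hs : sl (a, b) = L.1 := by
    unfold sl
    simp only
    rw [div_eq_iff hne, h1, h2]
    ring
  apply Prod.ext
  · exact hs
  · unfold ln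
    simp only
    rw [hs, h1]
    ring

lemma on_l (a b : Pt) : on (ln (a, b)) a := on_left (a, b)

lemma on_r {a b : Pt} (h : a.1 ≠ b.1) : on (ln (a, b)) b := by
  rw [on_fe]
  unfold fe sl
  simp only
  have hne : b.1 - a.1 ≠ 0 := sub_ne_zero.2 (Ne.symm h)
  field_simp
  ring

lemma ln_comm {a b : Pt} (h : a.1 ≠ b.1) : ln (b, a) = ln (a, b) :=
  ln_of_on' (Ne.symm h) (on_r h) (on_l a b)

variable {V : Finset Pt}

/-- abscissae are distinct -/
def XI (V : Finset Pt) : Prop := ∀ p ∈ V, ∀ q ∈ V, p.1 = q.1 → p = q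

lemma XI.ne (h : XI V) {a b : Pt} (ha : a ∈ V) (hb : b ∈ V) (hab : a ≠ b) : a.1 ≠ b.1 :=
  fun h1 => hab (h a ha b hb h1)

/-- points on a line -/
noncomputable def pl (V : Finset Pt) (L : Pt) : Finset Pt := V.filter (fun p => on L p)

noncomputable def lines (V : Finset Pt) : Finset Pt := V.offDiag.image ln

lemma mem_lines {L : Pt} : L ∈ lines V ↔ ∃ a ∈ V, ∃ b ∈ V, a ≠ b ∧ ln (a, b) = L := by
  unfold lines
  rw [mem_image]
  constructor
  · rintro ⟨⟨a, b⟩, h1, h2⟩
    rw [mem_offDiag] at h1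
    exact ⟨a, h1.1, b, h1.2.1, h1.2.2, h2⟩
  · rintro ⟨a, ha, b, hb, hab, h⟩
    exact ⟨(a, b), mem_offDiag.2 ⟨ha, hb, hab⟩, h⟩

lemma two_le_pl (hx : XI V) {L : Pt} (hL : L ∈ lines V) : 2 ≤ (pl V L).card := by
  obtain ⟨a, ha, b, hb, hab, rfl⟩ := mem_lines.1 hL
  have : ({a, b} : Finset Pt) ⊆ pl V (ln (a, b)) := by
    intro p hp
    simp only [mem_insert, mem_singleton] at hp
    unfold pl
    rw [mem_filter]
    rcases hp with rfl | rfl
    · exact ⟨ha, on_l _ _⟩
    · exact ⟨hb, on_r (hx.ne ha hb hab)⟩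
  have h2 := card_le_card this
  rwa [card_pair hab] at h2

/-- number of third points -/
noncomputable def ll (V : Finset Pt) (a b : Pt) : ℕ :=
  (V.filter (fun c => a ≠ b ∧ c ≠ a ∧ c ≠ b ∧ col a b c)).card

noncomputable def deg (V : Finset Pt) (a : Pt) : ℕ := ∑ b ∈ V, ll V a b

noncomputable def Tr (V : Finset Pt) : ℕ := ∑ a ∈ V, deg V a

noncomputable def trs (V : Finset Pt) : Finset (Pt × Pt × Pt) :=
  (V ×ˢ V ×ˢ V).filter (fun q => q.1 ≠ q.2.1 ∧ q.2.2 ≠ q.1 ∧ q.2.2 ≠ q.2.1 ∧ col q.1 q.2.1 q.2.2)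

lemma Tr_eq (V : Finset Pt) : Tr V = (trs V).card := by
  unfold Tr deg ll trs
  simp only [card_filter, sum_product]

lemma ll_comm (V : Finset Pt) (a b : Pt) : ll V a b = ll V b a := by
  unfold ll
  congr 1
  apply filter_congr
  intro c _
  constructor
  · rintro ⟨h1, h2, h3, h4⟩
    refine ⟨h1.symm, h3, h2, ?_⟩
    unfold col at *
    linarith
  · rintro ⟨h1, h2, h3, h4⟩
    refine ⟨h1.symm, h3, h2, ?_⟩
    unfold col at *
    linarith

lemma ll_mono {V W : Finset Pt} (h : V ⊆ W) (a b : Pt) : ll V a b ≤ ll W a b :=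
  card_le_card (filter_subset_filter _ h)

lemma deg_mono {V W : Finset Pt} (h : V ⊆ W) (a : Pt) : deg V a ≤ deg W a := by
  unfold deg
  calc ∑ b ∈ V, ll V a b ≤ ∑ b ∈ V, ll W a b := sum_le_sum (fun b _ => ll_mono h a b)
    _ ≤ ∑ b ∈ W, ll W a b := sum_le_sum_of_subset h

lemma Tr_le (hx : XI V) : (trs V).card ≤ ∑ L ∈ lines V, (pl V L).card ^ 3 := by
  have h1 : (trs V).card = ∑ L ∈ lines V, ((trs V).filter (fun q => ln (q.1, q.2.1) = L)).card := by
    apply card_eq_sum_card_fiberwise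
    intro q hq
    rw [mem_coe] at hq
    unfold trs at hq
    simp only [mem_filter, mem_product] at hq
    rw [mem_coe, mem_lines]
    exact ⟨q.1, hq.1.1, q.2.1, hq.1.2.1, hq.2.1, rfl⟩
  rw [h1]
  apply sum_le_sum
  intro L _
  have e1 : (pl V L).card ^ 3 = (pl V L ×ˢ pl V L ×ˢ pl V L).card := by
    rw [card_product, card_product]; ring
  rw [e1]
  apply card_le_card
  intro q hq
  unfold trs at hq
  simp only [mem_filter, mem_product] at hq
  obtain ⟨⟨⟨h1, h2, h3⟩, h4, h5, h6, h7⟩, h8⟩ := hq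
  have hne := hx.ne h1 h2 h4
  unfold pl
  simp only [mem_product, mem_filter]
  refine ⟨⟨h1, ?_⟩, ⟨h2, ?_⟩, h3, ?_⟩
  · rw [← h8]; exact on_l _ _
  · rw [← h8]; exact on_r hne
  · rw [← h8]; exact (col_on hne).1 h7

lemma cube_sum (c : ℕ) : c ^ 3 = ∑ j ∈ range c, (3 * j ^ 2 + 3 * j + 1) := by
  induction c with
  | zero => simp
  | succ c ih => rw [sum_range_succ, ← ih]; ring

lemma ST_lines (hx : XI V) {j : ℕ} (hj : j ^ 2 ≤ 12 * V.card) :
    j ^ 3 * ((lines V).filter (fun L => j < (pl V L).card)).card ≤ 72 * V.card ^ 2 := by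
  apply ST hx hj
  intro L hL
  have := (mem_filter.1 hL).2
  unfold pl at this
  exact this

theorem triples_bound (hx : XI V) {B : ℕ} (hB : ∀ L ∈ lines V, (pl V L).card ≤ B) (hB2 : B ^ 2 ≤ 12 * V.card) :
    (Tr V : ℝ) ≤ 72 * (V.card : ℝ) ^ 2 * (8 + 7 * Real.log B) := by
  rcases Nat.eq_zero_or_pos B with hB0 | hB0
  · have h0 : lines V = ∅ := by
      rw [eq_empty_iff_forall_notMem]
      intro L hL
      have := two_le_pl hx hL
      have := hB L hL
      omega
    have h1 : Tr V ≤ 0 := by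
      rw [Tr_eq]
      have := Tr_le hx
      rw [h0] at this
      simpa using this
    have h2 : Tr V = 0 := by omega
    rw [h2, hB0]
    simp
  have h1 : Tr V ≤ ∑ j ∈ range B, (3 * j ^ 2 + 3 * j + 1) * ((lines V).filter (fun L => j < (pl V L).card)).card := by
    rw [Tr_eq]
    refine (Tr_le hx).trans ?_
    calc ∑ L ∈ lines V, (pl V L).card ^ 3
        = ∑ L ∈ lines V, ∑ j ∈ range B, (if j < (pl V L).card then (3 * j ^ 2 + 3 * j + 1) else 0) := by
          apply sum_congr rfl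
          intro L hL
          rw [cube_sum, ← sum_filter]
          apply sum_congr _ (fun _ _ => rfl)
          ext j
          rw [mem_filter, mem_range, mem_range]
          have := hB L hL
          constructor
          · intro h; exact ⟨by omega, h⟩
          · intro h; exact h.2
      _ = ∑ j ∈ range B, ∑ L ∈ lines V, (if j < (pl V L).card then (3 * j ^ 2 + 3 * j + 1) else 0) := sum_comm
      _ = _ := by
          apply sum_congr rfl
          intro j _
          rw [← sum_filter, sum_const, smul_eq_mul, mul_comm]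
      _ ≤ _ := le_rfl
  obtain ⟨B', rfl⟩ : ∃ B', B = B' + 1 := ⟨B - 1, by omega⟩
  have hmon : ((lines V).filter (fun L => 0 < (pl V L).card)).card ≤ ((lines V).filter (fun L => 1 < (pl V L).card)).card := by
    apply card_le_card
    intro L hL
    rw [mem_filter] at hL ⊢
    have := two_le_pl hx hL.1
    exact ⟨hL.1, by omega⟩
  set m : ℕ → ℕ := fun j => ((lines V).filter (fun L => j < (pl V L).card)).card with hm
  have hVR : (0 : ℝ) ≤ (V.card : ℝ) ^ 2 := by positivity
  have hmj : ∀ j, j < B' → (m (j + 1) : ℝ) ≤ 72 * (V.card : ℝ) ^ 2 / ((j : ℝ) + 1) ^ 3 := by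
    intro j hj
    have h2 := ST_lines hx (j := j + 1) (by
      refine le_trans ?_ hB2
      apply Nat.pow_le_pow_left; omega)
    rw [le_div_iff₀ (by positivity)]
    have h3 : (((j + 1 : ℕ) : ℝ)) ^ 3 * (m (j + 1) : ℝ) ≤ 72 * (V.card : ℝ) ^ 2 := by exact_mod_cast h2
    push_cast at h3
    linarith
  have hm0 : (m 0 : ℝ) ≤ 72 * (V.card : ℝ) ^ 2 := by
    have h12 : (1 : ℕ) ^ 2 ≤ 12 * V.card := by
      refine le_trans ?_ hB2
      apply Nat.pow_le_pow_left; omega
    have h2 := ST_lines hx (j := 1) h12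
    have h3 : m 0 ≤ 72 * V.card ^ 2 := by
      have : m 1 ≤ 72 * V.card ^ 2 := by simpa using h2
      exact hmon.trans this
    exact_mod_cast h3
  have h2 : (Tr V : ℝ) ≤ ∑ j ∈ range (B' + 1), (3 * (j : ℝ) ^ 2 + 3 * j + 1) * (m j : ℝ) := by exact_mod_cast h1
  rw [sum_range_succ'] at h2
  have h3 : ∑ j ∈ range B', (3 * (((j + 1 : ℕ) : ℝ)) ^ 2 + 3 * ((j + 1 : ℕ) : ℝ) + 1) * (m (j + 1) : ℝ)
      ≤ ∑ j ∈ range B', 504 * (V.card : ℝ) ^ 2 * (1 / ((j : ℝ) + 1)) := by
    apply sum_le_sum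
    intro j hj
    rw [mem_range] at hj
    have h4 := hmj j hj
    push_cast
    have h5 : (3 * ((j : ℝ) + 1) ^ 2 + 3 * ((j : ℝ) + 1) + 1) ≤ 7 * ((j : ℝ) + 1) ^ 2 := by
      have : (0 : ℝ) ≤ j := Nat.cast_nonneg j
      nlinarith
    calc (3 * ((j : ℝ) + 1) ^ 2 + 3 * ((j : ℝ) + 1) + 1) * (m (j + 1) : ℝ)
        ≤ (7 * ((j : ℝ) + 1) ^ 2) * (72 * (V.card : ℝ) ^ 2 / ((j : ℝ) + 1) ^ 3) := by
          apply mul_le_mul h5 h4 (by positivity) (by positivity)
      _ = 504 * (V.card : ℝ) ^ 2 * (1 / ((j : ℝ) + 1)) := by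
          have : (j : ℝ) + 1 ≠ 0 := by positivity
          field_simp
          ring
  rw [← mul_sum] at h3
  have h6 : ∑ j ∈ range B', 1 / ((j : ℝ) + 1) ≤ 1 + Real.log (B' + 1) := by
    rcases Nat.eq_zero_or_pos B' with h0 | h0
    · rw [h0]; simp
    have h7 := harmonic_le_one_add_log B'
    have h8 : ((harmonic B' : ℚ) : ℝ) = ∑ j ∈ range B', 1 / ((j : ℝ) + 1) := by
      unfold harmonic
      push_cast
      apply sum_congr rfl
      intro j _
      rw [one_div]
    rw [← h8]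
    refine h7.trans ?_
    have : Real.log B' ≤ Real.log (B' + 1) := by
      apply Real.log_le_log
      · exact_mod_cast h0
      · linarith
    linarith
  have h9 : 504 * (V.card : ℝ) ^ 2 * ∑ j ∈ range B', 1 / ((j : ℝ) + 1) ≤ 504 * (V.card : ℝ) ^ 2 * (1 + Real.log (B' + 1)) :=
    mul_le_mul_of_nonneg_left h6 (by positivity)
  have h10 : (3 * (((0 : ℕ) : ℝ)) ^ 2 + 3 * ((0 : ℕ) : ℝ) + 1) * (m 0 : ℝ) ≤ 72 * (V.card : ℝ) ^ 2 := by
    push_cast
    simpa using hm0
  push_cast
  push_cast at h2 h3 h10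
  linarith

/-- few heavy lines -/
lemma heavy_bound (hx : XI V) {j : ℕ} (hj0 : 0 < j) (hj : j ^ 2 ≤ 12 * V.card) :
    (((lines V).filter (fun L => j < (pl V L).card)).card : ℝ) ≤ 72 * (V.card : ℝ) ^ 2 / (j : ℝ) ^ 3 := by
  have h2 := ST_lines hx hj
  rw [le_div_iff₀ (by positivity)]
  have h3 : ((j : ℝ)) ^ 3 * (((lines V).filter (fun L => j < (pl V L).card)).card : ℝ) ≤ 72 * (V.card : ℝ) ^ 2 := by
    exact_mod_cast h2
  linarith

/-- regular large subset -/
theorem regularize {P : Finset Pt} {D : ℝ} (hD : 2 * (Tr P : ℝ) ≤ D * P.card) :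
    ∃ V ⊆ P, P.card ≤ 2 * V.card ∧ ∀ a ∈ V, (deg V a : ℝ) ≤ D := by
  rcases P.eq_empty_or_nonempty with h0 | h0
  · exact ⟨∅, empty_subset _, by rw [h0]; simp, by simp⟩
  set V := P.filter (fun a => (deg P a : ℝ) ≤ D) with hV
  refine ⟨V, filter_subset _ _, ?_, ?_⟩
  · by_contra hcon
    push Not at hcon
    have hPc : (0 : ℝ) < P.card := by exact_mod_cast card_pos.2 h0
    have hD0 : 0 ≤ D := by
      by_contra hneg
      push Not at hneg
      have : D * P.card < 0 := mul_neg_of_neg_of_pos hneg hPc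
      have : (0 : ℝ) ≤ Tr P := Nat.cast_nonneg _
      linarith
    set W := P.filter (fun a => ¬ (deg P a : ℝ) ≤ D) with hW
    have hc : V.card + W.card = P.card := card_filter_add_card_filter_not _
    have h1 : (W.card : ℝ) * D ≤ Tr P := by
      unfold Tr
      push_cast
      calc (W.card : ℝ) * D = ∑ a ∈ W, D := by rw [sum_const, nsmul_eq_mul]
        _ ≤ ∑ a ∈ W, (deg P a : ℝ) := by
            apply sum_le_sum
            intro a ha
            have := (mem_filter.1 ha).2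
            push Not at this
            exact this.le
        _ ≤ ∑ a ∈ P, (deg P a : ℝ) := by
            apply sum_le_sum_of_subset_of_nonneg (filter_subset _ _)
            intro a _ _
            positivity
    have hWne : W.Nonempty := by
      rw [← card_pos]; omega
    obtain ⟨a, ha⟩ := hWne
    have hstrict : (W.card : ℝ) * D < Tr P := by
      unfold Tr
      push_cast
      calc (W.card : ℝ) * D = ∑ a ∈ W, D := by rw [sum_const, nsmul_eq_mul]
        _ < ∑ a ∈ W, (deg P a : ℝ) := by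
            apply sum_lt_sum_of_nonempty ⟨a, ha⟩
            intro a ha
            have := (mem_filter.1 ha).2
            push Not at this
            exact this
        _ ≤ ∑ a ∈ P, (deg P a : ℝ) := by
            apply sum_le_sum_of_subset_of_nonneg (filter_subset _ _)
            intro a _ _
            positivity
    have h2 : (P.card : ℝ) < 2 * W.card := by
      have : P.card < 2 * W.card := by omega
      exact_mod_cast this
    have h3 : D * P.card ≤ 2 * (W.card * D) := by nlinarith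
    linarith
  · intro a ha
    have h1 := (mem_filter.1 ha).2
    have h2 : (deg V a : ℝ) ≤ deg P a := by exact_mod_cast deg_mono (filter_subset _ _) a
    linarith

end Pool.Agent.Helper64.Gow
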