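import Pool.Agent.Helper64.Gow4

set_option autoImplicit false

namespace Pool.Agent.Helper64.Gow

open Finset Res
open scoped Classical

lemma col_self1 (a b : Pt) : col a b a := by unfold col; ring
lemma col_self2 (a b : Pt) : col a b b := by unfold col; ring
lemma col_self3 (a b : Pt) : col a a b := by unfold col; ring
lemma col_12 {a b c : Pt} (h : col a b c) : col b a c := by unfold col at *; linarith
lemma col_23 {a b c : Pt} (h : col a b c) : col a c b := by unfold col at *; linarith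

lemma col_trans {a b c d : Pt} (hab : a ≠ b) (h1 : col a b c) (h2 : col a b d) : col a c d := by
  unfold col at *
  by_cases hx : b.1 - a.1 = 0
  · have hy : b.2 - a.2 ≠ 0 := by
      intro hy
      apply hab
      apply Prod.ext <;> linarith
    rw [hx, zero_mul] at h1 h2
    have e1 : c.1 - a.1 = 0 := by
      rcases mul_eq_zero.1 h1.symm with h | h
      · exact absurd h hy
      · exact h
    have e2 : d.1 - a.1 = 0 := by
      rcases mul_eq_zero.1 h2.symm with h | h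
      · exact absurd h hy
      · exact h
    rw [e1, e2]; ring
  · apply mul_left_cancel₀ hx
    calc (b.1 - a.1) * ((c.1 - a.1) * (d.2 - a.2)) = (c.1 - a.1) * ((b.1 - a.1) * (d.2 - a.2)) := by ring
      _ = (c.1 - a.1) * ((b.2 - a.2) * (d.1 - a.1)) := by rw [h2]
      _ = ((b.2 - a.2) * (c.1 - a.1)) * (d.1 - a.1) := by ring
      _ = ((b.1 - a.1) * (c.2 - a.2)) * (d.1 - a.1) := by rw [h1]
      _ = _ := by ring

lemma ne_of_ncol {a b c : Pt} (h : ¬ col a b c) : a ≠ b ∧ b ≠ c ∧ a ≠ c := by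
  refine ⟨?_, ?_, ?_⟩
  · rintro rfl; exact h (col_self3 _ _)
  · rintro rfl; exact h (col_self2 _ _)
  · rintro rfl; exact h (col_self1 _ _)

lemma inter_unique {L L' p q : Pt} (hL : L ≠ L') (h1 : on L p) (h2 : on L' p) (h3 : on L q) (h4 : on L' q) : p = q := by
  unfold on at *
  have h5 : L.1 - L'.1 ≠ 0 := by
    intro h
    apply hL
    have e : L.1 = L'.1 := by linarith
    apply Prod.ext e
    rw [h1, e] at h2
    linarith
  have h6 : (L.1 - L'.1) * (p.1 - q.1) = 0 := by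
    have e1 : L.1 * p.1 + L.2 = L'.1 * p.1 + L'.2 := by rw [← h1, ← h2]
    have e2 : L.1 * q.1 + L.2 = L'.1 * q.1 + L'.2 := by rw [← h3, ← h4]
    linarith
  have h7 : p.1 - q.1 = 0 := by
    rcases mul_eq_zero.1 h6 with h | h
    · exact absurd h h5
    · exact h
  have h8 : p.1 = q.1 := by linarith
  apply Prod.ext h8
  rw [h1, h3, h8]

variable {V : Finset Pt}

noncomputable def third (V : Finset Pt) (a b : Pt) : Finset Pt := V.filter (fun c => a ≠ b ∧ c ≠ a ∧ c ≠ b ∧ col a b c)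

lemma third_card (V : Finset Pt) (a b : Pt) : (third V a b).card = ll V a b := rfl

noncomputable def heavy (V : Finset Pt) (j : ℕ) : Finset Pt := (lines V).filter (fun L => j < (pl V L).card)

lemma third_sub (hx : XI V) {a b : Pt} (ha : a ∈ V) (hb : b ∈ V) : third V a b ⊆ pl V (ln (a, b)) := by
  intro c hc
  unfold third at hc
  unfold pl
  rw [mem_filter] at hc ⊢
  exact ⟨hc.1, (col_on (hx.ne ha hb hc.2.1)).1 hc.2.2.2.2⟩

lemma ll_pos_ne {a b : Pt} (h : 0 < ll V a b) : a ≠ b := by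
  rw [← third_card, card_pos] at h
  obtain ⟨c, hc⟩ := h
  unfold third at hc
  exact (mem_filter.1 hc).2.1

lemma ll_heavy (hx : XI V) {a b : Pt} (ha : a ∈ V) (hb : b ∈ V) {j : ℕ} (h : j < ll V a b) : ln (a, b) ∈ heavy V j := by
  unfold heavy
  rw [mem_filter]
  refine ⟨mem_lines.2 ⟨a, ha, b, hb, ll_pos_ne (lt_of_le_of_lt (Nat.zero_le j) h), rfl⟩, ?_⟩
  have := card_le_card (third_sub hx ha hb)
  rw [third_card] at this
  omega

lemma ll_le (hx : XI V) {B : ℕ} (hB : ∀ L ∈ lines V, (pl V L).card ≤ B) {a b : Pt} (ha : a ∈ V) (hb : b ∈ V) :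
    ll V a b ≤ B := by
  rcases Nat.eq_zero_or_pos (ll V a b) with h | h
  · omega
  · have := card_le_card (third_sub hx ha hb)
    rw [third_card] at this
    exact this.trans (hB _ (mem_lines.2 ⟨a, ha, b, hb, ll_pos_ne h, rfl⟩))

/-- real version -/
noncomputable def lr (V : Finset Pt) (a b : Pt) : ℝ := (ll V a b : ℝ)

lemma lr_nonneg (a b : Pt) : 0 ≤ lr V a b := Nat.cast_nonneg _

lemma lr_comm (a b : Pt) : lr V a b = lr V b a := by unfold lr; rw [ll_comm]

lemma lr_sum (a : Pt) : ∑ b ∈ V, lr V a b = (deg V a : ℝ) := by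
  unfold lr deg
  push_cast
  rfl

lemma lr_sum' (a : Pt) : ∑ b ∈ V, lr V b a = (deg V a : ℝ) := by
  rw [← lr_sum]
  exact sum_congr rfl (fun b _ => lr_comm b a)

/-- noncollinear triples, noncollinear quadruples -/
noncomputable def N3 (V : Finset Pt) : Finset (Pt × Pt × Pt) :=
  (V ×ˢ V ×ˢ V).filter (fun t => ¬ col t.1 t.2.1 t.2.2)

noncomputable def N4 (V : Finset Pt) : Finset (Pt × Pt × Pt × Pt) :=
  (V ×ˢ V ×ˢ V ×ˢ V).filter (fun t => ¬ col t.1 t.2.1 t.2.2.1 ∧ ¬ col t.2.1 t.2.2.1 t.2.2.2 ∧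
    ¬ col t.2.2.1 t.2.2.2 t.1 ∧ ¬ col t.2.2.2 t.1 t.2.1)

lemma mem_N3 {a b c : Pt} : (a, b, c) ∈ N3 V ↔ (a ∈ V ∧ b ∈ V ∧ c ∈ V) ∧ ¬ col a b c := by
  unfold N3
  simp only [mem_filter, mem_product]

lemma mem_N4 {a b c d : Pt} : (a, b, c, d) ∈ N4 V ↔ (a ∈ V ∧ b ∈ V ∧ c ∈ V ∧ d ∈ V) ∧ ¬ col a b c ∧ ¬ col b c d ∧
    ¬ col c d a ∧ ¬ col d a b := by
  unfold N4
  simp only [mem_filter, mem_product]

noncomputable def S6 (V : Finset Pt) : Finset ((Pt × Pt × Pt) × (Pt × Pt × Pt)) :=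
  (N3 V).biUnion (fun t => {t} ×ˢ (third V t.2.1 t.2.2 ×ˢ third V t.2.2 t.1 ×ˢ third V t.1 t.2.1))

noncomputable def S8 (V : Finset Pt) : Finset ((Pt × Pt × Pt × Pt) × (Pt × Pt × Pt × Pt)) :=
  (N4 V).biUnion (fun t => {t} ×ˢ (third V t.1 t.2.1 ×ˢ third V t.2.1 t.2.2.1 ×ˢ third V t.2.2.1 t.2.2.2 ×ˢ
    third V t.2.2.2 t.1))

lemma S6_card_le : ((S6 V).card : ℝ) ≤ ∑ t ∈ N3 V, lr V t.2.1 t.2.2 * (lr V t.2.2 t.1 * lr V t.1 t.2.1) := by
  have h1 : (S6 V).card ≤ ∑ t ∈ N3 V, ll V t.2.1 t.2.2 * (ll V t.2.2 t.1 * ll V t.1 t.2.1) := by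
    unfold S6
    refine card_biUnion_le.trans ?_
    apply sum_le_sum
    intro t _
    rw [card_product, card_product, card_product, card_singleton, one_mul]
    rfl
  unfold lr
  exact_mod_cast h1

lemma S8_card_le : ((S8 V).card : ℝ) ≤ ∑ t ∈ N4 V, lr V t.1 t.2.1 * (lr V t.2.1 t.2.2.1 *
    (lr V t.2.2.1 t.2.2.2 * lr V t.2.2.2 t.1)) := by
  have h1 : (S8 V).card ≤ ∑ t ∈ N4 V, ll V t.1 t.2.1 * (ll V t.2.1 t.2.2.1 *
    (ll V t.2.2.1 t.2.2.2 * ll V t.2.2.2 t.1)) := by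
    unfold S8
    refine card_biUnion_le.trans ?_
    apply sum_le_sum
    intro t _
    rw [card_product, card_product, card_product, card_product, card_singleton, one_mul]
    rfl
  unfold lr
  exact_mod_cast h1

lemma ln_ne (hx : XI V) {a b c : Pt} (ha : a ∈ V) (hb : b ∈ V) (hc : c ∈ V) (h : ¬ col a b c) :
    ln (a, b) ≠ ln (b, c) := by
  intro h1
  obtain ⟨n1, n2, n3⟩ := ne_of_ncol h
  apply h
  rw [col_on (hx.ne ha hb n1), h1]
  exact on_r (hx.ne hb hc n2)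

lemma heavy3 (hx : XI V) (j : ℕ) :
    (((N3 V).filter (fun t => j < ll V t.2.1 t.2.2 ∧ j < ll V t.2.2 t.1 ∧ j < ll V t.1 t.2.1)).card : ℝ)
      ≤ ((heavy V j).card : ℝ) ^ 3 := by
  have h1 : ((N3 V).filter (fun t => j < ll V t.2.1 t.2.2 ∧ j < ll V t.2.2 t.1 ∧ j < ll V t.1 t.2.1)).card
      ≤ (heavy V j ×ˢ heavy V j ×ˢ heavy V j).card := by
    apply card_le_card_of_injOn (fun t => (ln (t.2.1, t.2.2), ln (t.2.2, t.1), ln (t.1, t.2.1)))
    · rintro ⟨a, b, c⟩ ht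
      rw [mem_coe, mem_filter, mem_N3] at ht
      obtain ⟨⟨⟨ha, hb, hc⟩, hn⟩, h1, h2, h3⟩ := ht
      rw [mem_coe, mem_product, mem_product]
      exact ⟨ll_heavy hx hb hc h1, ll_heavy hx hc ha h2, ll_heavy hx ha hb h3⟩
    · rintro ⟨a, b, c⟩ ht ⟨a', b', c'⟩ ht' heq
      rw [mem_coe, mem_filter, mem_N3] at ht ht'
      obtain ⟨⟨⟨ha, hb, hc⟩, hn⟩, -⟩ := ht
      obtain ⟨⟨⟨ha', hb', hc'⟩, hn'⟩, -⟩ := ht'
      simp only [Prod.mk.injEq] at heq
      obtain ⟨e1, e2, e3⟩ := heq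
      obtain ⟨n1, n2, n3⟩ := ne_of_ncol hn
      obtain ⟨n1', n2', n3'⟩ := ne_of_ncol hn'
      have x1 := hx.ne ha hb n1
      have x2 := hx.ne hb hc n2
      have x3 := hx.ne hc ha n3.symm
      have x1' := hx.ne ha' hb' n1'
      have x2' := hx.ne hb' hc' n2'
      have x3' := hx.ne hc' ha' n3'.symm
      have l1 : ln (a, b) ≠ ln (b, c) := ln_ne hx ha hb hc hn
      have l2 : ln (b, c) ≠ ln (c, a) := ln_ne hx hb hc ha (fun h => hn (col_12 (col_23 h)))
      have l3 : ln (c, a) ≠ ln (a, b) := ln_ne hx hc ha hb (fun h => hn (col_23 (col_12 h)))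
      have ea : a = a' := inter_unique l3 (on_r x3) (on_l a b) (by rw [e2]; exact on_r x3') (by rw [e3]; exact on_l a' b')
      have eb : b = b' := inter_unique l1 (on_r x1) (on_l b c) (by rw [e3]; exact on_r x1') (by rw [e1]; exact on_l b' c')
      have ec : c = c' := inter_unique l2 (on_r x2) (on_l c a) (by rw [e1]; exact on_r x2') (by rw [e2]; exact on_l c' a')
      rw [ea, eb, ec]
  rw [card_product, card_product] at h1
  have h2 : (heavy V j).card * ((heavy V j).card * (heavy V j).card) = (heavy V j).card ^ 3 := by ring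
  rw [h2] at h1
  exact_mod_cast h1

lemma heavy4 (hx : XI V) (j : ℕ) :
    (((N4 V).filter (fun t => j < ll V t.1 t.2.1 ∧ j < ll V t.2.1 t.2.2.1 ∧ j < ll V t.2.2.1 t.2.2.2 ∧
      j < ll V t.2.2.2 t.1)).card : ℝ) ≤ ((heavy V j).card : ℝ) ^ 4 := by
  have h1 : ((N4 V).filter (fun t => j < ll V t.1 t.2.1 ∧ j < ll V t.2.1 t.2.2.1 ∧ j < ll V t.2.2.1 t.2.2.2 ∧
      j < ll V t.2.2.2 t.1)).card
      ≤ (heavy V j ×ˢ heavy V j ×ˢ heavy V j ×ˢ heavy V j).card := by
    apply card_le_card_of_injOn (fun t => (ln (t.1, t.2.1), ln (t.2.1, t.2.2.1), ln (t.2.2.1, t.2.2.2), ln (t.2.2.2, t.1)))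
    · rintro ⟨a, b, c, d⟩ ht
      rw [mem_coe, mem_filter, mem_N4] at ht
      obtain ⟨⟨⟨ha, hb, hc, hd⟩, hn⟩, h1, h2, h3, h4⟩ := ht
      rw [mem_coe, mem_product, mem_product, mem_product]
      exact ⟨ll_heavy hx ha hb h1, ll_heavy hx hb hc h2, ll_heavy hx hc hd h3, ll_heavy hx hd ha h4⟩
    · rintro ⟨a, b, c, d⟩ ht ⟨a', b', c', d'⟩ ht' heq
      rw [mem_coe, mem_filter, mem_N4] at ht ht'
      obtain ⟨⟨⟨ha, hb, hc, hd⟩, m1, m2, m3, m4⟩, -⟩ := ht
      obtain ⟨⟨⟨ha', hb', hc', hd'⟩, m1', m2', m3', m4'⟩, -⟩ := ht'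
      simp only [Prod.mk.injEq] at heq
      obtain ⟨e1, e2, e3, e4⟩ := heq
      have xab := hx.ne ha hb (ne_of_ncol m1).1
      have xbc := hx.ne hb hc (ne_of_ncol m2).1
      have xcd := hx.ne hc hd (ne_of_ncol m3).1
      have xda := hx.ne hd ha (ne_of_ncol m4).1
      have xab' := hx.ne ha' hb' (ne_of_ncol m1').1
      have xbc' := hx.ne hb' hc' (ne_of_ncol m2').1
      have xcd' := hx.ne hc' hd' (ne_of_ncol m3').1
      have xda' := hx.ne hd' ha' (ne_of_ncol m4').1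
      have eb : b = b' := inter_unique (ln_ne hx ha hb hc m1) (on_r xab) (on_l b c) (by rw [e1]; exact on_r xab')
        (by rw [e2]; exact on_l b' c')
      have ec : c = c' := inter_unique (ln_ne hx hb hc hd m2) (on_r xbc) (on_l c d) (by rw [e2]; exact on_r xbc')
        (by rw [e3]; exact on_l c' d')
      have ed : d = d' := inter_unique (ln_ne hx hc hd ha m3) (on_r xcd) (on_l d a) (by rw [e3]; exact on_r xcd')
        (by rw [e4]; exact on_l d' a')
      have ea : a = a' := inter_unique (ln_ne hx hd ha hb m4) (on_r xda) (on_l a b) (by rw [e4]; exact on_r xda')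
        (by rw [e1]; exact on_l a' b')
      rw [ea, eb, ec, ed]
  rw [card_product, card_product, card_product] at h1
  have h2 : (heavy V j).card * ((heavy V j).card * ((heavy V j).card * (heavy V j).card)) = (heavy V j).card ^ 4 := by ring
  rw [h2] at h1
  exact_mod_cast h1

end Pool.Agent.Helper64.Gow
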