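import Pool.Agent.Helper64.Gow5

set_option autoImplicit false

namespace Pool.Agent.Helper64.Gow

open Finset Res
open scoped Classical

variable {V : Finset Pt}

lemma N3_sum_le {f : Pt × Pt × Pt → ℝ} (hf : ∀ t, 0 ≤ f t) :
    ∑ t ∈ N3 V, f t ≤ ∑ a ∈ V, ∑ b ∈ V, ∑ c ∈ V, f (a, b, c) := by
  calc ∑ t ∈ N3 V, f t ≤ ∑ t ∈ V ×ˢ V ×ˢ V, f t := by
        apply sum_le_sum_of_subset_of_nonneg (filter_subset _ _)
        intro t _ _
        exact hf t
    _ = _ := by rw [sum_product]; apply sum_congr rfl; intro a _; rw [sum_product]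

lemma N4_sum_le {f : Pt × Pt × Pt × Pt → ℝ} (hf : ∀ t, 0 ≤ f t) :
    ∑ t ∈ N4 V, f t ≤ ∑ a ∈ V, ∑ b ∈ V, ∑ c ∈ V, ∑ d ∈ V, f (a, b, c, d) := by
  calc ∑ t ∈ N4 V, f t ≤ ∑ t ∈ V ×ˢ V ×ˢ V ×ˢ V, f t := by
        apply sum_le_sum_of_subset_of_nonneg (filter_subset _ _)
        intro t _ _
        exact hf t
    _ = _ := by
        rw [sum_product]; apply sum_congr rfl; intro a _; rw [sum_product]
        apply sum_congr rfl; intro b _; rw [sum_product]

section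
variable {D : ℝ} (hD : ∀ a ∈ V, (deg V a : ℝ) ≤ D) (hD0 : 0 ≤ D)
include hD hD0

lemma row (a : Pt) (ha : a ∈ V) : ∑ b ∈ V, lr V a b ≤ D := by rw [lr_sum]; exact hD a ha
lemma row' (a : Pt) (ha : a ∈ V) : ∑ b ∈ V, lr V b a ≤ D := by rw [lr_sum']; exact hD a ha

lemma P2b (a : Pt) (ha : a ∈ V) : ∑ b ∈ V, ∑ c ∈ V, lr V a b * lr V b c ≤ D ^ 2 := by
  calc ∑ b ∈ V, ∑ c ∈ V, lr V a b * lr V b c ≤ ∑ b ∈ V, lr V a b * D := by
        apply sum_le_sum
        intro b hb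
        rw [← mul_sum]
        exact mul_le_mul_of_nonneg_left (row hD hD0 b hb) (lr_nonneg _ _)
    _ = (∑ b ∈ V, lr V a b) * D := by rw [sum_mul]
    _ ≤ D * D := mul_le_mul_of_nonneg_right (row hD hD0 a ha) hD0
    _ = D ^ 2 := by ring

lemma P2a (a : Pt) (ha : a ∈ V) : ∑ c ∈ V, ∑ d ∈ V, lr V c d * lr V d a ≤ D ^ 2 := by
  rw [sum_comm]
  calc ∑ d ∈ V, ∑ c ∈ V, lr V c d * lr V d a ≤ ∑ d ∈ V, D * lr V d a := by
        apply sum_le_sum
        intro d hd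
        rw [← sum_mul]
        exact mul_le_mul_of_nonneg_right (row' hD hD0 d hd) (lr_nonneg _ _)
    _ = D * (∑ d ∈ V, lr V d a) := by rw [mul_sum]
    _ ≤ D * D := mul_le_mul_of_nonneg_left (row' hD hD0 a ha) hD0
    _ = D ^ 2 := by ring

lemma T3a (a : Pt) (ha : a ∈ V) : ∑ b ∈ V, ∑ c ∈ V, lr V c a * lr V a b ≤ D ^ 2 := by
  calc ∑ b ∈ V, ∑ c ∈ V, lr V c a * lr V a b ≤ ∑ b ∈ V, D * lr V a b := by
        apply sum_le_sum
        intro b _
        rw [← sum_mul]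
        exact mul_le_mul_of_nonneg_right (row' hD hD0 a ha) (lr_nonneg _ _)
    _ = D * (∑ b ∈ V, lr V a b) := by rw [mul_sum]
    _ ≤ D * D := mul_le_mul_of_nonneg_left (row hD hD0 a ha) hD0
    _ = D ^ 2 := by ring

lemma T3b (a : Pt) (ha : a ∈ V) : ∑ b ∈ V, ∑ c ∈ V, lr V b c * lr V a b ≤ D ^ 2 := by
  have := P2b hD hD0 a ha
  simpa only [mul_comm] using this

lemma T3c (a : Pt) (ha : a ∈ V) : ∑ b ∈ V, ∑ c ∈ V, lr V b c * lr V c a ≤ D ^ 2 := P2a hD hD0 a ha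

lemma T4w (a : Pt) (ha : a ∈ V) : ∑ b ∈ V, ∑ c ∈ V, ∑ d ∈ V, lr V a b * (lr V b c * lr V c d) ≤ D ^ 3 := by
  calc ∑ b ∈ V, ∑ c ∈ V, ∑ d ∈ V, lr V a b * (lr V b c * lr V c d)
      ≤ ∑ b ∈ V, lr V a b * D ^ 2 := by
        apply sum_le_sum
        intro b hb
        simp only [← mul_sum]
        apply mul_le_mul_of_nonneg_left _ (lr_nonneg _ _)
        have := P2b hD hD0 b hb
        simpa only [← mul_sum] using this
    _ = (∑ b ∈ V, lr V a b) * D ^ 2 := by rw [sum_mul]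
    _ ≤ D * D ^ 2 := mul_le_mul_of_nonneg_right (row hD hD0 a ha) (by positivity)
    _ = D ^ 3 := by ring

lemma T4x (a : Pt) (ha : a ∈ V) : ∑ b ∈ V, ∑ c ∈ V, ∑ d ∈ V, lr V b c * (lr V c d * lr V d a) ≤ D ^ 3 := by
  rw [sum_comm]
  calc ∑ c ∈ V, ∑ b ∈ V, ∑ d ∈ V, lr V b c * (lr V c d * lr V d a)
      ≤ ∑ c ∈ V, D * (∑ d ∈ V, lr V c d * lr V d a) := by
        apply sum_le_sum
        intro c hc
        simp only [← mul_sum]
        rw [← sum_mul]
        apply mul_le_mul_of_nonneg_right (row' hD hD0 c hc)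
        exact sum_nonneg (fun d _ => mul_nonneg (lr_nonneg _ _) (lr_nonneg _ _))
    _ = D * ∑ c ∈ V, ∑ d ∈ V, lr V c d * lr V d a := by rw [mul_sum]
    _ ≤ D * D ^ 2 := mul_le_mul_of_nonneg_left (P2a hD hD0 a ha) hD0
    _ = D ^ 3 := by ring

lemma T4y (a : Pt) (ha : a ∈ V) : ∑ b ∈ V, ∑ c ∈ V, ∑ d ∈ V, lr V a b * (lr V c d * lr V d a) ≤ D ^ 3 := by
  calc ∑ b ∈ V, ∑ c ∈ V, ∑ d ∈ V, lr V a b * (lr V c d * lr V d a)
      = (∑ b ∈ V, lr V a b) * ∑ c ∈ V, ∑ d ∈ V, lr V c d * lr V d a := by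
        rw [sum_mul]
        apply sum_congr rfl
        intro b _
        simp only [← mul_sum]
    _ ≤ D * D ^ 2 := by
        apply mul_le_mul (row hD hD0 a ha) (P2a hD hD0 a ha)
        · exact sum_nonneg (fun c _ => sum_nonneg (fun d _ => mul_nonneg (lr_nonneg _ _) (lr_nonneg _ _)))
        · exact hD0
    _ = D ^ 3 := by ring

lemma T4z (a : Pt) (ha : a ∈ V) : ∑ b ∈ V, ∑ c ∈ V, ∑ d ∈ V, lr V a b * (lr V b c * lr V d a) ≤ D ^ 3 := by
  calc ∑ b ∈ V, ∑ c ∈ V, ∑ d ∈ V, lr V a b * (lr V b c * lr V d a)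
      = (∑ b ∈ V, ∑ c ∈ V, lr V a b * lr V b c) * ∑ d ∈ V, lr V d a := by
        rw [sum_mul]
        apply sum_congr rfl
        intro b _
        rw [sum_mul]
        apply sum_congr rfl
        intro c _
        rw [mul_sum]
        apply sum_congr rfl
        intro d _
        ring
    _ ≤ D ^ 2 * D := by
        apply mul_le_mul (P2b hD hD0 a ha) (row' hD hD0 a ha)
        · exact sum_nonneg (fun d _ => lr_nonneg _ _)
        · positivity
    _ = D ^ 3 := by ring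

end

lemma mul3_le {x y z j B : ℝ} (hx : 0 ≤ x) (hy : 0 ≤ y) (hz : 0 ≤ z) (hj : 0 ≤ j)
    (h : x ≤ j ∨ y ≤ j ∨ z ≤ j) (hB : 0 ≤ B) : x * (y * z) ≤ j * (y * z) + j * (x * z) + j * (x * y) + B := by
  have a1 := mul_nonneg hy hz
  have a2 := mul_nonneg hx hz
  have a3 := mul_nonneg hx hy
  have b1 := mul_nonneg hj a1
  have b2 := mul_nonneg hj a2
  have b3 := mul_nonneg hj a3
  rcases h with h | h | h
  · have := mul_le_mul_of_nonneg_right h a1
    linarith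
  · have := mul_le_mul_of_nonneg_right h a2
    nlinarith
  · have := mul_le_mul_of_nonneg_right h a3
    nlinarith

lemma mul4_le {x y z w j B : ℝ} (hx : 0 ≤ x) (hy : 0 ≤ y) (hz : 0 ≤ z) (hw : 0 ≤ w) (hj : 0 ≤ j)
    (h : x ≤ j ∨ y ≤ j ∨ z ≤ j ∨ w ≤ j) (hB : 0 ≤ B) :
    x * (y * (z * w)) ≤ j * (y * (z * w)) + j * (x * (z * w)) + j * (x * (y * w)) + j * (x * (y * z)) + B := by
  have a1 : 0 ≤ y * (z * w) := by positivity
  have a2 : 0 ≤ x * (z * w) := by positivity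
  have a3 : 0 ≤ x * (y * w) := by positivity
  have a4 : 0 ≤ x * (y * z) := by positivity
  have b1 := mul_nonneg hj a1
  have b2 := mul_nonneg hj a2
  have b3 := mul_nonneg hj a3
  have b4 := mul_nonneg hj a4
  rcases h with h | h | h | h
  · have := mul_le_mul_of_nonneg_right h a1
    linarith
  · have := mul_le_mul_of_nonneg_right h a2
    have e : x * (y * (z * w)) = y * (x * (z * w)) := by ring
    linarith
  · have := mul_le_mul_of_nonneg_right h a3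
    have e : x * (y * (z * w)) = z * (x * (y * w)) := by ring
    linarith
  · have := mul_le_mul_of_nonneg_right h a4
    have e : x * (y * (z * w)) = w * (x * (y * z)) := by ring
    linarith

theorem S6_bound (hx : XI V) {B : ℕ} (hB : ∀ L ∈ lines V, (pl V L).card ≤ B) {D : ℝ}
    (hD : ∀ a ∈ V, (deg V a : ℝ) ≤ D) (hD0 : 0 ≤ D) (j : ℕ) :
    ((S6 V).card : ℝ) ≤ 3 * j * V.card * D ^ 2 + ((heavy V j).card : ℝ) ^ 3 * (B : ℝ) ^ 3 := by
  refine S6_card_le.trans ?_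
  have hpt : ∀ t ∈ N3 V, lr V t.2.1 t.2.2 * (lr V t.2.2 t.1 * lr V t.1 t.2.1)
      ≤ (j * (lr V t.2.2 t.1 * lr V t.1 t.2.1) + j * (lr V t.2.1 t.2.2 * lr V t.1 t.2.1)
        + j * (lr V t.2.1 t.2.2 * lr V t.2.2 t.1))
        + (if (j < ll V t.2.1 t.2.2 ∧ j < ll V t.2.2 t.1 ∧ j < ll V t.1 t.2.1) then (B : ℝ) ^ 3 else 0) := by
    rintro ⟨a, b, c⟩ ht
    obtain ⟨⟨ha, hb, hc⟩, hn⟩ := mem_N3.1 ht
    simp only
    have l1 := lr_nonneg (V := V) b c
    have l2 := lr_nonneg (V := V) c a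
    have l3 := lr_nonneg (V := V) a b
    have hj0 : (0 : ℝ) ≤ j := Nat.cast_nonneg _
    split_ifs with h
    · have u1 : lr V b c ≤ B := by unfold lr; exact_mod_cast ll_le hx hB hb hc
      have u2 : lr V c a ≤ B := by unfold lr; exact_mod_cast ll_le hx hB hc ha
      have u3 : lr V a b ≤ B := by unfold lr; exact_mod_cast ll_le hx hB ha hb
      have hB0 : (0 : ℝ) ≤ B := Nat.cast_nonneg _
      have h1 : lr V b c * (lr V c a * lr V a b) ≤ B * (B * B) := by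
        apply mul_le_mul u1 (mul_le_mul u2 u3 l3 hB0) (by positivity) hB0
      have e : (B : ℝ) * (B * B) = B ^ 3 := by ring
      rw [e] at h1
      have b1 := mul_nonneg hj0 (mul_nonneg l2 l3)
      have b2 := mul_nonneg hj0 (mul_nonneg l1 l3)
      have b3 := mul_nonneg hj0 (mul_nonneg l1 l2)
      linarith
    · apply mul3_le l1 l2 l3 hj0 _ le_rfl
      unfold lr
      by_contra hcon
      push Not at hcon
      apply h
      exact ⟨by exact_mod_cast hcon.1, by exact_mod_cast hcon.2.1, by exact_mod_cast hcon.2.2⟩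
  refine (sum_le_sum hpt).trans ?_
  rw [sum_add_distrib]
  apply add_le_add
  · have h1 : ∑ t ∈ N3 V, ((j : ℝ) * (lr V t.2.2 t.1 * lr V t.1 t.2.1) + j * (lr V t.2.1 t.2.2 * lr V t.1 t.2.1)
        + j * (lr V t.2.1 t.2.2 * lr V t.2.2 t.1))
        ≤ ∑ a ∈ V, ∑ b ∈ V, ∑ c ∈ V, (j * (lr V c a * lr V a b) + j * (lr V b c * lr V a b) + j * (lr V b c * lr V c a)) := by
      apply N3_sum_le
      intro t
      have l1 := lr_nonneg (V := V) t.2.1 t.2.2
      have l2 := lr_nonneg (V := V) t.2.2 t.1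
      have l3 := lr_nonneg (V := V) t.1 t.2.1
      positivity
    refine h1.trans ?_
    have h2 : ∀ a ∈ V, ∑ b ∈ V, ∑ c ∈ V, ((j : ℝ) * (lr V c a * lr V a b) + j * (lr V b c * lr V a b) + j * (lr V b c * lr V c a))
        ≤ 3 * j * D ^ 2 := by
      intro a ha
      have e : ∑ b ∈ V, ∑ c ∈ V, ((j : ℝ) * (lr V c a * lr V a b) + j * (lr V b c * lr V a b) + j * (lr V b c * lr V c a))
          = j * (∑ b ∈ V, ∑ c ∈ V, lr V c a * lr V a b + ∑ b ∈ V, ∑ c ∈ V, lr V b c * lr V a b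
            + ∑ b ∈ V, ∑ c ∈ V, lr V b c * lr V c a) := by
        simp only [sum_add_distrib, mul_add, mul_sum]
      rw [e]
      have t1 := T3a hD hD0 a ha
      have t2 := T3b hD hD0 a ha
      have t3 := T3c hD hD0 a ha
      calc (j : ℝ) * _ ≤ j * (D ^ 2 + D ^ 2 + D ^ 2) := by
            apply mul_le_mul_of_nonneg_left _ (Nat.cast_nonneg _)
            linarith
        _ = _ := by ring
    calc _ ≤ ∑ a ∈ V, 3 * (j : ℝ) * D ^ 2 := sum_le_sum h2
      _ = _ := by rw [sum_const, nsmul_eq_mul]; ring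
  · rw [← sum_filter, sum_const, nsmul_eq_mul]
    exact mul_le_mul_of_nonneg_right (heavy3 hx j) (by positivity)

theorem S8_bound (hx : XI V) {B : ℕ} (hB : ∀ L ∈ lines V, (pl V L).card ≤ B) {D : ℝ}
    (hD : ∀ a ∈ V, (deg V a : ℝ) ≤ D) (hD0 : 0 ≤ D) (j : ℕ) :
    ((S8 V).card : ℝ) ≤ 4 * j * V.card * D ^ 3 + ((heavy V j).card : ℝ) ^ 4 * (B : ℝ) ^ 4 := by
  refine S8_card_le.trans ?_
  have hpt : ∀ t ∈ N4 V, lr V t.1 t.2.1 * (lr V t.2.1 t.2.2.1 * (lr V t.2.2.1 t.2.2.2 * lr V t.2.2.2 t.1))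
      ≤ (j * (lr V t.2.1 t.2.2.1 * (lr V t.2.2.1 t.2.2.2 * lr V t.2.2.2 t.1))
        + j * (lr V t.1 t.2.1 * (lr V t.2.2.1 t.2.2.2 * lr V t.2.2.2 t.1))
        + j * (lr V t.1 t.2.1 * (lr V t.2.1 t.2.2.1 * lr V t.2.2.2 t.1))
        + j * (lr V t.1 t.2.1 * (lr V t.2.1 t.2.2.1 * lr V t.2.2.1 t.2.2.2)))
        + (if (j < ll V t.1 t.2.1 ∧ j < ll V t.2.1 t.2.2.1 ∧ j < ll V t.2.2.1 t.2.2.2 ∧ j < ll V t.2.2.2 t.1)
            then (B : ℝ) ^ 4 else 0) := by
    rintro ⟨a, b, c, d⟩ ht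
    obtain ⟨⟨ha, hb, hc, hd⟩, hn⟩ := mem_N4.1 ht
    simp only
    have l1 := lr_nonneg (V := V) a b
    have l2 := lr_nonneg (V := V) b c
    have l3 := lr_nonneg (V := V) c d
    have l4 := lr_nonneg (V := V) d a
    have hj0 : (0 : ℝ) ≤ j := Nat.cast_nonneg _
    split_ifs with h
    · have u1 : lr V a b ≤ B := by unfold lr; exact_mod_cast ll_le hx hB ha hb
      have u2 : lr V b c ≤ B := by unfold lr; exact_mod_cast ll_le hx hB hb hc
      have u3 : lr V c d ≤ B := by unfold lr; exact_mod_cast ll_le hx hB hc hd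
      have u4 : lr V d a ≤ B := by unfold lr; exact_mod_cast ll_le hx hB hd ha
      have hB0 : (0 : ℝ) ≤ B := Nat.cast_nonneg _
      have h1 : lr V a b * (lr V b c * (lr V c d * lr V d a)) ≤ B * (B * (B * B)) := by
        apply mul_le_mul u1 _ (by positivity) hB0
        apply mul_le_mul u2 _ (by positivity) hB0
        exact mul_le_mul u3 u4 l4 hB0
      have e : (B : ℝ) * (B * (B * B)) = B ^ 4 := by ring
      rw [e] at h1
      have b1 : 0 ≤ (j : ℝ) * (lr V b c * (lr V c d * lr V d a)) := by positivity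
      have b2 : 0 ≤ (j : ℝ) * (lr V a b * (lr V c d * lr V d a)) := by positivity
      have b3 : 0 ≤ (j : ℝ) * (lr V a b * (lr V b c * lr V d a)) := by positivity
      have b4 : 0 ≤ (j : ℝ) * (lr V a b * (lr V b c * lr V c d)) := by positivity
      linarith
    · apply mul4_le l1 l2 l3 l4 hj0 _ le_rfl
      unfold lr
      by_contra hcon
      push Not at hcon
      apply h
      exact ⟨by exact_mod_cast hcon.1, by exact_mod_cast hcon.2.1, by exact_mod_cast hcon.2.2.1,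
        by exact_mod_cast hcon.2.2.2⟩
  refine (sum_le_sum hpt).trans ?_
  rw [sum_add_distrib]
  apply add_le_add
  · have h1 : ∑ t ∈ N4 V, ((j : ℝ) * (lr V t.2.1 t.2.2.1 * (lr V t.2.2.1 t.2.2.2 * lr V t.2.2.2 t.1))
        + j * (lr V t.1 t.2.1 * (lr V t.2.2.1 t.2.2.2 * lr V t.2.2.2 t.1))
        + j * (lr V t.1 t.2.1 * (lr V t.2.1 t.2.2.1 * lr V t.2.2.2 t.1))
        + j * (lr V t.1 t.2.1 * (lr V t.2.1 t.2.2.1 * lr V t.2.2.1 t.2.2.2)))
        ≤ ∑ a ∈ V, ∑ b ∈ V, ∑ c ∈ V, ∑ d ∈ V, (j * (lr V b c * (lr V c d * lr V d a))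
          + j * (lr V a b * (lr V c d * lr V d a)) + j * (lr V a b * (lr V b c * lr V d a))
          + j * (lr V a b * (lr V b c * lr V c d))) := by
      apply N4_sum_le
      intro t
      have l1 := lr_nonneg (V := V) t.1 t.2.1
      have l2 := lr_nonneg (V := V) t.2.1 t.2.2.1
      have l3 := lr_nonneg (V := V) t.2.2.1 t.2.2.2
      have l4 := lr_nonneg (V := V) t.2.2.2 t.1
      positivity
    refine h1.trans ?_
    have h2 : ∀ a ∈ V, ∑ b ∈ V, ∑ c ∈ V, ∑ d ∈ V, ((j : ℝ) * (lr V b c * (lr V c d * lr V d a))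
          + j * (lr V a b * (lr V c d * lr V d a)) + j * (lr V a b * (lr V b c * lr V d a))
          + j * (lr V a b * (lr V b c * lr V c d)))
        ≤ 4 * j * D ^ 3 := by
      intro a ha
      have e : ∑ b ∈ V, ∑ c ∈ V, ∑ d ∈ V, ((j : ℝ) * (lr V b c * (lr V c d * lr V d a))
          + j * (lr V a b * (lr V c d * lr V d a)) + j * (lr V a b * (lr V b c * lr V d a))
          + j * (lr V a b * (lr V b c * lr V c d)))
          = j * (∑ b ∈ V, ∑ c ∈ V, ∑ d ∈ V, lr V b c * (lr V c d * lr V d a)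
            + ∑ b ∈ V, ∑ c ∈ V, ∑ d ∈ V, lr V a b * (lr V c d * lr V d a)
            + ∑ b ∈ V, ∑ c ∈ V, ∑ d ∈ V, lr V a b * (lr V b c * lr V d a)
            + ∑ b ∈ V, ∑ c ∈ V, ∑ d ∈ V, lr V a b * (lr V b c * lr V c d)) := by
        simp only [sum_add_distrib, mul_add, mul_sum]
      rw [e]
      have t1 := T4x hD hD0 a ha
      have t2 := T4y hD hD0 a ha
      have t3 := T4z hD hD0 a ha
      have t4 := T4w hD hD0 a ha
      calc (j : ℝ) * _ ≤ j * (D ^ 3 + D ^ 3 + D ^ 3 + D ^ 3) := by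
            apply mul_le_mul_of_nonneg_left _ (Nat.cast_nonneg _)
            linarith
        _ = _ := by ring
    calc _ ≤ ∑ a ∈ V, 4 * (j : ℝ) * D ^ 3 := sum_le_sum h2
      _ = _ := by rw [sum_const, nsmul_eq_mul]; ring
  · rw [← sum_filter, sum_const, nsmul_eq_mul]
    exact mul_le_mul_of_nonneg_right (heavy4 hx j) (by positivity)

end Pool.Agent.Helper64.Gow
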