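import Pool.Agent.Helper64.Gow6

set_option autoImplicit false

namespace Pool.Agent.Helper64.Gow

open Finset Res
open scoped Classical

variable {V : Finset Pt}

noncomputable def st6 (s : (Pt × Pt × Pt) × (Pt × Pt × Pt)) : Finset Pt :=
  {s.1.1, s.1.2.1, s.1.2.2, s.2.1, s.2.2.1, s.2.2.2}

noncomputable def st8 (s : (Pt × Pt × Pt × Pt) × (Pt × Pt × Pt × Pt)) : Finset Pt :=
  {s.1.1, s.1.2.1, s.1.2.2.1, s.1.2.2.2, s.2.1, s.2.2.1, s.2.2.2.1, s.2.2.2.2}

noncomputable def st3 (s : Pt × Pt × Pt) : Finset Pt := {s.1, s.2.1, s.2.2}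

noncomputable def R6 (V : Finset Pt) := (S6 V).filter (fun s => (st6 s).card = 6 ∧ st6 s ⊆ V)
noncomputable def R8 (V : Finset Pt) := (S8 V).filter (fun s => (st8 s).card = 8 ∧ st8 s ⊆ V)

noncomputable def LK (V : Finset Pt) (K : ℕ) : Finset (Finset Pt) := (lines V).biUnion (fun L => (pl V L).powersetCard K)

lemma LK_card {B K : ℕ} (hB : ∀ L ∈ lines V, (pl V L).card ≤ B) : (LK V K).card ≤ V.card ^ 2 * B.choose K := by
  unfold LK
  refine card_biUnion_le.trans ?_
  calc ∑ L ∈ lines V, ((pl V L).powersetCard K).card ≤ ∑ L ∈ lines V, B.choose K := by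
        apply sum_le_sum
        intro L hL
        rw [card_powersetCard]
        exact Nat.choose_le_choose K (hB L hL)
    _ = (lines V).card * B.choose K := by rw [sum_const, smul_eq_mul]
    _ ≤ V.card ^ 2 * B.choose K := by
        apply Nat.mul_le_mul_right
        unfold lines
        refine card_image_le.trans ?_
        rw [offDiag_card, sq]
        exact Nat.sub_le _ _

lemma mem_LK {K : ℕ} {T : Finset Pt} (h : T ∈ LK V K) : T ⊆ V ∧ T.card = K := by
  unfold LK at h
  rw [mem_biUnion] at h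
  obtain ⟨L, _, hT⟩ := h
  rw [mem_powersetCard] at hT
  exact ⟨hT.1.trans (filter_subset _ _), hT.2⟩

lemma st3_card {q : Pt × Pt × Pt} (h : q ∈ trs V) : (st3 q).card = 3 ∧ st3 q ⊆ V := by
  unfold trs at h
  simp only [mem_filter, mem_product] at h
  obtain ⟨⟨h1, h2, h3⟩, h4, h5, h6, _⟩ := h
  unfold st3
  constructor
  · rw [card_insert_of_notMem, card_pair h6.symm]
    simp only [mem_insert, mem_singleton, not_or]
    exact ⟨h4, h5.symm⟩
  · intro p hp
    simp only [mem_insert, mem_singleton] at hp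
    rcases hp with rfl | rfl | rfl <;> assumption

lemma trs_sub {R : Finset Pt} (hR : R ⊆ V) : (trs R).card ≤ ((trs V).filter (fun q => st3 q ⊆ R)).card := by
  apply card_le_card
  intro q hq
  unfold trs at hq ⊢
  simp only [mem_filter, mem_product] at hq ⊢
  obtain ⟨⟨h1, h2, h3⟩, h4⟩ := hq
  refine ⟨⟨⟨hR h1, hR h2, hR h3⟩, h4⟩, ?_⟩
  unfold st3
  intro p hp
  simp only [mem_insert, mem_singleton] at hp
  rcases hp with rfl | rfl | rfl <;> assumption

/-- good functional -/
noncomputable def Ph (V : Finset Pt) (K : ℕ) (al : ℝ) (R : Finset Pt) : ℝ :=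
  ∑ s ∈ R6 V, ind (st6 s) R + ∑ s ∈ R8 V, ind (st8 s) R + al * ∑ q ∈ trs V, ind (st3 q) R
    + (V.card + 1) * ∑ T ∈ LK V K, ind T R + (-1) * ∑ x ∈ V, ind {x} R

lemma Ph_exp {K : ℕ} {al p : ℝ} :
    EE V (fun _ => p) (Ph V K al) = p ^ 6 * (R6 V).card + p ^ 8 * (R8 V).card + al * (p ^ 3 * (trs V).card)
      + (V.card + 1) * (p ^ K * (LK V K).card) + (-1) * (p * V.card) := by
  unfold Ph
  rw [EE_add, EE_add, EE_add, EE_add, EE_mul, EE_mul, EE_mul, EE_sum, EE_sum, EE_sum, EE_sum, EE_sum]
  have k6 : ∑ s ∈ R6 V, EE V (fun _ => p) (ind (st6 s)) = p ^ 6 * (R6 V).card := by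
    rw [sum_congr rfl (fun s hs => EE_ind_const (mem_filter.1 hs).2.2 (mem_filter.1 hs).2.1), sum_const,
      nsmul_eq_mul, mul_comm]
  have k8 : ∑ s ∈ R8 V, EE V (fun _ => p) (ind (st8 s)) = p ^ 8 * (R8 V).card := by
    rw [sum_congr rfl (fun s hs => EE_ind_const (mem_filter.1 hs).2.2 (mem_filter.1 hs).2.1), sum_const,
      nsmul_eq_mul, mul_comm]
  have k3 : ∑ q ∈ trs V, EE V (fun _ => p) (ind (st3 q)) = p ^ 3 * (trs V).card := by
    rw [sum_congr rfl (fun s hs => EE_ind_const (st3_card hs).2 (st3_card hs).1), sum_const,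
      nsmul_eq_mul, mul_comm]
  have kK : ∑ T ∈ LK V K, EE V (fun _ => p) (ind T) = p ^ K * (LK V K).card := by
    rw [sum_congr rfl (fun s hs => EE_ind_const (mem_LK hs).1 (mem_LK hs).2), sum_const,
      nsmul_eq_mul, mul_comm]
  have k1 : ∑ x ∈ V, EE V (fun _ => p) (ind {x}) = p * V.card := by
    rw [sum_congr rfl (fun x hx => EE_ind_const (singleton_subset_iff.2 hx) (card_singleton x)), sum_const,
      nsmul_eq_mul, pow_one, mul_comm]
  rw [k6, k8, k3, kK, k1]

structure Samp (V W : Finset Pt) (p D : ℝ) (K : ℕ) : Prop where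
  sub : W ⊆ V
  big : p * V.card / 4 ≤ W.card
  deg : ∀ z ∈ W, (deg W z : ℝ) ≤ 2 * p ^ 2 * D
  line : ∀ L ∈ lines V, (pl W L).card < K
  notri : ∀ a ∈ W, ∀ b ∈ W, ∀ c ∈ W, ∀ e ∈ W, ∀ f ∈ W, ∀ g ∈ W, ¬ col a b c → e ≠ a → e ≠ b → col a b e →
    f ≠ b → f ≠ c → col b c f → g ≠ a → g ≠ c → col a c g → False
  noquad : ∀ a ∈ W, ∀ b ∈ W, ∀ c ∈ W, ∀ d ∈ W, ∀ e ∈ W, ∀ f ∈ W, ∀ g ∈ W, ∀ h ∈ W,
    ¬ col a b c → ¬ col b c d → ¬ col c d a → ¬ col d a b → e ≠ a → e ≠ b → col a b e →
    f ≠ b → f ≠ c → col b c f → g ≠ c → g ≠ d → col c d g → h ≠ d → h ≠ a → col d a h → False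

lemma mem_third {a b c : Pt} : c ∈ third V a b ↔ c ∈ V ∧ a ≠ b ∧ c ≠ a ∧ c ≠ b ∧ col a b c := by
  unfold third
  rw [mem_filter]

lemma share {x y z w : Pt} (hw : w ≠ x) (h1 : col x y w) (h2 : col x z w) : col x y z :=
  col_trans hw.symm (col_23 h1) (col_23 h2)

theorem sample (_hx : XI V) {B K : ℕ} (hB : ∀ L ∈ lines V, (pl V L).card ≤ B) {p D : ℝ}
    (hD : ∀ a ∈ V, (deg V a : ℝ) ≤ D) (hD0 : 0 < D) (hp0 : 0 < p) (hp1 : p ≤ 1) (hV : 0 < V.card)
    (h6 : p ^ 6 * (S6 V).card ≤ p * V.card / 16) (h8 : p ^ 8 * (S8 V).card ≤ p * V.card / 16)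
    (hK : ((V.card : ℝ) + 1) * (p ^ K * ((V.card : ℝ) ^ 2 * (B.choose K : ℝ))) ≤ p * V.card / 16) :
    ∃ W, Samp V W p D K := by
  have hVR : (0 : ℝ) < V.card := by exact_mod_cast hV
  have hpV : 0 < p * V.card := by positivity
  set al : ℝ := 1 / (2 * p ^ 2 * D) with hal
  have hal0 : 0 < al := by rw [hal]; positivity
  have hE : EE V (fun _ => p) (Ph V K al) < - (p * V.card / 4) := by
    rw [Ph_exp]
    have t6 : p ^ 6 * ((R6 V).card : ℝ) ≤ p ^ 6 * (S6 V).card := by
      apply mul_le_mul_of_nonneg_left _ (by positivity)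
      exact_mod_cast card_le_card (filter_subset _ _)
    have t8 : p ^ 8 * ((R8 V).card : ℝ) ≤ p ^ 8 * (S8 V).card := by
      apply mul_le_mul_of_nonneg_left _ (by positivity)
      exact_mod_cast card_le_card (filter_subset _ _)
    have tT : al * (p ^ 3 * ((trs V).card : ℝ)) ≤ p * V.card / 2 := by
      have h1 : ((trs V).card : ℝ) ≤ V.card * D := by
        rw [← Tr_eq]
        unfold Tr
        push_cast
        calc ∑ a ∈ V, (deg V a : ℝ) ≤ ∑ a ∈ V, D := sum_le_sum hD
          _ = _ := by rw [sum_const, nsmul_eq_mul]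
      calc al * (p ^ 3 * ((trs V).card : ℝ)) ≤ al * (p ^ 3 * (V.card * D)) := by
            apply mul_le_mul_of_nonneg_left _ hal0.le
            apply mul_le_mul_of_nonneg_left h1 (by positivity)
        _ = p * V.card / 2 := by rw [hal]; field_simp
    have tK : ((V.card : ℝ) + 1) * (p ^ K * ((LK V K).card : ℝ)) ≤ p * V.card / 16 := by
      refine le_trans ?_ hK
      apply mul_le_mul_of_nonneg_left _ (by positivity)
      apply mul_le_mul_of_nonneg_left _ (by positivity)
      exact_mod_cast LK_card hB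
    linarith
  obtain ⟨R, hR, hPR⟩ := exists_lt (fun _ _ => hp0.le) (fun _ _ => hp1) hE
  unfold Ph at hPR
  rw [← card_filter_ind, ← card_filter_ind, ← card_filter_ind, ← cardR_eq hR] at hPR
  set b3 := ((R6 V).filter (fun s => st6 s ⊆ R)).image (fun s => s.1.1) with hb3
  set b4 := ((R8 V).filter (fun s => st8 s ⊆ R)).image (fun s => s.1.1) with hb4
  set bT := R.filter (fun z => ¬ (deg R z : ℝ) ≤ 2 * p ^ 2 * D) with hbT
  have c3 : (b3.card : ℝ) ≤ ((R6 V).filter (fun s => st6 s ⊆ R)).card := by exact_mod_cast card_image_le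
  have c4 : (b4.card : ℝ) ≤ ((R8 V).filter (fun s => st8 s ⊆ R)).card := by exact_mod_cast card_image_le
  have cT : (bT.card : ℝ) ≤ al * ((trs V).filter (fun q => st3 q ⊆ R)).card := by
    have h1 : (bT.card : ℝ) * (2 * p ^ 2 * D) ≤ ((trs V).filter (fun q => st3 q ⊆ R)).card := by
      calc (bT.card : ℝ) * (2 * p ^ 2 * D) = ∑ z ∈ bT, (2 * p ^ 2 * D) := by rw [sum_const, nsmul_eq_mul]
        _ ≤ ∑ z ∈ bT, (deg R z : ℝ) := by
            apply sum_le_sum
            intro z hz
            have := (mem_filter.1 hz).2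
            push Not at this
            exact this.le
        _ ≤ ∑ z ∈ R, (deg R z : ℝ) := by
            apply sum_le_sum_of_subset_of_nonneg (filter_subset _ _)
            intro a _ _
            positivity
        _ = ((trs R).card : ℝ) := by
            rw [← Tr_eq]; unfold Tr; push_cast; rfl
        _ ≤ _ := by exact_mod_cast trs_sub hR
    rw [hal, one_div_mul_eq_div, le_div_iff₀ (by positivity)]
    exact h1
  have hXL : ∀ T ∈ LK V K, ¬ T ⊆ R := by
    intro T hT hTR
    have h1 : (1 : ℝ) ≤ ∑ T ∈ LK V K, ind T R := by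
      rw [← card_filter_ind]
      have : 0 < ((LK V K).filter (fun T => T ⊆ R)).card := card_pos.2 ⟨T, mem_filter.2 ⟨hT, hTR⟩⟩
      exact_mod_cast this
    have h2 : (R.card : ℝ) ≤ V.card := by exact_mod_cast card_le_card hR
    have h3 : ((V.card : ℝ) + 1) * 1 ≤ (V.card + 1) * ∑ T ∈ LK V K, ind T R :=
      mul_le_mul_of_nonneg_left h1 (by positivity)
    have p3 : (0 : ℝ) ≤ ((R6 V).filter (fun s => st6 s ⊆ R)).card := Nat.cast_nonneg _
    have p4 : (0 : ℝ) ≤ ((R8 V).filter (fun s => st8 s ⊆ R)).card := Nat.cast_nonneg _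
    have pT : (0 : ℝ) ≤ al * ((trs V).filter (fun q => st3 q ⊆ R)).card := by positivity
    linarith
  have hXL0 : (0 : ℝ) ≤ (V.card + 1) * ∑ T ∈ LK V K, ind T R := by
    apply mul_nonneg (by positivity)
    exact sum_nonneg (fun T _ => ind_nonneg _ _)
  set W := R \ (b3 ∪ (b4 ∪ bT)) with hW
  have hWR : W ⊆ R := sdiff_subset
  have hWn : ∀ a ∈ W, a ∉ b3 ∧ a ∉ b4 ∧ a ∉ bT := by
    intro a ha
    have := (mem_sdiff.1 ha).2
    rw [mem_union, mem_union, not_or, not_or] at this
    exact this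
  have hnotri : ∀ a ∈ W, ∀ b ∈ W, ∀ c ∈ W, ∀ e ∈ W, ∀ f ∈ W, ∀ g ∈ W, ¬ col a b c → e ≠ a → e ≠ b → col a b e →
    f ≠ b → f ≠ c → col b c f → g ≠ a → g ≠ c → col a c g → False := by
    intro a ha b hb c hc e he f hf g hg hn h1 h2 h3 h4 h5 h6' h7 h8' h9
    obtain ⟨n1, n2, n3⟩ := ne_of_ncol hn
    apply (hWn a ha).1
    rw [hb3, mem_image]
    refine ⟨((a, b, c), (f, g, e)), ?_, rfl⟩
    have hsub : st6 ((a, b, c), (f, g, e)) ⊆ R := by
      unfold st6
      intro p hp
      simp only [mem_insert, mem_singleton] at hp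
      rcases hp with rfl | rfl | rfl | rfl | rfl | rfl <;> apply hWR <;> assumption
    unfold R6
    rw [mem_filter, mem_filter]
    refine ⟨⟨?_, ?_, hsub.trans hR⟩, hsub⟩
    · unfold S6
      rw [mem_biUnion]
      refine ⟨(a, b, c), mem_N3.2 ⟨⟨hR (hWR ha), hR (hWR hb), hR (hWR hc)⟩, hn⟩, ?_⟩
      rw [mem_product, mem_product, mem_product, mem_singleton]
      refine ⟨rfl, ?_, ?_, ?_⟩
      · exact mem_third.2 ⟨hR (hWR hf), n2, h4, h5, h6'⟩
      · exact mem_third.2 ⟨hR (hWR hg), n3.symm, h8', h7, col_12 h9⟩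
      · exact mem_third.2 ⟨hR (hWR he), n1, h1, h2, h3⟩
    · unfold st6
      simp only
      have af : a ≠ f := fun h => hn (by rw [h]; exact col_12 (col_23 (by rw [h] at n1 n3; exact h6')))
      have bg : b ≠ g := fun h => hn (by rw [h]; exact col_23 h9)
      have ce : c ≠ e := fun h => hn (by rw [h]; exact h3)
      have fg : f ≠ g := by
        intro h
        rw [← h] at h9
        -- share c
        have : col c b a := share h5 (col_12 h6') (col_12 h9)
        exact hn (col_12 (col_23 (col_12 this)))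
      have fe' : f ≠ e := by
        intro h
        rw [← h] at h3
        have : col b a c := share h4 (col_12 h3) h6'
        exact hn (col_12 this)
      have ge' : g ≠ e := by
        intro h
        rw [← h] at h3
        have : col a b c := share h7 h3 h9
        exact hn this
      rw [card_insert_of_notMem, card_insert_of_notMem, card_insert_of_notMem, card_insert_of_notMem,
        card_insert_of_notMem, card_singleton]
      · simpa using ge'
      · simp only [mem_insert, mem_singleton, not_or]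
        exact ⟨fg, fe'⟩
      · simp only [mem_insert, mem_singleton, not_or]
        exact ⟨h5.symm, h8'.symm, ce⟩
      · simp only [mem_insert, mem_singleton, not_or]
        exact ⟨n2, h4.symm, bg, h2.symm⟩
      · simp only [mem_insert, mem_singleton, not_or]
        exact ⟨n1, n3, af, h7.symm, h1.symm⟩
  refine ⟨W, hWR.trans hR, ?_, ?_, ?_, hnotri, ?_⟩
  · have h1 : R.card ≤ W.card + (b3 ∪ (b4 ∪ bT)).card := by
      have := card_le_card_sdiff_add_card (s := R) (t := b3 ∪ (b4 ∪ bT))
      omega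
    have h2 : (b3 ∪ (b4 ∪ bT)).card ≤ b3.card + (b4.card + bT.card) :=
      (card_union_le _ _).trans (Nat.add_le_add_left (card_union_le _ _) _)
    have h3 : (R.card : ℝ) ≤ W.card + (b3.card + (b4.card + bT.card)) := by exact_mod_cast h1.trans (by omega)
    linarith
  · intro z hz
    have h1 := (hWn z hz).2.2
    rw [hbT, mem_filter, not_and, not_not] at h1
    have h2 := h1 (hWR hz)
    have h3 : (Gow.deg W z : ℝ) ≤ Gow.deg R z := by exact_mod_cast deg_mono hWR z
    linarith
  · intro L hL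
    by_contra hcon
    push Not at hcon
    obtain ⟨T, hT1, hT2⟩ := exists_subset_card_eq hcon
    apply hXL T
    · unfold LK
      rw [mem_biUnion]
      refine ⟨L, hL, mem_powersetCard.2 ⟨?_, hT2⟩⟩
      intro x hx
      have := hT1 hx
      unfold pl at this ⊢
      rw [mem_filter] at this ⊢
      exact ⟨hR (hWR this.1), this.2⟩
    · intro x hx
      have := hT1 hx
      unfold pl at this
      exact hWR (mem_filter.1 this).1
  · intro a ha b hb c hc d hd e he f hf g hg h hh m1 m2 m3 m4 ea eb hce fb fc hcf gc gd hcg hd' ha' hch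
    obtain ⟨nab, nbc, nac⟩ := ne_of_ncol m1
    obtain ⟨-, ncd, nbd⟩ := ne_of_ncol m2
    obtain ⟨-, nda, -⟩ := ne_of_ncol m3
    have ce : c ≠ e := fun h => m1 (by rw [h]; exact hce)
    have de : d ≠ e := fun h => m4 (by rw [h]; exact col_12 (col_23 hce))
    have af : a ≠ f := fun h => m1 (by rw [h]; exact col_12 (col_23 (by exact hcf)))
    have df : d ≠ f := fun h => m2 (by rw [h]; exact hcf)
    have ag : a ≠ g := fun h => m3 (by rw [h]; exact hcg)
    have bg : b ≠ g := fun h => m2 (by rw [h]; exact col_12 (col_23 hcg))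
    have bh : b ≠ h := fun h' => m4 (by rw [h']; exact hch)
    have ch : c ≠ h := fun h' => m3 (by rw [h']; exact col_12 (col_23 hch))
    have ef : e ≠ f := by
      intro h'
      rw [← h'] at hcf
      exact m1 (col_12 (share eb (col_12 hce) hcf))
    have fg : f ≠ g := by
      intro h'
      rw [← h'] at hcg
      exact m2 (col_12 (share fc (col_12 hcf) hcg))
    have gh : g ≠ h := by
      intro h'
      rw [← h'] at hch
      exact m3 (col_12 (share gd (col_12 hcg) hch))
    have he' : h ≠ e := by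
      intro h'
      rw [← h'] at hce
      exact m4 (col_12 (share ha' (col_12 hch) hce))
    have eg : e ≠ g := by
      intro h'
      rw [← h'] at hcg
      -- triangle e b c
      refine hnotri e he b hb c hc a ha f hf d hd ?_ ea.symm nab (col_12 (col_23 (col_12 hce))) fb fc hcf de ncd.symm
        (col_12 (col_23 hcg))
      intro hc'
      exact m1 (col_12 (col_trans eb.symm (col_23 (col_12 hce)) (col_12 hc')))
    have fh : f ≠ h := by
      intro h'
      rw [← h'] at hch
      refine hnotri f hf c hc d hd b hb g hg a ha ?_ fb.symm nbc (col_12 (col_23 (col_12 hcf))) gc gd hcg af nda.symm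
        (col_12 (col_23 hch))
      intro hc'
      exact m2 (col_12 (col_trans fc.symm (col_23 (col_12 hcf)) (col_12 hc')))
    apply (hWn a ha).2.1
    rw [hb4, mem_image]
    refine ⟨((a, b, c, d), (e, f, g, h)), ?_, rfl⟩
    have hsub : st8 ((a, b, c, d), (e, f, g, h)) ⊆ R := by
      unfold st8
      intro p hp
      simp only [mem_insert, mem_singleton] at hp
      rcases hp with rfl | rfl | rfl | rfl | rfl | rfl | rfl | rfl <;> apply hWR <;> assumption
    unfold R8
    rw [mem_filter, mem_filter]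
    refine ⟨⟨?_, ?_, hsub.trans hR⟩, hsub⟩
    · unfold S8
      rw [mem_biUnion]
      refine ⟨(a, b, c, d), mem_N4.2 ⟨⟨hR (hWR ha), hR (hWR hb), hR (hWR hc), hR (hWR hd)⟩, m1, m2, m3, m4⟩, ?_⟩
      rw [mem_product, mem_product, mem_product, mem_product, mem_singleton]
      refine ⟨rfl, ?_, ?_, ?_, ?_⟩
      · exact mem_third.2 ⟨hR (hWR he), nab, ea, eb, hce⟩
      · exact mem_third.2 ⟨hR (hWR hf), nbc, fb, fc, hcf⟩
      · exact mem_third.2 ⟨hR (hWR hg), ncd, gc, gd, hcg⟩
      · exact mem_third.2 ⟨hR (hWR hh), nda, hd', ha', hch⟩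
    · unfold st8
      simp only
      rw [card_insert_of_notMem, card_insert_of_notMem, card_insert_of_notMem, card_insert_of_notMem,
        card_insert_of_notMem, card_insert_of_notMem, card_insert_of_notMem, card_singleton]
      · simpa using gh
      · simp only [mem_insert, mem_singleton, not_or]
        exact ⟨fg, fh⟩
      · simp only [mem_insert, mem_singleton, not_or]
        exact ⟨ef, eg, he'.symm⟩
      · simp only [mem_insert, mem_singleton, not_or]
        exact ⟨de, df, gd.symm, hd'.symm⟩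
      · simp only [mem_insert, mem_singleton, not_or]
        exact ⟨ncd, ce, fc.symm, gc.symm, ch⟩
      · simp only [mem_insert, mem_singleton, not_or]
        exact ⟨nbc, nbd, eb.symm, fb.symm, bg, bh⟩
      · simp only [mem_insert, mem_singleton, not_or]
        exact ⟨nab, nac, nda.symm, ea.symm, af, ag, ha'.symm⟩

end Pool.Agent.Helper64.Gow
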