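import Pool.Agent.Helper64.Gow7
import Pool.Agent.Helper64.Proc9

set_option autoImplicit false

namespace Pool.Agent.Helper64.Gow

open Finset
open scoped Classical

lemma exists_enum (W : Finset Pt) :
    ∃ pt : ℕ → Pt, Function.Injective pt ∧ (∀ i < W.card, pt i ∈ W) ∧ (∀ p ∈ W, ∃ i < W.card, pt i = p) := by
  obtain ⟨M0, hM0⟩ : ∃ M0 : ℝ, ∀ p ∈ W, p.1 ≤ M0 := by
    obtain ⟨M, hM⟩ := (W.image Prod.fst).bddAbove
    refine ⟨M, fun p hp => hM ?_⟩
    rw [mem_coe]
    exact mem_image_of_mem _ hp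
  set e := W.equivFin with he
  refine ⟨fun i => if h : i < W.card then ((e.symm ⟨i, h⟩ : W) : Pt) else (M0 + 1 + i, 0), ?_, ?_, ?_⟩
  · intro i j hij
    simp only at hij
    by_cases hi : i < W.card
    · by_cases hj : j < W.card
      · rw [dif_pos hi, dif_pos hj] at hij
        have := e.symm.injective (Subtype.ext hij)
        simpa using this
      · rw [dif_pos hi, dif_neg hj] at hij
        have h1 := hM0 _ (e.symm ⟨i, hi⟩).2
        rw [hij] at h1
        simp only at h1
        have : (0 : ℝ) ≤ j := Nat.cast_nonneg _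
        linarith
    · by_cases hj : j < W.card
      · rw [dif_neg hi, dif_pos hj] at hij
        have h1 := hM0 _ (e.symm ⟨j, hj⟩).2
        rw [← hij] at h1
        simp only at h1
        have : (0 : ℝ) ≤ i := Nat.cast_nonneg _
        linarith
      · rw [dif_neg hi, dif_neg hj] at hij
        have := congrArg Prod.fst hij
        simp only at this
        have h2 : (i : ℝ) = j := by linarith
        exact_mod_cast h2
  · intro i hi
    simp only [hi, dif_pos]
    exact (e.symm ⟨i, hi⟩).2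
  · intro p hp
    refine ⟨(e ⟨p, hp⟩ : Fin W.card), (e ⟨p, hp⟩).2, ?_⟩
    simp only [Fin.is_lt, dif_pos, Fin.eta, Equiv.symm_apply_apply]

lemma mem_filter_any {s : Finset ℕ} {p : ℕ → Prop} {inst : DecidablePred p} {a : ℕ}
    (h : a ∈ @Finset.filter _ p inst s) : a ∈ s ∧ p a := Finset.mem_filter.1 h

/-- numeric and structural hypotheses -/
structure PData (W : Finset Pt) (om Z g s Dg : ℝ) : Prop where
  om0 : 0 < om
  Z0 : 0 ≤ Z
  s0 : 0 < s
  gZ : g * (Z + 1) ≤ 1 / 256
  pg : (5 / 4) * (om * Real.exp Z) ≤ g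
  sg : s * (om * Real.exp Z) ≤ g
  Dg0 : 0 ≤ Dg
  deg : ∀ z ∈ W, (deg W z : ℝ) ≤ Dg
  line : ∀ a ∈ W, ∀ b ∈ W, a ≠ b → ((W.filter (fun v => col a b v)).card : ℝ) * om ≤ 1 / 256
  notri : ∀ a ∈ W, ∀ b ∈ W, ∀ c ∈ W, ∀ e ∈ W, ∀ f ∈ W, ∀ g ∈ W, ¬ col a b c → e ≠ a → e ≠ b → col a b e →
    f ≠ b → f ≠ c → col b c f → g ≠ a → g ≠ c → col a c g → False
  noquad : ∀ a ∈ W, ∀ b ∈ W, ∀ c ∈ W, ∀ d ∈ W, ∀ e ∈ W, ∀ f ∈ W, ∀ g ∈ W, ∀ h ∈ W,
    ¬ col a b c → ¬ col b c d → ¬ col c d a → ¬ col d a b → e ≠ a → e ≠ b → col a b e →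
    f ≠ b → f ≠ c → col b c f → g ≠ c → g ≠ d → col c d g → h ≠ d → h ≠ a → col d a h → False

lemma deg_pairs {W : Finset Pt} {pt : ℕ → Pt} (inj : Function.Injective pt) (mem : ∀ i < W.card, pt i ∈ W)
    {z : ℕ} {Z : Finset (ℕ × ℕ)}
    (hZ : ∀ q ∈ Z, q.1 < W.card ∧ q.2 < W.card ∧ z ≠ q.1 ∧ q.2 ≠ z ∧ q.2 ≠ q.1 ∧ col (pt z) (pt q.1) (pt q.2)) :
    Z.card ≤ deg W (pt z) := by
  have h1 : deg W (pt z) = ((W ×ˢ W).filter (fun q => pt z ≠ q.1 ∧ q.2 ≠ pt z ∧ q.2 ≠ q.1 ∧ col (pt z) q.1 q.2)).card := by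
    unfold deg ll
    simp only [card_filter, sum_product]
  rw [h1]
  apply card_le_card_of_injOn (fun q => (pt q.1, pt q.2))
  · intro q hq
    obtain ⟨a1, a2, a3, a4, a5, a6⟩ := hZ q (mem_coe.1 hq)
    rw [mem_coe, mem_filter, mem_product]
    exact ⟨⟨mem _ a1, mem _ a2⟩, fun h => a3 (inj h), fun h => a4 (inj h), fun h => a5 (inj h), a6⟩
  · intro q _ r _ hqr
    simp only [Prod.mk.injEq] at hqr
    exact Prod.ext (inj hqr.1) (inj hqr.2)

lemma deg_single {W : Finset Pt} {pt : ℕ → Pt} (inj : Function.Injective pt) (mem : ∀ i < W.card, pt i ∈ W)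
    {t : ℕ} {Z : Finset ℕ}
    (hZ : ∀ v ∈ Z, (t + 1 ≤ v ∧ v < W.card) ∧ ∃ a, a < t ∧ col (pt a) (pt t) (pt v)) :
    Z.card ≤ deg W (pt t) := by
  have hch : ∀ v : ℕ, ∃ a : ℕ, v ∈ Z → (a < t ∧ col (pt a) (pt t) (pt v)) := by
    intro v
    by_cases hv : v ∈ Z
    · obtain ⟨_, a, ha⟩ := hZ v hv
      exact ⟨a, fun _ => ha⟩
    · exact ⟨0, fun h => absurd h hv⟩
  choose g hg using hch
  have h1 : (Z.image (fun v => (v, g v))).card = Z.card := by
    apply card_image_of_injective
    intro a b hab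
    simp only [Prod.mk.injEq] at hab
    exact hab.1
  rw [← h1]
  apply deg_pairs inj mem
  intro q hq
  rw [mem_image] at hq
  obtain ⟨v, hv, rfl⟩ := hq
  obtain ⟨⟨h2, h3⟩, _⟩ := hZ v hv
  obtain ⟨h4, h5⟩ := hg v hv
  simp only
  exact ⟨h3, by omega, by omega, by omega, by omega, col_23 (col_12 h5)⟩

noncomputable def mkS (W : Finset Pt) (om Z g s Dg : ℝ) (H : PData W om Z g s Dg) (pt : ℕ → Pt)
    (inj : Function.Injective pt) (mem : ∀ i < W.card, pt i ∈ W) : Proc.Sys2 where
  M := W.card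
  C := fun a b c => col (pt a) (pt b) (pt c)
  C12 := fun _ _ _ h => col_12 h
  C23 := fun _ _ _ h => col_23 h
  Cd := fun _ _ => col_self3 _ _
  Ctr := fun _ _ _ _ hab h1 h2 => col_trans (fun h => hab (inj h)) h1 h2
  w0 := fun _ => om
  Zm := fun _ => Z
  ga := fun _ => g
  s := fun _ => s
  w0_pos := fun _ => H.om0
  Zm_nonneg := fun _ => H.Z0
  gaZ := fun _ => H.gZ
  pm_ga := fun _ => H.pg
  s_pos := fun _ => H.s0
  s_le := fun _ _ _ _ _ _ _ _ => H.sg
  notri := fun a b c ha hb hc hn r1 r2 r3 => by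
    obtain ⟨e, he, h1, h2, h3⟩ := r1
    obtain ⟨f, hf, h4, h5, h6⟩ := r2
    obtain ⟨g, hg, h7, h8, h9⟩ := r3
    exact H.notri _ (mem a ha) _ (mem b hb) _ (mem c hc) _ (mem e he) _ (mem f hf) _ (mem g hg) hn
      (fun h => h1 (inj h)) (fun h => h2 (inj h)) h3 (fun h => h4 (inj h)) (fun h => h5 (inj h)) h6
      (fun h => h7 (inj h)) (fun h => h8 (inj h)) h9
  noquad := fun a b c d ha hb hc hd n1 n2 n3 n4 r1 r2 r3 r4 => by
    obtain ⟨e, he, h1, h2, h3⟩ := r1
    obtain ⟨f, hf, h4, h5, h6⟩ := r2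
    obtain ⟨g, hg, h7, h8, h9⟩ := r3
    obtain ⟨i, hi, h10, h11, h12⟩ := r4
    exact H.noquad _ (mem a ha) _ (mem b hb) _ (mem c hc) _ (mem d hd) _ (mem e he) _ (mem f hf) _ (mem g hg) _ (mem i hi)
      n1 n2 n3 n4
      (fun h => h1 (inj h)) (fun h => h2 (inj h)) h3 (fun h => h4 (inj h)) (fun h => h5 (inj h)) h6
      (fun h => h7 (inj h)) (fun h => h8 (inj h)) h9 (fun h => h10 (inj h)) (fun h => h11 (inj h)) h12
  cls := fun _ => 0
  cd := fun _ => Dg
  cd_nonneg := fun _ => H.Dg0
  deg := fun t k ht => by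
    refine le_trans ?_ (H.deg (pt t) (mem t ht))
    have := deg_single inj mem (t := t)
      (Z := (Ico (t + 1) W.card).filter (fun v => (0 : ℕ) = k ∧ ∃ a, a < t ∧ col (pt a) (pt t) (pt v))) (by
        intro v hv
        have h1 := mem_filter_any hv
        exact ⟨mem_Ico.1 h1.1, h1.2.2⟩)
    exact_mod_cast this

theorem apply_process {W : Finset Pt} {om Z g s Dg : ℝ} (H : PData W om Z g s Dg) (hW : 0 < W.card)
    (hnum : 8 * Real.exp (om ^ 2 * Dg - Z) + (64 / (om * W.card) + 64 * Dg * Real.exp Z / W.card)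
      + (W.card : ℝ) ^ 2 * Real.exp (-(s / 256)) < 1) :
    ∃ S ⊆ W, (∀ a ∈ S, ∀ b ∈ S, ∀ c ∈ S, a ≠ b → a ≠ c → b ≠ c → ¬ col a b c) ∧ om * W.card / 2 ≤ (S.card : ℝ) := by
  obtain ⟨pt, inj, mem, surj⟩ := exists_enum W
  set D := mkS W om Z g s Dg H pt inj mem with hDd
  have hWR : (0 : ℝ) < W.card := by exact_mod_cast hW
  have hmass : D.mass0 0 = om * W.card := by
    unfold Proc.Sys2.mass0
    have e1 : (range D.M).filter (fun v => D.cls v = 0) = range W.card := by
      apply filter_true_of_mem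
      intro v _
      rfl
    have e2 : ∀ v, D.w0 v = om := fun v => rfl
    rw [e1]
    simp only [e2, sum_const, card_range, nsmul_eq_mul]
    ring
  have hmass_any : ∀ z, D.mass0 (D.cls z) = om * W.card := fun z => hmass
  have hom := H.om0
  have main := Proc.Sys2.process D {0} (by
    intro k hk
    rw [mem_singleton] at hk
    rw [hk, hmass]
    positivity) ?_
  · obtain ⟨S, hS1, hS2, hS3⟩ := main
    have h3 := hS3 0 (mem_singleton_self 0)
    rw [hmass] at h3
    refine ⟨S.image pt, ?_, ?_, ?_⟩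
    · intro p hp
      rw [mem_image] at hp
      obtain ⟨i, hi, rfl⟩ := hp
      exact mem i (mem_range.1 (hS1 hi))
    · intro a ha b hb c hc hab hac hbc hcol
      rw [mem_image] at ha hb hc
      obtain ⟨i, hi, rfl⟩ := ha
      obtain ⟨j, hj, rfl⟩ := hb
      obtain ⟨k, hk, rfl⟩ := hc
      exact hS2 i hi j hj k hk (fun h => hab (by rw [h])) (fun h => hac (by rw [h])) (fun h => hbc (by rw [h])) hcol
    · rw [card_image_of_injective _ inj]
      refine h3.trans ?_
      exact_mod_cast card_le_card (filter_subset _ _)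
  · refine lt_of_le_of_lt ?_ hnum
    apply add_le_add (add_le_add ?_ ?_) ?_
    · -- first sum
      have hT : ∀ z ∈ range D.M, D.T0 z ≤ om ^ 2 * Dg := by
        intro z hz
        have hz' : z < W.card := mem_range.1 hz
        unfold Proc.Sys2.T0
        have e1 : ∑ v ∈ range z, ∑ x ∈ range z, (if x ≠ v ∧ D.C x v z then D.w0 x * D.w0 v else 0)
            = om ^ 2 * (((range z ×ˢ range z).filter (fun q => q.2 ≠ q.1 ∧ D.C q.2 q.1 z)).card : ℝ) := by
          rw [← sum_product', card_filter]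
          push_cast
          rw [mul_sum]
          apply sum_congr rfl
          intro q _
          have e2 : ∀ v, D.w0 v = om := fun v => rfl
          rw [e2, e2]
          split_ifs <;> ring
        rw [e1]
        apply mul_le_mul_of_nonneg_left _ (by positivity)
        refine le_trans ?_ (H.deg (pt z) (mem z hz'))
        have := deg_pairs inj mem (z := z) (Z := (range z ×ˢ range z).filter (fun q => q.2 ≠ q.1 ∧ D.C q.2 q.1 z)) (by
          intro q hq
          rw [mem_filter, mem_product, mem_range, mem_range] at hq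
          obtain ⟨⟨h1, h2⟩, h3, h4⟩ := hq
          have h5 : col (pt q.2) (pt q.1) (pt z) := h4
          exact ⟨by omega, by omega, by omega, by omega, h3, col_12 (col_23 (col_12 h5))⟩)
        exact_mod_cast this
      have e3 : ∀ z ∈ range D.M, 8 / (Real.exp (D.Zm z) * D.mass0 (D.cls z)) * (D.w0 z * Real.exp (D.T0 z))
          ≤ (8 * Real.exp (om ^ 2 * Dg - Z)) / W.card := by
        intro z hz
        rw [hmass_any]
        have e4 : D.Zm z = Z := rfl
        have e5 : D.w0 z = om := rfl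
        rw [e4, e5]
        have h1 : Real.exp (D.T0 z) ≤ Real.exp (om ^ 2 * Dg) := Real.exp_le_exp.2 (hT z hz)
        have h2 : 8 / (Real.exp Z * (om * W.card)) * (om * Real.exp (D.T0 z))
            ≤ 8 / (Real.exp Z * (om * W.card)) * (om * Real.exp (om ^ 2 * Dg)) := by
          apply mul_le_mul_of_nonneg_left _ (by positivity)
          exact mul_le_mul_of_nonneg_left h1 hom.le
        refine h2.trans (le_of_eq ?_)
        rw [Real.exp_sub]
        have := (Real.exp_pos Z).ne'
        field_simp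
      calc _ ≤ ∑ z ∈ range D.M, (8 * Real.exp (om ^ 2 * Dg - Z)) / W.card := sum_le_sum e3
        _ = 8 * Real.exp (om ^ 2 * Dg - Z) := by
          have e6 : (D.M : ℕ) = W.card := rfl
          rw [sum_const, card_range, nsmul_eq_mul, e6]
          field_simp
    · -- second sum
      rw [sum_singleton, hmass]
      have e1 : (range D.M).filter (fun v => D.cls v = 0) = range W.card := by
        apply filter_true_of_mem
        intro v _
        rfl
      rw [e1]
      have e2 : ∀ v, D.w0 v * (2 * D.pm v) = om * (2 * (om * Real.exp Z)) := fun v => rfl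
      have e3 : D.cd 0 = Dg := rfl
      rw [e3]
      simp only [e2, sum_const, card_range, nsmul_eq_mul]
      apply le_of_eq
      field_simp
      ring
    · -- third sum
      have hsub : D.prs ⊆ range W.card ×ˢ range W.card := filter_subset _ _
      have h1 : ∀ e ∈ D.prs, Real.exp (D.s e.2 * (∑ v ∈ range D.M, (if D.C e.1 e.2 v then D.w0 v else 0) - 1 / 128))
          ≤ Real.exp (-(s / 256)) := by
        intro e he
        obtain ⟨he1, he2, _⟩ := Proc.Sys2.mem_prs.1 he
        have he2' : e.2 < W.card := he2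
        rw [Real.exp_le_exp]
        have e2 : D.s e.2 = s := rfl
        rw [e2]
        have e3 : ∑ v ∈ range D.M, (if D.C e.1 e.2 v then D.w0 v else 0)
            = (((range W.card).filter (fun v => col (pt e.1) (pt e.2) (pt v))).card : ℝ) * om := by
          rw [card_filter]
          push_cast
          rw [sum_mul]
          apply sum_congr rfl
          intro v _
          have e4 : D.C e.1 e.2 v ↔ col (pt e.1) (pt e.2) (pt v) := Iff.rfl
          have e5 : D.w0 v = om := rfl
          rw [e5]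
          by_cases hc : col (pt e.1) (pt e.2) (pt v)
          · rw [if_pos (e4.2 hc), if_pos hc, one_mul]
          · rw [if_neg (fun h => hc (e4.1 h)), if_neg hc, zero_mul]
        rw [e3]
        have h2 : (((range W.card).filter (fun v => col (pt e.1) (pt e.2) (pt v))).card : ℝ)
            ≤ ((W.filter (fun v => col (pt e.1) (pt e.2) v)).card : ℝ) := by
          have : ((range W.card).filter (fun v => col (pt e.1) (pt e.2) (pt v))).card
              ≤ (W.filter (fun v => col (pt e.1) (pt e.2) v)).card := by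
            apply card_le_card_of_injOn pt
            · intro v hv
              rw [mem_coe, mem_filter, mem_range] at hv
              rw [mem_coe, mem_filter]
              exact ⟨mem v hv.1, hv.2⟩
            · intro x _ y _ hxy
              exact inj hxy
          exact_mod_cast this
        have h3 := H.line (pt e.1) (mem _ (he1.trans he2')) (pt e.2) (mem _ he2') (fun h => he1.ne (inj h))
        have h4 := mul_le_mul_of_nonneg_right h2 hom.le
        have h5 := H.s0
        nlinarith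
      calc _ ≤ ∑ e ∈ D.prs, Real.exp (-(s / 256)) := sum_le_sum h1
        _ = (D.prs.card : ℝ) * Real.exp (-(s / 256)) := by rw [sum_const, nsmul_eq_mul]
        _ ≤ (W.card : ℝ) ^ 2 * Real.exp (-(s / 256)) := by
          apply mul_le_mul_of_nonneg_right _ (Real.exp_pos _).le
          have h2 := card_le_card hsub
          rw [card_product, card_range, ← sq] at h2
          exact_mod_cast h2

end Pool.Agent.Helper64.Gow
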