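import Pool.Agent.Helper64.Gow8

set_option autoImplicit false

namespace Pool.Agent.Helper64.Gow

open Finset
open scoped Classical

structure Cnd (nu : ℝ) : Prop where
  c1 : 2 ^ 24 ≤ nu
  c2 : nu ^ 3000 * Real.exp (-nu) ≤ 1 / 64
  c3 : Real.exp (-(Real.log nu / 4)) < 1 / 32
  c4 : (Real.log nu / 2) ^ 2 * Real.exp (-(Real.log nu / 2)) ≤ 1 / 300000
  c5 : 2 ≤ Real.log nu

lemma cnd_eventually : ∀ᶠ nu : ℝ in Filter.atTop, Cnd nu := by
  have h2 : ∀ᶠ nu : ℝ in Filter.atTop, nu ^ 3000 * Real.exp (-nu) < 1 / 64 :=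
    (Real.tendsto_pow_mul_exp_neg_atTop_nhds_zero 3000).eventually_lt_const (by norm_num)
  have hl4 : Filter.Tendsto (fun nu : ℝ => Real.log nu / 4) Filter.atTop Filter.atTop :=
    Real.tendsto_log_atTop.atTop_div_const (by norm_num)
  have hl2 : Filter.Tendsto (fun nu : ℝ => Real.log nu / 2) Filter.atTop Filter.atTop :=
    Real.tendsto_log_atTop.atTop_div_const (by norm_num)
  have h3 : ∀ᶠ nu : ℝ in Filter.atTop, Real.exp (-(Real.log nu / 4)) < 1 / 32 := by
    have := (Real.tendsto_exp_neg_atTop_nhds_zero.comp hl4).eventually_lt_const (show (0 : ℝ) < 1 / 32 by norm_num)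
    exact this
  have h4 : ∀ᶠ nu : ℝ in Filter.atTop, (Real.log nu / 2) ^ 2 * Real.exp (-(Real.log nu / 2)) < 1 / 300000 := by
    have := ((Real.tendsto_pow_mul_exp_neg_atTop_nhds_zero 2).comp hl2).eventually_lt_const
      (show (0 : ℝ) < 1 / 300000 by norm_num)
    exact this
  filter_upwards [Filter.eventually_ge_atTop (2 ^ 24 : ℝ), h2, h3, h4,
    Real.tendsto_log_atTop.eventually_ge_atTop 2] with nu a1 a2 a3 a4 a5
  exact ⟨a1, a2.le, a3, a4.le, a5⟩

lemma lines_sub {V P : Finset Pt} (h : V ⊆ P) {L : Pt} (hL : L ∈ lines V) : L ∈ lines P := by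
  obtain ⟨a, ha, b, hb, hab, hl⟩ := mem_lines.1 hL
  exact mem_lines.2 ⟨a, h ha, b, h hb, hab, hl⟩

lemma pl_mono {V P : Finset Pt} (h : V ⊆ P) (L : Pt) : (pl V L).card ≤ (pl P L).card :=
  card_le_card (filter_subset_filter _ h)

/-- the large case -/
theorem big_case {P : Finset Pt} (hx : XI P) (hline : ∀ L ∈ lines P, (pl P L).card ^ 2 ≤ P.card) {nu : ℝ}
    (hc : Cnd nu) (hnu : nu ^ 1000 = (P.card : ℝ)) :
    ∃ S ⊆ P, (∀ a ∈ S, ∀ b ∈ S, ∀ c ∈ S, a ≠ b → a ≠ c → b ≠ c → ¬ col a b c) ∧ nu ^ 500 / 2 ^ 15 ≤ (S.card : ℝ) := by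
  have hnu24 := hc.c1
  have hnu1 : (1 : ℝ) ≤ nu := by linarith [show (1 : ℝ) ≤ 2 ^ 24 by norm_num]
  have hnu0 : (0 : ℝ) < nu := by linarith
  set l := Real.log nu with hl
  have hl2 : 2 ≤ l := hc.c5
  have hlnu : l ≤ nu := by
    have := Real.log_le_sub_one_of_pos hnu0
    linarith
  set B := Nat.sqrt P.card with hB
  have hBl : ∀ L ∈ lines P, (pl P L).card ≤ B := by
    intro L hL
    rw [hB, Nat.le_sqrt, ← sq]
    exact hline L hL
  have hB2 : B ^ 2 ≤ P.card := by rw [sq]; exact Nat.sqrt_le _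
  have hBR : (B : ℝ) ≤ nu ^ 500 := by
    have h1 : (B : ℝ) ^ 2 ≤ (nu ^ 500) ^ 2 := by
      rw [← pow_mul, hnu]
      exact_mod_cast hB2
    exact le_of_sq_le_sq h1 (by positivity)
  have hlogB : Real.log B ≤ 500 * l := by
    rcases Nat.eq_zero_or_pos B with h0 | h0
    · rw [h0]; simp; linarith
    · have h1 : Real.log B ≤ Real.log (nu ^ 500) := Real.log_le_log (by exact_mod_cast h0) hBR
      rw [Real.log_pow] at h1
      exact_mod_cast h1
  set N : ℝ := (P.card : ℝ) with hN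
  have hN0 : 0 < N := by rw [← hnu]; positivity
  have hPpos : 0 < P.card := by
    have : (0 : ℝ) < (P.card : ℝ) := hN0
    exact_mod_cast this
  set D : ℝ := 2 ^ 19 * N * l with hD
  have hD0 : 0 < D := by rw [hD]; positivity
  -- regularize
  have hTr := triples_bound hx hBl (hB2.trans (by omega))
  have hTr2 : 2 * (Tr P : ℝ) ≤ D * P.card := by
    have h1 : (8 + 7 * Real.log B) ≤ 3504 * l := by linarith
    have h2 : (Tr P : ℝ) ≤ 72 * N ^ 2 * (3504 * l) := by
      refine hTr.trans ?_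
      apply mul_le_mul_of_nonneg_left h1 (by positivity)
    rw [hD]
    have h3 : 0 ≤ N ^ 2 * l := by positivity
    have h4 : (2 : ℝ) ^ 19 = 524288 := by norm_num
    rw [h4]
    nlinarith
  obtain ⟨V, hVP, hVc, hVd⟩ := regularize hTr2
  have hxV : XI V := fun p hp q hq h => hx p (hVP hp) q (hVP hq) h
  have hBV : ∀ L ∈ lines V, (pl V L).card ≤ B := fun L hL => (pl_mono hVP L).trans (hBl L (lines_sub hVP hL))
  set n : ℝ := (V.card : ℝ) with hn
  have hn1 : nu ^ 1000 / 2 ≤ n := by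
    have : (P.card : ℝ) ≤ 2 * V.card := by exact_mod_cast hVc
    rw [hnu]
    linarith
  have hn2 : n ≤ nu ^ 1000 := by
    rw [hnu, hn, hN]
    have : V.card ≤ P.card := card_le_card hVP
    exact_mod_cast this
  have hVpos : 0 < V.card := by
    have : (0 : ℝ) < n := lt_of_lt_of_le (by positivity) hn1
    rw [hn] at this
    exact_mod_cast this
  -- heavy lines
  set j := ⌈nu ^ 475⌉₊ with hj
  have hj1 : nu ^ 475 ≤ j := Nat.le_ceil _
  have hj2 : (j : ℝ) ≤ 2 * nu ^ 475 := by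
    have h1 : (j : ℝ) < nu ^ 475 + 1 := Nat.ceil_lt_add_one (by positivity)
    have h2 : (1 : ℝ) ≤ nu ^ 475 := one_le_pow₀ hnu1
    linarith
  have hj0 : 0 < j := by
    have : (0 : ℝ) < j := lt_of_lt_of_le (by positivity) hj1
    exact_mod_cast this
  have hjn : j ^ 2 ≤ 12 * V.card := by
    have h1 : (j : ℝ) ^ 2 ≤ 12 * n := by
      calc (j : ℝ) ^ 2 ≤ (2 * nu ^ 475) ^ 2 := pow_le_pow_left₀ (by positivity) hj2 2
        _ = 4 * nu ^ 950 := by ring
        _ ≤ 4 * nu ^ 1000 := by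
          apply mul_le_mul_of_nonneg_left _ (by norm_num)
          exact pow_le_pow_right₀ hnu1 (by norm_num)
        _ ≤ 12 * n := by
          have : 0 < nu ^ 1000 := by positivity
          linarith
    rw [hn] at h1
    exact_mod_cast h1
  set H : ℝ := ((heavy V j).card : ℝ) with hH
  have hHb : H ≤ 72 * nu ^ 575 := by
    have h1 : H ≤ 72 * n ^ 2 / (j : ℝ) ^ 3 := heavy_bound hxV hj0 hjn
    refine h1.trans ?_
    rw [div_le_iff₀ (by positivity)]
    calc 72 * n ^ 2 ≤ 72 * (nu ^ 1000) ^ 2 := by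
          apply mul_le_mul_of_nonneg_left _ (by norm_num)
          exact pow_le_pow_left₀ (by positivity) hn2 2
      _ = 72 * nu ^ 575 * (nu ^ 475) ^ 3 := by
          rw [← pow_mul, ← pow_mul, mul_assoc, ← pow_add]
      _ ≤ 72 * nu ^ 575 * (j : ℝ) ^ 3 := by
          apply mul_le_mul_of_nonneg_left _ (by positivity)
          exact pow_le_pow_left₀ (by positivity) hj1 3
  have hH0 : 0 ≤ H := Nat.cast_nonneg _
  have hDb : D ≤ 2 ^ 19 * nu ^ 1001 := by
    rw [hD, ← hnu]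
    calc 2 ^ 19 * nu ^ 1000 * l ≤ 2 ^ 19 * nu ^ 1000 * nu := by
          apply mul_le_mul_of_nonneg_left hlnu (by positivity)
      _ = _ := by rw [mul_assoc, ← pow_succ]
  have hB0 : (0 : ℝ) ≤ B := Nat.cast_nonneg _
  have hn0 : 0 < n := by rw [hn]; exact_mod_cast hVpos
  have hS6 : ((S6 V).card : ℝ) ≤ 2 ^ 41 * nu ^ 3477 := by
    refine (S6_bound hxV hBV hVd hD0.le j).trans ?_
    have e1 : 3 * (j : ℝ) * n * D ^ 2 ≤ 3 * (2 * nu ^ 475) * nu ^ 1000 * (2 ^ 19 * nu ^ 1001) ^ 2 := by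
      have := hD0.le
      gcongr
    have e2 : 3 * (2 * nu ^ 475) * nu ^ 1000 * (2 ^ 19 * nu ^ 1001) ^ 2 = 6 * 2 ^ 38 * nu ^ 3477 := by
      have : nu ^ 3477 = nu ^ 475 * nu ^ 1000 * (nu ^ 1001) ^ 2 := by
        rw [← pow_mul, ← pow_add, ← pow_add]
      rw [this]; ring
    have e3 : H ^ 3 * (B : ℝ) ^ 3 ≤ (72 * nu ^ 575) ^ 3 * (nu ^ 500) ^ 3 := by gcongr
    have e4 : (72 * nu ^ 575) ^ 3 * (nu ^ 500) ^ 3 = 373248 * nu ^ 3225 := by
      have : nu ^ 3225 = (nu ^ 575) ^ 3 * (nu ^ 500) ^ 3 := by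
        rw [← pow_mul, ← pow_mul, ← pow_add]
      rw [this]; ring
    have e5 : nu ^ 3225 ≤ nu ^ 3477 := pow_le_pow_right₀ hnu1 (by norm_num)
    have e6 : (0 : ℝ) < nu ^ 3477 := by positivity
    calc 3 * (j : ℝ) * n * D ^ 2 + H ^ 3 * (B : ℝ) ^ 3 ≤ 6 * 2 ^ 38 * nu ^ 3477 + 373248 * nu ^ 3225 := by
          rw [← e2, ← e4]; exact add_le_add e1 e3
      _ ≤ 2 ^ 41 * nu ^ 3477 := by
          have : (6 * 2 ^ 38 + 373248 : ℝ) ≤ 2 ^ 41 := by norm_num
          nlinarith
  have hS8 : ((S8 V).card : ℝ) ≤ 2 ^ 61 * nu ^ 4478 := by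
    refine (S8_bound hxV hBV hVd hD0.le j).trans ?_
    have e1 : 4 * (j : ℝ) * n * D ^ 3 ≤ 4 * (2 * nu ^ 475) * nu ^ 1000 * (2 ^ 19 * nu ^ 1001) ^ 3 := by
      have := hD0.le
      gcongr
    have e2 : 4 * (2 * nu ^ 475) * nu ^ 1000 * (2 ^ 19 * nu ^ 1001) ^ 3 = 2 ^ 60 * nu ^ 4478 := by
      have : nu ^ 4478 = nu ^ 475 * nu ^ 1000 * (nu ^ 1001) ^ 3 := by
        rw [← pow_mul, ← pow_add, ← pow_add]
      rw [this]; ring
    have e3 : H ^ 4 * (B : ℝ) ^ 4 ≤ (72 * nu ^ 575) ^ 4 * (nu ^ 500) ^ 4 := by gcongr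
    have e4 : (72 * nu ^ 575) ^ 4 * (nu ^ 500) ^ 4 = 26873856 * nu ^ 4300 := by
      have : nu ^ 4300 = (nu ^ 575) ^ 4 * (nu ^ 500) ^ 4 := by
        rw [← pow_mul, ← pow_mul, ← pow_add]
      rw [this]; ring
    have e5 : nu ^ 4300 ≤ nu ^ 4478 := pow_le_pow_right₀ hnu1 (by norm_num)
    have e6 : (0 : ℝ) < nu ^ 4478 := by positivity
    calc 4 * (j : ℝ) * n * D ^ 3 + H ^ 4 * (B : ℝ) ^ 4 ≤ 2 ^ 60 * nu ^ 4478 + 26873856 * nu ^ 4300 := by
          rw [← e2, ← e4]; exact add_le_add e1 e3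
      _ ≤ 2 ^ 61 * nu ^ 4478 := by
          have : (2 ^ 60 + 26873856 : ℝ) ≤ 2 ^ 61 := by norm_num
          nlinarith
  -- sampling
  set p : ℝ := 1 / nu ^ 499 with hp
  have hp0 : 0 < p := by rw [hp]; positivity
  have hp1 : p ≤ 1 := by
    rw [hp, div_le_one (by positivity)]
    exact one_le_pow₀ hnu1
  have hpn : nu ^ 501 / 2 ≤ p * n := by
    have h1 : nu ^ 501 / 2 = p * (nu ^ 1000 / 2) := by
      rw [hp]
      have : nu ^ 1000 = nu ^ 499 * nu ^ 501 := by rw [← pow_add]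
      rw [this]
      field_simp
    rw [h1]
    exact mul_le_mul_of_nonneg_left hn1 hp0.le
  have h6 : p ^ 6 * ((S6 V).card : ℝ) ≤ p * n / 16 := by
    calc p ^ 6 * ((S6 V).card : ℝ) ≤ p ^ 6 * (2 ^ 41 * nu ^ 3477) := by
          apply mul_le_mul_of_nonneg_left hS6 (by positivity)
      _ = 2 ^ 41 * nu ^ 483 := by
          have : nu ^ 3477 = (nu ^ 499) ^ 6 * nu ^ 483 := by rw [← pow_mul, ← pow_add]
          rw [hp, this]
          field_simp
      _ ≤ nu ^ 501 / 32 := by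
          have h1 : nu ^ 501 = nu ^ 483 * nu ^ 18 := by rw [← pow_add]
          have h2 : (2 ^ 24 : ℝ) ^ 18 ≤ nu ^ 18 := pow_le_pow_left₀ (by norm_num) hnu24 18
          have h3 : (2 : ℝ) ^ 46 ≤ (2 ^ 24) ^ 18 := by norm_num
          have h4 : (0 : ℝ) < nu ^ 483 := by positivity
          rw [h1, le_div_iff₀ (by norm_num)]
          nlinarith
      _ ≤ p * n / 16 := by linarith
  have h8 : p ^ 8 * ((S8 V).card : ℝ) ≤ p * n / 16 := by
    calc p ^ 8 * ((S8 V).card : ℝ) ≤ p ^ 8 * (2 ^ 61 * nu ^ 4478) := by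
          apply mul_le_mul_of_nonneg_left hS8 (by positivity)
      _ = 2 ^ 61 * nu ^ 486 := by
          have : nu ^ 4478 = (nu ^ 499) ^ 8 * nu ^ 486 := by rw [← pow_mul, ← pow_add]
          rw [hp, this]
          field_simp
      _ ≤ nu ^ 501 / 32 := by
          have h1 : nu ^ 501 = nu ^ 486 * nu ^ 15 := by rw [← pow_add]
          have h2 : (2 ^ 24 : ℝ) ^ 15 ≤ nu ^ 15 := pow_le_pow_left₀ (by norm_num) hnu24 15
          have h3 : (2 : ℝ) ^ 66 ≤ (2 ^ 24) ^ 15 := by norm_num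
          have h4 : (0 : ℝ) < nu ^ 486 := by positivity
          rw [h1, le_div_iff₀ (by norm_num)]
          nlinarith
      _ ≤ p * n / 16 := by linarith
  set K := ⌈6 * nu⌉₊ with hK
  have hK1 : 6 * nu ≤ K := Nat.le_ceil _
  have hK2 : (K : ℝ) ≤ 7 * nu := by
    have h1 : (K : ℝ) < 6 * nu + 1 := Nat.ceil_lt_add_one (by positivity)
    linarith
  have hKb : (n + 1) * (p ^ K * (n ^ 2 * (B.choose K : ℝ))) ≤ p * n / 16 := by
    have hpB : p * B ≤ nu := by
      calc p * B ≤ p * nu ^ 500 := mul_le_mul_of_nonneg_left hBR hp0.le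
        _ = nu := by
          have : nu ^ 500 = nu ^ 499 * nu := by rw [← pow_succ]
          rw [hp, this]
          field_simp
    have hch : (B.choose K : ℝ) ≤ (B : ℝ) ^ K / (K.factorial : ℝ) := Nat.choose_le_pow_div K B
    have hfac : (0 : ℝ) < K.factorial := by exact_mod_cast Nat.factorial_pos K
    have h1 : p ^ K * (B.choose K : ℝ) ≤ Real.exp (-nu) := by
      calc p ^ K * (B.choose K : ℝ) ≤ p ^ K * ((B : ℝ) ^ K / (K.factorial : ℝ)) := by
            apply mul_le_mul_of_nonneg_left hch (by positivity)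
        _ = (p * B) ^ K / K.factorial := by rw [mul_pow]; ring
        _ ≤ nu ^ K / K.factorial := by
            apply div_le_div_of_nonneg_right _ hfac.le
            exact pow_le_pow_left₀ (by positivity) hpB K
        _ = ((6 * nu) ^ K / K.factorial) * (1 / 6) ^ K := by
            rw [mul_pow, one_div, inv_pow]
            field_simp
        _ ≤ Real.exp (6 * nu) * Real.exp (-(3 / 2) * K) := by
            apply mul_le_mul
            · exact Real.pow_div_factorial_le_exp _ (by positivity) K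
            · have h2 : (1 / 6 : ℝ) ≤ Real.exp (-(3 / 2)) := by
                rw [Real.exp_neg, one_div]
                apply inv_anti₀ (Real.exp_pos _)
                have h3 : Real.exp (3 / 2) ^ 2 ≤ 6 ^ 2 := by
                  rw [← Real.exp_nat_mul]
                  have : ((2 : ℕ) : ℝ) * (3 / 2) = 1 + 1 + 1 := by norm_num
                  rw [this, Real.exp_add, Real.exp_add]
                  have h4 := Real.exp_one_lt_d9
                  have h5 := Real.exp_pos 1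
                  have h6 : Real.exp 1 ≤ 3 := by linarith
                  calc Real.exp 1 * Real.exp 1 * Real.exp 1 ≤ 3 * 3 * 3 := by gcongr
                    _ ≤ 6 ^ 2 := by norm_num
                exact le_of_sq_le_sq h3 (by norm_num)
              calc (1 / 6 : ℝ) ^ K ≤ Real.exp (-(3 / 2)) ^ K := pow_le_pow_left₀ (by norm_num) h2 K
                _ = Real.exp (-(3 / 2) * K) := by rw [← Real.exp_nat_mul]; ring_nf
            · positivity
            · positivity
        _ = Real.exp (6 * nu + -(3 / 2) * K) := by rw [Real.exp_add]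
        _ ≤ Real.exp (-nu) := by
            rw [Real.exp_le_exp]
            linarith
    have h2 : n + 1 ≤ 2 * nu ^ 1000 := by
      have : (1 : ℝ) ≤ nu ^ 1000 := one_le_pow₀ hnu1
      linarith
    have h3 : n ^ 2 ≤ nu ^ 2000 := by
      calc n ^ 2 ≤ (nu ^ 1000) ^ 2 := pow_le_pow_left₀ hn0.le hn2 2
        _ = nu ^ 2000 := by rw [← pow_mul]
    calc (n + 1) * (p ^ K * (n ^ 2 * (B.choose K : ℝ))) = (n + 1) * (n ^ 2 * (p ^ K * (B.choose K : ℝ))) := by ring
      _ ≤ (2 * nu ^ 1000) * (nu ^ 2000 * Real.exp (-nu)) := by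
          apply mul_le_mul h2 _ (by positivity) (by positivity)
          apply mul_le_mul h3 h1 (by positivity) (by positivity)
      _ = 2 * (nu ^ 3000 * Real.exp (-nu)) := by
          have : nu ^ 3000 = nu ^ 1000 * nu ^ 2000 := by rw [← pow_add]
          rw [this]; ring
      _ ≤ 2 * (1 / 64) := by
          apply mul_le_mul_of_nonneg_left hc.c2 (by norm_num)
      _ ≤ nu ^ 501 / 32 := by
          have : (1 : ℝ) ≤ nu ^ 501 := one_le_pow₀ hnu1
          linarith
      _ ≤ p * n / 16 := by linarith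
  obtain ⟨W, hW⟩ := sample hxV hBV hVd hD0 hp0 hp1 hVpos h6 h8 hKb
  have hWV := hW.sub
  have hWbig : nu ^ 501 / 8 ≤ (W.card : ℝ) := by
    have := hW.big
    have h1 : nu ^ 501 / 8 ≤ p * n / 4 := by linarith
    exact h1.trans this
  have hWpos : 0 < W.card := by
    have : (0 : ℝ) < W.card := lt_of_lt_of_le (by positivity) hWbig
    exact_mod_cast this
  have hWR : (0 : ℝ) < W.card := by exact_mod_cast hWpos
  have hWle : (W.card : ℝ) ≤ nu ^ 1000 := by
    refine le_trans ?_ hn2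
    rw [hn]
    exact_mod_cast card_le_card hWV
  have hDg : 2 * p ^ 2 * D = 2 ^ 20 * nu ^ 2 * l := by
    rw [hp, hD, ← hnu]
    have : nu ^ 1000 = (nu ^ 499) ^ 2 * nu ^ 2 := by rw [← pow_mul, ← pow_add]
    rw [this]
    field_simp
  set Z : ℝ := l / 2 with hZ
  have hZ1 : 1 ≤ Z := by rw [hZ]; linarith
  have hexpl : Real.exp l = nu := by rw [hl, Real.exp_log hnu0]
  have hexpZ : Real.exp Z * Real.exp Z = nu := by
    rw [← Real.exp_add, ← hexpl]; congr 1; rw [hZ]; ring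
  have hexpZ' : Real.exp Z ≤ nu := by
    rw [← hexpl, Real.exp_le_exp, hZ]; linarith
  set om : ℝ := 1 / (2048 * nu) with hom
  have hom0 : 0 < om := by rw [hom]; positivity
  have homZ : om * Real.exp Z = Real.exp (-Z) / 2048 := by
    rw [hom, ← hexpZ, Real.exp_neg]
    have := (Real.exp_pos Z).ne'
    field_simp
  have hPD : PData W om Z (1 / (256 * (Z + 1))) (256 * 2001 * l) (2 * p ^ 2 * D) := by
    refine ⟨hom0, by linarith, by positivity, ?_, ?_, ?_, by positivity, hW.deg, ?_, hW.notri, hW.noquad⟩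
    · have : Z + 1 ≠ 0 := by linarith
      rw [div_mul_eq_mul_div, one_mul, div_le_div_iff₀ (by positivity) (by norm_num)]
      linarith
    · rw [homZ, le_div_iff₀ (by positivity)]
      have h1 : (Z + 1) * Real.exp (-Z) ≤ 1 := by
        rw [Real.exp_neg, ← div_eq_mul_inv, div_le_one (Real.exp_pos _)]
        exact Real.add_one_le_exp Z
      nlinarith
    · rw [homZ, le_div_iff₀ (by positivity)]
      have h1 : Z ^ 2 * Real.exp (-Z) ≤ 1 / 300000 := hc.c4
      have h2 : l = 2 * Z := by rw [hZ]; ring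
      rw [h2]
      have h3 : 0 < Real.exp (-Z) := Real.exp_pos _
      have h4 : Z * (Z + 1) * Real.exp (-Z) ≤ 2 * (Z ^ 2 * Real.exp (-Z)) := by
        have : Z * (Z + 1) ≤ 2 * Z ^ 2 := by nlinarith
        have := mul_le_mul_of_nonneg_right this h3.le
        linarith
      have e : 256 * 2001 * (2 * Z) * (Real.exp (-Z) / 2048) * (256 * (Z + 1)) = 128064 * (Z * (Z + 1) * Real.exp (-Z)) := by
        ring
      rw [e]
      linarith
    · intro a ha b hb hab
      have haV := hWV ha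
      have hbV := hWV hb
      have hne := hxV.ne haV hbV hab
      have h1 : W.filter (fun v => col a b v) = pl W (ln (a, b)) := by
        unfold pl
        apply filter_congr
        intro v _
        exact col_on hne
      rw [h1]
      have h2 := hW.line (ln (a, b)) (mem_lines.2 ⟨a, haV, b, hbV, hab, rfl⟩)
      have h3 : ((pl W (ln (a, b))).card : ℝ) ≤ 7 * nu := by
        refine le_trans ?_ hK2
        exact_mod_cast h2.le
      calc ((pl W (ln (a, b))).card : ℝ) * om ≤ 7 * nu * om := mul_le_mul_of_nonneg_right h3 hom0.le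
        _ = 7 / 2048 := by rw [hom]; field_simp
        _ ≤ 1 / 256 := by norm_num
  have hnum : 8 * Real.exp (om ^ 2 * (2 * p ^ 2 * D) - Z) + (64 / (om * W.card) + 64 * (2 * p ^ 2 * D) * Real.exp Z / W.card)
      + (W.card : ℝ) ^ 2 * Real.exp (-((256 * 2001 * l) / 256)) < 1 := by
    have t1 : 8 * Real.exp (om ^ 2 * (2 * p ^ 2 * D) - Z) < 1 / 4 := by
      have e1 : om ^ 2 * (2 * p ^ 2 * D) - Z = -(l / 4) := by
        rw [hDg, hom, hZ]
        field_simp
        ring
      rw [e1]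
      have := hc.c3
      linarith
    have t2 : 64 / (om * W.card) ≤ 1 / 8 := by
      rw [div_le_div_iff₀ (by positivity) (by norm_num)]
      have h1 : om * (nu ^ 501 / 8) ≤ om * W.card := mul_le_mul_of_nonneg_left hWbig hom0.le
      have h2 : om * (nu ^ 501 / 8) = nu ^ 500 / 16384 := by
        have : nu ^ 501 = nu * nu ^ 500 := by rw [← pow_succ']
        rw [hom, this]
        field_simp
        norm_num
      have h3 : nu ≤ nu ^ 500 := by
        calc nu = nu ^ 1 := (pow_one nu).symm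
          _ ≤ nu ^ 500 := pow_le_pow_right₀ hnu1 (by norm_num)
      have h4 : (2 : ℝ) ^ 24 = 16777216 := by norm_num
      linarith
    have t3 : 64 * (2 * p ^ 2 * D) * Real.exp Z / W.card ≤ 1 / 8 := by
      rw [div_le_div_iff₀ hWR (by norm_num), hDg]
      have h1 : 2 ^ 20 * nu ^ 2 * l * Real.exp Z ≤ 2 ^ 20 * nu ^ 2 * nu * nu := by gcongr
      have h2 : 2 ^ 20 * nu ^ 2 * nu * nu = 2 ^ 20 * nu ^ 4 := by ring
      have h3 : nu ^ 501 = nu ^ 4 * nu ^ 497 := by rw [← pow_add]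
      have h4 : nu ^ 2 ≤ nu ^ 497 := pow_le_pow_right₀ hnu1 (by norm_num)
      have h5 : (2 ^ 24 : ℝ) ^ 2 ≤ nu ^ 2 := pow_le_pow_left₀ (by norm_num) hnu24 2
      have h6' : (0 : ℝ) < nu ^ 4 := by positivity
      have h7 : nu ^ 4 * 2 ^ 48 ≤ nu ^ 501 := by
        rw [h3]
        apply mul_le_mul_of_nonneg_left _ h6'.le
        have : (2 ^ 24 : ℝ) ^ 2 = 2 ^ 48 := by norm_num
        linarith
      have h9 : (2 : ℝ) ^ 48 = 281474976710656 := by norm_num
      have h10 : (2 : ℝ) ^ 20 = 1048576 := by norm_num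
      rw [h9] at h7
      rw [h10] at h1 h2 ⊢
      linarith
    have t4 : (W.card : ℝ) ^ 2 * Real.exp (-((256 * 2001 * l) / 256)) ≤ 1 / 8 := by
      have e1 : -((256 * 2001 * l) / 256) = -(((2001 : ℕ) : ℝ) * l) := by push_cast; ring
      rw [e1, Real.exp_neg, Real.exp_nat_mul, hexpl]
      have h1 : (W.card : ℝ) ^ 2 ≤ nu ^ 2000 := by
        calc (W.card : ℝ) ^ 2 ≤ (nu ^ 1000) ^ 2 := pow_le_pow_left₀ hWR.le hWle 2
          _ = nu ^ 2000 := by rw [← pow_mul]
      rw [← div_eq_mul_inv, div_le_div_iff₀ (by positivity) (by norm_num)]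
      have h2 : nu ^ 2001 = nu ^ 2000 * nu := by rw [← pow_succ]
      have h3 : (0 : ℝ) < nu ^ 2000 := by positivity
      have h4 : (2 : ℝ) ^ 24 = 16777216 := by norm_num
      rw [h2]
      nlinarith
    linarith
  obtain ⟨S, hS1, hS2, hS3⟩ := apply_process hPD hWpos hnum
  refine ⟨S, hS1.trans (hWV.trans hVP), hS2, ?_⟩
  refine le_trans ?_ hS3
  have h1 : om * (nu ^ 501 / 8) ≤ om * W.card := mul_le_mul_of_nonneg_left hWbig hom0.le
  have h2 : om * (nu ^ 501 / 8) = nu ^ 500 / 16384 := by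
    have : nu ^ 501 = nu * nu ^ 500 := by rw [← pow_succ']
    rw [hom, this]
    field_simp
    norm_num
  have h3 : nu ^ 500 / 2 ^ 15 = nu ^ 500 / 16384 / 2 := by ring
  rw [h3]
  linarith

end Pool.Agent.Helper64.Gow
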