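import Mathlib

set_option autoImplicit false

namespace Pool.Agent.Helper64.Proc

open Finset

/-- theta-lemma -/
lemma theta_lemma {p θ γ : ℝ} (hp0 : 0 ≤ p) (hp : p ≤ 1 / 8) (hθ0 : 0 ≤ θ) (hθ : θ ≤ γ) (hγ : γ ≤ 1) :
    p * Real.exp (-θ) + (1 - p) * Real.exp (p / (1 - p) * (1 - γ) * θ) ≤ 1 := by
  have h1p : 0 < 1 - p := by linarith
  have e1 : Real.exp (-θ) ≤ 1 - θ + θ ^ 2 / 2 := by
    have h2 : (1 + θ + θ ^ 2 / 2) ≤ Real.exp θ := Real.quadratic_le_exp_of_nonneg hθ0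
    rw [Real.exp_neg]
    have hpos : 0 < 1 + θ + θ ^ 2 / 2 := by positivity
    calc (Real.exp θ)⁻¹ ≤ (1 + θ + θ ^ 2 / 2)⁻¹ := inv_anti₀ hpos h2
      _ ≤ 1 - θ + θ ^ 2 / 2 := by
        rw [inv_le_iff_one_le_mul₀ hpos]
        nlinarith [sq_nonneg (θ ^ 2), sq_nonneg θ]
  set u := p / (1 - p) * (1 - γ) * θ with hu
  have hu0 : 0 ≤ u := by
    rw [hu]
    have : 0 ≤ 1 - γ := by linarith
    positivity
  have hpp : p / (1 - p) ≤ 1 / 7 := by
    rw [div_le_div_iff₀ h1p (by norm_num)]; linarith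
  have hpp0 : 0 ≤ p / (1 - p) := by positivity
  have hu1 : u ≤ 1 := by
    rw [hu]
    have h3 : p / (1 - p) * (1 - γ) * θ ≤ 1 * 1 * 1 := by
      apply mul_le_mul _ (by linarith) hθ0 (by norm_num)
      apply mul_le_mul (by linarith) (by linarith) (by linarith) (by norm_num)
    linarith
  have e2 : Real.exp u ≤ 1 + u + u ^ 2 := by
    have := Real.abs_exp_sub_one_sub_id_le (x := u) (by rw [abs_of_nonneg hu0]; exact hu1)
    rw [abs_le] at this
    linarith [this.2]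
  have e3 : (1 - p) * u = p * (1 - γ) * θ := by
    rw [hu]; field_simp
  have e4 : (1 - p) * u ^ 2 ≤ p * (1 / 7) * θ ^ 2 := by
    have : (1 - p) * u ^ 2 = (p * (1 - γ) * θ) * u := by rw [sq, ← mul_assoc, e3]
    rw [this]
    have h5 : u ≤ 1 / 7 * θ := by
      rw [hu]
      have : p / (1 - p) * (1 - γ) ≤ 1 / 7 * 1 := by
        apply mul_le_mul hpp (by linarith) (by linarith) (by norm_num)
      nlinarith
    have h6 : p * (1 - γ) * θ ≤ p * θ := by
      have : 0 ≤ p * θ := by positivity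
      nlinarith
    calc (p * (1 - γ) * θ) * u ≤ (p * θ) * (1 / 7 * θ) := by
          apply mul_le_mul h6 h5 hu0 (by positivity)
      _ = _ := by ring
  calc p * Real.exp (-θ) + (1 - p) * Real.exp u ≤ p * (1 - θ + θ ^ 2 / 2) + (1 - p) * (1 + u + u ^ 2) := by
        apply add_le_add
        · exact mul_le_mul_of_nonneg_left e1 hp0
        · exact mul_le_mul_of_nonneg_left e2 h1p.le
    _ = 1 - p * θ + p * θ ^ 2 / 2 + (1 - p) * u + (1 - p) * u ^ 2 := by ring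
    _ ≤ 1 - p * θ + p * θ ^ 2 / 2 + p * (1 - γ) * θ + p * (1 / 7) * θ ^ 2 := by linarith
    _ = 1 - p * θ * (γ - (1 / 2 + 1 / 7) * θ) := by ring
    _ ≤ 1 := by
      have : 0 ≤ p * θ * (γ - (1 / 2 + 1 / 7) * θ) := by
        apply mul_nonneg (by positivity)
        linarith
      linarith

lemma neg_log_le {p : ℝ} (hp0 : 0 ≤ p) (hp : p ≤ 1 / 64) : -Real.log (1 - p) ≤ p * (64 / 63) := by
  have h1p : 0 < 1 - p := by linarith
  have := Real.one_sub_inv_le_log_of_pos h1p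
  have h2 : (1 - p)⁻¹ - 1 = p / (1 - p) := by field_simp; ring
  have h3 : p / (1 - p) ≤ p * (64 / 63) := by
    rw [div_le_iff₀ h1p]
    nlinarith
  linarith

/-- case A -/
lemma caseA_lemma {p H : ℝ} (hp0 : 0 ≤ p) (hp : p ≤ 1 / 64)
    (hH : H ≤ -(5 / 4) * (15 / 16) * p + (5 / 4) * (p / (1 - p)) * (1 / 64)) :
    (1 - p) * ((1 / (1 - p)) ^ 2 * Real.exp H) ≤ 1 := by
  have h1p : 0 < 1 - p := by linarith
  have e1 : (1 - p) * ((1 / (1 - p)) ^ 2 * Real.exp H) = Real.exp (H - Real.log (1 - p)) := by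
    rw [Real.exp_sub, Real.exp_log h1p]
    field_simp
  rw [e1]
  apply Real.exp_le_one_iff.2
  have h2 := neg_log_le hp0 hp
  have h3 : p / (1 - p) ≤ p * (64 / 63) := by
    rw [div_le_iff₀ h1p]
    nlinarith
  nlinarith

/-- case B1 -/
lemma caseB1_lemma {p L ht a b : ℝ} (hp0 : 0 ≤ p) (hp : p ≤ 1 / 64) (hL0 : 0 ≤ L) (hL : L ≤ 1 / 64)
    (hht : (15 / 16) * p ≤ ht) (ha : a ≤ (5 / 4) * L - 2 * ht * L) (hb : b ≤ - (2 * ht * L)) :
    p * Real.exp a + (1 - p) * Real.exp b ≤ 1 := by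
  have h1p : 0 < 1 - p := by linarith
  have e2 : Real.exp ((5 / 4) * L) ≤ 1 + (5 / 4) * L + ((5 / 4) * L) ^ 2 := by
    have := Real.abs_exp_sub_one_sub_id_le (x := (5 / 4) * L) (by rw [abs_of_nonneg (by positivity)]; linarith)
    rw [abs_le] at this
    linarith [this.2]
  have e3 : Real.exp ((5 / 4) * L) ≤ 1 + (3 / 2) * L := by nlinarith
  have hc : p * Real.exp a + (1 - p) * Real.exp b ≤ Real.exp (- (2 * ht * L)) * (p * Real.exp ((5 / 4) * L) + (1 - p)) := by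
    have h1 : Real.exp a ≤ Real.exp (- (2 * ht * L)) * Real.exp ((5 / 4) * L) := by
      rw [← Real.exp_add]; apply Real.exp_le_exp.2; linarith
    have h2 : Real.exp b ≤ Real.exp (- (2 * ht * L)) := Real.exp_le_exp.2 hb
    nlinarith [mul_le_mul_of_nonneg_left h1 hp0, mul_le_mul_of_nonneg_left h2 h1p.le]
  have h5 : p * Real.exp ((5 / 4) * L) + (1 - p) ≤ 1 + p * (3 / 2) * L := by nlinarith
  have h6 : 1 + p * (3 / 2) * L ≤ Real.exp (p * (3 / 2) * L) := by
    have := Real.add_one_le_exp (p * (3 / 2) * L); linarith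
  calc _ ≤ Real.exp (- (2 * ht * L)) * (p * Real.exp ((5 / 4) * L) + (1 - p)) := hc
    _ ≤ Real.exp (- (2 * ht * L)) * Real.exp (p * (3 / 2) * L) :=
        mul_le_mul_of_nonneg_left (h5.trans h6) (Real.exp_pos _).le
    _ = Real.exp (- (2 * ht * L) + p * (3 / 2) * L) := by rw [Real.exp_add]
    _ ≤ 1 := by
      rw [← Real.exp_zero]
      apply Real.exp_le_exp.2
      nlinarith [mul_nonneg hp0 hL0, mul_le_mul_of_nonneg_right hht hL0]

end Pool.Agent.Helper64.Proc
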