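import Pool.Agent.Helper64.Proc1

set_option autoImplicit false

namespace Pool.Agent.Helper64.Proc

open Finset
open scoped Classical

def richC (M : ℕ) (C : ℕ → ℕ → ℕ → Prop) (a b : ℕ) : Prop := ∃ c, c < M ∧ c ≠ a ∧ c ≠ b ∧ C a b c

structure Sys where
  M : ℕ
  C : ℕ → ℕ → ℕ → Prop
  C12 : ∀ a b c, C a b c → C b a c
  C23 : ∀ a b c, C a b c → C a c b
  Cd : ∀ a b, C a a b
  Ctr : ∀ a b c d, a ≠ b → C a b c → C a b d → C a c d
  w0 : ℕ → ℝ
  Zm : ℕ → ℝ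
  ga : ℕ → ℝ
  s : ℕ → ℝ
  w0_pos : ∀ v, 0 < w0 v
  Zm_nonneg : ∀ v, 0 ≤ Zm v
  gaZ : ∀ v, ga v * (Zm v + 1) ≤ 1 / 256
  pm_ga : ∀ v, (5 / 4) * (w0 v * Real.exp (Zm v)) ≤ ga v
  s_pos : ∀ v, 0 < s v
  s_le : ∀ P Q v, P < Q → Q < M → v < M → richC M C P Q → C P Q v →
    s Q * (w0 v * Real.exp (Zm v)) ≤ ga v
  notri : ∀ a b c, a < M → b < M → c < M → ¬ C a b c → richC M C a b → richC M C b c →
    richC M C a c → False
  noquad : ∀ a b c d, a < M → b < M → c < M → d < M → ¬ C a b c → ¬ C b c d → ¬ C c d a →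
    ¬ C d a b → richC M C a b → richC M C b c → richC M C c d → richC M C d a → False

namespace Sys

variable (D : Sys)

def rich (a b : ℕ) : Prop := richC D.M D.C a b

noncomputable def pm (v : ℕ) : ℝ := D.w0 v * Real.exp (D.Zm v)

lemma pm_pos (v : ℕ) : 0 < D.pm v := mul_pos (D.w0_pos v) (Real.exp_pos _)

lemma w0_le_pm (v : ℕ) : D.w0 v ≤ D.pm v := by
  unfold pm
  have := Real.one_le_exp (D.Zm_nonneg v)
  nlinarith [D.w0_pos v]

lemma ga_pos (v : ℕ) : 0 < D.ga v := by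
  have h := D.pm_ga v
  have := D.pm_pos v
  unfold pm at this
  linarith

lemma ga_le (v : ℕ) : D.ga v ≤ 1 / 256 := by
  have h := D.gaZ v
  have h2 := mul_nonneg (D.ga_pos v).le (D.Zm_nonneg v)
  linarith

lemma pm_le (v : ℕ) : D.pm v ≤ 1 / 256 := by
  have h := D.pm_ga v
  have h2 := D.ga_le v
  have := D.pm_pos v
  unfold pm at *
  linarith

lemma C13 {a b c : ℕ} (h : D.C a b c) : D.C c b a :=
  D.C12 _ _ _ (D.C23 _ _ _ (D.C12 _ _ _ h))

lemma C231 {a b c : ℕ} (h : D.C a b c) : D.C b c a := D.C23 _ _ _ (D.C12 _ _ _ h)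

lemma C312 {a b c : ℕ} (h : D.C a b c) : D.C c a b := D.C12 _ _ _ (D.C23 _ _ _ h)

lemma Cd13 (a b : ℕ) : D.C a b a := D.C23 _ _ _ (D.Cd a b)
lemma Cd23 (a b : ℕ) : D.C a b b := D.C312 (D.Cd b a)

/-- `c` and `d` on line `ab` -/
lemma line2 {a b c d : ℕ} (hab : a ≠ b) (h1 : D.C a b c) (h2 : D.C a b d) : D.C a c d :=
  D.Ctr _ _ _ _ hab h1 h2

lemma line3 {a b c d : ℕ} (hab : a ≠ b) (h1 : D.C a b c) (h2 : D.C a b d) : D.C b c d :=
  D.Ctr _ _ _ _ hab.symm (D.C12 _ _ _ h1) (D.C12 _ _ _ h2)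

lemma rich_symm {a b : ℕ} (h : D.rich a b) : D.rich b a := by
  obtain ⟨c, h1, h2, h3, h4⟩ := h
  exact ⟨c, h1, h3, h2, D.C12 _ _ _ h4⟩

noncomputable def hat (v : ℕ) (x : ℝ) : ℝ := x * (1 - D.ga v * Real.log (x / D.w0 v))

/-- allowed weights -/
def Ok (v : ℕ) (x : ℝ) : Prop := x = 0 ∨ (D.w0 v ≤ x ∧ x ≤ D.pm v)

def Ok2 (v : ℕ) (x : ℝ) : Prop := x = 0 ∨ (D.w0 v ≤ x ∧ x ≤ 2 * D.pm v)

lemma Ok.ok2 {D : Sys} {v : ℕ} {x : ℝ} (h : D.Ok v x) : D.Ok2 v x := by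
  rcases h with h | h
  · exact Or.inl h
  · exact Or.inr ⟨h.1, by linarith [h.2, D.pm_pos v]⟩

lemma Ok2.nonneg {D : Sys} {v : ℕ} {x : ℝ} (h : D.Ok2 v x) : 0 ≤ x := by
  rcases h with h | h
  · linarith
  · linarith [h.1, D.w0_pos v]

lemma Ok.nonneg {D : Sys} {v : ℕ} {x : ℝ} (h : D.Ok v x) : 0 ≤ x := h.ok2.nonneg

lemma Ok.le_pm {D : Sys} {v : ℕ} {x : ℝ} (h : D.Ok v x) : x ≤ D.pm v := by
  rcases h with h | h
  · rw [h]; exact (D.pm_pos v).le
  · exact h.2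

lemma Ok.le {D : Sys} {v : ℕ} {x : ℝ} (h : D.Ok v x) : x ≤ 1 / 256 := h.le_pm.trans (D.pm_le v)

lemma log_bounds {v : ℕ} {x : ℝ} (h1 : D.w0 v ≤ x) (h2 : x ≤ 2 * D.pm v) :
    0 ≤ Real.log (x / D.w0 v) ∧ Real.log (x / D.w0 v) ≤ D.Zm v + 1 := by
  have hw := D.w0_pos v
  constructor
  · apply Real.log_nonneg
    rw [le_div_iff₀ hw]; linarith
  · have h3 : x / D.w0 v ≤ Real.exp (D.Zm v + 1) := by
      rw [div_le_iff₀ hw]
      unfold pm at h2
      rw [Real.exp_add]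
      have h4 : (2 : ℝ) ≤ Real.exp 1 := by
        have := Real.add_one_le_exp (1 : ℝ); linarith
      have h5 : 0 < D.w0 v * Real.exp (D.Zm v) := mul_pos hw (Real.exp_pos _)
      nlinarith
    have h4 : 0 < x / D.w0 v := div_pos (by linarith) hw
    calc Real.log (x / D.w0 v) ≤ Real.log (Real.exp (D.Zm v + 1)) := Real.log_le_log h4 h3
      _ = _ := Real.log_exp _

lemma hat_le {v : ℕ} {x : ℝ} (h : D.Ok2 v x) : D.hat v x ≤ x := by
  rcases h with h | h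
  · rw [h]; unfold hat; simp
  · have h1 := (D.log_bounds h.1 h.2).1
    have h2 := D.ga_pos v
    unfold hat
    have h3 : 0 ≤ x := by linarith [h.1, D.w0_pos v]
    have : 0 ≤ D.ga v * Real.log (x / D.w0 v) := by positivity
    nlinarith

lemma hat_ge {v : ℕ} {x : ℝ} (h : D.Ok2 v x) : (255 / 256) * x ≤ D.hat v x := by
  rcases h with h | h
  · rw [h]; unfold hat; simp
  · have h1 := (D.log_bounds h.1 h.2).2
    have h2 := D.ga_pos v
    have h4 := D.gaZ v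
    unfold hat
    have h3 : 0 ≤ x := by linarith [h.1, D.w0_pos v]
    have : D.ga v * Real.log (x / D.w0 v) ≤ 1 / 256 := by nlinarith
    nlinarith

lemma hat_nonneg {v : ℕ} {x : ℝ} (h : D.Ok2 v x) : 0 ≤ D.hat v x := by
  have := D.hat_ge h
  have := h.nonneg
  linarith

lemma hat_zero (v : ℕ) : D.hat v 0 = 0 := by simp [hat]

lemma boost_ok {v : ℕ} {x p : ℝ} (h : D.Ok v x) (hp0 : 0 ≤ p) (hp : p ≤ 1 / 64) : D.Ok2 v (x / (1 - p)) := by
  have h1p : 0 < 1 - p := by linarith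
  rcases h with h | h
  · left; rw [h]; simp
  · right
    have hx : 0 < x := by linarith [h.1, D.w0_pos v]
    constructor
    · rw [le_div_iff₀ h1p]
      nlinarith [h.1, D.w0_pos v]
    · rw [div_le_iff₀ h1p]
      nlinarith [h.2, D.pm_pos v]

lemma hat_boost {v : ℕ} {x p : ℝ} (h : D.Ok v x) (hp0 : 0 ≤ p) (hp : p ≤ 1 / 64) :
    D.hat v (x / (1 - p)) ≤ D.hat v x + p / (1 - p) * (1 - D.ga v) * D.hat v x := by
  have h1p : 0 < 1 - p := by linarith
  rcases h with h | h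
  · rw [h]; simp [hat_zero]
  · have hx : 0 < x := by linarith [h.1, D.w0_pos v]
    have hw := D.w0_pos v
    have hg := D.ga_pos v
    have e1 : Real.log (x / (1 - p) / D.w0 v) = Real.log (x / D.w0 v) - Real.log (1 - p) := by
      rw [← Real.log_div (by positivity) h1p.ne']
      congr 1
      field_simp
    have hle : D.hat v x ≤ x := D.hat_le (Or.inr ⟨h.1, by linarith [h.2, D.pm_pos v]⟩)
    have hlog : p ≤ - Real.log (1 - p) := by
      have := Real.log_le_sub_one_of_pos h1p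
      linarith
    have e2 : D.hat v (x / (1 - p)) = (1 / (1 - p)) * (D.hat v x + x * D.ga v * Real.log (1 - p)) := by
      unfold hat
      rw [e1]
      field_simp
      ring
    rw [e2]
    have e3 : D.hat v x + p / (1 - p) * (1 - D.ga v) * D.hat v x
        = (1 / (1 - p)) * (D.hat v x - p * D.ga v * D.hat v x) := by
      field_simp
      ring
    rw [e3]
    apply mul_le_mul_of_nonneg_left _ (by positivity)
    have h6 : x * D.ga v * Real.log (1 - p) ≤ - (x * D.ga v * p) := by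
      have : 0 ≤ x * D.ga v := by positivity
      nlinarith
    have h7 : p * D.ga v * D.hat v x ≤ p * D.ga v * x := by
      apply mul_le_mul_of_nonneg_left hle (by positivity)
    linarith

def Sp (S : Finset ℕ) (z v : ℕ) : Prop := ∃ a ∈ S, D.C a v z

lemma Sp_rich {S : Finset ℕ} {z v : ℕ} (h : D.Sp S z v) (hS : ∀ a ∈ S, a < v) (hz : ∀ a ∈ S, a < z) (hv : v < D.M) :
    D.rich v z := by
  obtain ⟨a, ha, hc⟩ := h
  exact ⟨a, (hS a ha).trans hv, (hS a ha).ne, (hz a ha).ne, D.C231 hc⟩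

lemma Sp_symm {S : Finset ℕ} {z v : ℕ} (h : D.Sp S z v) : D.Sp S v z := by
  obtain ⟨a, ha, hc⟩ := h
  exact ⟨a, ha, D.C23 _ _ _ hc⟩

/-- transfer of specialness along a line -/
lemma Sp_transfer {S : Finset ℕ} {z v x : ℕ} (h : D.Sp S z v) (hvz : v ≠ z) (hc : D.C x v z) : D.Sp S z x := by
  obtain ⟨a, ha, hc2⟩ := h
  refine ⟨a, ha, ?_⟩
  -- line v z contains a, x
  have h1 : D.C v z a := D.C231 hc2
  have h2 : D.C v z x := D.C231 hc
  have := D.line3 hvz h1 h2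
  -- C z a x
  exact D.C231 this

end Sys

end Pool.Agent.Helper64.Proc
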