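import Pool.Agent.Helper64.Proc2

set_option autoImplicit false

namespace Pool.Agent.Helper64.Proc

open Finset
open scoped Classical

namespace Sys

variable (D : Sys)

noncomputable def Dt (t : ℕ) (S : Finset ℕ) (h : ℕ → ℝ) (z : ℕ) : ℝ :=
  ∑ v ∈ Ico t z, if D.Sp S z v then h v else 0

noncomputable def Tt (t : ℕ) (S : Finset ℕ) (h : ℕ → ℝ) (z : ℕ) : ℝ :=
  ∑ v ∈ Ico t z, ∑ x ∈ Ico t z, if x ≠ v ∧ D.C x v z ∧ ¬ D.Sp S z v then h x * h v else 0

noncomputable def Ex (t : ℕ) (S : Finset ℕ) (h : ℕ → ℝ) (z : ℕ) : ℝ :=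
  (5 / 4) * D.Dt t S h z + D.Tt t S h z

noncomputable def Lm (t : ℕ) (h : ℕ → ℝ) (z : ℕ) : ℝ :=
  ∑ v ∈ Ico (t + 1) z, if D.C t v z then h v else 0

lemma Ex_nonneg {t : ℕ} {S : Finset ℕ} {h : ℕ → ℝ} {z : ℕ} (h0 : ∀ v ∈ Ico t z, 0 ≤ h v) :
    0 ≤ D.Ex t S h z := by
  unfold Ex Dt Tt
  apply add_nonneg
  · apply mul_nonneg (by norm_num)
    apply sum_nonneg
    intro v hv
    split_ifs
    · exact h0 v hv
    · exact le_rfl
  · apply sum_nonneg
    intro v hv
    apply sum_nonneg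
    intro x hx
    split_ifs
    · exact mul_nonneg (h0 x hx) (h0 v hv)
    · exact le_rfl

lemma Ex_mono {t : ℕ} {S : Finset ℕ} {h h' : ℕ → ℝ} {z : ℕ} (hS : ∀ a ∈ S, a < t) (hz : z < D.M)
    (h0 : ∀ v ∈ Ico t z, 0 ≤ h v) (hle : ∀ v ∈ Ico t z, D.rich v z → h v ≤ h' v) :
    D.Ex t S h z ≤ D.Ex t S h' z := by
  unfold Ex Dt Tt
  apply add_le_add
  · apply mul_le_mul_of_nonneg_left _ (by norm_num)
    apply sum_le_sum
    intro v hv
    rw [mem_Ico] at hv
    split_ifs with hsp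
    · apply hle v (mem_Ico.2 hv)
      apply D.Sp_rich hsp
      · intro a ha; exact (hS a ha).trans_le hv.1
      · intro a ha; exact (hS a ha).trans (hv.1.trans_lt hv.2)
      · exact hv.2.trans hz
    · exact le_rfl
  · apply sum_le_sum
    intro v hv
    apply sum_le_sum
    intro x hx
    have hv' := mem_Ico.1 hv
    have hx' := mem_Ico.1 hx
    split_ifs with hsp
    · obtain ⟨hxv, hc, _⟩ := hsp
      have r1 : D.rich v z := ⟨x, hx'.2.trans hz, hxv, hx'.2.ne, D.C231 hc⟩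
      have r2 : D.rich x z := ⟨v, hv'.2.trans hz, hxv.symm, hv'.2.ne, D.C23 _ _ _ hc⟩
      exact mul_le_mul (hle x hx r2) (hle v hv r1) (h0 v hv) ((h0 x hx).trans (hle x hx r2))
    · exact le_rfl

lemma Ex_congr {t : ℕ} {S : Finset ℕ} {h h' : ℕ → ℝ} {z : ℕ} (hS : ∀ a ∈ S, a < t) (hz : z < D.M)
    (hle : ∀ v ∈ Ico t z, D.rich v z → h v = h' v) :
    D.Ex t S h z = D.Ex t S h' z := by
  unfold Ex Dt Tt
  congr 1
  · congr 1
    apply sum_congr rfl
    intro v hv
    rw [mem_Ico] at hv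
    split_ifs with hsp
    · apply hle v (mem_Ico.2 hv)
      apply D.Sp_rich hsp
      · intro a ha; exact (hS a ha).trans_le hv.1
      · intro a ha; exact (hS a ha).trans (hv.1.trans_lt hv.2)
      · exact hv.2.trans hz
    · rfl
  · apply sum_congr rfl
    intro v hv
    apply sum_congr rfl
    intro x hx
    have hv' := mem_Ico.1 hv
    have hx' := mem_Ico.1 hx
    split_ifs with hsp
    · obtain ⟨hxv, hc, _⟩ := hsp
      have r1 : D.rich v z := ⟨x, hx'.2.trans hz, hxv, hx'.2.ne, D.C231 hc⟩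
      have r2 : D.rich x z := ⟨v, hv'.2.trans hz, hxv.symm, hv'.2.ne, D.C23 _ _ _ hc⟩
      rw [hle x hx r2, hle v hv r1]
    · rfl

/-- time shift of the pair sum, general form -/
lemma Tt_shift {t : ℕ} {S : Finset ℕ} {h : ℕ → ℝ} {z : ℕ} (htz : t < z) :
    D.Tt t S h z = (∑ x ∈ Ico (t + 1) z, if D.C x t z ∧ ¬ D.Sp S z t then h x * h t else 0)
      + (∑ v ∈ Ico (t + 1) z, if D.C t v z ∧ ¬ D.Sp S z v then h t * h v else 0)
      + D.Tt (t + 1) S h z := by
  unfold Tt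
  rw [Finset.sum_eq_sum_Ico_succ_bot htz]
  rw [Finset.sum_eq_sum_Ico_succ_bot htz]
  have e1 : (if t ≠ t ∧ D.C t t z ∧ ¬ D.Sp S z t then h t * h t else 0) = 0 := by
    rw [if_neg]; tauto
  rw [e1, zero_add]
  have e2 : ∑ v ∈ Ico (t + 1) z, ∑ x ∈ Ico t z, (if x ≠ v ∧ D.C x v z ∧ ¬ D.Sp S z v then h x * h v else 0)
      = ∑ v ∈ Ico (t + 1) z, (if D.C t v z ∧ ¬ D.Sp S z v then h t * h v else 0)
        + ∑ v ∈ Ico (t + 1) z, ∑ x ∈ Ico (t + 1) z, (if x ≠ v ∧ D.C x v z ∧ ¬ D.Sp S z v then h x * h v else 0) := by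
    rw [← sum_add_distrib]
    apply sum_congr rfl
    intro v hv
    rw [Finset.sum_eq_sum_Ico_succ_bot htz]
    congr 1
    rw [mem_Ico] at hv
    have : t ≠ v := by omega
    simp [this]
  rw [e2]
  have e3 : ∀ x ∈ Ico (t + 1) z, (if x ≠ t ∧ D.C x t z ∧ ¬ D.Sp S z t then h x * h t else 0)
      = (if D.C x t z ∧ ¬ D.Sp S z t then h x * h t else 0) := by
    intro x hx
    rw [mem_Ico] at hx
    have : x ≠ t := by omega
    simp [this]
  rw [sum_congr rfl e3]
  ring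

lemma Ex_shiftA {t : ℕ} {S : Finset ℕ} {h : ℕ → ℝ} {z : ℕ} (htz : t < z) (hsp : D.Sp S z t) :
    D.Ex t S h z = D.Ex (t + 1) S h z + (5 / 4) * h t := by
  unfold Ex
  rw [D.Tt_shift htz]
  have e1 : ∑ x ∈ Ico (t + 1) z, (if D.C x t z ∧ ¬ D.Sp S z t then h x * h t else 0) = 0 := by
    apply sum_eq_zero
    intro x _
    rw [if_neg]; tauto
  have e2 : ∑ v ∈ Ico (t + 1) z, (if D.C t v z ∧ ¬ D.Sp S z v then h t * h v else 0) = 0 := by
    apply sum_eq_zero
    intro v hv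
    rw [if_neg]
    rintro ⟨h1, h2⟩
    apply h2
    exact D.Sp_transfer hsp htz.ne (D.C12 _ _ _ h1)
  rw [e1, e2]
  unfold Dt
  rw [Finset.sum_eq_sum_Ico_succ_bot htz, if_pos hsp]
  ring

lemma Ex_shiftB {t : ℕ} {S : Finset ℕ} {h : ℕ → ℝ} {z : ℕ} (htz : t < z) (hsp : ¬ D.Sp S z t) :
    D.Ex t S h z = D.Ex (t + 1) S h z + 2 * h t * D.Lm t h z := by
  unfold Ex
  rw [D.Tt_shift htz]
  have e1 : ∑ x ∈ Ico (t + 1) z, (if D.C x t z ∧ ¬ D.Sp S z t then h x * h t else 0) = h t * D.Lm t h z := by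
    unfold Lm
    rw [mul_sum]
    apply sum_congr rfl
    intro x _
    have : D.C x t z ↔ D.C t x z := ⟨D.C12 _ _ _, D.C12 _ _ _⟩
    simp only [this, hsp, not_false_eq_true, and_true]
    split_ifs <;> ring
  have e2 : ∑ v ∈ Ico (t + 1) z, (if D.C t v z ∧ ¬ D.Sp S z v then h t * h v else 0) = h t * D.Lm t h z := by
    unfold Lm
    rw [mul_sum]
    apply sum_congr rfl
    intro v hv
    rw [mem_Ico] at hv
    by_cases hc : D.C t v z
    · have : ¬ D.Sp S z v := by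
        intro hs
        apply hsp
        exact D.Sp_transfer hs hv.2.ne hc
      simp [hc, this]
    · simp [hc]
  rw [e1, e2]
  unfold Dt
  rw [Finset.sum_eq_sum_Ico_succ_bot htz, if_neg hsp]
  ring

/-- effect of inserting `t` in `S` (not special) -/
lemma Ex_insert {t : ℕ} {S : Finset ℕ} {h : ℕ → ℝ} {z : ℕ}
    (h0 : ∀ v ∈ Ico (t + 1) z, 0 ≤ h v) :
    D.Ex (t + 1) (insert t S) h z ≤ D.Ex (t + 1) S h z + (5 / 4) * D.Lm t h z := by
  have hins : ∀ v, D.Sp (insert t S) z v ↔ (D.C t v z ∨ D.Sp S z v) := by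
    intro v
    unfold Sp
    simp
  unfold Ex
  have e1 : D.Dt (t + 1) (insert t S) h z ≤ D.Dt (t + 1) S h z + D.Lm t h z := by
    unfold Dt Lm
    rw [← sum_add_distrib]
    apply sum_le_sum
    intro v hv
    rw [hins]
    have := h0 v hv
    by_cases h1 : D.C t v z <;> by_cases h2 : D.Sp S z v <;> simp [h1, h2] <;> linarith
  have e2 : D.Tt (t + 1) (insert t S) h z ≤ D.Tt (t + 1) S h z := by
    unfold Tt
    apply sum_le_sum
    intro v hv
    apply sum_le_sum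
    intro x hx
    rw [hins]
    have := mul_nonneg (h0 x hx) (h0 v hv)
    by_cases h1 : D.C t v z <;> by_cases h2 : D.Sp S z v <;> by_cases h3 : x ≠ v ∧ D.C x v z <;> simp [h1, h2, h3] <;> first | linarith | (split_ifs <;> linarith)
  linarith

/-- coefficient of `h u` in `Ex` -/
noncomputable def gco (t : ℕ) (S : Finset ℕ) (h : ℕ → ℝ) (z u : ℕ) : ℝ :=
  (5 / 4) * (if D.Sp S z u then 1 else 0) + 2 * ∑ x ∈ Ico t z, if x ≠ u ∧ D.C x u z ∧ ¬ D.Sp S z u then h x else 0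

lemma Ex_single {t : ℕ} {S : Finset ℕ} {h h' : ℕ → ℝ} {z u : ℕ} (hS : ∀ a ∈ S, a < t) (hz : z < D.M)
    (hu : u ∈ Ico t z) (hle : ∀ v ∈ Ico t z, D.rich v z → v ≠ u → h' v = h v) :
    D.Ex t S h' z = D.Ex t S h z + D.gco t S h z u * (h' u - h u) := by
  have hcon : D.Ex t S h' z = D.Ex t S (fun v => h v + if v = u then h' u - h u else 0) z := by
    apply D.Ex_congr hS hz
    intro v hv hr
    by_cases hvu : v = u
    · subst hvu; simp
    · simp [hvu, hle v hv hr hvu]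
  rw [hcon]
  set δ := h' u - h u with hδ
  have e1 : D.Dt t S (fun v => h v + if v = u then δ else 0) z = D.Dt t S h z + (if D.Sp S z u then 1 else 0) * δ := by
    unfold Dt
    have : ∀ v ∈ Ico t z, (if D.Sp S z v then h v + (if v = u then δ else 0) else 0)
        = (if D.Sp S z v then h v else 0) + (if v = u then ((if D.Sp S z u then 1 else 0) * δ) else 0) := by
      intro v _
      by_cases h1 : v = u
      · subst h1
        split_ifs <;> simp
      · simp [h1]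
    rw [sum_congr rfl this, sum_add_distrib, sum_ite_eq' , if_pos hu]
  have e2 : D.Tt t S (fun v => h v + if v = u then δ else 0) z = D.Tt t S h z
      + 2 * (∑ x ∈ Ico t z, if x ≠ u ∧ D.C x u z ∧ ¬ D.Sp S z u then h x else 0) * δ := by
    have hswap : ∀ v ∈ Ico t z, (v ≠ u ∧ D.C u v z ∧ ¬ D.Sp S z v) ↔ (v ≠ u ∧ D.C v u z ∧ ¬ D.Sp S z u) := by
      intro v hv
      rw [mem_Ico] at hv
      have hu' := mem_Ico.1 hu
      constructor
      · rintro ⟨h1, h2, h3⟩
        refine ⟨h1, D.C12 _ _ _ h2, fun h4 => h3 ?_⟩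
        exact D.Sp_transfer h4 hu'.2.ne (D.C12 _ _ _ h2)
      · rintro ⟨h1, h2, h3⟩
        refine ⟨h1, D.C12 _ _ _ h2, fun h4 => h3 ?_⟩
        exact D.Sp_transfer h4 hv.2.ne (D.C12 _ _ _ h2)
    unfold Tt
    have hterm : ∀ v ∈ Ico t z, ∀ x ∈ Ico t z,
        (if x ≠ v ∧ D.C x v z ∧ ¬ D.Sp S z v then (h x + if x = u then δ else 0) * (h v + if v = u then δ else 0) else 0)
        = (if x ≠ v ∧ D.C x v z ∧ ¬ D.Sp S z v then h x * h v else 0)
          + (if x = u then (if v ≠ u ∧ D.C v u z ∧ ¬ D.Sp S z u then h v * δ else 0) else 0)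
          + (if v = u then (if x ≠ u ∧ D.C x u z ∧ ¬ D.Sp S z u then h x * δ else 0) else 0) := by
      intro v hv x hx
      by_cases h1 : x = u
      · subst h1
        by_cases h2 : v = x
        · subst h2; simp
        · have h3 := hswap v hv
          have h2' : x ≠ v := fun h => h2 h.symm
          simp only [h2, ne_eq, not_false_eq_true, true_and] at h3
          simp only [h2, h2', ne_eq, not_false_eq_true, true_and, if_true, if_false, add_zero, h3]
          split_ifs <;> ring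
      · by_cases h2 : v = u
        · subst h2
          simp only [h1, ne_eq, not_false_eq_true, true_and, if_true, if_false, add_zero]
          split_ifs <;> ring
        · simp [h1, h2]
    have e3 : ∑ v ∈ Ico t z, ∑ x ∈ Ico t z,
        (if x ≠ v ∧ D.C x v z ∧ ¬ D.Sp S z v then (h x + if x = u then δ else 0) * (h v + if v = u then δ else 0) else 0)
        = ∑ v ∈ Ico t z, ∑ x ∈ Ico t z, ((if x ≠ v ∧ D.C x v z ∧ ¬ D.Sp S z v then h x * h v else 0)
          + (if x = u then (if v ≠ u ∧ D.C v u z ∧ ¬ D.Sp S z u then h v * δ else 0) else 0)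
          + (if v = u then (if x ≠ u ∧ D.C x u z ∧ ¬ D.Sp S z u then h x * δ else 0) else 0)) :=
      sum_congr rfl (fun v hv => sum_congr rfl (fun x hx => hterm v hv x hx))
    rw [e3]
    simp only [sum_add_distrib]
    have e4 : ∑ v ∈ Ico t z, ∑ x ∈ Ico t z, (if x = u then (if v ≠ u ∧ D.C v u z ∧ ¬ D.Sp S z u then h v * δ else 0) else 0)
        = (∑ x ∈ Ico t z, if x ≠ u ∧ D.C x u z ∧ ¬ D.Sp S z u then h x else 0) * δ := by
      rw [sum_mul]
      apply sum_congr rfl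
      intro v _
      rw [sum_ite_eq', if_pos hu]
      split_ifs <;> simp
    have e5 : ∑ v ∈ Ico t z, ∑ x ∈ Ico t z, (if v = u then (if x ≠ u ∧ D.C x u z ∧ ¬ D.Sp S z u then h x * δ else 0) else 0)
        = (∑ x ∈ Ico t z, if x ≠ u ∧ D.C x u z ∧ ¬ D.Sp S z u then h x else 0) * δ := by
      rw [sum_comm, sum_mul]
      apply sum_congr rfl
      intro x _
      rw [sum_ite_eq', if_pos hu]
      split_ifs <;> simp
    rw [e4, e5]
    ring
  unfold Ex gco
  rw [e1, e2]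
  ring

end Sys

end Pool.Agent.Helper64.Proc
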