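import Pool.Agent.Helper64.Proc3

set_option autoImplicit false

namespace Pool.Agent.Helper64.Proc

open Finset
open scoped Classical

namespace Sys

variable (D : Sys)

noncomputable def wsel (t : ℕ) (S : Finset ℕ) (w : ℕ → ℝ) (v : ℕ) : ℝ :=
  if t < v ∧ D.Sp S v t then 0 else w v

noncomputable def wnon (t : ℕ) (S : Finset ℕ) (w : ℕ → ℝ) (v : ℕ) : ℝ :=
  if t < v ∧ D.Sp S v t then w v / (1 - w t) else w v

noncomputable def hh (w : ℕ → ℝ) (v : ℕ) : ℝ := D.hat v (w v)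

noncomputable def Fz (t : ℕ) (S : Finset ℕ) (w : ℕ → ℝ) (z : ℕ) : ℝ :=
  w z ^ 2 / D.w0 z * Real.exp (D.Ex t S (D.hh w) z)

noncomputable def bb (t : ℕ) (w : ℕ → ℝ) (P Q : ℕ) : ℝ :=
  ∑ y ∈ range t, if D.C P Q y then w y else 0

noncomputable def rm (t : ℕ) (w : ℕ → ℝ) (P Q : ℕ) : ℝ :=
  ∑ v ∈ Ico t D.M, if D.C P Q v then D.hh w v else 0

noncomputable def ez (t : ℕ) (w : ℕ → ℝ) (P Q : ℕ) : ℝ :=
  D.rm t w P Q + (63 / 64) * D.bb t w P Q - 1 / 128

structure Inv (t : ℕ) (S : Finset ℕ) (w : ℕ → ℝ) : Prop where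
  hS : ∀ a ∈ S, a < t
  hok : ∀ v, D.Ok v (w v)
  hez : ∀ P Q, P < Q → Q < D.M → D.rich P Q → D.ez t w P Q < 0

variable {D}

lemma Inv.hh_nonneg {t : ℕ} {S : Finset ℕ} {w : ℕ → ℝ} (I : D.Inv t S w) (v : ℕ) : 0 ≤ D.hh w v :=
  D.hat_nonneg (I.hok v).ok2

lemma Inv.w_nonneg {t : ℕ} {S : Finset ℕ} {w : ℕ → ℝ} (I : D.Inv t S w) (v : ℕ) : 0 ≤ w v :=
  (I.hok v).nonneg

lemma Inv.bb_nonneg {t : ℕ} {S : Finset ℕ} {w : ℕ → ℝ} (I : D.Inv t S w) (P Q : ℕ) : 0 ≤ D.bb t w P Q := by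
  unfold bb
  apply sum_nonneg
  intro y _
  split_ifs
  · exact I.w_nonneg y
  · exact le_rfl

lemma Inv.rm_nonneg {t : ℕ} {S : Finset ℕ} {w : ℕ → ℝ} (I : D.Inv t S w) (P Q : ℕ) : 0 ≤ D.rm t w P Q := by
  unfold rm
  apply sum_nonneg
  intro y _
  split_ifs
  · exact I.hh_nonneg y
  · exact le_rfl

lemma Inv.rm_le {t : ℕ} {S : Finset ℕ} {w : ℕ → ℝ} (I : D.Inv t S w) {P Q : ℕ} (h1 : P < Q) (h2 : Q < D.M)
    (h3 : D.rich P Q) : D.rm t w P Q ≤ 1 / 128 := by
  have := I.hez P Q h1 h2 h3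
  have h4 := I.bb_nonneg P Q
  unfold ez at this
  linarith

/-- any part of the remaining mass of a rich line -/
lemma Inv.part_le {t : ℕ} {S : Finset ℕ} {w : ℕ → ℝ} (I : D.Inv t S w) {P Q z : ℕ} (t' : ℕ) (ht : t ≤ t')
    (hz : z ≤ D.M) (h1 : P < Q) (h2 : Q < D.M)
    (h3 : D.rich P Q) : ∑ v ∈ Ico t' z, (if D.C P Q v then D.hh w v else 0) ≤ 1 / 128 := by
  refine le_trans ?_ (I.rm_le h1 h2 h3)
  unfold rm
  apply sum_le_sum_of_subset_of_nonneg
  · intro x hx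
    rw [mem_Ico] at hx ⊢
    omega
  · intro x _ _
    split_ifs
    · exact I.hh_nonneg x
    · exact le_rfl

lemma Inv.p_le {t : ℕ} {S : Finset ℕ} {w : ℕ → ℝ} (I : D.Inv t S w) (v : ℕ) : w v ≤ 1 / 64 := by
  have := (I.hok v).le
  linarith

lemma Inv.wsel_nonneg {t : ℕ} {S : Finset ℕ} {w : ℕ → ℝ} (I : D.Inv t S w) (v : ℕ) : 0 ≤ D.wsel t S w v := by
  unfold wsel
  split_ifs
  · exact le_rfl
  · exact I.w_nonneg v

lemma Inv.ok_sel {t : ℕ} {S : Finset ℕ} {w : ℕ → ℝ} (I : D.Inv t S w) (v : ℕ) : D.Ok v (D.wsel t S w v) := by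
  unfold wsel
  split_ifs
  · exact Or.inl rfl
  · exact I.hok v

lemma Inv.ok_non {t : ℕ} {S : Finset ℕ} {w : ℕ → ℝ} (I : D.Inv t S w) (v : ℕ) : D.Ok2 v (D.wnon t S w v) := by
  unfold wnon
  split_ifs
  · exact D.boost_ok (I.hok v) (I.w_nonneg t) (I.p_le t)
  · exact (I.hok v).ok2

lemma hh_sel_le {t : ℕ} {S : Finset ℕ} {w : ℕ → ℝ} (I : D.Inv t S w) (v : ℕ) :
    D.hh (D.wsel t S w) v ≤ D.hh w v := by
  unfold hh wsel
  split_ifs
  · rw [hat_zero]; exact I.hh_nonneg v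
  · exact le_rfl

lemma hh_sel_nonneg {t : ℕ} {S : Finset ℕ} {w : ℕ → ℝ} (I : D.Inv t S w) (v : ℕ) :
    0 ≤ D.hh (D.wsel t S w) v := D.hat_nonneg (I.ok_sel v).ok2

lemma hh_non_nonneg {t : ℕ} {S : Finset ℕ} {w : ℕ → ℝ} (I : D.Inv t S w) (v : ℕ) :
    0 ≤ D.hh (D.wnon t S w) v := D.hat_nonneg (I.ok_non v)

lemma hh_non_le {t : ℕ} {S : Finset ℕ} {w : ℕ → ℝ} (I : D.Inv t S w) (v : ℕ) :
    D.hh (D.wnon t S w) v ≤ D.hh w v + w t / (1 - w t) * (1 - D.ga v) * D.hh w v := by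
  have hp := I.p_le t
  have h1p : 0 < 1 - w t := by linarith
  unfold wnon
  rcases em (t < v ∧ D.Sp S v t) with h | h
  · have : D.hh (fun v => if t < v ∧ D.Sp S v t then w v / (1 - w t) else w v) v = D.hat v (w v / (1 - w t)) := by
      simp only [hh]; rw [if_pos h]
    rw [this]
    exact D.hat_boost (I.hok v) (I.w_nonneg t) hp
  · have : D.hh (fun v => if t < v ∧ D.Sp S v t then w v / (1 - w t) else w v) v = D.hh w v := by
      simp only [hh]; rw [if_neg h]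
    rw [this]
    have h1 := I.hh_nonneg v
    have h2 := D.ga_le v
    have h3 := I.w_nonneg t
    have : 0 ≤ w t / (1 - w t) * (1 - D.ga v) * D.hh w v := by
      apply mul_nonneg _ h1
      apply mul_nonneg (by positivity)
      linarith
    linarith

lemma hh_non_eq {t : ℕ} {S : Finset ℕ} {w : ℕ → ℝ} {v : ℕ} (h : ¬ (t < v ∧ D.Sp S v t)) :
    D.hh (D.wnon t S w) v = D.hh w v := by
  unfold hh wnon
  rw [if_neg h]

lemma hh_sel_eq {t : ℕ} {S : Finset ℕ} {w : ℕ → ℝ} {v : ℕ} (h : ¬ (t < v ∧ D.Sp S v t)) :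
    D.hh (D.wsel t S w) v = D.hh w v := by
  unfold hh wsel
  rw [if_neg h]

lemma hh_sel_eq_zero {t : ℕ} {S : Finset ℕ} {w : ℕ → ℝ} {v : ℕ} (h : (t < v ∧ D.Sp S v t)) :
    D.hh (D.wsel t S w) v = 0 := by
  unfold hh wsel
  rw [if_pos h, hat_zero]

/-- triangle-free: if the line `tz` is rich then an affected relevant point is on the line `tz` -/
lemma online {t : ℕ} {S : Finset ℕ} {w : ℕ → ℝ} (I : D.Inv t S w) {v z : ℕ} (hz : z < D.M) (htz : t < z)
    (hvz : v < z) (htv : t < v) (h1 : D.rich v z) (h2 : D.rich t z) (h3 : D.Sp S v t) : D.C t v z := by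
  by_contra hc
  have hr : D.rich t v := D.Sp_rich h3 I.hS (fun a ha => (I.hS a ha).trans htv) (htz.trans hz)
  exact D.notri t v z (htz.trans hz) (hvz.trans hz) hz hc hr h1 h2

lemma caseA_Ex {t : ℕ} {S : Finset ℕ} {w : ℕ → ℝ} (I : D.Inv t S w) {z : ℕ} (hz : z < D.M) (htz : t < z)
    (hsp : D.Sp S z t) :
    D.Ex (t + 1) S (D.hh (D.wnon t S w)) z ≤ D.Ex (t + 1) S (D.hh w) z + (5 / 4) * (w t / (1 - w t)) * (1 / 64) := by
  have hp := I.p_le t
  have h1p : 0 < 1 - w t := by linarith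
  have hp0 := I.w_nonneg t
  have hrich : D.rich t z := D.Sp_rich hsp I.hS (fun a ha => (I.hS a ha).trans htz) (htz.trans hz)
  have hS' : ∀ a ∈ S, a < t + 1 := fun a ha => (I.hS a ha).trans (Nat.lt_succ_self t)
  have honv : ∀ v ∈ Ico (t + 1) z, D.C t z v → D.Sp S z v := by
    intro v _ hc
    exact D.Sp_transfer hsp htz.ne (D.C312 hc)
  unfold Ex
  have e1 : D.Dt (t + 1) S (D.hh (D.wnon t S w)) z ≤ D.Dt (t + 1) S (D.hh w) z +
      (w t / (1 - w t)) * ∑ v ∈ Ico (t + 1) z, (if D.C t z v then D.hh w v else 0) := by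
    unfold Dt
    rw [mul_sum, ← sum_add_distrib]
    apply sum_le_sum
    intro v hv
    have hv' := mem_Ico.1 hv
    have hn := I.hh_nonneg v
    have hq : 0 ≤ w t / (1 - w t) := by positivity
    by_cases h1 : D.Sp S z v
    · rw [if_pos h1, if_pos h1]
      have hr : D.rich v z := D.Sp_rich h1 (fun a ha => (I.hS a ha).trans (by omega)) (fun a ha => (I.hS a ha).trans htz) (by omega)
      by_cases h2 : D.Sp S v t
      · have hc := online I hz htz hv'.2 (by omega) hr hrich h2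
        rw [if_pos (D.C23 _ _ _ hc)]
        have h3 := hh_non_le I v
        have h4 := D.ga_pos v
        have h5 : w t / (1 - w t) * (1 - D.ga v) * D.hh w v ≤ w t / (1 - w t) * D.hh w v := by
          have : 0 ≤ w t / (1 - w t) * D.ga v * D.hh w v := by positivity
          nlinarith
        linarith
      · rw [hh_non_eq (fun h => h2 h.2)]
        split_ifs
        · have := mul_nonneg hq hn
          linarith
        · simp
    · rw [if_neg h1, if_neg h1]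
      split_ifs
      · have := mul_nonneg hq hn
        linarith
      · simp
  have e2 : D.Tt (t + 1) S (D.hh (D.wnon t S w)) z ≤ D.Tt (t + 1) S (D.hh w) z := by
    apply le_of_eq
    unfold Tt
    apply sum_congr rfl
    intro v hv
    apply sum_congr rfl
    intro x hx
    split_ifs with hh1
    · obtain ⟨hxv, hc, hns⟩ := hh1
      have hv' := mem_Ico.1 hv
      have hx' := mem_Ico.1 hx
      have r1 : D.rich v z := ⟨x, hx'.2.trans hz, hxv, hx'.2.ne, D.C231 hc⟩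
      have r2 : D.rich x z := ⟨v, hv'.2.trans hz, hxv.symm, hv'.2.ne, D.C23 _ _ _ hc⟩
      have a1 : ¬ D.Sp S v t := by
        intro h2
        have hcc := online I hz htz hv'.2 (by omega) r1 hrich h2
        exact hns (honv v hv (D.C23 _ _ _ hcc))
      have a2 : ¬ D.Sp S x t := by
        intro h2
        have hcc := online I hz htz hx'.2 (by omega) r2 hrich h2
        have := honv x hx (D.C23 _ _ _ hcc)
        exact hns (D.Sp_transfer this hx'.2.ne (D.C12 _ _ _ hc))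
      rw [hh_non_eq (fun h => a1 h.2), hh_non_eq (fun h => a2 h.2)]
    · rfl
  have e3 : ∑ v ∈ Ico (t + 1) z, (if D.C t z v then D.hh w v else 0) ≤ 1 / 128 :=
    I.part_le (t + 1) (by omega) hz.le htz hz hrich
  have e4 : (w t / (1 - w t)) * ∑ v ∈ Ico (t + 1) z, (if D.C t z v then D.hh w v else 0) ≤ (w t / (1 - w t)) * (1 / 64) := by
    apply mul_le_mul_of_nonneg_left _ (by positivity)
    linarith
  linarith

lemma F_stepA {t : ℕ} {S : Finset ℕ} {w : ℕ → ℝ} (I : D.Inv t S w) {z : ℕ} (hz : z < D.M) (htz : t < z)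
    (hsp : D.Sp S z t) :
    w t * D.Fz (t + 1) (insert t S) (D.wsel t S w) z + (1 - w t) * D.Fz (t + 1) S (D.wnon t S w) z
      ≤ D.Fz t S w z := by
  have hp := I.p_le t
  have h1p : 0 < 1 - w t := by linarith
  have hp0 := I.w_nonneg t
  have e0 : D.Fz (t + 1) (insert t S) (D.wsel t S w) z = 0 := by
    unfold Fz
    have : D.wsel t S w z = 0 := by
      unfold wsel; rw [if_pos ⟨htz, hsp⟩]
    rw [this]; simp
  rw [e0]
  unfold Fz
  have e1 : D.wnon t S w z = w z / (1 - w t) := by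
    unfold wnon; rw [if_pos ⟨htz, hsp⟩]
  rw [e1]
  have h2 := caseA_Ex I hz htz hsp
  have h3 := D.Ex_shiftA (h := D.hh w) htz hsp
  have hht : (255 / 256) * w t ≤ D.hh w t := D.hat_ge (I.hok t).ok2
  set E' := D.Ex (t + 1) S (D.hh (D.wnon t S w)) z
  set E := D.Ex t S (D.hh w) z
  have h4 : E' - E ≤ -(5 / 4) * (15 / 16) * w t + (5 / 4) * (w t / (1 - w t)) * (1 / 64) := by
    rw [h3]; linarith
  have h5 := caseA_lemma hp0 hp h4
  have h6 : (1 - w t) * ((w z / (1 - w t)) ^ 2 / D.w0 z * Real.exp E')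
      = ((1 - w t) * ((1 / (1 - w t)) ^ 2 * Real.exp (E' - E))) * (w z ^ 2 / D.w0 z * Real.exp E) := by
    rw [Real.exp_sub]
    have := (Real.exp_pos E).ne'
    have := (D.w0_pos z).ne'
    field_simp
  rw [h6, mul_zero, zero_add]
  have h7 : 0 ≤ w z ^ 2 / D.w0 z * Real.exp E := by
    have := D.w0_pos z
    positivity
  nlinarith

end Sys

end Pool.Agent.Helper64.Proc
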