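import Pool.Agent.Helper64.Proc4

set_option autoImplicit false

namespace Pool.Agent.Helper64.Proc

open Finset
open scoped Classical

namespace Sys

variable {D : Sys}

lemma wsel_z {t : ℕ} {S : Finset ℕ} {w : ℕ → ℝ} {z : ℕ} (hsp : ¬ D.Sp S z t) : D.wsel t S w z = w z := by
  unfold wsel
  rw [if_neg (fun h => hsp h.2)]

lemma wnon_z {t : ℕ} {S : Finset ℕ} {w : ℕ → ℝ} {z : ℕ} (hsp : ¬ D.Sp S z t) : D.wnon t S w z = w z := by
  unfold wnon
  rw [if_neg (fun h => hsp h.2)]

/-- combination of exponents, case B -/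
lemma F_comb {t : ℕ} {S : Finset ℕ} {w : ℕ → ℝ} {z : ℕ} (hsp : ¬ D.Sp S z t)
    (h : w t * Real.exp (D.Ex (t + 1) (insert t S) (D.hh (D.wsel t S w)) z - D.Ex t S (D.hh w) z)
      + (1 - w t) * Real.exp (D.Ex (t + 1) S (D.hh (D.wnon t S w)) z - D.Ex t S (D.hh w) z) ≤ 1) :
    w t * D.Fz (t + 1) (insert t S) (D.wsel t S w) z + (1 - w t) * D.Fz (t + 1) S (D.wnon t S w) z
      ≤ D.Fz t S w z := by
  unfold Fz
  rw [wsel_z hsp, wnon_z hsp]
  set E := D.Ex t S (D.hh w) z
  rw [Real.exp_sub, Real.exp_sub] at h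
  have hE := Real.exp_pos E
  have h7 : 0 ≤ w z ^ 2 / D.w0 z * Real.exp E := by
    have := D.w0_pos z
    positivity
  have h8 := mul_le_mul_of_nonneg_left h h7
  have h9 : w z ^ 2 / D.w0 z * Real.exp E * (w t * (Real.exp (D.Ex (t + 1) (insert t S) (D.hh (D.wsel t S w)) z) / Real.exp E)
      + (1 - w t) * (Real.exp (D.Ex (t + 1) S (D.hh (D.wnon t S w)) z) / Real.exp E))
      = w t * (w z ^ 2 / D.w0 z * Real.exp (D.Ex (t + 1) (insert t S) (D.hh (D.wsel t S w)) z))
        + (1 - w t) * (w z ^ 2 / D.w0 z * Real.exp (D.Ex (t + 1) S (D.hh (D.wnon t S w)) z)) := by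
    field_simp
  rw [h9, mul_one] at h8
  exact h8

lemma F_stepB1 {t : ℕ} {S : Finset ℕ} {w : ℕ → ℝ} (I : D.Inv t S w) {z : ℕ} (hz : z < D.M) (htz : t < z)
    (hsp : ¬ D.Sp S z t) (hv0 : ∃ v ∈ Ico (t + 1) z, D.C t v z) :
    w t * D.Fz (t + 1) (insert t S) (D.wsel t S w) z + (1 - w t) * D.Fz (t + 1) S (D.wnon t S w) z
      ≤ D.Fz t S w z := by
  have hp := I.p_le t
  have h1p : 0 < 1 - w t := by linarith
  have hp0 := I.w_nonneg t
  obtain ⟨v0, hv0, hc0⟩ := hv0
  have hv0' := mem_Ico.1 hv0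
  have hrich : D.rich t z := ⟨v0, hv0'.2.trans hz, by omega, hv0'.2.ne, D.C23 _ _ _ hc0⟩
  have hS' : ∀ a ∈ S, a < t + 1 := fun a ha => (I.hS a ha).trans (Nat.lt_succ_self t)
  have hno : ∀ v ∈ Ico (t + 1) z, D.rich v z → ¬ D.Sp S v t := by
    intro v hv hr hs
    have hv' := mem_Ico.1 hv
    have hc := online I hz htz hv'.2 (by omega) hr hrich hs
    apply hsp
    obtain ⟨a, ha, hca⟩ := hs
    refine ⟨a, ha, ?_⟩
    -- C a t v, C t v z  → C a t z
    have h1 : D.C t v a := D.C231 hca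
    have h2 : D.C t a z := D.line2 (by omega) h1 hc
    exact D.C12 _ _ _ h2
  have hnon : D.Ex (t + 1) S (D.hh (D.wnon t S w)) z = D.Ex (t + 1) S (D.hh w) z := by
    apply D.Ex_congr hS' hz
    intro v hv hr
    exact hh_non_eq (fun h => hno v hv hr h.2)
  have hsel1 : D.Ex (t + 1) (insert t S) (D.hh (D.wsel t S w)) z ≤ D.Ex (t + 1) (insert t S) (D.hh w) z := by
    apply D.Ex_mono _ hz
    · intro v _; exact hh_sel_nonneg I v
    · intro v _ _; exact hh_sel_le I v
    · intro a ha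
      rw [mem_insert] at ha
      rcases ha with ha | ha
      · omega
      · exact hS' a ha
  have hsel2 := D.Ex_insert (t := t) (S := S) (h := D.hh w) (z := z) (fun v _ => I.hh_nonneg v)
  have hshift := D.Ex_shiftB (h := D.hh w) htz hsp
  have hL0 : 0 ≤ D.Lm t (D.hh w) z := by
    unfold Lm
    apply sum_nonneg
    intro v _
    split_ifs
    · exact I.hh_nonneg v
    · exact le_rfl
  have hL1 : D.Lm t (D.hh w) z ≤ 1 / 64 := by
    have h1 := I.part_le (t + 1) (by omega) hz.le htz hz hrich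
    have : D.Lm t (D.hh w) z = ∑ v ∈ Ico (t + 1) z, (if D.C t z v then D.hh w v else 0) := by
      unfold Lm
      apply sum_congr rfl
      intro v _
      have : D.C t v z ↔ D.C t z v := ⟨D.C23 _ _ _, D.C23 _ _ _⟩
      simp only [this]
    rw [this]
    linarith
  have hht : (255 / 256) * w t ≤ D.hh w t := D.hat_ge (I.hok t).ok2
  apply F_comb hsp
  apply caseB1_lemma hp0 hp hL0 hL1 (ht := D.hh w t)
  · linarith
  · rw [hshift]; linarith
  · rw [hshift, hnon]; linarith

/-- uniqueness of the affected off-line point -/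
lemma unique_aff {t : ℕ} {S : Finset ℕ} {w : ℕ → ℝ} (I : D.Inv t S w) {z : ℕ} (hz : z < D.M)
    {u u' : ℕ} (hu : u ∈ Ico (t + 1) z) (hu' : u' ∈ Ico (t + 1) z) (hne : u' ≠ u)
    (r1 : D.rich u z) (r2 : D.rich u' z) (s1 : D.Sp S u t) (s2 : D.Sp S u' t)
    (c1 : ¬ D.C t u z) (c2 : ¬ D.C t u' z) : False := by
  rw [mem_Ico] at hu hu'
  have hM : t < D.M := by omega
  have huM : u < D.M := by omega
  have huM' : u' < D.M := by omega
  have q1 : D.rich t u := D.Sp_rich s1 I.hS (fun a ha => (I.hS a ha).trans (by omega)) hM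
  have q2 : D.rich t u' := D.Sp_rich s2 I.hS (fun a ha => (I.hS a ha).trans (by omega)) hM
  by_cases h1 : D.C u z u'
  · by_cases h2 : D.C u' t u
    · apply c1
      -- line u u' contains z and t
      have a1 : D.C u u' z := D.C23 _ _ _ h1
      have a2 : D.C u u' t := D.C12 _ _ _ (D.C23 _ _ _ h2)
      have a3 := D.line2 hne.symm a2 a1
      exact D.C12 _ _ _ a3
    · apply D.notri t u u' hM huM huM' _ q1 _ q2
      · intro h; exact h2 (D.C312 h)
      · exact ⟨z, hz, by omega, by omega, D.C23 _ _ _ h1⟩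
  · by_cases h2 : D.C u' t u
    · apply D.notri u z u' huM hz huM' h1 r1 (D.rich_symm r2)
      exact ⟨t, hM, by omega, by omega, D.C12 _ _ _ (D.C23 _ _ _ h2)⟩
    · exact D.noquad t u z u' hM huM hz huM' c1 h1 (fun h => c2 (D.C13 h)) h2 q1 r1 (D.rich_symm r2) (D.rich_symm q2)

lemma F_stepB2 {t : ℕ} {S : Finset ℕ} {w : ℕ → ℝ} (I : D.Inv t S w) {z : ℕ} (hz : z < D.M) (htz : t < z)
    (hsp : ¬ D.Sp S z t) (hv0 : ¬ ∃ v ∈ Ico (t + 1) z, D.C t v z) :
    w t * D.Fz (t + 1) (insert t S) (D.wsel t S w) z + (1 - w t) * D.Fz (t + 1) S (D.wnon t S w) z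
      ≤ D.Fz t S w z := by
  have hp := I.p_le t
  have h1p : 0 < 1 - w t := by linarith
  have hp0 := I.w_nonneg t
  push Not at hv0
  have hS' : ∀ a ∈ S, a < t + 1 := fun a ha => (I.hS a ha).trans (Nat.lt_succ_self t)
  have hL : ∀ h : ℕ → ℝ, D.Lm t h z = 0 := by
    intro h
    unfold Lm
    apply sum_eq_zero
    intro v hv
    rw [if_neg (hv0 v hv)]
  have hshift := D.Ex_shiftB (h := D.hh w) htz hsp
  rw [hL, mul_zero, add_zero] at hshift
  have hsel2 := D.Ex_insert (t := t) (S := S) (h := D.hh (D.wsel t S w)) (z := z) (fun v _ => hh_sel_nonneg I v)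
  rw [hL, mul_zero, add_zero] at hsel2
  apply F_comb hsp
  rw [hshift]
  by_cases hu : ∃ u ∈ Ico (t + 1) z, D.rich u z ∧ D.Sp S u t
  · obtain ⟨u, hu, hru, hsu⟩ := hu
    have hu' := mem_Ico.1 hu
    have huniq : ∀ v ∈ Ico (t + 1) z, D.rich v z → v ≠ u → ¬ D.Sp S v t := by
      intro v hv hr hne hs
      exact unique_aff I hz hu hv hne hru hr hsu hs (hv0 u hu) (hv0 v hv)
    have e1 : D.Ex (t + 1) S (D.hh (D.wsel t S w)) z = D.Ex (t + 1) S (D.hh w) z
        + D.gco (t + 1) S (D.hh w) z u * (D.hh (D.wsel t S w) u - D.hh w u) := by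
      apply D.Ex_single hS' hz hu
      intro v hv hr hne
      exact hh_sel_eq (fun h => huniq v hv hr hne h.2)
    have e2 : D.Ex (t + 1) S (D.hh (D.wnon t S w)) z = D.Ex (t + 1) S (D.hh w) z
        + D.gco (t + 1) S (D.hh w) z u * (D.hh (D.wnon t S w) u - D.hh w u) := by
      apply D.Ex_single hS' hz hu
      intro v hv hr hne
      exact hh_non_eq (fun h => huniq v hv hr hne h.2)
    rw [hh_sel_eq_zero ⟨by omega, hsu⟩] at e1
    set g := D.gco (t + 1) S (D.hh w) z u with hg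
    have hg0 : 0 ≤ g := by
      rw [hg]; unfold gco
      apply add_nonneg
      · split_ifs <;> norm_num
      · apply mul_nonneg (by norm_num)
        apply sum_nonneg
        intro x _
        split_ifs
        · exact I.hh_nonneg x
        · exact le_rfl
    have hg1 : g ≤ 5 / 4 := by
      rw [hg]; unfold gco
      by_cases hs : D.Sp S z u
      · have : ∑ x ∈ Ico (t + 1) z, (if x ≠ u ∧ D.C x u z ∧ ¬ D.Sp S z u then D.hh w x else 0) = 0 := by
          apply sum_eq_zero
          intro x _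
          rw [if_neg]; tauto
        rw [this, if_pos hs]; norm_num
      · have h1 := I.part_le (P := u) (Q := z) (z := z) (t + 1) (by omega) hz.le hu'.2 hz hru
        have h2 : ∑ x ∈ Ico (t + 1) z, (if x ≠ u ∧ D.C x u z ∧ ¬ D.Sp S z u then D.hh w x else 0)
            ≤ ∑ v ∈ Ico (t + 1) z, (if D.C u z v then D.hh w v else 0) := by
          apply sum_le_sum
          intro x _
          have := I.hh_nonneg x
          by_cases hc : D.C u z x
          · rw [if_pos hc]
            split_ifs <;> linarith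
          · rw [if_neg hc, if_neg]
            rintro ⟨_, h3, _⟩
            exact hc (D.C231 h3)
        rw [if_neg hs]
        linarith
    set θ := g * D.hh w u with hθ
    have hhu0 := I.hh_nonneg u
    have hθ0 : 0 ≤ θ := mul_nonneg hg0 hhu0
    have hθ1 : θ ≤ D.ga u := by
      have h1 : D.hh w u ≤ D.pm u := (D.hat_le (I.hok u).ok2).trans (I.hok u).le_pm
      have h2 := D.pm_ga u
      have h3 := D.pm_pos u
      unfold pm at h1 h3
      calc θ ≤ (5 / 4) * D.hh w u := mul_le_mul_of_nonneg_right hg1 hhu0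
        _ ≤ (5 / 4) * (D.w0 u * Real.exp (D.Zm u)) := by linarith
        _ ≤ _ := h2
    have key := theta_lemma hp0 (by linarith) hθ0 hθ1 (by linarith [D.ga_le u])
    have s1 : D.Ex (t + 1) (insert t S) (D.hh (D.wsel t S w)) z - D.Ex (t + 1) S (D.hh w) z ≤ -θ := by
      rw [hθ]; linarith
    have s2 : D.Ex (t + 1) S (D.hh (D.wnon t S w)) z - D.Ex (t + 1) S (D.hh w) z ≤ w t / (1 - w t) * (1 - D.ga u) * θ := by
      rw [e2, hθ]
      have h3 := hh_non_le I u
      have h4 : g * (D.hh (D.wnon t S w) u - D.hh w u) ≤ g * (w t / (1 - w t) * (1 - D.ga u) * D.hh w u) := by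
        apply mul_le_mul_of_nonneg_left _ hg0
        linarith
      linarith
    calc _ ≤ w t * Real.exp (-θ) + (1 - w t) * Real.exp (w t / (1 - w t) * (1 - D.ga u) * θ) := by
          apply add_le_add
          · exact mul_le_mul_of_nonneg_left (Real.exp_le_exp.2 s1) hp0
          · exact mul_le_mul_of_nonneg_left (Real.exp_le_exp.2 s2) h1p.le
      _ ≤ 1 := key
  · push Not at hu
    have e1 : D.Ex (t + 1) S (D.hh (D.wsel t S w)) z = D.Ex (t + 1) S (D.hh w) z := by
      apply D.Ex_congr hS' hz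
      intro v hv hr
      exact hh_sel_eq (fun h => hu v hv hr h.2)
    have e2 : D.Ex (t + 1) S (D.hh (D.wnon t S w)) z = D.Ex (t + 1) S (D.hh w) z := by
      apply D.Ex_congr hS' hz
      intro v hv hr
      exact hh_non_eq (fun h => hu v hv hr h.2)
    have s1 : D.Ex (t + 1) (insert t S) (D.hh (D.wsel t S w)) z - D.Ex (t + 1) S (D.hh w) z ≤ 0 := by
      linarith
    have s2 : D.Ex (t + 1) S (D.hh (D.wnon t S w)) z - D.Ex (t + 1) S (D.hh w) z ≤ 0 := by
      linarith
    calc _ ≤ w t * Real.exp 0 + (1 - w t) * Real.exp 0 := by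
          apply add_le_add
          · exact mul_le_mul_of_nonneg_left (Real.exp_le_exp.2 s1) hp0
          · exact mul_le_mul_of_nonneg_left (Real.exp_le_exp.2 s2) h1p.le
      _ ≤ 1 := by rw [Real.exp_zero]; linarith

lemma F_step {t : ℕ} {S : Finset ℕ} {w : ℕ → ℝ} (I : D.Inv t S w) {z : ℕ} (hz : z < D.M) (htz : t < z) :
    w t * D.Fz (t + 1) (insert t S) (D.wsel t S w) z + (1 - w t) * D.Fz (t + 1) S (D.wnon t S w) z
      ≤ D.Fz t S w z := by
  by_cases hsp : D.Sp S z t
  · exact F_stepA I hz htz hsp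
  · by_cases hv0 : ∃ v ∈ Ico (t + 1) z, D.C t v z
    · exact F_stepB1 I hz htz hsp hv0
    · exact F_stepB2 I hz htz hsp hv0

end Sys

end Pool.Agent.Helper64.Proc
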