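import Pool.Agent.Helper64.Proc5

set_option autoImplicit false

namespace Pool.Agent.Helper64.Proc

open Finset
open scoped Classical

namespace Sys

variable {D : Sys}

noncomputable def xi (D : Sys) (t : ℕ) (w : ℕ → ℝ) (P Q : ℕ) : ℝ := Real.exp (D.s Q * D.ez t w P Q)

lemma on_line {P Q a b c : ℕ} (h : P ≠ Q) (ha : D.C P Q a) (hb : D.C P Q b) (hc : D.C P Q c) : D.C a b c := by
  by_cases h1 : a = P
  · subst h1
    exact D.line2 h hb hc
  · have h2 := D.line2 h ha hb
    have h3 := D.line2 h ha hc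
    exact D.line3 (fun h => h1 h.symm) h2 h3

lemma rich_of_line {P Q u u' : ℕ} (hP : P < D.M) (hQ : Q < D.M) (h : P ≠ Q) (hr : D.rich P Q) (hu : D.C P Q u) (hu' : D.C P Q u')
    : D.rich u u' := by
  obtain ⟨c, hc, hcP, hcQ, hC⟩ := hr
  by_cases h1 : P = u ∨ P = u'
  · by_cases h2 : Q = u ∨ Q = u'
    · refine ⟨c, hc, ?_, ?_, on_line h hu hu' hC⟩
      · rintro rfl
        rcases h1 with h1 | h1
        · exact hcP h1.symm
        · rcases h2 with h2 | h2
          · exact hcQ h2.symm
          · exact h (h1.trans h2.symm)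
      · rintro rfl
        rcases h1 with h1 | h1
        · rcases h2 with h2 | h2
          · exact h (h1.trans h2.symm)
          · exact hcQ h2.symm
        · exact hcP h1.symm
    · push Not at h2
      exact ⟨Q, hQ, h2.1, h2.2, on_line h hu hu' (D.Cd23 _ _)⟩
  · push Not at h1
    exact ⟨P, hP, h1.1, h1.2, on_line h hu hu' (D.Cd13 _ _)⟩

lemma bb_succ {t : ℕ} {w w' : ℕ → ℝ} {P Q : ℕ} (h : ∀ y ≤ t, w' y = w y) :
    D.bb (t + 1) w' P Q = D.bb t w P Q + if D.C P Q t then w t else 0 := by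
  unfold bb
  rw [sum_range_succ, h t le_rfl]
  congr 1
  apply sum_congr rfl
  intro y hy
  rw [mem_range] at hy
  rw [h y hy.le]

lemma wsel_le_t {t : ℕ} {S : Finset ℕ} {w : ℕ → ℝ} : ∀ y ≤ t, D.wsel t S w y = w y := by
  intro y hy
  unfold wsel
  rw [if_neg (fun h => absurd h.1 (by omega))]

lemma wnon_le_t {t : ℕ} {S : Finset ℕ} {w : ℕ → ℝ} : ∀ y ≤ t, D.wnon t S w y = w y := by
  intro y hy
  unfold wnon
  rw [if_neg (fun h => absurd h.1 (by omega))]

lemma rm_shift {t : ℕ} {w : ℕ → ℝ} {P Q : ℕ} (ht : t < D.M) :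
    D.rm t w P Q = D.rm (t + 1) w P Q + if D.C P Q t then D.hh w t else 0 := by
  unfold rm
  rw [Finset.sum_eq_sum_Ico_succ_bot ht]
  ring

lemma rm_single {t u : ℕ} {w w' : ℕ → ℝ} {P Q : ℕ} (hu : u ∈ Ico (t + 1) D.M) (hcu : D.C P Q u)
    (h : ∀ v ∈ Ico (t + 1) D.M, D.C P Q v → v ≠ u → D.hh w' v = D.hh w v) :
    D.rm (t + 1) w' P Q = D.rm (t + 1) w P Q + (D.hh w' u - D.hh w u) := by
  unfold rm
  have : ∀ v ∈ Ico (t + 1) D.M, (if D.C P Q v then D.hh w' v else 0)
      = (if D.C P Q v then D.hh w v else 0) + (if v = u then (D.hh w' u - D.hh w u) else 0) := by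
    intro v hv
    by_cases h1 : v = u
    · subst h1; simp [hcu]
    · by_cases h2 : D.C P Q v
      · simp [h1, h2, h v hv h2 h1]
      · simp [h1, h2]
  rw [sum_congr rfl this, sum_add_distrib, sum_ite_eq', if_pos hu]

/-- both exponents go down when `t` is on the line -/
lemma ez_on {t : ℕ} {S : Finset ℕ} {w w' : ℕ → ℝ} (I : D.Inv t S w) {P Q : ℕ} (hPQ : P < Q) (hQ : Q < D.M)
    (hr : D.rich P Q) (ht : t < D.M) (hc : D.C P Q t) (hw : ∀ y ≤ t, w' y = w y)
    (hle : ∀ v, D.hh w' v ≤ D.hh w v + w t / (1 - w t) * D.hh w v) :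
    D.ez (t + 1) w' P Q ≤ D.ez t w P Q := by
  have hp := I.p_le t
  have h1p : 0 < 1 - w t := by linarith
  have hp0 := I.w_nonneg t
  have h1 := bb_succ (D := D) (P := P) (Q := Q) hw
  have h2 := rm_shift (D := D) (w := w) (P := P) (Q := Q) ht
  rw [if_pos hc] at h1 h2
  have h3 : D.rm (t + 1) w' P Q ≤ D.rm (t + 1) w P Q + w t / (1 - w t) * D.rm (t + 1) w P Q := by
    unfold rm
    rw [mul_sum, ← sum_add_distrib]
    apply sum_le_sum
    intro v _
    split_ifs
    · exact hle v
    · simp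
  have h4 := I.rm_le hPQ hQ hr
  have hht : (255 / 256) * w t ≤ D.hh w t := D.hat_ge (I.hok t).ok2
  have h5 : D.rm (t + 1) w P Q ≤ 1 / 128 := by
    have := I.hh_nonneg t
    linarith
  have h6 : w t / (1 - w t) * D.rm (t + 1) w P Q ≤ w t * (64 / 63) * (1 / 128) := by
    have h7 : w t / (1 - w t) ≤ w t * (64 / 63) := by
      rw [div_le_iff₀ h1p]
      nlinarith
    have h8 : 0 ≤ w t / (1 - w t) := by positivity
    calc w t / (1 - w t) * D.rm (t + 1) w P Q ≤ w t / (1 - w t) * (1 / 128) := mul_le_mul_of_nonneg_left h5 h8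
      _ ≤ _ := mul_le_mul_of_nonneg_right h7 (by norm_num)
  unfold ez
  rw [h1, h2]
  nlinarith

lemma xi_step {t : ℕ} {S : Finset ℕ} {w : ℕ → ℝ} (I : D.Inv t S w) {P Q : ℕ} (hPQ : P < Q) (hQ : Q < D.M)
    (hr : D.rich P Q) (ht : t < D.M) :
    w t * D.xi (t + 1) (D.wsel t S w) P Q + (1 - w t) * D.xi (t + 1) (D.wnon t S w) P Q ≤ D.xi t w P Q := by
  have hp := I.p_le t
  have h1p : 0 < 1 - w t := by linarith
  have hp0 := I.w_nonneg t
  have hs := D.s_pos Q
  have hPM : P < D.M := hPQ.trans hQ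
  by_cases hc : D.C P Q t
  · have e1 : D.ez (t + 1) (D.wsel t S w) P Q ≤ D.ez t w P Q := by
      apply ez_on I hPQ hQ hr ht hc wsel_le_t
      intro v
      have h1 := hh_sel_le I v
      have h2 := I.hh_nonneg v
      have : 0 ≤ w t / (1 - w t) * D.hh w v := by positivity
      linarith
    have e2 : D.ez (t + 1) (D.wnon t S w) P Q ≤ D.ez t w P Q := by
      apply ez_on I hPQ hQ hr ht hc wnon_le_t
      intro v
      have h1 := hh_non_le I v
      have h2 := I.hh_nonneg v
      have h3 := D.ga_pos v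
      have : 0 ≤ w t / (1 - w t) * D.ga v * D.hh w v := by positivity
      nlinarith
    have e3 : D.xi (t + 1) (D.wsel t S w) P Q ≤ D.xi t w P Q :=
      Real.exp_le_exp.2 (mul_le_mul_of_nonneg_left e1 hs.le)
    have e4 : D.xi (t + 1) (D.wnon t S w) P Q ≤ D.xi t w P Q :=
      Real.exp_le_exp.2 (mul_le_mul_of_nonneg_left e2 hs.le)
    calc _ ≤ w t * D.xi t w P Q + (1 - w t) * D.xi t w P Q := by
          apply add_le_add
          · exact mul_le_mul_of_nonneg_left e3 hp0
          · exact mul_le_mul_of_nonneg_left e4 h1p.le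
      _ = _ := by ring
  · have hb1 : D.bb (t + 1) (D.wsel t S w) P Q = D.bb t w P Q := by
      rw [bb_succ wsel_le_t, if_neg hc, add_zero]
    have hb2 : D.bb (t + 1) (D.wnon t S w) P Q = D.bb t w P Q := by
      rw [bb_succ wnon_le_t, if_neg hc, add_zero]
    have hrs : D.rm t w P Q = D.rm (t + 1) w P Q := by
      rw [rm_shift ht, if_neg hc, add_zero]
    -- reduce to the exponent differences
    have red : w t * Real.exp (D.s Q * (D.rm (t + 1) (D.wsel t S w) P Q - D.rm (t + 1) w P Q))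
        + (1 - w t) * Real.exp (D.s Q * (D.rm (t + 1) (D.wnon t S w) P Q - D.rm (t + 1) w P Q)) ≤ 1 →
        w t * D.xi (t + 1) (D.wsel t S w) P Q + (1 - w t) * D.xi (t + 1) (D.wnon t S w) P Q ≤ D.xi t w P Q := by
      intro h
      have hx : 0 < D.xi t w P Q := Real.exp_pos _
      have e1 : D.xi (t + 1) (D.wsel t S w) P Q = D.xi t w P Q *
          Real.exp (D.s Q * (D.rm (t + 1) (D.wsel t S w) P Q - D.rm (t + 1) w P Q)) := by
        unfold xi ez
        rw [hb1, hrs, ← Real.exp_add]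
        congr 1; ring
      have e2 : D.xi (t + 1) (D.wnon t S w) P Q = D.xi t w P Q *
          Real.exp (D.s Q * (D.rm (t + 1) (D.wnon t S w) P Q - D.rm (t + 1) w P Q)) := by
        unfold xi ez
        rw [hb2, hrs, ← Real.exp_add]
        congr 1; ring
      rw [e1, e2]
      nlinarith [mul_le_mul_of_nonneg_left h hx.le]
    apply red
    by_cases hu : ∃ u ∈ Ico (t + 1) D.M, D.C P Q u ∧ D.Sp S u t
    · obtain ⟨u, hu, hcu, hsu⟩ := hu
      have hu' := mem_Ico.1 hu
      have huniq : ∀ v ∈ Ico (t + 1) D.M, D.C P Q v → v ≠ u → ¬ D.Sp S v t := by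
        intro v hv hcv hne hsv
        have hv' := mem_Ico.1 hv
        have q1 : D.rich t u := D.Sp_rich hsu I.hS (fun a ha => (I.hS a ha).trans (by omega)) ht
        have q2 : D.rich t v := D.Sp_rich hsv I.hS (fun a ha => (I.hS a ha).trans (by omega)) ht
        have q3 : D.rich u v := rich_of_line hPM hQ hPQ.ne hr hcu hcv
        apply D.notri t u v ht hu'.2 hv'.2 _ q1 q3 q2
        intro h
        apply hc
        -- t on line u v which is line P Q
        have h1 : D.C u v t := D.C231 h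
        have h2 : D.C u v P := on_line hPQ.ne hcu hcv (D.Cd13 _ _)
        have h3 : D.C u v Q := on_line hPQ.ne hcu hcv (D.Cd23 _ _)
        exact on_line hne.symm h2 h3 h1
      have e1 : D.rm (t + 1) (D.wsel t S w) P Q = D.rm (t + 1) w P Q + (D.hh (D.wsel t S w) u - D.hh w u) := by
        apply rm_single hu hcu
        intro v hv hcv hne
        exact hh_sel_eq (fun h => huniq v hv hcv hne h.2)
      have e2 : D.rm (t + 1) (D.wnon t S w) P Q = D.rm (t + 1) w P Q + (D.hh (D.wnon t S w) u - D.hh w u) := by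
        apply rm_single hu hcu
        intro v hv hcv hne
        exact hh_non_eq (fun h => huniq v hv hcv hne h.2)
      rw [hh_sel_eq_zero ⟨by omega, hsu⟩] at e1
      set θ := D.s Q * D.hh w u with hθ
      have hhu0 := I.hh_nonneg u
      have hθ0 : 0 ≤ θ := by positivity
      have hθ1 : θ ≤ D.ga u := by
        have h1 : D.hh w u ≤ D.pm u := (D.hat_le (I.hok u).ok2).trans (I.hok u).le_pm
        have h2 := D.s_le P Q u hPQ hQ hu'.2 hr hcu
        unfold pm at h1
        calc θ ≤ D.s Q * (D.w0 u * Real.exp (D.Zm u)) := mul_le_mul_of_nonneg_left h1 hs.le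
          _ ≤ _ := h2
      have key := theta_lemma hp0 (by linarith) hθ0 hθ1 (by linarith [D.ga_le u])
      have s1 : D.s Q * (D.rm (t + 1) (D.wsel t S w) P Q - D.rm (t + 1) w P Q) ≤ -θ := by
        rw [e1, hθ]; linarith
      have s2 : D.s Q * (D.rm (t + 1) (D.wnon t S w) P Q - D.rm (t + 1) w P Q) ≤ w t / (1 - w t) * (1 - D.ga u) * θ := by
        rw [e2, hθ]
        have h3 := hh_non_le I u
        have h4 : D.s Q * (D.hh (D.wnon t S w) u - D.hh w u) ≤ D.s Q * (w t / (1 - w t) * (1 - D.ga u) * D.hh w u) := by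
          apply mul_le_mul_of_nonneg_left _ hs.le
          linarith
        linarith
      calc _ ≤ w t * Real.exp (-θ) + (1 - w t) * Real.exp (w t / (1 - w t) * (1 - D.ga u) * θ) := by
            apply add_le_add
            · exact mul_le_mul_of_nonneg_left (Real.exp_le_exp.2 s1) hp0
            · exact mul_le_mul_of_nonneg_left (Real.exp_le_exp.2 s2) h1p.le
        _ ≤ 1 := key
    · push Not at hu
      have e1 : D.rm (t + 1) (D.wsel t S w) P Q = D.rm (t + 1) w P Q := by
        unfold rm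
        apply sum_congr rfl
        intro v hv
        split_ifs with hcv
        · exact hh_sel_eq (fun h => hu v hv hcv h.2)
        · rfl
      have e2 : D.rm (t + 1) (D.wnon t S w) P Q = D.rm (t + 1) w P Q := by
        unfold rm
        apply sum_congr rfl
        intro v hv
        split_ifs with hcv
        · exact hh_non_eq (fun h => hu v hv hcv h.2)
        · rfl
      rw [e1, e2, sub_self, mul_zero, Real.exp_zero]
      linarith

end Sys

end Pool.Agent.Helper64.Proc
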