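import Pool.Agent.Helper64.Proc6

set_option autoImplicit false

namespace Pool.Agent.Helper64.Proc

open Finset
open scoped Classical

structure Sys2 extends Sys where
  cls : ℕ → ℕ
  cd : ℕ → ℝ
  cd_nonneg : ∀ k, 0 ≤ cd k
  deg : ∀ t k, t < M →
    (((Ico (t + 1) M).filter (fun v => cls v = k ∧ ∃ a, a < t ∧ C a t v)).card : ℝ) ≤ cd k

namespace Sys2

variable (D : Sys2)

noncomputable def Wk (t : ℕ) (w : ℕ → ℝ) (k : ℕ) : ℝ :=
  ∑ z ∈ (Ico t D.M).filter (fun v => D.cls v = k), w z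

noncomputable def Qk (t : ℕ) (w : ℕ → ℝ) (k : ℕ) : ℝ :=
  ∑ z ∈ (Ico t D.M).filter (fun v => D.cls v = k), w z * (2 * D.pm z - w z)

noncomputable def Xk (t : ℕ) (S : Finset ℕ) (w d : ℕ → ℝ) (k : ℕ) : ℝ :=
  ((S.filter (fun v => D.cls v = k)).card : ℝ) + D.Wk t w k
    + ∑ z ∈ (range D.M).filter (fun v => D.cls v = k), d z

noncomputable def Yk (X0 : ℕ → ℝ) (t : ℕ) (S : Finset ℕ) (w d : ℕ → ℝ) (k : ℕ) : ℝ :=
  (D.Xk t S w d k - X0 k) ^ 2 + 4 * D.Wk t w k + 2 * D.cd k * D.Qk t w k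

variable {D}

lemma filter_shift {t : ℕ} (ht : t < D.M) (k : ℕ) (f : ℕ → ℝ) :
    ∑ z ∈ (Ico t D.M).filter (fun v => D.cls v = k), f z
      = (if D.cls t = k then f t else 0) + ∑ z ∈ (Ico (t + 1) D.M).filter (fun v => D.cls v = k), f z := by
  rw [sum_filter, Finset.sum_eq_sum_Ico_succ_bot ht, sum_filter]

lemma sq_sub_le2 (a m : ℝ) : (a - m) ^ 2 ≤ 2 * a ^ 2 + 2 * m ^ 2 := by
  nlinarith [sq_nonneg (a + m)]

lemma Y_step {X0 : ℕ → ℝ} {t : ℕ} {S : Finset ℕ} {w d : ℕ → ℝ} (I : D.Inv t S w) (ht : t < D.M) (k : ℕ) :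
    w t * D.Yk X0 (t + 1) (insert t S) (D.wsel t S w) d k + (1 - w t) * D.Yk X0 (t + 1) S (D.wnon t S w) d k
      ≤ D.Yk X0 t S w d k := by
  have hp := I.p_le t
  have h1p : 0 < 1 - w t := by linarith
  have hp0 := I.w_nonneg t
  set p := w t with hpdef
  set A := (Ico (t + 1) D.M).filter (fun v => D.cls v = k) with hA
  set N := A.filter (fun v => D.Sp S v t) with hN
  set W1 := ∑ z ∈ A, w z with hW1
  set Q1 := ∑ z ∈ A, w z * (2 * D.pm z - w z) with hQ1
  set m := ∑ z ∈ N, w z with hm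
  set q := ∑ z ∈ N, w z ^ 2 with hq
  set r := ∑ z ∈ N, w z * (2 * D.pm z - w z) with hr
  set ι : ℝ := if D.cls t = k then 1 else 0 with hι
  set B : ℝ := ((S.filter (fun v => D.cls v = k)).card : ℝ) with hB
  set dd := ∑ z ∈ (range D.M).filter (fun v => D.cls v = k), d z with hdd
  have htA : ∀ v ∈ A, t < v := by
    intro v hv
    rw [hA, mem_filter, mem_Ico] at hv
    omega
  have eW : D.Wk t w k = ι * p + W1 := by
    unfold Wk
    rw [filter_shift ht, hι]
    congr 1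
    split_ifs <;> simp [hpdef]
  have eQ : D.Qk t w k = ι * (p * (2 * D.pm t - p)) + Q1 := by
    unfold Qk
    rw [filter_shift ht k (fun z => w z * (2 * D.pm z - w z)), hι]
    congr 1
    split_ifs <;> simp [hpdef]
  have eWs : D.Wk (t + 1) (D.wsel t S w) k = W1 - m := by
    unfold Wk
    rw [hW1, hm, hN, sum_filter (s := A), ← sum_sub_distrib]
    apply sum_congr rfl
    intro v hv
    have := htA v hv
    unfold Sys.wsel
    by_cases h : D.Sp S v t <;> simp [h, this]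
  have eWn : D.Wk (t + 1) (D.wnon t S w) k = W1 + p / (1 - p) * m := by
    unfold Wk
    rw [hW1, hm, hN, sum_filter (s := A), mul_sum, ← sum_add_distrib]
    apply sum_congr rfl
    intro v hv
    have := htA v hv
    unfold Sys.wnon
    by_cases h : D.Sp S v t
    · simp only [h, this, true_and, if_true]
      rw [← hpdef]
      field_simp
      ring
    · simp [h]
  have eQs : D.Qk (t + 1) (D.wsel t S w) k = Q1 - r := by
    unfold Qk
    rw [hQ1, hr, hN, sum_filter (s := A), ← sum_sub_distrib]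
    apply sum_congr rfl
    intro v hv
    have := htA v hv
    unfold Sys.wsel
    by_cases h : D.Sp S v t <;> simp [h, this]
  have eQn : (1 - p) * D.Qk (t + 1) (D.wnon t S w) k = (1 - p) * Q1 + p * r - p / (1 - p) * q := by
    unfold Qk
    rw [hQ1, hr, hq, hN, sum_filter (s := A), sum_filter (s := A), mul_sum, mul_sum, mul_sum, mul_sum,
      ← sum_add_distrib, ← sum_sub_distrib]
    apply sum_congr rfl
    intro v hv
    have := htA v hv
    unfold Sys.wnon
    by_cases h : D.Sp S v t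
    · simp only [h, this, true_and, if_true]
      rw [← hpdef]
      field_simp
      ring
    · simp [h]
  have eC : (((insert t S).filter (fun v => D.cls v = k)).card : ℝ) = B + ι := by
    rw [filter_insert]
    split_ifs with hc
    · rw [card_insert_of_notMem]
      · rw [hι, if_pos hc]; push_cast; rfl
      · intro hmem
        have := I.hS t (mem_filter.1 hmem).1
        omega
    · rw [hι, if_neg hc]; simp [hB]
  have hmq : m ^ 2 ≤ D.cd k * q := by
    have h1 : m ^ 2 ≤ (N.card : ℝ) * q := by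
      rw [hm, hq]
      exact sq_sum_le_card_mul_sum_sq
    have h2 : (N.card : ℝ) ≤ D.cd k := by
      refine le_trans ?_ (D.deg t k ht)
      have : N ⊆ (Ico (t + 1) D.M).filter (fun v => D.cls v = k ∧ ∃ a, a < t ∧ D.C a t v) := by
        intro v hv
        rw [hN, mem_filter, hA, mem_filter] at hv
        obtain ⟨⟨h3, h4⟩, a, ha, hc⟩ := hv
        rw [mem_filter]
        exact ⟨h3, h4, a, I.hS a ha, hc⟩
      exact_mod_cast card_le_card this
    have h3 : 0 ≤ q := by rw [hq]; exact sum_nonneg (fun _ _ => sq_nonneg _)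
    exact h1.trans (mul_le_mul_of_nonneg_right h2 h3)
  have hι2 : ι = 0 ∨ ι = 1 := by
    rw [hι]; split_ifs <;> simp
  have hpm : 0 ≤ p * (2 * D.pm t - p) := by
    have h1 := (I.hok t).le_pm
    have h2 := D.pm_pos t
    apply mul_nonneg hp0
    linarith
  have hcd := D.cd_nonneg k
  unfold Yk Xk
  rw [eC, eW, eWs, eWn, eQ, eQs]
  set x := B + (ι * p + W1) + dd - X0 k with hx
  have hxs : B + ι + (W1 - m) + dd - X0 k = x + (ι * (1 - p) - m) := by rw [hx]; ring
  have hxn : B + (W1 + p / (1 - p) * m) + dd - X0 k = x - (p / (1 - p)) * (ι * (1 - p) - m) := by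
    rw [hx]; field_simp; ring
  rw [hxs, hxn]
  set δ := ι * (1 - p) - m with hδ
  have key1 : p * (x + δ) ^ 2 + (1 - p) * (x - p / (1 - p) * δ) ^ 2 = x ^ 2 + p / (1 - p) * δ ^ 2 := by
    field_simp; ring
  have key2 : p / (1 - p) * δ ^ 2 ≤ 2 * ι * p + 2 * (p / (1 - p)) * m ^ 2 := by
    have h0 : 0 ≤ p / (1 - p) := by positivity
    have h1 : δ ^ 2 ≤ 2 * (ι * (1 - p) ^ 2) + 2 * m ^ 2 := by
      have hιι : ι ^ 2 = ι := by rcases hι2 with h | h <;> rw [h] <;> norm_num
      have : (ι * (1 - p)) ^ 2 = ι * (1 - p) ^ 2 := by rw [mul_pow, hιι]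
      rw [← this, hδ]
      exact sq_sub_le2 _ _
    have h2 := mul_le_mul_of_nonneg_left h1 h0
    have h3 : p / (1 - p) * (2 * (ι * (1 - p) ^ 2) + 2 * m ^ 2) = 2 * ι * p * (1 - p) + 2 * (p / (1 - p)) * m ^ 2 := by
      field_simp
    have h4 : 2 * ι * p * (1 - p) ≤ 2 * ι * p := by
      have h5 : 0 ≤ ι * p := by rcases hι2 with h | h <;> rw [h] <;> linarith
      have h6 : 0 ≤ ι * p * p := mul_nonneg h5 hp0
      linarith [h6, show 2 * ι * p * (1 - p) = 2 * ι * p - 2 * (ι * p * p) by ring]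
    linarith
  have key3 : 2 * (p / (1 - p)) * m ^ 2 ≤ 2 * (p / (1 - p)) * (D.cd k * q) := by
    apply mul_le_mul_of_nonneg_left hmq
    positivity
  have key4 : p * (4 * (W1 - m)) + (1 - p) * (4 * (W1 + p / (1 - p) * m)) = 4 * W1 := by
    field_simp; ring
  have hιp : 0 ≤ ι * (p * (2 * D.pm t - p)) := by
    rcases hι2 with h | h <;> rw [h] <;> linarith
  have hιp2 : 0 ≤ ι * p := by rcases hι2 with h | h <;> rw [h] <;> linarith
  have expand : p * ((x + δ) ^ 2 + 4 * (W1 - m) + 2 * D.cd k * (Q1 - r))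
      + (1 - p) * ((x - p / (1 - p) * δ) ^ 2 + 4 * (W1 + p / (1 - p) * m) + 2 * D.cd k * D.Qk (t + 1) (D.wnon t S w) k)
      = (p * (x + δ) ^ 2 + (1 - p) * (x - p / (1 - p) * δ) ^ 2) + (p * (4 * (W1 - m)) + (1 - p) * (4 * (W1 + p / (1 - p) * m)))
        + 2 * D.cd k * (p * (Q1 - r) + (1 - p) * D.Qk (t + 1) (D.wnon t S w) k) := by ring
  rw [expand, key1, key4, eQn]
  have h9 : 0 ≤ D.cd k * (ι * (p * (2 * D.pm t - p))) := mul_nonneg hcd hιp
  have h10 : 2 * D.cd k * (p * (Q1 - r) + ((1 - p) * Q1 + p * r - p / (1 - p) * q))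
      = 2 * D.cd k * Q1 - 2 * (p / (1 - p)) * (D.cd k * q) := by ring
  have h11 : 2 * D.cd k * (ι * (p * (2 * D.pm t - p)) + Q1)
      = 2 * (D.cd k * (ι * (p * (2 * D.pm t - p)))) + 2 * D.cd k * Q1 := by ring
  rw [h10, h11]
  linarith

end Sys2

end Pool.Agent.Helper64.Proc
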