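import Pool.Agent.Helper64.Proc7

set_option autoImplicit false

namespace Pool.Agent.Helper64.Proc

open Finset
open scoped Classical

namespace Sys2

variable (D : Sys2)

def bad (t : ℕ) (S : Finset ℕ) (w : ℕ → ℝ) (z : ℕ) : Prop :=
  t ≤ z ∧ D.w0 z * Real.exp (D.Zm z) < w z * Real.exp (D.Ex t S (D.hh w) z)

/-- weights after discarding, at time `t` -/
noncomputable def wd (t : ℕ) (S : Finset ℕ) (w : ℕ → ℝ) (z : ℕ) : ℝ := if D.bad t S w z then 0 else w z

noncomputable def dd (t : ℕ) (S : Finset ℕ) (w d : ℕ → ℝ) (z : ℕ) : ℝ := d z + if D.bad t S w z then w z else 0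

/-- pairs generating rich lines -/
noncomputable def prs : Finset (ℕ × ℕ) :=
  (range D.M ×ˢ range D.M).filter (fun e => e.1 < e.2 ∧ D.rich e.1 e.2)

noncomputable def Phi (al : ℕ → ℝ) (K : Finset ℕ) (be X0 : ℕ → ℝ) (t : ℕ) (S : Finset ℕ) (w d : ℕ → ℝ) : ℝ :=
  ∑ z ∈ Ico t D.M, al z * D.Fz t S w z + ∑ z ∈ range D.M, al z * (Real.exp (D.Zm z) * d z)
    + ∑ k ∈ K, be k * D.Yk X0 t S w d k + ∑ e ∈ D.prs, D.xi t w e.1 e.2

variable {D}

lemma mem_prs {e : ℕ × ℕ} : e ∈ D.prs ↔ e.1 < e.2 ∧ e.2 < D.M ∧ D.rich e.1 e.2 := by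
  unfold prs
  rw [mem_filter, mem_product, mem_range, mem_range]
  constructor
  · rintro ⟨⟨_, h2⟩, h3, h4⟩; exact ⟨h3, h2, h4⟩
  · rintro ⟨h1, h2, h3⟩; exact ⟨⟨h1.trans h2, h2⟩, h1, h3⟩

lemma Ex_mono' {t : ℕ} {S : Finset ℕ} {h h' : ℕ → ℝ} {z : ℕ}
    (h0 : ∀ v, 0 ≤ h v) (hle : ∀ v, h v ≤ h' v) :
    D.Ex t S h z ≤ D.Ex t S h' z := by
  unfold Sys.Ex Sys.Dt Sys.Tt
  apply add_le_add
  · apply mul_le_mul_of_nonneg_left _ (by norm_num)
    apply sum_le_sum
    intro v _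
    split_ifs
    · exact hle v
    · exact le_rfl
  · apply sum_le_sum
    intro v _
    apply sum_le_sum
    intro x _
    split_ifs
    · exact mul_le_mul (hle x) (hle v) (h0 v) ((h0 x).trans (hle x))
    · exact le_rfl

lemma hh_wd_le {t : ℕ} {S : Finset ℕ} {w : ℕ → ℝ} (hok : ∀ v, D.Ok2 v (w v)) (v : ℕ) :
    D.hh (D.wd t S w) v ≤ D.hh w v := by
  unfold Sys.hh wd
  split_ifs
  · rw [Sys.hat_zero]; exact D.hat_nonneg (hok v)
  · exact le_rfl

lemma hh_wd_nonneg {t : ℕ} {S : Finset ℕ} {w : ℕ → ℝ} (hok : ∀ v, D.Ok2 v (w v)) (v : ℕ) :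
    0 ≤ D.hh (D.wd t S w) v := by
  unfold Sys.hh wd
  split_ifs
  · rw [Sys.hat_zero]
  · exact D.hat_nonneg (hok v)

lemma Ex_wd_le {t : ℕ} {S : Finset ℕ} {w : ℕ → ℝ} (hok : ∀ v, D.Ok2 v (w v)) (z : ℕ) :
    D.Ex t S (D.hh (D.wd t S w)) z ≤ D.Ex t S (D.hh w) z :=
  Ex_mono' (hh_wd_nonneg hok) (hh_wd_le hok)

lemma wd_ok {t : ℕ} {S : Finset ℕ} {w : ℕ → ℝ} (hok : ∀ v, D.Ok2 v (w v)) (hlt : ∀ v < t, D.Ok v (w v)) (v : ℕ) :
    D.Ok v (D.wd t S w v) := by
  by_cases h : D.bad t S w v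
  · unfold wd; rw [if_pos h]; exact Or.inl rfl
  · unfold wd; rw [if_neg h]
    by_cases hv : v < t
    · exact hlt v hv
    · rcases hok v with h0 | h0
      · exact Or.inl h0
      · right
        refine ⟨h0.1, ?_⟩
        unfold bad at h
        push Not at h
        have h1 := h (by omega)
        have h2 : 0 ≤ D.Ex t S (D.hh w) v := D.Ex_nonneg (fun x _ => D.hat_nonneg (hok x))
        have h3 : 1 ≤ Real.exp (D.Ex t S (D.hh w) v) := Real.one_le_exp h2
        have h4 : 0 < w v := lt_of_lt_of_le (D.w0_pos v) h0.1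
        unfold Sys.pm
        nlinarith

lemma G_wd {t : ℕ} {S : Finset ℕ} {w d : ℕ → ℝ} (hok : ∀ v, D.Ok2 v (w v)) (z : ℕ) :
    D.Fz t S (D.wd t S w) z + Real.exp (D.Zm z) * D.dd t S w d z ≤ D.Fz t S w z + Real.exp (D.Zm z) * d z := by
  have hw0 := D.w0_pos z
  by_cases h : D.bad t S w z
  · have e1 : D.wd t S w z = 0 := by unfold wd; rw [if_pos h]
    have e2 : D.dd t S w d z = d z + w z := by unfold dd; rw [if_pos h]
    unfold Sys.Fz
    rw [e1, e2]
    have h1 := h.2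
    have h2 : 0 ≤ w z := (hok z).nonneg
    have h3 : Real.exp (D.Zm z) * w z ≤ w z ^ 2 / D.w0 z * Real.exp (D.Ex t S (D.hh w) z) := by
      rw [div_mul_eq_mul_div, le_div_iff₀ hw0]
      nlinarith
    simp only [ne_eq, OfNat.ofNat_ne_zero, not_false_eq_true, zero_pow, zero_div, zero_mul, zero_add]
    linarith
  · have e1 : D.wd t S w z = w z := by unfold wd; rw [if_neg h]
    have e2 : D.dd t S w d z = d z := by unfold dd; rw [if_neg h, add_zero]
    unfold Sys.Fz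
    rw [e1, e2]
    have h3 := Ex_wd_le (D := D) (t := t) (S := S) hok z
    have h4 : 0 ≤ w z ^ 2 / D.w0 z := by positivity
    have h5 := mul_le_mul_of_nonneg_left (Real.exp_le_exp.2 h3) h4
    linarith

lemma wd_lt {t : ℕ} {S : Finset ℕ} {w : ℕ → ℝ} {v : ℕ} (h : v < t) : D.wd t S w v = w v := by
  unfold wd
  rw [if_neg]
  unfold bad
  rintro ⟨h1, _⟩
  omega

lemma X_wd {t : ℕ} {S : Finset ℕ} {w d : ℕ → ℝ} (k : ℕ) :
    D.Xk t S (D.wd t S w) (D.dd t S w d) k = D.Xk t S w d k := by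
  unfold Xk Wk
  have e1 : ∑ z ∈ (range D.M).filter (fun v => D.cls v = k), D.dd t S w d z
      = ∑ z ∈ (range D.M).filter (fun v => D.cls v = k), d z
        + ∑ z ∈ (Ico t D.M).filter (fun v => D.cls v = k), (if D.bad t S w z then w z else 0) := by
    unfold dd
    rw [sum_add_distrib]
    congr 1
    symm
    apply sum_subset
    · intro x hx
      rw [mem_filter, mem_Ico] at hx
      rw [mem_filter, mem_range]
      exact ⟨hx.1.2, hx.2⟩
    · intro x hx hx'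
      rw [mem_filter, mem_range] at hx
      rw [mem_filter, mem_Ico] at hx'
      rw [if_neg]
      rintro ⟨h1, _⟩
      exact hx' ⟨⟨h1, hx.1⟩, hx.2⟩
  have e2 : ∑ z ∈ (Ico t D.M).filter (fun v => D.cls v = k), D.wd t S w z
      + ∑ z ∈ (Ico t D.M).filter (fun v => D.cls v = k), (if D.bad t S w z then w z else 0)
      = ∑ z ∈ (Ico t D.M).filter (fun v => D.cls v = k), w z := by
    rw [← sum_add_distrib]
    apply sum_congr rfl
    intro z _
    unfold wd
    split_ifs <;> ring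
  rw [e1, ← e2]
  ring

lemma Y_wd {X0 : ℕ → ℝ} {t : ℕ} {S : Finset ℕ} {w d : ℕ → ℝ} (hok : ∀ v, D.Ok2 v (w v)) (k : ℕ) :
    D.Yk X0 t S (D.wd t S w) (D.dd t S w d) k ≤ D.Yk X0 t S w d k := by
  unfold Yk
  rw [X_wd]
  have h1 : D.Wk t (D.wd t S w) k ≤ D.Wk t w k := by
    unfold Wk
    apply sum_le_sum
    intro z _
    unfold wd
    split_ifs
    · exact (hok z).nonneg
    · exact le_rfl
  have h2 : D.Qk t (D.wd t S w) k ≤ D.Qk t w k := by
    unfold Qk
    apply sum_le_sum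
    intro z _
    unfold wd
    split_ifs
    · have h3 := (hok z).nonneg
      have h4 : w z ≤ 2 * D.pm z := by
        rcases hok z with h | h
        · rw [h]; have := D.pm_pos z; linarith
        · exact h.2
      have : 0 ≤ w z * (2 * D.pm z - w z) := mul_nonneg h3 (by linarith)
      linarith
    · exact le_rfl
  have h3 := mul_le_mul_of_nonneg_left h2 (D.cd_nonneg k)
  linarith

lemma xi_wd {t : ℕ} {S : Finset ℕ} {w : ℕ → ℝ} (hok : ∀ v, D.Ok2 v (w v)) (P Q : ℕ) :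
    D.xi t (D.wd t S w) P Q ≤ D.xi t w P Q := by
  unfold Sys.xi
  apply Real.exp_le_exp.2
  apply mul_le_mul_of_nonneg_left _ (D.s_pos Q).le
  unfold Sys.ez
  have h1 : D.bb t (D.wd t S w) P Q = D.bb t w P Q := by
    unfold Sys.bb
    apply sum_congr rfl
    intro y hy
    rw [mem_range] at hy
    rw [wd_lt hy]
  have h2 : D.rm t (D.wd t S w) P Q ≤ D.rm t w P Q := by
    unfold Sys.rm
    apply sum_le_sum
    intro v _
    split_ifs
    · exact hh_wd_le hok v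
    · exact le_rfl
  rw [h1]
  linarith

lemma Phi_wd {al : ℕ → ℝ} (hal : ∀ z, 0 ≤ al z) {K : Finset ℕ} {be X0 : ℕ → ℝ} (hbe : ∀ k, 0 ≤ be k)
    {t : ℕ} {S : Finset ℕ} {w d : ℕ → ℝ} (hok : ∀ v, D.Ok2 v (w v)) :
    D.Phi al K be X0 t S (D.wd t S w) (D.dd t S w d) ≤ D.Phi al K be X0 t S w d := by
  unfold Phi
  have h1 : ∑ z ∈ Ico t D.M, al z * D.Fz t S (D.wd t S w) z + ∑ z ∈ range D.M, al z * (Real.exp (D.Zm z) * D.dd t S w d z)
      ≤ ∑ z ∈ Ico t D.M, al z * D.Fz t S w z + ∑ z ∈ range D.M, al z * (Real.exp (D.Zm z) * d z) := by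
    have split : ∀ f : ℕ → ℝ, ∑ z ∈ range D.M, f z = ∑ z ∈ (range D.M).filter (fun z => z < t), f z
        + ∑ z ∈ Ico t D.M, f z := by
      intro f
      rw [← sum_filter_add_sum_filter_not (range D.M) (fun z => z < t)]
      congr 1
      apply sum_congr
      · ext x
        simp only [mem_filter, mem_range, mem_Ico]
        omega
      · intros; rfl
    rw [split, split (fun z => al z * (Real.exp (D.Zm z) * d z))]
    have e1 : ∑ z ∈ (range D.M).filter (fun z => z < t), al z * (Real.exp (D.Zm z) * D.dd t S w d z)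
        = ∑ z ∈ (range D.M).filter (fun z => z < t), al z * (Real.exp (D.Zm z) * d z) := by
      apply sum_congr rfl
      intro z hz
      rw [mem_filter] at hz
      unfold dd
      rw [if_neg, add_zero]
      rintro ⟨h, _⟩
      omega
    have e2 : ∑ z ∈ Ico t D.M, al z * D.Fz t S (D.wd t S w) z + ∑ z ∈ Ico t D.M, al z * (Real.exp (D.Zm z) * D.dd t S w d z)
        ≤ ∑ z ∈ Ico t D.M, al z * D.Fz t S w z + ∑ z ∈ Ico t D.M, al z * (Real.exp (D.Zm z) * d z) := by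
      rw [← sum_add_distrib, ← sum_add_distrib]
      apply sum_le_sum
      intro z _
      have := mul_le_mul_of_nonneg_left (G_wd (D := D) (t := t) (S := S) (d := d) hok z) (hal z)
      linarith
    linarith
  have h2 : ∑ k ∈ K, be k * D.Yk X0 t S (D.wd t S w) (D.dd t S w d) k ≤ ∑ k ∈ K, be k * D.Yk X0 t S w d k := by
    apply sum_le_sum
    intro k _
    exact mul_le_mul_of_nonneg_left (Y_wd hok k) (hbe k)
  have h3 : ∑ e ∈ D.prs, D.xi t (D.wd t S w) e.1 e.2 ≤ ∑ e ∈ D.prs, D.xi t w e.1 e.2 :=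
    sum_le_sum (fun e _ => xi_wd hok e.1 e.2)
  linarith

lemma Phi_step {al : ℕ → ℝ} (hal : ∀ z, 0 ≤ al z) {K : Finset ℕ} {be X0 : ℕ → ℝ} (hbe : ∀ k, 0 ≤ be k)
    {t : ℕ} {S : Finset ℕ} {w d : ℕ → ℝ} (I : D.Inv t S w) (ht : t < D.M) :
    w t * D.Phi al K be X0 (t + 1) (insert t S) (D.wsel t S w) d
      + (1 - w t) * D.Phi al K be X0 (t + 1) S (D.wnon t S w) d ≤ D.Phi al K be X0 t S w d := by
  have hp := I.p_le t
  have h1p : 0 < 1 - w t := by linarith
  have hp0 := I.w_nonneg t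
  unfold Phi
  have h1 : w t * ∑ z ∈ Ico (t + 1) D.M, al z * D.Fz (t + 1) (insert t S) (D.wsel t S w) z
      + (1 - w t) * ∑ z ∈ Ico (t + 1) D.M, al z * D.Fz (t + 1) S (D.wnon t S w) z
      ≤ ∑ z ∈ Ico t D.M, al z * D.Fz t S w z := by
    rw [Finset.sum_eq_sum_Ico_succ_bot ht]
    have h0 : 0 ≤ al t * D.Fz t S w t := by
      apply mul_nonneg (hal t)
      unfold Sys.Fz
      have := D.w0_pos t
      positivity
    have : w t * ∑ z ∈ Ico (t + 1) D.M, al z * D.Fz (t + 1) (insert t S) (D.wsel t S w) z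
      + (1 - w t) * ∑ z ∈ Ico (t + 1) D.M, al z * D.Fz (t + 1) S (D.wnon t S w) z
      ≤ ∑ z ∈ Ico (t + 1) D.M, al z * D.Fz t S w z := by
      rw [mul_sum, mul_sum, ← sum_add_distrib]
      apply sum_le_sum
      intro z hz
      rw [mem_Ico] at hz
      have := mul_le_mul_of_nonneg_left (Sys.F_step I hz.2 (by omega)) (hal z)
      linarith
    linarith
  have h2 : w t * ∑ k ∈ K, be k * D.Yk X0 (t + 1) (insert t S) (D.wsel t S w) d k
      + (1 - w t) * ∑ k ∈ K, be k * D.Yk X0 (t + 1) S (D.wnon t S w) d k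
      ≤ ∑ k ∈ K, be k * D.Yk X0 t S w d k := by
    rw [mul_sum, mul_sum, ← sum_add_distrib]
    apply sum_le_sum
    intro k _
    have := mul_le_mul_of_nonneg_left (Y_step (X0 := X0) (d := d) I ht k) (hbe k)
    linarith
  have h3 : w t * ∑ e ∈ D.prs, D.xi (t + 1) (D.wsel t S w) e.1 e.2
      + (1 - w t) * ∑ e ∈ D.prs, D.xi (t + 1) (D.wnon t S w) e.1 e.2 ≤ ∑ e ∈ D.prs, D.xi t w e.1 e.2 := by
    rw [mul_sum, mul_sum, ← sum_add_distrib]
    apply sum_le_sum
    intro e he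
    rw [mem_prs] at he
    exact Sys.xi_step I he.1 he.2.1 he.2.2 ht
  have e : w t * ∑ z ∈ range D.M, al z * (Real.exp (D.Zm z) * d z) + (1 - w t) * ∑ z ∈ range D.M, al z * (Real.exp (D.Zm z) * d z)
      = ∑ z ∈ range D.M, al z * (Real.exp (D.Zm z) * d z) := by ring
  linarith

end Sys2

end Pool.Agent.Helper64.Proc
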