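import Pool.Agent.Helper64.Res9

set_option autoImplicit false

namespace Pool.Agent.Helper64

open Finset Res
open scoped Classical

noncomputable def N1 (k0 N k : ℕ) (V : Finset Pt) : ℝ := ∑ t ∈ I1 k0 N k, ind (A3 t) V
noncomputable def N2 (k0 N k : ℕ) (V : Finset Pt) : ℝ := ∑ t ∈ I2 k0 N k, ind (A6 t) V
noncomputable def N3 (k0 N k : ℕ) (V : Finset Pt) : ℝ := ∑ t ∈ I3 k0 N k, ind (A8 t) V
noncomputable def N4 (k0 N j : ℕ) (V : Finset Pt) : ℝ :=
  ∑ y ∈ Uk k0 N j, ∑ l ∈ Finset.Icc j N, (if win l j then (1 / 2 ^ (1996 * l)) * Rdeg k0 N V y l else 0)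
noncomputable def N6 (k0 N k : ℕ) (V : Finset Pt) : ℝ :=
  ∑ z ∈ Uk k0 N k, (1 / (lam ^ 2 * tau k) ^ 2) * (ind {z} V * (ST k0 N k z V - MT k0 N k z) ^ 2)
noncomputable def N7 (k0 N k : ℕ) (V : Finset Pt) : ℝ :=
  ∑ z ∈ Uk k0 N k, ∑ x ∈ UB k, (if x ≠ z then hv k x z V else 0)

lemma Rdeg_nonneg {k0 N : ℕ} {V : Finset Pt} {y : Pt} {l : ℕ} : 0 ≤ Rdeg k0 N V y l := by
  unfold Rdeg
  apply sum_nonneg
  intro a _
  apply sum_nonneg
  intro v _
  split_ifs
  · exact ind_nonneg _ _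
  · exact le_rfl

lemma tau_pos (k : ℕ) : 4096 ≤ tau k := by
  unfold tau
  have := LL_pos k
  linarith

lemma sum_half (j N : ℕ) : ∑ l ∈ Finset.Icc j N, (1 : ℝ) / 2 ^ l ≤ 2 / 2 ^ j := by
  rcases le_or_gt j N with h | h
  · have : ∀ m, ∑ l ∈ Finset.Icc j (j + m), (1 : ℝ) / 2 ^ l = 2 / 2 ^ j - 1 / 2 ^ (j + m) := by
      intro m
      induction m with
      | zero => simp; ring
      | succ m ih =>
        rw [← add_assoc, Finset.sum_Icc_succ_top (by omega), ih]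
        have : (2 : ℝ) ^ (j + m + 1) = 2 * 2 ^ (j + m) := by ring
        rw [this]
        field_simp
        ring
    obtain ⟨m, rfl⟩ := Nat.exists_eq_add_of_le h
    rw [this]
    have : (0 : ℝ) < 1 / 2 ^ (j + m) := by positivity
    linarith
  · rw [Finset.Icc_eq_empty (by omega), sum_empty]
    positivity

lemma LL_le2 (k : ℕ) : LL k ≤ 2003 * (k + 1) := by
  have := LL_le k
  have h : (0 : ℝ) ≤ k := by positivity
  linarith

lemma k_le_two_pow (k : ℕ) : (k : ℝ) + 1 ≤ 2 ^ k := by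
  have : k + 1 ≤ 2 ^ k := Nat.lt_two_pow_self
  exact_mod_cast this

lemma deg_term {l : ℕ} (hl : 1 ≤ l) : (1 / 2 ^ (1996 * l)) * (64 * LL l * 2 ^ (17 * l)) ≤ (1 : ℝ) / 2 ^ l := by
  have h1 : LL l ≤ 2 ^ 11 * 2 ^ l := by
    have := LL_le2 l
    have h2 := k_le_two_pow l
    nlinarith
  rw [one_div_mul_eq_div, div_le_div_iff₀ (by positivity) (by positivity)]
  calc 64 * LL l * 2 ^ (17 * l) * 2 ^ l ≤ 64 * (2 ^ 11 * 2 ^ l) * 2 ^ (17 * l) * 2 ^ l := by gcongr
    _ = 2 ^ (17 + 19 * l) := by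
        rw [pow_add]
        have : (2 : ℝ) ^ (19 * l) = 2 ^ l * 2 ^ (17 * l) * 2 ^ l := by
          rw [← pow_add, ← pow_add]; congr 1; ring
        rw [this]; ring
    _ ≤ 2 ^ (1996 * l) := pow_le_pow_right₀ (by norm_num) (by omega)
    _ = 1 * 2 ^ (1996 * l) := by ring

lemma E_N4 {k0 N j : ℕ} (hj : 1 ≤ j) : EU k0 N (N4 k0 N j) ≤ muk k0 N j * (2 / 2 ^ j) := by
  unfold N4
  rw [EU, EE_sum]
  unfold muk
  rw [sum_mul]
  apply sum_le_sum
  intro y hy
  rw [EE_sum]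
  have hr := rho_pos y
  calc _ ≤ ∑ l ∈ Finset.Icc j N, rho y * (1 / 2 ^ l) := by
        apply sum_le_sum
        intro l hl
        rw [Finset.mem_Icc] at hl
        by_cases hw : win l j
        · simp only [hw, if_true]
          rw [EE_mul]
          have hyj := (mem_Uk.1 hy).2
          have h1 := E_Rdeg (l := l) (Uk_sub hy) (by rw [hyj]; exact hw)
          have h2 := deg_term (l := l) (by omega)
          calc (1 / 2 ^ (1996 * l)) * EE (UU k0 N) rho (fun V => Rdeg k0 N V y l)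
              ≤ (1 / 2 ^ (1996 * l)) * (rho y * (64 * LL l * 2 ^ (17 * l))) :=
                mul_le_mul_of_nonneg_left h1 (by positivity)
            _ = rho y * ((1 / 2 ^ (1996 * l)) * (64 * LL l * 2 ^ (17 * l))) := by ring
            _ ≤ _ := mul_le_mul_of_nonneg_left h2 hr.le
        · simp only [hw, if_false]
          rw [EE_const]
          positivity
    _ = rho y * ∑ l ∈ Finset.Icc j N, (1 : ℝ) / 2 ^ l := by rw [mul_sum]
    _ ≤ _ := mul_le_mul_of_nonneg_left (sum_half j N) hr.le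

lemma E_N6 {k0 N k : ℕ} : EU k0 N (N6 k0 N k) ≤ muk k0 N k * (1 / 2 ^ (2 * k)) := by
  unfold N6
  rw [EU, EE_sum]
  unfold muk
  rw [sum_mul]
  apply sum_le_sum
  intro z hz
  rw [EE_mul]
  have hl := lam_pos
  have ht := tau_pos k
  have hr := rho_pos z
  have h := E_T hz
  have hpos : 0 < (lam ^ 2 * tau k) ^ 2 := by positivity
  calc _ ≤ (1 / (lam ^ 2 * tau k) ^ 2) * (rho z * (42 * lam ^ 2 / 2 ^ (2 * k) * (lam ^ 2 * tau k))) :=
        mul_le_mul_of_nonneg_left h (by positivity)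
    _ = rho z * ((42 / tau k) * (1 / 2 ^ (2 * k))) := by
        field_simp
    _ ≤ rho z * (1 * (1 / 2 ^ (2 * k))) := by
        apply mul_le_mul_of_nonneg_left _ hr.le
        apply mul_le_mul_of_nonneg_right _ (by positivity)
        rw [div_le_one (by linarith)]
        linarith
    _ = _ := by ring

lemma E_N7 {k0 N k : ℕ} : EU k0 N (N7 k0 N k) ≤ 4 * nR k ^ 4 * Real.exp (-(2 ^ (2 * k) / 512)) := by
  unfold N7
  rw [EU, EE_sum]
  set b := Real.exp (-((2 : ℝ) ^ (2 * k) / 512)) with hb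
  have hb0 : 0 < b := Real.exp_pos _
  calc _ ≤ ∑ z ∈ Uk k0 N k, ∑ x ∈ UB k, b := by
        apply sum_le_sum
        intro z hz
        rw [EE_sum]
        apply sum_le_sum
        intro x _
        by_cases hxz : x ≠ z
        · simp only [hxz, ne_eq, not_false_eq_true, if_true]
          exact E_hv hz hxz
        · simp only [hxz, if_false]
          rw [EE_const]
          exact hb0.le
    _ = ((Uk k0 N k).card : ℝ) * (((UB k).card : ℝ) * b) := by
        simp only [sum_const, nsmul_eq_mul]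
    _ ≤ (nR k * nR k) * ((4 * (nR k * nR k)) * b) := by
        have h1 : (((Uk k0 N k).card : ℕ) : ℝ) ≤ nR k * nR k := by
          have := card_le_card (Uk_Bx (k0 := k0) (N := N) (k := k))
          rw [card_Bx] at this
          rw [← nn_cast]
          exact_mod_cast this
        have hn := nR_pos k
        apply mul_le_mul h1 _ (by positivity) (by positivity)
        exact mul_le_mul_of_nonneg_right (card_UB k) hb0.le
    _ = _ := by ring

/-- the total potential of class `k` -/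
noncomputable def fk (k0 N k : ℕ) (V : Finset Pt) : ℝ :=
  16 / (muk k0 N k) ^ 2 * (((vk k V).card : ℝ) - muk k0 N k) ^ 2
    + (20 / (2 ^ (4 * k) * nR k) * (N1 k0 N k V + (6 * N2 k0 N k V + (8 * N3 k0 N k V + (N4 k0 N k V + N6 k0 N k V))))
    + N7 k0 N k V)

/-- explicit bound for the expectation of `fk` -/
noncomputable def eb (k : ℕ) : ℝ :=
  22 / (2 ^ (4 * k) * nR k) + (20 / (2 ^ (4 * k) * nR k) * (64 * LL k * (k + 1) ^ 2 * (2 ^ (3 * k) * nR k)
    + (6 * (4096 * LL k * CG k * 2 ^ (186 * k)) + (8 * (262144 * LL k ^ 2 * CG k * 2 ^ (248 * k))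
    + (2 ^ (4 * k) * nR k * (2 / 2 ^ k) + 2 ^ (4 * k) * nR k * (1 / 2 ^ (2 * k))))))
    + 4 * nR k ^ 4 * Real.exp (-(2 ^ (2 * k) / 512)))

lemma E_fk {k0 N k : ℕ} (hk0 : 1 ≤ k0) (h : k0 ≤ k) (h' : k ≤ N) : EU k0 N (fk k0 N k) ≤ eb k := by
  unfold fk eb
  rw [EU, EE_add, EE_mul, EE_add, EE_mul, EE_add, EE_add, EE_add, EE_add, EE_mul, EE_mul]
  have hn := nR_pos k
  have hmu := muk_ge (N := N) h h'
  have hmu' := muk_le (k0 := k0) (N := N) (k := k)
  have hmupos : 0 < muk k0 N k := lt_of_lt_of_le (by positivity) hmu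
  have hp : (0 : ℝ) < 2 ^ (4 * k) * nR k := by positivity
  have t1 : 16 / (muk k0 N k) ^ 2 * EE (UU k0 N) rho (fun V => (((vk k V).card : ℝ) - muk k0 N k) ^ 2)
      ≤ 22 / (2 ^ (4 * k) * nR k) := by
    calc _ ≤ 16 / (muk k0 N k) ^ 2 * muk k0 N k := mul_le_mul_of_nonneg_left E_size (by positivity)
      _ = 16 / muk k0 N k := by field_simp
      _ ≤ 16 / (3 / 4 * (2 ^ (4 * k) * nR k)) := div_le_div_of_nonneg_left (by norm_num) (by positivity) hmu
      _ ≤ _ := by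
        rw [div_le_div_iff₀ (by positivity) hp]
        nlinarith
  have t2 : EE (UU k0 N) rho (N1 k0 N k) ≤ 64 * LL k * (k + 1) ^ 2 * (2 ^ (3 * k) * nR k) := E_bad1
  have t3 : EE (UU k0 N) rho (N2 k0 N k) ≤ 4096 * LL k * CG k * 2 ^ (186 * k) := E_bad2
  have t4 : EE (UU k0 N) rho (N3 k0 N k) ≤ 262144 * LL k ^ 2 * CG k * 2 ^ (248 * k) := E_bad3
  have t5 : EE (UU k0 N) rho (N4 k0 N k) ≤ 2 ^ (4 * k) * nR k * (2 / 2 ^ k) :=
    (E_N4 (by omega)).trans (mul_le_mul_of_nonneg_right hmu' (by positivity))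
  have t6 : EE (UU k0 N) rho (N6 k0 N k) ≤ 2 ^ (4 * k) * nR k * (1 / 2 ^ (2 * k)) :=
    E_N6.trans (mul_le_mul_of_nonneg_right hmu' (by positivity))
  have t7 : EE (UU k0 N) rho (N7 k0 N k) ≤ 4 * nR k ^ 4 * Real.exp (-(2 ^ (2 * k) / 512)) := E_N7
  apply add_le_add t1
  apply add_le_add _ t7
  apply mul_le_mul_of_nonneg_left _ (by positivity)
  linarith

end Pool.Agent.Helper64
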