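import Pool.Agent.Helper64.Res10

set_option autoImplicit false

namespace Pool.Agent.Helper64

open Finset Res Filter
open scoped Classical

lemma poly_small (C : ℝ) (m : ℕ) : ∀ᶠ k : ℕ in atTop, C * ((k : ℝ) + 1) ^ m / 2 ^ k ≤ 1 := by
  have h1 : Tendsto (fun k : ℕ => (k : ℝ) ^ m * (1 / 2 : ℝ) ^ k) atTop (nhds 0) :=
    tendsto_pow_const_mul_const_pow_of_abs_lt_one m (by rw [abs_of_pos] <;> norm_num)
  have h2 : Tendsto (fun k : ℕ => ((k + 1 : ℕ) : ℝ) ^ m * (1 / 2 : ℝ) ^ (k + 1)) atTop (nhds 0) :=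
    h1.comp (tendsto_add_atTop_nat 1)
  have h3 : Tendsto (fun k : ℕ => (2 * C) * (((k + 1 : ℕ) : ℝ) ^ m * (1 / 2 : ℝ) ^ (k + 1))) atTop (nhds ((2 * C) * 0)) :=
    h2.const_mul _
  rw [mul_zero] at h3
  have h4 := h3.eventually (gt_mem_nhds (show (0 : ℝ) < 1 by norm_num))
  filter_upwards [h4] with k hk
  refine le_trans (le_of_eq ?_) hk.le
  push_cast
  rw [pow_succ (1 / 2 : ℝ) k, one_div_pow]
  field_simp

lemma lin_small (C : ℝ) : ∀ᶠ k : ℕ in atTop, C * ((k : ℝ) + 1) ≤ 2 ^ k := by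
  filter_upwards [poly_small C 1] with k hk
  rw [pow_one, div_le_one (by positivity)] at hk
  exact hk

lemma heavy_small : ∀ᶠ k : ℕ in atTop, 4 * nR k ^ 4 * Real.exp (-(2 ^ (2 * k) / 512))
    ≤ 1 / (4 * ((k + 1) * (k + 2))) := by
  filter_upwards [lin_small (512 * 8006)] with k hk
  have h2k : (1 : ℝ) ≤ 2 ^ k := one_le_pow₀ (by norm_num)
  have e1 : (8002 * (k : ℝ) + 4) ≤ 2 ^ (2 * k) / 512 := by
    have : (2 : ℝ) ^ (2 * k) = 2 ^ k * 2 ^ k := by rw [← pow_add]; congr 1; ring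
    rw [this]
    have hk0 : (0 : ℝ) ≤ k := by positivity
    rw [le_div_iff₀ (by norm_num)]
    nlinarith
  have e2 : nR k ^ 4 ≤ Real.exp (8000 * k) := by
    have h2 : (2 : ℝ) ≤ Real.exp 1 := by
      have := Real.add_one_le_exp (1 : ℝ); linarith
    have : nR k ^ 4 = (2 : ℝ) ^ (8000 * k) := by
      unfold nR; rw [← pow_mul]; congr 1; ring
    rw [this]
    calc (2 : ℝ) ^ (8000 * k) ≤ (Real.exp 1) ^ (8000 * k) := pow_le_pow_left₀ (by norm_num) h2 _
      _ = Real.exp (8000 * k) := by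
        rw [← Real.exp_nat_mul]; push_cast; ring_nf
  have e3 : 16 * (((k : ℝ) + 1) * (k + 2)) ≤ Real.exp (2 * k + 4) := by
    have a1 : (k : ℝ) + 1 ≤ Real.exp k := Real.add_one_le_exp _
    have a2 : (k : ℝ) + 2 ≤ Real.exp (k + 1) := by
      have := Real.add_one_le_exp ((k : ℝ) + 1); linarith
    have a3 : (16 : ℝ) ≤ Real.exp 3 := by
      have h := Real.exp_one_gt_d9
      have : Real.exp 3 = Real.exp 1 ^ 3 := by rw [← Real.exp_nat_mul]; norm_num
      rw [this]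
      have : (2.7 : ℝ) ^ 3 ≤ Real.exp 1 ^ 3 := pow_le_pow_left₀ (by norm_num) (by linarith) 3
      linarith
    calc 16 * (((k : ℝ) + 1) * (k + 2)) ≤ Real.exp 3 * (Real.exp k * Real.exp (k + 1)) := by
          gcongr
      _ = Real.exp (2 * k + 4) := by rw [← Real.exp_add, ← Real.exp_add]; congr 1; ring
  have hpos : (0 : ℝ) < 4 * ((k + 1) * (k + 2)) := by positivity
  rw [le_div_iff₀ hpos]
  calc 4 * nR k ^ 4 * Real.exp (-(2 ^ (2 * k) / 512)) * (4 * ((k + 1) * (k + 2)))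
      = (nR k ^ 4 * (16 * ((k + 1) * (k + 2)))) * Real.exp (-(2 ^ (2 * k) / 512)) := by ring
    _ ≤ (Real.exp (8000 * k) * Real.exp (2 * k + 4)) * Real.exp (-(8002 * k + 4)) := by
        apply mul_le_mul _ _ (Real.exp_pos _).le (by positivity)
        · apply mul_le_mul e2 e3 (by positivity) (Real.exp_pos _).le
        · apply Real.exp_le_exp.2; linarith
    _ = 1 := by
        rw [← Real.exp_add, ← Real.exp_add, ← Real.exp_zero]
        congr 1; ring

lemma eb_le (k : ℕ) : eb k ≤ (82 + 1280 * 2003 + 491520 * 2003 * 64177 + 41943040 * 2003 ^ 2 * 64177) * ((k : ℝ) + 1) ^ 3 / 2 ^ k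
    + 4 * nR k ^ 4 * Real.exp (-(2 ^ (2 * k) / 512)) := by
  unfold eb
  have hn := one_le_nR k
  have hn0 := nR_pos k
  have hk0 : (0 : ℝ) ≤ k := by positivity
  have hLL := LL_le2 k
  have hLL0 := LL_pos k
  have hp : (0 : ℝ) < 2 ^ (4 * k) * nR k := by positivity
  set A : ℝ := (k : ℝ) + 1 with hA
  have hA1 : 1 ≤ A := by rw [hA]; linarith
  have hA3 : 1 ≤ A ^ 3 := one_le_pow₀ hA1
  set P : ℝ := 2 ^ k with hP
  have hP0 : 0 < P := by positivity
  have r : ∀ a b : ℕ, a + k ≤ b → (2 : ℝ) ^ a / 2 ^ b ≤ 1 / P := by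
    intro a b hab
    rw [div_le_div_iff₀ (by positivity) hP0, one_mul, hP, ← pow_add]
    exact pow_le_pow_right₀ (by norm_num) hab
  have t1 : 22 / (2 ^ (4 * k) * nR k) ≤ 22 * A ^ 3 / P := by
    calc 22 / (2 ^ (4 * k) * nR k) ≤ 22 / P := by
          apply div_le_div_of_nonneg_left (by norm_num) hP0
          rw [hP]
          calc (2 : ℝ) ^ k ≤ 2 ^ (4 * k) := pow_le_pow_right₀ (by norm_num) (by omega)
            _ ≤ 2 ^ (4 * k) * nR k := le_mul_of_one_le_right (by positivity) hn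
      _ ≤ _ := by
          apply div_le_div_of_nonneg_right _ hP0.le
          linarith
  have t2 : 20 / (2 ^ (4 * k) * nR k) * (64 * LL k * A ^ 2 * (2 ^ (3 * k) * nR k)) ≤ 1280 * 2003 * A ^ 3 / P := by
    have e : 20 / (2 ^ (4 * k) * nR k) * (64 * LL k * A ^ 2 * (2 ^ (3 * k) * nR k)) = 1280 * (LL k * A ^ 2) / P := by
      have : (2 : ℝ) ^ (4 * k) = 2 ^ (3 * k) * P := by rw [hP, ← pow_add]; congr 1; ring
      rw [this]
      field_simp
      ring
    rw [e]
    apply div_le_div_of_nonneg_right _ hP0.le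
    calc 1280 * (LL k * A ^ 2) ≤ 1280 * ((2003 * A) * A ^ 2) := by gcongr
      _ = _ := by ring
  have hB : 81 + 32 * LL k ≤ 64177 * A := by linarith
  have t3 : 20 / (2 ^ (4 * k) * nR k) * (6 * (4096 * LL k * CG k * 2 ^ (186 * k))) ≤ 491520 * 2003 * 64177 * A ^ 3 / P := by
    have e : 20 / (2 ^ (4 * k) * nR k) * (6 * (4096 * LL k * CG k * 2 ^ (186 * k)))
        = 491520 * (LL k * (81 + 32 * LL k)) * (2 ^ (1786 * k) / 2 ^ (2004 * k)) := by
      have h1 : (2 : ℝ) ^ (2004 * k) = 2 ^ (4 * k) * nR k := by unfold nR; rw [← pow_add]; congr 1; ring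
      have h2 : (2 : ℝ) ^ (1786 * k) = 2 ^ (1600 * k) * 2 ^ (186 * k) := by rw [← pow_add]; congr 1; ring
      unfold CG
      rw [h1, h2]
      field_simp
      ring
    rw [e]
    calc 491520 * (LL k * (81 + 32 * LL k)) * (2 ^ (1786 * k) / 2 ^ (2004 * k))
        ≤ 491520 * ((2003 * A) * (64177 * A)) * (1 / P) := by
          have := r (1786 * k) (2004 * k) (by omega)
          gcongr
      _ = 491520 * 2003 * 64177 * A ^ 2 / P := by ring
      _ ≤ _ := by
          apply div_le_div_of_nonneg_right _ hP0.le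
          have : A ^ 2 ≤ A ^ 3 := pow_le_pow_right₀ hA1 (by norm_num)
          linarith
  have t4 : 20 / (2 ^ (4 * k) * nR k) * (8 * (262144 * LL k ^ 2 * CG k * 2 ^ (248 * k))) ≤ 41943040 * 2003 ^ 2 * 64177 * A ^ 3 / P := by
    have e : 20 / (2 ^ (4 * k) * nR k) * (8 * (262144 * LL k ^ 2 * CG k * 2 ^ (248 * k)))
        = 41943040 * (LL k ^ 2 * (81 + 32 * LL k)) * (2 ^ (1848 * k) / 2 ^ (2004 * k)) := by
      have h1 : (2 : ℝ) ^ (2004 * k) = 2 ^ (4 * k) * nR k := by unfold nR; rw [← pow_add]; congr 1; ring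
      have h2 : (2 : ℝ) ^ (1848 * k) = 2 ^ (1600 * k) * 2 ^ (248 * k) := by rw [← pow_add]; congr 1; ring
      unfold CG
      rw [h1, h2]
      field_simp
      ring
    rw [e]
    calc 41943040 * (LL k ^ 2 * (81 + 32 * LL k)) * (2 ^ (1848 * k) / 2 ^ (2004 * k))
        ≤ 41943040 * ((2003 * A) ^ 2 * (64177 * A)) * (1 / P) := by
          have := r (1848 * k) (2004 * k) (by omega)
          gcongr
      _ = _ := by ring
  have t5 : 20 / (2 ^ (4 * k) * nR k) * (2 ^ (4 * k) * nR k * (2 / 2 ^ k)) ≤ 40 * A ^ 3 / P := by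
    have e : 20 / (2 ^ (4 * k) * nR k) * (2 ^ (4 * k) * nR k * (2 / 2 ^ k)) = 40 / P := by
      rw [hP]; field_simp; norm_num
    rw [e]
    apply div_le_div_of_nonneg_right _ hP0.le
    linarith
  have t6 : 20 / (2 ^ (4 * k) * nR k) * (2 ^ (4 * k) * nR k * (1 / 2 ^ (2 * k))) ≤ 20 * A ^ 3 / P := by
    have e : 20 / (2 ^ (4 * k) * nR k) * (2 ^ (4 * k) * nR k * (1 / 2 ^ (2 * k))) = 20 / 2 ^ (2 * k) := by
      field_simp
    rw [e]
    calc (20 : ℝ) / 2 ^ (2 * k) ≤ 20 / P := by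
          apply div_le_div_of_nonneg_left (by norm_num) hP0
          rw [hP]
          exact pow_le_pow_right₀ (by norm_num) (by omega)
      _ ≤ _ := by
          apply div_le_div_of_nonneg_right _ hP0.le
          linarith
  have tot : (82 + 1280 * 2003 + 491520 * 2003 * 64177 + 41943040 * 2003 ^ 2 * 64177) * A ^ 3 / P
      = 22 * A ^ 3 / P + 1280 * 2003 * A ^ 3 / P + 491520 * 2003 * 64177 * A ^ 3 / P
        + 41943040 * 2003 ^ 2 * 64177 * A ^ 3 / P + 40 * A ^ 3 / P + 20 * A ^ 3 / P := by ring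
  rw [tot]
  simp only [mul_add] at *
  linarith

lemma eb_eventually : ∀ᶠ k : ℕ in atTop, eb k ≤ 1 / (2 * ((k + 1) * (k + 2))) := by
  filter_upwards [heavy_small, poly_small (8 * (82 + 1280 * 2003 + 491520 * 2003 * 64177 + 41943040 * 2003 ^ 2 * 64177)) 5] with k h1 h2
  have h3 := eb_le k
  have hk0 : (0 : ℝ) ≤ k := by positivity
  set C : ℝ := 82 + 1280 * 2003 + 491520 * 2003 * 64177 + 41943040 * 2003 ^ 2 * 64177 with hC
  have hC0 : 0 < C := by rw [hC]; norm_num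
  have hpos : (0 : ℝ) < 4 * ((k + 1) * (k + 2)) := by positivity
  have h4 : C * ((k : ℝ) + 1) ^ 3 / 2 ^ k ≤ 1 / (4 * ((k + 1) * (k + 2))) := by
    rw [le_div_iff₀ hpos]
    refine le_trans ?_ h2
    rw [div_mul_eq_mul_div]
    apply div_le_div_of_nonneg_right _ (by positivity)
    have h5 : ((k : ℝ) + 2) ≤ 2 * (k + 1) := by linarith
    calc C * ((k : ℝ) + 1) ^ 3 * (4 * ((k + 1) * (k + 2))) ≤ C * ((k : ℝ) + 1) ^ 3 * (4 * ((k + 1) * (2 * (k + 1)))) := by gcongr
      _ = _ := by ring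
  have h6 : 1 / (2 * (((k : ℝ) + 1) * (k + 2))) = 1 / (4 * ((k + 1) * (k + 2))) + 1 / (4 * ((k + 1) * (k + 2))) := by
    field_simp; norm_num
  rw [h6]
  linarith

lemma tele (k0 N : ℕ) : ∑ k ∈ Finset.Icc k0 N, (1 : ℝ) / (((k : ℝ) + 1) * (k + 2)) ≤ 1 / (k0 + 1) := by
  rcases le_or_gt k0 N with h | h
  · have : ∀ m, ∑ k ∈ Finset.Icc k0 (k0 + m), (1 : ℝ) / (((k : ℝ) + 1) * (k + 2)) = 1 / ((k0 : ℝ) + 1) - 1 / ((k0 : ℝ) + m + 2) := by
      intro m
      induction m with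
      | zero =>
        simp only [add_zero, Finset.Icc_self, sum_singleton, Nat.cast_zero]
        field_simp
        ring
      | succ m ih =>
        rw [← add_assoc, Finset.sum_Icc_succ_top (by omega), ih]
        push_cast
        field_simp
        ring
    obtain ⟨m, rfl⟩ := Nat.exists_eq_add_of_le h
    rw [this]
    have : (0 : ℝ) < 1 / ((k0 : ℝ) + m + 2) := by positivity
    linarith
  · rw [Finset.Icc_eq_empty (by omega), sum_empty]
    positivity

/-- existence of the random set -/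
theorem exists_V0 : ∃ k1 : ℕ, 1 ≤ k1 ∧ ∀ k0 ≥ k1, ∀ N, ∃ V ⊆ UU k0 N, ∀ k ∈ Finset.Icc k0 N, fk k0 N k V < 1 := by
  obtain ⟨k1, hk1⟩ := eventually_atTop.1 eb_eventually
  refine ⟨max k1 1, le_max_right _ _, ?_⟩
  intro k0 hk0 N
  have hk0' : 1 ≤ k0 := le_trans (le_max_right _ _) hk0
  have hE : EU k0 N (fun V => ∑ k ∈ Finset.Icc k0 N, fk k0 N k V) < 1 := by
    rw [EU, EE_sum]
    calc _ ≤ ∑ k ∈ Finset.Icc k0 N, (1 / 2) * ((1 : ℝ) / (((k : ℝ) + 1) * (k + 2))) := by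
          apply sum_le_sum
          intro k hk
          rw [Finset.mem_Icc] at hk
          refine (E_fk hk0' hk.1 hk.2).trans ((hk1 k (le_trans (le_trans (le_max_left _ _) hk0) hk.1)).trans (le_of_eq ?_))
          field_simp
      _ = (1 / 2) * ∑ k ∈ Finset.Icc k0 N, ((1 : ℝ) / (((k : ℝ) + 1) * (k + 2))) := by rw [mul_sum]
      _ ≤ (1 / 2) * (1 / (k0 + 1)) := mul_le_mul_of_nonneg_left (tele k0 N) (by norm_num)
      _ < 1 := by
          have : (1 : ℝ) / (k0 + 1) ≤ 1 := by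
            rw [div_le_one (by positivity)]
            have : (0 : ℝ) ≤ k0 := by positivity
            linarith
          linarith
  obtain ⟨V, hV, hlt⟩ := exists_lt (fun x _ => (rho_pos x).le) (fun x _ => rho_le_one x) hE
  refine ⟨V, hV, ?_⟩
  intro k hk
  refine lt_of_le_of_lt ?_ hlt
  apply single_le_sum (f := fun k => fk k0 N k V) _ hk
  intro j _
  unfold fk
  have hn := nR_pos j
  have n1 : 0 ≤ N1 k0 N j V := sum_nonneg (fun _ _ => ind_nonneg _ _)
  have n2 : 0 ≤ N2 k0 N j V := sum_nonneg (fun _ _ => ind_nonneg _ _)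
  have n3 : 0 ≤ N3 k0 N j V := sum_nonneg (fun _ _ => ind_nonneg _ _)
  have n4 : 0 ≤ N4 k0 N j V := by
    unfold N4
    apply sum_nonneg; intro y _
    apply sum_nonneg; intro l _
    have := Rdeg_nonneg (k0 := k0) (N := N) (V := V) (y := y) (l := l)
    split_ifs
    · positivity
    · exact le_rfl
  have n6 : 0 ≤ N6 k0 N j V := by
    unfold N6
    apply sum_nonneg; intro z _
    have := ind_nonneg {z} V
    have := lam_pos
    have := tau_pos j
    positivity
  have n7 : 0 ≤ N7 k0 N j V := by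
    unfold N7
    apply sum_nonneg; intro z _
    apply sum_nonneg; intro x _
    have := hv_nonneg j x z V
    split_ifs <;> linarith
  positivity

end Pool.Agent.Helper64
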