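import Pool.Agent.Helper64.Res11

set_option autoImplicit false

namespace Pool.Agent.Helper64

open Finset Res
open scoped Classical

structure Resv (k0 N : ℕ) (V : Finset Pt) : Prop where
  sub : V ⊆ UU k0 N
  size : ∀ k ∈ Finset.Icc k0 N, (1 / 2) * (2 ^ (4 * k) * nR k) ≤ ((vk k V).card : ℝ)
  win : ∀ a ∈ V, ∀ b ∈ V, ∀ c ∈ V, a ≠ b → a ≠ c → b ≠ c → col a b c → 1991 * cl a ≤ 2000 * cl b
  notri : ∀ a ∈ V, ∀ b ∈ V, ∀ c ∈ V, ∀ e ∈ V, ∀ f ∈ V, ∀ g ∈ V, ¬ col a b c → e ≠ a → e ≠ b → col a b e →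
    f ≠ b → f ≠ c → col b c f → g ≠ a → g ≠ c → col a c g → False
  noquad : ∀ a ∈ V, ∀ b ∈ V, ∀ c ∈ V, ∀ d ∈ V, ∀ e ∈ V, ∀ f ∈ V, ∀ g ∈ V, ∀ h ∈ V,
    ¬ col a b c → ¬ col b c d → ¬ col c d a → ¬ col d a b → e ≠ a → e ≠ b → col a b e →
    f ≠ b → f ≠ c → col b c f → g ≠ c → g ≠ d → col c d g → h ≠ d → h ≠ a → col d a h → False
  deg : ∀ y ∈ V, ∀ l, cl y ≤ l →
    ((V.filter (fun v => cl v = l ∧ v ≠ y ∧ ∃ a ∈ V, a ≠ y ∧ a ≠ v ∧ cl a ≤ l ∧ col a y v)).card : ℝ) ≤ 2 ^ (1996 * l)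
  tsum : ∀ z ∈ V, ∑ x ∈ V, ∑ v ∈ V,
    (if x ≠ v ∧ x ≠ z ∧ v ≠ z ∧ cl x ≤ cl z ∧ cl v ≤ cl z ∧ col x v z then ww x * ww v else 0) ≤ 2 * (lam ^ 2 * tau (cl z))
  mass : ∀ P ∈ V, ∀ Q ∈ V, ∀ c ∈ V, P ≠ Q → c ≠ P → c ≠ Q → col P Q c →
    ∑ v ∈ V, (if col P Q v then ww v else 0) ≤ 1 / 256

def badA (V : Finset Pt) (z : Pt) : Prop :=
  ∃ x ∈ V, ∃ v ∈ V, x ≠ v ∧ x ≠ z ∧ v ≠ z ∧ col x v z ∧ cl x ≤ cl z ∧ cl v ≤ cl z ∧ ¬ win (cl z) (cl x)
def badB (k0 N : ℕ) (V : Finset Pt) (z : Pt) : Prop := ∃ t ∈ I2 k0 N (cl z), A6 t ⊆ V ∧ z ∈ A6 t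
def badC (k0 N : ℕ) (V : Finset Pt) (z : Pt) : Prop := ∃ t ∈ I3 k0 N (cl z), A8 t ⊆ V ∧ z ∈ A8 t
def badD (k0 N : ℕ) (V : Finset Pt) (y : Pt) : Prop :=
  ∃ l ∈ Finset.Icc (cl y) N, win l (cl y) ∧ 2 ^ (1996 * l) < Rdeg k0 N V y l
def badE (k0 N : ℕ) (V : Finset Pt) (z : Pt) : Prop :=
  2 * (lam ^ 2 * tau (cl z)) < ST k0 N (cl z) z V

noncomputable def V1 (k0 N : ℕ) (V : Finset Pt) : Finset Pt :=
  V.filter (fun z => ¬ badA V z ∧ ¬ badB k0 N V z ∧ ¬ badC k0 N V z ∧ ¬ badD k0 N V z ∧ ¬ badE k0 N V z)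

lemma ind_eq (A V : Finset Pt) [Decidable (A ⊆ V)] : ind A V = if A ⊆ V then 1 else 0 := by
  unfold ind
  split_ifs <;> rfl

lemma sum_ind {ι : Type} (I : Finset ι) (A : ι → Finset Pt) (V : Finset Pt) :
    ∑ i ∈ I, ind (A i) V = ((I.filter (fun i => A i ⊆ V)).card : ℝ) := by
  simp_rw [ind_eq]
  rw [← sum_filter, sum_const, nsmul_eq_mul, mul_one]

lemma cntA {k0 N k : ℕ} {V : Finset Pt} (hV : V ⊆ UU k0 N) :
    (((vk k V).filter (fun z => badA V z)).card : ℝ) ≤ N1 k0 N k V := by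
  have h1 : (vk k V).filter (fun z => badA V z) ⊆ ((I1 k0 N k).filter (fun t => A3 t ⊆ V)).image (fun t => t.2.2) := by
    intro z hz
    rw [mem_filter, vk, mem_filter] at hz
    obtain ⟨⟨hzV, hzk⟩, x, hx, v, hv, a1, a2, a3, a4, a5, a6, a7⟩ := hz
    rw [mem_image]
    refine ⟨(x, v, z), ?_, rfl⟩
    rw [mem_filter]
    constructor
    · unfold I1
      rw [mem_filter, mem_product, mem_product]
      rw [hzk] at a5 a6 a7
      exact ⟨⟨hV hx, hV hv, mem_Uk.2 ⟨hV hzV, hzk⟩⟩, a1, a2, a3, a4, a5, a6, a7⟩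
    · intro y hy
      simp only [A3, mem_insert, mem_singleton] at hy
      rcases hy with rfl | rfl | rfl <;> assumption
  have h2 := (card_le_card h1).trans card_image_le
  have h3 : N1 k0 N k V = (((I1 k0 N k).filter (fun t => A3 t ⊆ V)).card : ℝ) := sum_ind _ _ _
  rw [h3]
  exact_mod_cast h2

lemma cnt_gen {ι : Type} {V Z : Finset Pt} {I : Finset ι} {A : ι → Finset Pt} {r : ℕ} (hr : ∀ i ∈ I, (A i).card ≤ r)
    (hZ : ∀ z ∈ Z, ∃ i ∈ I, A i ⊆ V ∧ z ∈ A i) : (Z.card : ℝ) ≤ r * ∑ i ∈ I, ind (A i) V := by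
  have h1 : Z ⊆ (I.filter (fun i => A i ⊆ V)).biUnion A := by
    intro z hz
    obtain ⟨i, hi, h2, h3⟩ := hZ z hz
    rw [mem_biUnion]
    exact ⟨i, mem_filter.2 ⟨hi, h2⟩, h3⟩
  have h2 : Z.card ≤ ∑ i ∈ I.filter (fun i => A i ⊆ V), r :=
    (card_le_card h1).trans (card_biUnion_le.trans (sum_le_sum (fun i hi => hr i (mem_filter.1 hi).1)))
  rw [sum_const, smul_eq_mul] at h2
  have h3 := sum_ind I A V
  rw [h3]
  have : (Z.card : ℝ) ≤ (((I.filter (fun i => A i ⊆ V)).card * r : ℕ) : ℝ) := by exact_mod_cast h2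
  push_cast at this
  linarith

lemma cntB {k0 N k : ℕ} {V : Finset Pt} :
    (((vk k V).filter (fun z => badB k0 N V z)).card : ℝ) ≤ 6 * N2 k0 N k V := by
  have := cnt_gen (V := V) (Z := (vk k V).filter (fun z => badB k0 N V z)) (I := I2 k0 N k) (A := A6) (r := 6)
    (by
      intro t ht
      unfold I2 at ht
      exact (mem_filter.1 ht).2.2.2.le)
    (by
      intro z hz
      rw [mem_filter, vk, mem_filter] at hz
      obtain ⟨⟨_, hzk⟩, t, ht, h2, h3⟩ := hz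
      rw [hzk] at ht
      exact ⟨t, ht, h2, h3⟩)
  unfold N2
  exact_mod_cast this

lemma cntC {k0 N k : ℕ} {V : Finset Pt} :
    (((vk k V).filter (fun z => badC k0 N V z)).card : ℝ) ≤ 8 * N3 k0 N k V := by
  have := cnt_gen (V := V) (Z := (vk k V).filter (fun z => badC k0 N V z)) (I := I3 k0 N k) (A := A8) (r := 8)
    (by
      intro t ht
      unfold I3 at ht
      exact (mem_filter.1 ht).2.2.2.le)
    (by
      intro z hz
      rw [mem_filter, vk, mem_filter] at hz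
      obtain ⟨⟨_, hzk⟩, t, ht, h2, h3⟩ := hz
      rw [hzk] at ht
      exact ⟨t, ht, h2, h3⟩)
  unfold N3
  exact_mod_cast this

lemma cnt_weight {k0 N k : ℕ} {V : Finset Pt} (hV : V ⊆ UU k0 N) {P : Pt → Prop} {g : Pt → ℝ}
    (g0 : ∀ z, 0 ≤ g z) (hg : ∀ z ∈ vk k V, P z → 1 ≤ g z) :
    (((vk k V).filter P).card : ℝ) ≤ ∑ z ∈ Uk k0 N k, g z := by
  have h1 : (((vk k V).filter P).card : ℝ) = ∑ z ∈ (vk k V).filter P, (1 : ℝ) := by simp
  rw [h1]
  calc _ ≤ ∑ z ∈ (vk k V).filter P, g z := by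
        apply sum_le_sum
        intro z hz
        rw [mem_filter] at hz
        exact hg z hz.1 hz.2
    _ ≤ _ := by
        apply sum_le_sum_of_subset_of_nonneg
        · intro z hz
          rw [mem_filter, vk, mem_filter] at hz
          exact mem_Uk.2 ⟨hV hz.1.1, hz.1.2⟩
        · intro z _ _; exact g0 z

lemma cntD {k0 N k : ℕ} {V : Finset Pt} (hV : V ⊆ UU k0 N) :
    (((vk k V).filter (fun z => badD k0 N V z)).card : ℝ) ≤ N4 k0 N k V := by
  unfold N4
  have hterm : ∀ y l, 0 ≤ (if win l k then (1 / 2 ^ (1996 * l)) * Rdeg k0 N V y l else 0) := by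
    intro y l
    have := Rdeg_nonneg (k0 := k0) (N := N) (V := V) (y := y) (l := l)
    split_ifs
    · positivity
    · exact le_rfl
  apply cnt_weight hV
  · intro y
    exact sum_nonneg (fun l _ => hterm y l)
  · intro y hy hb
    rw [vk, mem_filter] at hy
    obtain ⟨l, hl, hw, hR⟩ := hb
    rw [hy.2] at hl hw
    refine le_trans ?_ (single_le_sum (f := fun l => (if win l k then (1 / 2 ^ (1996 * l)) * Rdeg k0 N V y l else 0)) (fun l _ => hterm y l) hl)
    simp only [hw, if_true]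
    rw [one_div_mul_eq_div, le_div_iff₀ (by positivity), one_mul]
    exact hR.le

lemma cntE {k0 N k : ℕ} {V : Finset Pt} (hV : V ⊆ UU k0 N) :
    (((vk k V).filter (fun z => badE k0 N V z)).card : ℝ) ≤ N6 k0 N k V := by
  unfold N6
  have hl := lam_pos
  have ht := tau_pos k
  apply cnt_weight hV
  · intro z
    have := ind_nonneg {z} V
    positivity
  · intro z hz hb
    rw [vk, mem_filter] at hz
    unfold badE at hb
    rw [hz.2] at hb
    have hzU : z ∈ Uk k0 N k := mem_Uk.2 ⟨hV hz.1, hz.2⟩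
    have hM := MT_le hzU
    have hi : ind {z} V = 1 := by
      unfold ind; rw [if_pos (singleton_subset_iff.2 hz.1)]
    rw [hi, one_mul, one_div_mul_eq_div]
    have hp : 0 < lam ^ 2 * tau k := by positivity
    rw [le_div_iff₀ (by positivity), one_mul]
    apply pow_le_pow_left₀ hp.le
    linarith

lemma V1_sub {k0 N : ℕ} {V : Finset Pt} : V1 k0 N V ⊆ V := filter_subset _ _

lemma V1_size {k0 N k : ℕ} {V : Finset Pt} (hV : V ⊆ UU k0 N) (h1 : k0 ≤ k) (h2 : k ≤ N) (hf : fk k0 N k V < 1) :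
    (1 / 2) * (2 ^ (4 * k) * nR k) ≤ ((vk k (V1 k0 N V)).card : ℝ) := by
  have hn := nR_pos k
  have hmu := muk_ge (N := N) h1 h2
  have hp : (0 : ℝ) < 2 ^ (4 * k) * nR k := by positivity
  have hmupos : 0 < muk k0 N k := lt_of_lt_of_le (by positivity) hmu
  have cA := cntA (k := k) hV
  have cB := cntB (k0 := k0) (N := N) (k := k) (V := V)
  have cC := cntC (k0 := k0) (N := N) (k := k) (V := V)
  have cD := cntD (k := k) hV
  have cE := cntE (k := k) hV
  have n7 : 0 ≤ N7 k0 N k V := by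
    unfold N7
    apply sum_nonneg; intro z _
    apply sum_nonneg; intro x _
    have := hv_nonneg k x z V
    split_ifs <;> linarith
  set SS := N1 k0 N k V + (6 * N2 k0 N k V + (8 * N3 k0 N k V + (N4 k0 N k V + N6 k0 N k V))) with hSS
  have hSS0 : 0 ≤ SS := by
    have a1 := Nat.cast_nonneg (α := ℝ) ((vk k V).filter (fun z => badA V z)).card
    have a2 := Nat.cast_nonneg (α := ℝ) ((vk k V).filter (fun z => badB k0 N V z)).card
    have a3 := Nat.cast_nonneg (α := ℝ) ((vk k V).filter (fun z => badC k0 N V z)).card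
    have a4 := Nat.cast_nonneg (α := ℝ) ((vk k V).filter (fun z => badD k0 N V z)).card
    have a5 := Nat.cast_nonneg (α := ℝ) ((vk k V).filter (fun z => badE k0 N V z)).card
    linarith
  unfold fk at hf
  rw [← hSS] at hf
  have q1 : 0 ≤ 16 / (muk k0 N k) ^ 2 * (((vk k V).card : ℝ) - muk k0 N k) ^ 2 := by positivity
  have q2 : 0 ≤ 20 / (2 ^ (4 * k) * nR k) * SS := by positivity
  have s1 : 16 / (muk k0 N k) ^ 2 * (((vk k V).card : ℝ) - muk k0 N k) ^ 2 < 1 := by linarith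
  have s2 : 20 / (2 ^ (4 * k) * nR k) * SS < 1 := by linarith
  have s3 : |((vk k V).card : ℝ) - muk k0 N k| < muk k0 N k / 4 := by
    apply abs_lt_of_sq_lt_sq _ (by positivity)
    rw [div_mul_eq_mul_div, div_lt_one (by positivity)] at s1
    nlinarith
  rw [abs_lt] at s3
  rw [div_mul_eq_mul_div, div_lt_one hp] at s2
  have hsub : vk k V ⊆ vk k (V1 k0 N V) ∪ ((vk k V).filter (fun z => badA V z) ∪ ((vk k V).filter (fun z => badB k0 N V z)
      ∪ ((vk k V).filter (fun z => badC k0 N V z) ∪ ((vk k V).filter (fun z => badD k0 N V z) ∪ (vk k V).filter (fun z => badE k0 N V z))))) := by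
    intro z hz
    have hz' := hz
    rw [vk, mem_filter] at hz
    simp only [mem_union, mem_filter, vk, V1, hz.1, hz.2, true_and, and_true]
    tauto
  have hcard : (vk k V).card ≤ (vk k (V1 k0 N V)).card + (((vk k V).filter (fun z => badA V z)).card +
      (((vk k V).filter (fun z => badB k0 N V z)).card + (((vk k V).filter (fun z => badC k0 N V z)).card
      + (((vk k V).filter (fun z => badD k0 N V z)).card + ((vk k V).filter (fun z => badE k0 N V z)).card)))) := by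
    refine (card_le_card hsub).trans ?_
    refine (card_union_le _ _).trans (Nat.add_le_add_left ?_ _)
    refine (card_union_le _ _).trans (Nat.add_le_add_left ?_ _)
    refine (card_union_le _ _).trans (Nat.add_le_add_left ?_ _)
    refine (card_union_le _ _).trans (Nat.add_le_add_left ?_ _)
    exact card_union_le _ _
  have hcardR : ((vk k V).card : ℝ) ≤ ((vk k (V1 k0 N V)).card : ℝ) + ((((vk k V).filter (fun z => badA V z)).card : ℝ) +
      ((((vk k V).filter (fun z => badB k0 N V z)).card : ℝ) + ((((vk k V).filter (fun z => badC k0 N V z)).card : ℝ)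
      + ((((vk k V).filter (fun z => badD k0 N V z)).card : ℝ) + (((vk k V).filter (fun z => badE k0 N V z)).card : ℝ))))) := by
    exact_mod_cast hcard
  linarith [s3.1]

lemma win_triple {k0 N : ℕ} {V : Finset Pt} {a b c : Pt} (ha : a ∈ V1 k0 N V) (hb : b ∈ V1 k0 N V) (hc : c ∈ V1 k0 N V)
    (hab : a ≠ b) (hac : a ≠ c) (hbc : b ≠ c) (hcol : col a b c) : 1991 * cl a ≤ 2000 * cl b := by
  have ha' := mem_filter.1 ha
  have hc' := mem_filter.1 hc
  have haV := ha'.1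
  have hbV := V1_sub hb
  have hcV := hc'.1
  rcases le_total (cl a) (cl b) with h1 | h1
  · omega
  · rcases le_total (cl a) (cl c) with h2 | h2
    · -- c is the top
      by_contra hcon
      apply hc'.2.1
      refine ⟨b, hbV, a, haV, hab.symm, hbc, hac, col_12 hcol, by omega, by omega, ?_⟩
      intro hw
      have := hw.2
      omega
    · by_contra hcon
      apply ha'.2.1
      refine ⟨b, hbV, c, hcV, hbc, hab.symm, hac.symm, col_231 hcol, by omega, by omega, ?_⟩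
      intro hw
      have := hw.2
      omega

end Pool.Agent.Helper64
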