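import Pool.Agent.Helper64.Res12

set_option autoImplicit false

namespace Pool.Agent.Helper64

open Finset Res
open scoped Classical

lemma top_all {A : Finset Pt} (hne : A.Nonempty) (hrel : ∀ p ∈ A, ∀ q ∈ A, 1973 * cl p ≤ 2000 * cl q) :
    ∃ z ∈ A, ∀ p ∈ A, win3 (cl z) (cl p) := by
  obtain ⟨z, hz, hmax⟩ := exists_max_image A cl hne
  exact ⟨z, hz, fun p hp => ⟨hmax p hp, hrel z hz p hp⟩⟩

lemma win6 {k0 N : ℕ} {V : Finset Pt} {a b c : Pt} (ha : a ∈ V1 k0 N V) (hb : b ∈ V1 k0 N V) (hc : c ∈ V1 k0 N V)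
    (hab : a ≠ b) (hac : a ≠ c) (hbc : b ≠ c) (hcol : col a b c) :
    (1991 * cl a ≤ 2000 * cl b ∧ 1991 * cl a ≤ 2000 * cl c ∧ 1991 * cl b ≤ 2000 * cl a ∧ 1991 * cl b ≤ 2000 * cl c
      ∧ 1991 * cl c ≤ 2000 * cl a ∧ 1991 * cl c ≤ 2000 * cl b) :=
  ⟨win_triple ha hb hc hab hac hbc hcol, win_triple ha hc hb hac hab hbc.symm (col_23 hcol),
    win_triple hb ha hc hab.symm hbc hac (col_12 hcol), win_triple hb hc ha hbc hab.symm hac.symm (col_231 hcol),
    win_triple hc ha hb hac.symm hbc.symm hab (col_312 hcol), win_triple hc hb ha hbc.symm hac.symm hab.symm (col_13 hcol)⟩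

/-- two points of a line through `p`: `q` on both lines `pa`, `pc` -/
lemma col_share {p a c q : Pt} (hpq : p ≠ q) (h1 : col a p q) (h2 : col p c q) : col a p c := by
  have a1 : col p q a := col_231 h1
  have a2 : col p q c := col_23 h2
  exact col_12 (col_trans hpq a1 a2)

lemma V1_notri {k0 N : ℕ} {V : Finset Pt} (hV : V ⊆ UU k0 N) {a b c e f g : Pt} (ha : a ∈ V1 k0 N V) (hb : b ∈ V1 k0 N V)
    (hc : c ∈ V1 k0 N V) (he : e ∈ V1 k0 N V) (hf : f ∈ V1 k0 N V) (hg : g ∈ V1 k0 N V)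
    (hn : ¬ col a b c) (hea : e ≠ a) (heb : e ≠ b) (ce : col a b e)
    (hfb : f ≠ b) (hfc : f ≠ c) (cf : col b c f) (hga : g ≠ a) (hgc : g ≠ c) (cg : col a c g) : False := by
  have hab : a ≠ b := by rintro rfl; exact hn (col_self _ _)
  have hbc : b ≠ c := by rintro rfl; exact hn (col_self23 _ _)
  have hac : a ≠ c := by rintro rfl; exact hn (col_self13 _ _)
  have hec : e ≠ c := by rintro rfl; exact hn ce
  have hfa : f ≠ a := by rintro rfl; exact hn (col_312 cf)
  have hgb : g ≠ b := by rintro rfl; exact hn (col_23 cg)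
  have hef : e ≠ f := by
    rintro rfl
    exact hn (col_share heb.symm ce cf)
  have heg : e ≠ g := by
    rintro rfl
    exact hn (col_12 (col_share hea.symm (col_12 ce) cg))
  have hfg : f ≠ g := by
    rintro rfl
    exact hn (col_312 (col_share hfc.symm cf (col_12 cg)))
  have w1 := win6 ha hb he hab hea.symm heb.symm ce
  have w2 := win6 hb hc hf hbc hfb.symm hfc.symm cf
  have w3 := win6 ha hc hg hac hga.symm hgc.symm cg
  have hrel : ∀ p ∈ A6 ((a, b, c), (e, f, g)), ∀ q ∈ A6 ((a, b, c), (e, f, g)), 1973 * cl p ≤ 2000 * cl q := by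
    intro p hp q hq
    simp only [A6, mem_insert, mem_singleton] at hp hq
    have hp' : cl p = cl a ∨ cl p = cl b ∨ cl p = cl c ∨ cl p = cl e ∨ cl p = cl f ∨ cl p = cl g := by
      rcases hp with h | h | h | h | h | h <;> simp [h]
    have hq' : cl q = cl a ∨ cl q = cl b ∨ cl q = cl c ∨ cl q = cl e ∨ cl q = cl f ∨ cl q = cl g := by
      rcases hq with h | h | h | h | h | h <;> simp [h]
    clear hp hq
    rcases hp' with h | h | h | h | h | h <;> rcases hq' with h' | h' | h' | h' | h' | h' <;> omega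
  obtain ⟨z, hz, hwin⟩ := top_all ⟨a, by simp [A6]⟩ hrel
  have hsub : A6 ((a, b, c), (e, f, g)) ⊆ V1 k0 N V := by
    intro y hy
    simp only [A6, mem_insert, mem_singleton] at hy
    rcases hy with rfl | rfl | rfl | rfl | rfl | rfl <;> assumption
  have hW : ∀ p ∈ A6 ((a, b, c), (e, f, g)), p ∈ WW k0 N (cl z) := by
    intro p hp
    unfold WW
    rw [mem_filter]
    exact ⟨hV (V1_sub (hsub hp)), hwin p hp⟩
  have hz' := (mem_filter.1 (hsub hz)).2.2.1
  apply hz'
  refine ⟨((a, b, c), (e, f, g)), ?_, hsub.trans V1_sub, hz⟩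
  unfold I2
  rw [mem_filter]
  refine ⟨?_, hn, ⟨ce, cf, cg⟩, ?_⟩
  · simp only [mem_product]
    refine ⟨⟨hW a (by simp [A6]), hW b (by simp [A6]), hW c (by simp [A6])⟩, hW e (by simp [A6]), hW f (by simp [A6]), hW g (by simp [A6])⟩
  · unfold A6
    simp only
    rw [card_insert_of_notMem (by simp [hab, hac, hea.symm, hfa.symm, hga.symm]),
      card_insert_of_notMem (by simp [hbc, heb.symm, hfb.symm, hgb.symm]),
      card_insert_of_notMem (by simp [hec.symm, hfc.symm, hgc.symm]),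
      card_insert_of_notMem (by simp [hef, heg]),
      card_pair hfg]

lemma V1_noquad {k0 N : ℕ} {V : Finset Pt} (hV : V ⊆ UU k0 N) {a b c d e f g h : Pt} (ha : a ∈ V1 k0 N V) (hb : b ∈ V1 k0 N V)
    (hc : c ∈ V1 k0 N V) (hd : d ∈ V1 k0 N V) (he : e ∈ V1 k0 N V) (hf : f ∈ V1 k0 N V) (hg : g ∈ V1 k0 N V) (hh : h ∈ V1 k0 N V)
    (n1 : ¬ col a b c) (n2 : ¬ col b c d) (n3 : ¬ col c d a) (n4 : ¬ col d a b)
    (hea : e ≠ a) (heb : e ≠ b) (ce : col a b e)
    (hfb : f ≠ b) (hfc : f ≠ c) (cf : col b c f)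
    (hgc : g ≠ c) (hgd : g ≠ d) (cg : col c d g)
    (hhd : h ≠ d) (hha : h ≠ a) (ch : col d a h) : False := by
  have hab : a ≠ b := by rintro rfl; exact n1 (col_self _ _)
  have hbc : b ≠ c := by rintro rfl; exact n1 (col_self23 _ _)
  have hac : a ≠ c := by rintro rfl; exact n1 (col_self13 _ _)
  have hcd : c ≠ d := by rintro rfl; exact n2 (col_self23 _ _)
  have hbd : b ≠ d := by rintro rfl; exact n2 (col_self13 _ _)
  have had : a ≠ d := by rintro rfl; exact n3 (col_self23 _ _)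
  have hec : e ≠ c := by rintro rfl; exact n1 ce
  have hed : e ≠ d := by rintro rfl; exact n4 (col_312 ce)
  have hfa : f ≠ a := by rintro rfl; exact n1 (col_312 cf)
  have hfd : f ≠ d := by rintro rfl; exact n2 cf
  have hga : g ≠ a := by rintro rfl; exact n3 cg
  have hgb : g ≠ b := by rintro rfl; exact n2 (col_312 cg)
  have hhb : h ≠ b := by rintro rfl; exact n4 ch
  have hhc : h ≠ c := by rintro rfl; exact n3 (col_312 ch)
  have hef : e ≠ f := by rintro rfl; exact n1 (col_share heb.symm ce cf)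
  have hfg : f ≠ g := by rintro rfl; exact n2 (col_share hfc.symm cf cg)
  have hgh : g ≠ h := by rintro rfl; exact n3 (col_share hgd.symm cg ch)
  have heh : e ≠ h := by rintro rfl; exact n4 (col_share hea.symm ch ce)
  have heg : e ≠ g := by
    rintro rfl
    -- triangle b c e
    have m1 : ¬ col b c e := by
      intro hx
      exact n1 (col_share heb.symm ce hx)
    exact V1_notri hV hb hc he hf hd ha m1 hfb hfc cf hcd.symm hed.symm (col_23 cg) hab hea.symm (col_231 ce)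
  have hfh : f ≠ h := by
    rintro rfl
    have m1 : ¬ col c d f := by
      intro hx
      exact n2 (col_share hfc.symm cf hx)
    exact V1_notri hV hc hd hf hg ha hb m1 hgc hgd cg had hfa.symm (col_23 ch) hbc hfb.symm (col_231 cf)
  have w1 := win6 ha hb he hab hea.symm heb.symm ce
  have w2 := win6 hb hc hf hbc hfb.symm hfc.symm cf
  have w3 := win6 hc hd hg hcd hgc.symm hgd.symm cg
  have w4 := win6 hd ha hh had.symm hhd.symm hha.symm ch
  have hrel : ∀ p ∈ A8 ((a, b, c, d), (e, f, g, h)), ∀ q ∈ A8 ((a, b, c, d), (e, f, g, h)), 1973 * cl p ≤ 2000 * cl q := by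
    intro p hp q hq
    simp only [A8, mem_insert, mem_singleton] at hp hq
    have hp' : cl p = cl a ∨ cl p = cl b ∨ cl p = cl c ∨ cl p = cl d ∨ cl p = cl e ∨ cl p = cl f ∨ cl p = cl g ∨ cl p = cl h := by
      rcases hp with h | h | h | h | h | h | h | h <;> simp [h]
    have hq' : cl q = cl a ∨ cl q = cl b ∨ cl q = cl c ∨ cl q = cl d ∨ cl q = cl e ∨ cl q = cl f ∨ cl q = cl g ∨ cl q = cl h := by
      rcases hq with h | h | h | h | h | h | h | h <;> simp [h]
    clear hp hq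
    rcases hp' with h | h | h | h | h | h | h | h <;> rcases hq' with h' | h' | h' | h' | h' | h' | h' | h' <;> omega
  obtain ⟨z, hz, hwin⟩ := top_all ⟨a, by simp [A8]⟩ hrel
  have hsub : A8 ((a, b, c, d), (e, f, g, h)) ⊆ V1 k0 N V := by
    intro y hy
    simp only [A8, mem_insert, mem_singleton] at hy
    rcases hy with rfl | rfl | rfl | rfl | rfl | rfl | rfl | rfl <;> assumption
  have hW : ∀ p ∈ A8 ((a, b, c, d), (e, f, g, h)), p ∈ WW k0 N (cl z) := by
    intro p hp
    unfold WW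
    rw [mem_filter]
    exact ⟨hV (V1_sub (hsub hp)), hwin p hp⟩
  have hz' := (mem_filter.1 (hsub hz)).2.2.2.1
  apply hz'
  refine ⟨((a, b, c, d), (e, f, g, h)), ?_, hsub.trans V1_sub, hz⟩
  unfold I3
  rw [mem_filter]
  refine ⟨?_, ⟨n1, n3⟩, ⟨ce, cf, cg, ch⟩, ?_⟩
  · simp only [mem_product]
    refine ⟨⟨hW a (by simp [A8]), hW b (by simp [A8]), hW c (by simp [A8]), hW d (by simp [A8])⟩,
      hW e (by simp [A8]), hW f (by simp [A8]), hW g (by simp [A8]), hW h (by simp [A8])⟩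
  · unfold A8
    simp only
    rw [card_insert_of_notMem (by simp [hab, hac, had, hea.symm, hfa.symm, hga.symm, hha.symm]),
      card_insert_of_notMem (by simp [hbc, hbd, heb.symm, hfb.symm, hgb.symm, hhb.symm]),
      card_insert_of_notMem (by simp [hcd, hec.symm, hfc.symm, hgc.symm, hhc.symm]),
      card_insert_of_notMem (by simp [hed.symm, hfd.symm, hgd.symm, hhd.symm]),
      card_insert_of_notMem (by simp [hef, heg, heh]),
      card_insert_of_notMem (by simp [hfg, hfh]),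
      card_pair hgh]

lemma V1_deg {k0 N : ℕ} {V : Finset Pt} (hV : V ⊆ UU k0 N) {y : Pt} (hy : y ∈ V1 k0 N V) {l : ℕ} (hl : cl y ≤ l) :
    (((V1 k0 N V).filter (fun v => cl v = l ∧ v ≠ y ∧ ∃ a ∈ V1 k0 N V, a ≠ y ∧ a ≠ v ∧ cl a ≤ l ∧ col a y v)).card : ℝ)
      ≤ 2 ^ (1996 * l) := by
  set Z := (V1 k0 N V).filter (fun v => cl v = l ∧ v ≠ y ∧ ∃ a ∈ V1 k0 N V, a ≠ y ∧ a ≠ v ∧ cl a ≤ l ∧ col a y v) with hZ
  rcases Z.eq_empty_or_nonempty with h0 | ⟨v0, hv0⟩
  · rw [h0]; simp
  · have hv0' := mem_filter.1 hv0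
    obtain ⟨b1, b2, b3, a, ha, c1, c2, c3, c4⟩ := hv0'
    have w := win6 ha hy b1 c1 c2 b3.symm c4
    have hw : win l (cl y) := ⟨hl, by rw [b2] at w; exact w.2.2.2.2.2⟩
    have hlN : l ≤ N := by
      have := (mem_UU.1 (hV (V1_sub b1))).1.2
      omega
    have hnb : ¬ badD k0 N V y := (mem_filter.1 hy).2.2.2.2.1
    have hR : Rdeg k0 N V y l ≤ 2 ^ (1996 * l) := by
      by_contra hcon
      push Not at hcon
      exact hnb ⟨l, Finset.mem_Icc.2 ⟨hl, hlN⟩, hw, hcon⟩
    refine le_trans ?_ hR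
    have hZc : (Z.card : ℝ) = ∑ v ∈ Z, (1 : ℝ) := by simp
    rw [hZc]
    unfold Rdeg
    rw [sum_comm]
    have hterm0 : ∀ v a : Pt, 0 ≤ (if a ≠ y ∧ a ≠ v ∧ y ≠ v ∧ col a y v ∧ win l (cl a) then ind {a, y, v} V else 0) := by
      intro v a
      split_ifs
      · exact ind_nonneg _ _
      · exact le_rfl
    calc _ ≤ ∑ v ∈ Z, ∑ a ∈ UU k0 N, (if a ≠ y ∧ a ≠ v ∧ y ≠ v ∧ col a y v ∧ win l (cl a) then ind {a, y, v} V else 0) := by
          apply sum_le_sum
          intro v hv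
          obtain ⟨b1, b2, b3, a, ha, c1, c2, c3, c4⟩ := mem_filter.1 hv
          have w := win6 ha hy b1 c1 c2 b3.symm c4
          have hwa : win l (cl a) := ⟨c3, by rw [b2] at w; exact w.2.2.2.2.1⟩
          refine le_trans ?_ (single_le_sum (f := fun a => (if a ≠ y ∧ a ≠ v ∧ y ≠ v ∧ col a y v ∧ win l (cl a) then ind {a, y, v} V else 0))
            (fun a _ => hterm0 v a) (hV (V1_sub ha)))
          rw [if_pos ⟨c1, c2, b3.symm, c4, hwa⟩]
          unfold ind
          rw [if_pos]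
          intro u hu
          simp only [mem_insert, mem_singleton] at hu
          rcases hu with rfl | rfl | rfl
          · exact V1_sub ha
          · exact V1_sub hy
          · exact V1_sub b1
      _ ≤ _ := by
          apply sum_le_sum_of_subset_of_nonneg
          · intro v hv
            obtain ⟨b1, b2, _⟩ := mem_filter.1 hv
            exact mem_Uk.2 ⟨hV (V1_sub b1), b2⟩
          · intro v _ _
            exact sum_nonneg (fun a _ => hterm0 v a)

lemma V1_tsum {k0 N : ℕ} {V : Finset Pt} (hV : V ⊆ UU k0 N) {z : Pt} (hz : z ∈ V1 k0 N V) :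
    ∑ x ∈ V1 k0 N V, ∑ v ∈ V1 k0 N V,
    (if x ≠ v ∧ x ≠ z ∧ v ≠ z ∧ cl x ≤ cl z ∧ cl v ≤ cl z ∧ col x v z then ww x * ww v else 0) ≤ 2 * (lam ^ 2 * tau (cl z)) := by
  have hnb : ¬ badE k0 N V z := (mem_filter.1 hz).2.2.2.2.2
  unfold badE at hnb
  push Not at hnb
  refine le_trans ?_ hnb
  unfold ST
  have hpos : ∀ x v, 0 ≤ fT (cl z) z x v * ind {x, v} V := fun x v => mul_nonneg (fT_nonneg _ _ _ _) (ind_nonneg _ _)
  calc _ ≤ ∑ x ∈ V1 k0 N V, ∑ v ∈ V1 k0 N V, fT (cl z) z x v * ind {x, v} V := by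
        apply sum_le_sum
        intro x hx
        apply sum_le_sum
        intro v hv
        split_ifs with h
        · obtain ⟨a1, a2, a3, a4, a5, a6⟩ := h
          have w := win6 hx hv hz a1 a2 a3 a6
          have w1 : win (cl z) (cl x) := ⟨a4, w.2.2.2.2.1⟩
          have w2 : win (cl z) (cl v) := ⟨a5, w.2.2.2.2.2⟩
          unfold fT
          rw [if_pos ⟨a1, a2, a3, a6, w1, w2⟩, ind_eq, if_pos, mul_one]
          intro u hu
          simp only [mem_insert, mem_singleton] at hu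
          rcases hu with rfl | rfl
          · exact V1_sub hx
          · exact V1_sub hv
        · exact hpos x v
    _ ≤ ∑ x ∈ UU k0 N, ∑ v ∈ V1 k0 N V, fT (cl z) z x v * ind {x, v} V := by
        apply sum_le_sum_of_subset_of_nonneg (V1_sub.trans hV)
        intro x _ _
        exact sum_nonneg (fun v _ => hpos x v)
    _ ≤ _ := by
        apply sum_le_sum
        intro x _
        apply sum_le_sum_of_subset_of_nonneg (V1_sub.trans hV)
        intro v _ _
        exact hpos x v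

lemma hv_zero {k0 N k : ℕ} {V : Finset Pt} (hf : fk k0 N k V < 1) {z x : Pt} (hz : z ∈ Uk k0 N k) (hx : x ∈ UB k) (hxz : x ≠ z) :
    ∑ v ∈ V, wl k x z v ≤ 1 / 256 := by
  by_contra hcon
  push Not at hcon
  have h1 : hv k x z V = 1 := by unfold hv; rw [if_pos hcon]
  have hn := nR_pos k
  have n1 : 0 ≤ N1 k0 N k V := sum_nonneg (fun _ _ => ind_nonneg _ _)
  have n2 : 0 ≤ N2 k0 N k V := sum_nonneg (fun _ _ => ind_nonneg _ _)
  have n3 : 0 ≤ N3 k0 N k V := sum_nonneg (fun _ _ => ind_nonneg _ _)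
  have n4 : 0 ≤ N4 k0 N k V := by
    unfold N4
    apply sum_nonneg; intro y _
    apply sum_nonneg; intro l _
    have := Rdeg_nonneg (k0 := k0) (N := N) (V := V) (y := y) (l := l)
    split_ifs
    · positivity
    · exact le_rfl
  have n6 : 0 ≤ N6 k0 N k V := by
    unfold N6
    apply sum_nonneg; intro z _
    have := ind_nonneg {z} V
    have := lam_pos
    have := tau_pos k
    positivity
  have hterm0 : ∀ z x : Pt, 0 ≤ (if x ≠ z then hv k x z V else 0) := by
    intro z x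
    have := hv_nonneg k x z V
    split_ifs <;> linarith
  have n7 : 1 ≤ N7 k0 N k V := by
    unfold N7
    have s1 := single_le_sum (f := fun z => ∑ x ∈ UB k, (if x ≠ z then hv k x z V else 0)) (fun z _ => sum_nonneg (fun x _ => hterm0 z x)) hz
    have s2 := single_le_sum (f := fun x => (if x ≠ z then hv k x z V else 0)) (fun x _ => hterm0 z x) hx
    rw [if_pos hxz, h1] at s2
    linarith
  unfold fk at hf
  have q1 : 0 ≤ 16 / (muk k0 N k) ^ 2 * (((vk k V).card : ℝ) - muk k0 N k) ^ 2 := by positivity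
  have q2 : 0 ≤ 20 / (2 ^ (4 * k) * nR k) * (N1 k0 N k V + (6 * N2 k0 N k V + (8 * N3 k0 N k V + (N4 k0 N k V + N6 k0 N k V)))) := by
    positivity
  linarith

lemma V1_mass {k0 N : ℕ} {V : Finset Pt} (hV : V ⊆ UU k0 N) (hf : ∀ k ∈ Finset.Icc k0 N, fk k0 N k V < 1)
    {P Q c : Pt} (hP : P ∈ V1 k0 N V) (hQ : Q ∈ V1 k0 N V) (hc : c ∈ V1 k0 N V)
    (hPQ : P ≠ Q) (hcP : c ≠ P) (hcQ : c ≠ Q) (hcol : col P Q c) :
    ∑ v ∈ V1 k0 N V, (if col P Q v then ww v else 0) ≤ 1 / 256 := by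
  set L := (V1 k0 N V).filter (fun v => col P Q v) with hL
  have hPL : P ∈ L := mem_filter.2 ⟨hP, col_self13 _ _⟩
  have hQL : Q ∈ L := mem_filter.2 ⟨hQ, col_self23 _ _⟩
  have hcL : c ∈ L := mem_filter.2 ⟨hc, hcol⟩
  have line : ∀ x ∈ L, ∀ y ∈ L, ∀ w ∈ L, col x y w := by
    intro x hx y hy w hw
    have hx := (mem_filter.1 hx).2
    have hy := (mem_filter.1 hy).2
    have hw := (mem_filter.1 hw).2
    by_cases hxP : P = x
    · subst hxP
      exact col_trans hPQ hy hw
    · have h1 := col_trans hPQ hx hy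
      have h2 := col_trans hPQ hx hw
      have h3 := col_trans (fun h => hxP h.symm) (col_12 h1) (col_12 h2)
      exact h3
  obtain ⟨z, hz, hmax⟩ := exists_max_image L cl ⟨P, hPL⟩
  have hz1 := (mem_filter.1 hz).1
  -- a point different from z
  have hther : ∀ v, ∃ r ∈ L, r ≠ z ∧ r ≠ v := by
    intro v
    by_cases h1 : P ≠ z ∧ P ≠ v
    · exact ⟨P, hPL, h1⟩
    · by_cases h2 : Q ≠ z ∧ Q ≠ v
      · exact ⟨Q, hQL, h2⟩
      · refine ⟨c, hcL, ?_, ?_⟩
        · rintro rfl
          push Not at h1 h2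
          have h3 := h1 hcP.symm
          have h4 := h2 hcQ.symm
          exact hPQ (h3.trans h4.symm)
        · rintro rfl
          have h3 : P = z := by
            by_contra h5
            exact h1 ⟨h5, hcP.symm⟩
          have h4 : Q = z := by
            by_contra h5
            exact h2 ⟨h5, hcQ.symm⟩
          exact hPQ (h3.trans h4.symm)
  obtain ⟨x, hx, hxz, _⟩ := hther z
  have hx1 := (mem_filter.1 hx).1
  have hzU := hV (V1_sub hz1)
  have hxU := hV (V1_sub hx1)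
  have hk : cl z ∈ Finset.Icc k0 N := Finset.mem_Icc.2 (mem_UU.1 hzU).1
  have h := hv_zero (hf (cl z) hk) (mem_Uk.2 ⟨hzU, rfl⟩) (UU_UB hxU (hmax x hx)) hxz
  refine le_trans ?_ h
  have hw0 : ∀ v, 0 ≤ wl (cl z) x z v := by
    intro v; unfold wl; have := ww_pos v; split_ifs <;> positivity
  calc _ ≤ ∑ v ∈ V1 k0 N V, wl (cl z) x z v := by
        apply sum_le_sum
        intro v hv
        split_ifs with hcv
        · have hvL : v ∈ L := mem_filter.2 ⟨hv, hcv⟩
          have hwin : win (cl z) (cl v) := by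
            refine ⟨hmax v hvL, ?_⟩
            by_cases hvz : v = z
            · rw [hvz]; omega
            · obtain ⟨r, hr, hrz, hrv⟩ := hther v
              have hr1 := (mem_filter.1 hr).1
              exact (win6 hz1 hv hr1 (fun h => hvz h.symm) hrz.symm hrv.symm (line z hz v hvL r hr)).1
          unfold wl
          rw [if_pos ⟨line x hx z hz v hvL, hwin⟩]
        · exact hw0 v
    _ ≤ _ := by
        apply sum_le_sum_of_subset_of_nonneg V1_sub
        intro v _ _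
        exact hw0 v

/-- the reservoir exists -/
theorem exists_Resv : ∃ k1 : ℕ, 1 ≤ k1 ∧ ∀ k0 ≥ k1, ∀ N, ∃ V, Resv k0 N V := by
  obtain ⟨k1, hk1, h⟩ := exists_V0
  refine ⟨k1, hk1, ?_⟩
  intro k0 hk0 N
  obtain ⟨V, hV, hf⟩ := h k0 hk0 N
  refine ⟨V1 k0 N V, V1_sub.trans hV, ?_, ?_, ?_, ?_, ?_, ?_, ?_⟩
  · intro k hk
    have hk' := Finset.mem_Icc.1 hk
    exact V1_size hV hk'.1 hk'.2 (hf k hk)
  · intro a ha b hb c hc hab hac hbc hcol
    exact win_triple ha hb hc hab hac hbc hcol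
  · intro a ha b hb c hc e he f hf' g hg hn h1 h2 h3 h4 h5 h6 h7 h8 h9
    exact V1_notri hV ha hb hc he hf' hg hn h1 h2 h3 h4 h5 h6 h7 h8 h9
  · intro a ha b hb c hc d hd e he f hf' g hg h' hh n1 n2 n3 n4 h1 h2 h3 h4 h5 h6 h7 h8 h9 h10 h11 h12
    exact V1_noquad hV ha hb hc hd he hf' hg hh n1 n2 n3 n4 h1 h2 h3 h4 h5 h6 h7 h8 h9 h10 h11 h12
  · intro y hy l hl
    exact V1_deg hV hy hl
  · intro z hz
    exact V1_tsum hV hz
  · intro P hP Q hQ c hc h1 h2 h3 h4
    exact V1_mass hV hf hP hQ hc h1 h2 h3 h4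

end Pool.Agent.Helper64
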