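import Pool.Agent.Helper64.T1b

set_option autoImplicit false

namespace Pool.Agent.Helper64

open Finset
open scoped Classical

lemma om_le_one (p q : ℤ × ℤ) : om p q ≤ 1 := by
  unfold om
  rcases Nat.eq_zero_or_pos (hh p q) with h | h
  · rw [h]; simp
  · rw [div_le_one (by exact_mod_cast h)]
    have : gg p q ≤ hh p q := by
      unfold gg hh at *
      rcases Nat.eq_zero_or_pos (q.1 - p.1).natAbs with h1 | h1
      · have h2 : 0 < (q.2 - p.2).natAbs := by omega
        have := Nat.gcd_le_right (m := (q.1 - p.1).natAbs) (n := (q.2 - p.2).natAbs) h2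
        calc Int.gcd (q.1 - p.1) (q.2 - p.2) ≤ (q.2 - p.2).natAbs := this
          _ ≤ _ := le_max_right _ _
      · have := Nat.gcd_le_left (m := (q.1 - p.1).natAbs) (q.2 - p.2).natAbs h1
        calc Int.gcd (q.1 - p.1) (q.2 - p.2) ≤ (q.1 - p.1).natAbs := this
          _ ≤ _ := le_max_left _ _
    exact_mod_cast this

lemma col_12 {p q r : ℤ × ℤ} (h : col p q r) : col q p r := by
  unfold col at *; linarith

lemma col_23 {p q r : ℤ × ℤ} (h : col p q r) : col p r q := by
  unfold col at *; linarith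

lemma col_231 {p q r : ℤ × ℤ} (h : col p q r) : col q r p := col_23 (col_12 h)
lemma col_312 {p q r : ℤ × ℤ} (h : col p q r) : col r p q := col_12 (col_23 h)
lemma col_13 {p q r : ℤ × ℤ} (h : col p q r) : col r q p := col_12 (col_23 (col_12 h))

lemma col_self (p q : ℤ × ℤ) : col p p q := by
  unfold col; ring

lemma col_self13 (p q : ℤ × ℤ) : col p q p := col_23 (col_self p q)
lemma col_self23 (p q : ℤ × ℤ) : col p q q := col_312 (col_self q p)

lemma col_trans {p q r s : ℤ × ℤ} (hpq : p ≠ q) (h1 : col p q r) (h2 : col p q s) : col p r s := by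
  unfold col at *
  by_cases h : q.1 - p.1 = 0
  · have h3 : q.2 - p.2 ≠ 0 := by
      intro h3
      apply hpq
      ext <;> omega
    apply mul_left_cancel₀ h3
    rw [h] at h1 h2
    have h4 : r.1 - p.1 = 0 := by
      have : (q.2 - p.2) * (r.1 - p.1) = 0 := by linarith
      rcases mul_eq_zero.1 this with h | h
      · exact absurd h h3
      · exact h
    have h5 : s.1 - p.1 = 0 := by
      have : (q.2 - p.2) * (s.1 - p.1) = 0 := by linarith
      rcases mul_eq_zero.1 this with h | h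
      · exact absurd h h3
      · exact h
    rw [h4, h5]; ring
  · apply mul_left_cancel₀ h
    calc (q.1 - p.1) * ((r.1 - p.1) * (s.2 - p.2)) = (r.1 - p.1) * ((q.1 - p.1) * (s.2 - p.2)) := by ring
      _ = (r.1 - p.1) * ((q.2 - p.2) * (s.1 - p.1)) := by rw [h2]
      _ = ((q.2 - p.2) * (r.1 - p.1)) * (s.1 - p.1) := by ring
      _ = ((q.1 - p.1) * (r.2 - p.2)) * (s.1 - p.1) := by rw [h1]
      _ = _ := by ring

/-- primitive direction -/
lemma exists_dir {p q : ℤ × ℤ} (hpq : p ≠ q) :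
    ∃ u v : ℤ, IsCoprime u v ∧ 0 < gg p q ∧ q.1 - p.1 = (gg p q : ℤ) * u ∧ q.2 - p.2 = (gg p q : ℤ) * v
      ∧ hh p q = gg p q * max u.natAbs v.natAbs := by
  have hgpos : 0 < gg p q := by
    rw [gg]
    apply Int.gcd_pos_iff.2
    by_contra hcon
    push Not at hcon
    apply hpq
    ext <;> omega
  obtain ⟨u, hu⟩ : (gg p q : ℤ) ∣ q.1 - p.1 := Int.gcd_dvd_left ..
  obtain ⟨v, hv⟩ : (gg p q : ℤ) ∣ q.2 - p.2 := Int.gcd_dvd_right ..
  have hcop : IsCoprime u v := by
    rw [Int.isCoprime_iff_gcd_eq_one]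
    have : Int.gcd (q.1 - p.1) (q.2 - p.2) = gg p q := rfl
    rw [hu, hv, Int.gcd_mul_left] at this
    simp only [Int.natAbs_natCast] at this
    exact Nat.eq_of_mul_eq_mul_left hgpos (by simpa using this)
  refine ⟨u, v, hcop, hgpos, hu, hv, ?_⟩
  unfold hh
  rw [hu, hv, Int.natAbs_mul, Int.natAbs_mul, Int.natAbs_natCast, Nat.mul_max_mul_left]

lemma om_eq_dir {p q : ℤ × ℤ} {u v g : ℤ} (hcop : IsCoprime u v) (hg : g ≠ 0)
    (h1 : q.1 - p.1 = g * u) (h2 : q.2 - p.2 = g * v) :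
    om p q = 1 / (max u.natAbs v.natAbs : ℕ) := by
  have e1 : gg p q = g.natAbs := by
    unfold gg
    rw [h1, h2, Int.gcd_mul_left, Int.isCoprime_iff_gcd_eq_one.1 hcop, mul_one]
  have e2 : hh p q = g.natAbs * max u.natAbs v.natAbs := by
    unfold hh
    rw [h1, h2, Int.natAbs_mul, Int.natAbs_mul, Nat.mul_max_mul_left]
  have h3 : (g.natAbs : ℝ) ≠ 0 := by
    have : g.natAbs ≠ 0 := Int.natAbs_ne_zero.2 hg
    exact_mod_cast this
  unfold om
  rw [e1, e2]
  push_cast
  rw [← div_div, div_self h3]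

/-- a point on the line through `p` in the primitive direction `(u,v)` -/
lemma dir_of_col {p q r : ℤ × ℤ} {u v g : ℤ} (hcop : IsCoprime u v) (hg : g ≠ 0)
    (h1 : q.1 - p.1 = g * u) (h2 : q.2 - p.2 = g * v) (hc : col p q r) :
    ∃ k : ℤ, r.1 - p.1 = k * u ∧ r.2 - p.2 = k * v := by
  unfold col at hc
  rw [h1, h2] at hc
  have key : u * (r.2 - p.2) = v * (r.1 - p.1) := by
    apply mul_left_cancel₀ hg
    linarith
  by_cases hu : u = 0
  · have hv : v = 1 ∨ v = -1 := by
      rw [hu] at hcop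
      have : IsUnit v := isCoprime_zero_left.1 hcop
      exact Int.isUnit_iff.1 this
    have hv0 : v ≠ 0 := by rcases hv with h | h <;> rw [h] <;> norm_num
    have hr : r.1 - p.1 = 0 := by
      rw [hu] at key
      have : v * (r.1 - p.1) = 0 := by linarith
      rcases mul_eq_zero.1 this with h | h
      · exact absurd h hv0
      · exact h
    refine ⟨(r.2 - p.2) * v, ?_, ?_⟩
    · rw [hr, hu]; ring
    · rcases hv with h | h <;> rw [h] <;> ring
  · have hdvd : u ∣ v * (r.1 - p.1) := ⟨r.2 - p.2, by linarith⟩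
    obtain ⟨k, hk⟩ := hcop.dvd_of_dvd_mul_left hdvd
    refine ⟨k, by rw [hk]; ring, ?_⟩
    apply mul_left_cancel₀ hu
    rw [key, hk]; ring

lemma om_line {p q r : ℤ × ℤ} (hpq : p ≠ q) (hpr : p ≠ r) (hc : col p q r) : om p q = om p r := by
  obtain ⟨u, v, hcop, hg, h1, h2, _⟩ := exists_dir hpq
  have hg' : ((gg p q : ℕ) : ℤ) ≠ 0 := by exact_mod_cast hg.ne'
  obtain ⟨k, k1, k2⟩ := dir_of_col hcop hg' h1 h2 hc
  have hk : k ≠ 0 := by
    rintro rfl
    apply hpr
    ext <;> [linarith; linarith]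
  rw [om_eq_dir hcop hg' h1 h2, om_eq_dir hcop hk k1 k2]

lemma om_pos {p q : ℤ × ℤ} (hpq : p ≠ q) : 0 < om p q := by
  obtain ⟨u, v, hcop, hg, h1, h2, _⟩ := exists_dir hpq
  have hg' : ((gg p q : ℕ) : ℤ) ≠ 0 := by exact_mod_cast hg.ne'
  rw [om_eq_dir hcop hg' h1 h2]
  have : 0 < max u.natAbs v.natAbs := by
    by_contra hcon
    have h3 : u = 0 := by omega
    have h4 : v = 0 := by omega
    rw [h3, h4] at hcop
    exact not_isCoprime_zero_zero hcop
  have : (0 : ℝ) < (max u.natAbs v.natAbs : ℕ) := by exact_mod_cast this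
  positivity

/-- small direction: if `om p q * m > 1`... -/
lemma dir_small {p q : ℤ × ℤ} (hpq : p ≠ q) {m : ℕ} (h : 1 ≤ om p q * m) :
    ∃ u v g : ℤ, IsCoprime u v ∧ g ≠ 0 ∧ q.1 - p.1 = g * u ∧ q.2 - p.2 = g * v ∧ |u| ≤ m ∧ |v| ≤ m := by
  obtain ⟨u, v, hcop, hg, h1, h2, _⟩ := exists_dir hpq
  have hg' : ((gg p q : ℕ) : ℤ) ≠ 0 := by exact_mod_cast hg.ne'
  refine ⟨u, v, gg p q, hcop, hg', h1, h2, ?_⟩
  have h3 := om_eq_dir hcop hg' h1 h2
  have hpos : 0 < max u.natAbs v.natAbs := by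
    by_contra hcon
    have h3 : u = 0 := by omega
    have h4 : v = 0 := by omega
    rw [h3, h4] at hcop
    exact not_isCoprime_zero_zero hcop
  have hposR : (0 : ℝ) < (max u.natAbs v.natAbs : ℕ) := by exact_mod_cast hpos
  rw [h3, one_div, ← div_eq_inv_mul, le_div_iff₀ hposR, one_mul] at h
  have h4 : max u.natAbs v.natAbs ≤ m := by exact_mod_cast h
  constructor <;> rw [abs_le] <;> constructor <;> omega

end Pool.Agent.Helper64
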