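import Pool.Agent.Helper64.Res2

set_option autoImplicit false

namespace Pool.Agent.Helper64

open Finset
open scoped Classical

lemma two_dirs {P Q : ℤ × ℤ} {n m : ℕ} :
    (((box n).filter (fun C => ¬ col P Q C ∧ 1 ≤ om P C * m ∧ 1 ≤ om Q C * m)).card : ℝ) ≤ (2 * m + 1) ^ 4 := by
  set I : Finset ℤ := Finset.Icc (-(m : ℤ)) m with hI
  have hIcard : I.card = 2 * m + 1 := by
    rw [hI, Int.card_Icc]; omega
  have hle : ((box n).filter (fun C => ¬ col P Q C ∧ 1 ≤ om P C * m ∧ 1 ≤ om Q C * m)).card
      ≤ ((I ×ˢ I) ×ˢ (I ×ˢ I)).card := by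
    apply Finset.card_le_card_of_forall_subsingleton
      (fun C d => ∃ g g' : ℤ, g ≠ 0 ∧ g' ≠ 0 ∧ C.1 - P.1 = g * d.1.1 ∧ C.2 - P.2 = g * d.1.2
        ∧ C.1 - Q.1 = g' * d.2.1 ∧ C.2 - Q.2 = g' * d.2.2)
    · intro C hC
      rw [mem_filter] at hC
      obtain ⟨_, hc, h1, h2⟩ := hC
      have hPC : P ≠ C := by
        rintro rfl; exact hc (col_self13 _ _)
      have hQC : Q ≠ C := by
        rintro rfl; exact hc (col_self23 _ _)
      obtain ⟨u, v, g, _, hg, a1, a2, b1, b2⟩ := dir_small hPC h1
      obtain ⟨u', v', g', _, hg', a1', a2', b1', b2'⟩ := dir_small hQC h2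
      rw [abs_le] at b1 b2 b1' b2'
      refine ⟨((u, v), (u', v')), ?_, g, g', hg, hg', a1, a2, a1', a2'⟩
      simp only [mem_product, hI, Finset.mem_Icc]
      exact ⟨⟨b1, b2⟩, b1', b2'⟩
    · intro d _
      rintro C ⟨hC, g, g', hg, hg', a1, a2, b1, b2⟩ C' ⟨_, k, k', hk, hk', a1', a2', b1', b2'⟩
      have hc : ¬ col P Q C := (mem_filter.1 hC).2.1
      by_contra hne
      obtain ⟨⟨u, v⟩, ⟨u', v'⟩⟩ := d
      simp only at a1 a2 b1 b2 a1' a2' b1' b2'
      have hkg : k - g ≠ 0 := by
        intro h0
        apply hne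
        have : k = g := by linarith
        subst this
        ext <;> linarith
      have e1 : (k - g) * u = (k' - g') * u' := by linarith
      have e2 : (k - g) * v = (k' - g') * v' := by linarith
      have hcross : u * v' - v * u' = 0 := by
        apply mul_left_cancel₀ hkg
        calc (k - g) * (u * v' - v * u') = ((k - g) * u) * v' - ((k - g) * v) * u' := by ring
          _ = _ := by rw [e1, e2]; ring
      apply hc
      unfold col
      have q1 : Q.1 - P.1 = g * u - g' * u' := by linarith
      have q2 : Q.2 - P.2 = g * v - g' * v' := by linarith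
      rw [q1, q2, a1, a2]
      linear_combination g * g' * hcross
  have : ((I ×ˢ I) ×ˢ (I ×ˢ I)).card = (2 * m + 1) ^ 4 := by
    rw [card_product, card_product, hIcard]; ring
  rw [this] at hle
  exact_mod_cast hle

lemma codeg {P Q : ℤ × ℤ} {n m : ℕ} (hP : P ∈ box n) (hQ : Q ∈ box n) (hm : 1 ≤ m) :
    ∑ C ∈ (box n).filter (fun C => ¬ col P Q C), om P C * om Q C
      ≤ (2 * m + 1) ^ 4 + 16 * (n * (2 + Real.log n)) / m := by
  have hm' : (0 : ℝ) < m := by exact_mod_cast hm
  have h1 := sum_om_le hP
  have h2 := sum_om_le hQ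
  have hterm : ∀ C ∈ (box n).filter (fun C => ¬ col P Q C), om P C * om Q C
      ≤ (if 1 ≤ om P C * m ∧ 1 ≤ om Q C * m then 1 else 0) + (om P C / m + om Q C / m) := by
    intro C _
    have p0 := om_nonneg P C
    have q0 := om_nonneg Q C
    have p1 := om_le_one P C
    have q1 := om_le_one Q C
    by_cases hP1 : 1 ≤ om P C * m
    · by_cases hQ1 : 1 ≤ om Q C * m
      · rw [if_pos ⟨hP1, hQ1⟩]
        have : 0 ≤ om P C / m := by positivity
        have : 0 ≤ om Q C / m := by positivity
        nlinarith
      · rw [if_neg (fun h => hQ1 h.2)]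
        push Not at hQ1
        have h3 : om Q C ≤ 1 / m := by
          rw [le_div_iff₀ hm']; exact hQ1.le
        have : 0 ≤ om Q C / m := by positivity
        have : om P C * om Q C ≤ om P C * (1 / m) := mul_le_mul_of_nonneg_left h3 p0
        have e : om P C * (1 / m) = om P C / m := by ring
        linarith
    · rw [if_neg (fun h => hP1 h.1)]
      push Not at hP1
      have h3 : om P C ≤ 1 / m := by
        rw [le_div_iff₀ hm']; exact hP1.le
      have : 0 ≤ om P C / m := by positivity
      have : om P C * om Q C ≤ (1 / m) * om Q C := mul_le_mul_of_nonneg_right h3 q0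
      have e : (1 / m) * om Q C = om Q C / m := by ring
      linarith
  calc _ ≤ ∑ C ∈ (box n).filter (fun C => ¬ col P Q C),
        ((if 1 ≤ om P C * m ∧ 1 ≤ om Q C * m then (1 : ℝ) else 0) + (om P C / m + om Q C / m)) := sum_le_sum hterm
    _ = (((box n).filter (fun C => ¬ col P Q C ∧ 1 ≤ om P C * m ∧ 1 ≤ om Q C * m)).card : ℝ)
        + ∑ C ∈ (box n).filter (fun C => ¬ col P Q C), (om P C / m + om Q C / m) := by
        rw [sum_add_distrib, ← sum_filter, filter_filter]
        simp
    _ ≤ (2 * m + 1) ^ 4 + ∑ C ∈ box n, (om P C / m + om Q C / m) := by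
        apply add_le_add two_dirs
        apply sum_le_sum_of_subset_of_nonneg (filter_subset _ _)
        intro C _ _
        have p0 := om_nonneg P C
        have q0 := om_nonneg Q C
        positivity
    _ ≤ _ := by
        rw [sum_add_distrib, ← sum_div, ← sum_div]
        have : 16 * ((n : ℝ) * (2 + Real.log n)) / m = 8 * (n * (2 + Real.log n)) / m + 8 * (n * (2 + Real.log n)) / m := by ring
        rw [this]
        have e1 : (∑ C ∈ box n, om P C) / m ≤ 8 * (n * (2 + Real.log n)) / m := div_le_div_of_nonneg_right h1 hm'.le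
        have e2 : (∑ C ∈ box n, om Q C) / m ≤ 8 * (n * (2 + Real.log n)) / m := div_le_div_of_nonneg_right h2 hm'.le
        linarith

lemma line_pts {N : ℕ} {u v c : ℤ} (huv : u ≠ 0 ∨ v ≠ 0) :
    ((box N).filter (fun z => u * z.2 - v * z.1 = c)).card ≤ N := by
  have hcard : (Finset.Icc (1 : ℤ) N).card = N := by simp
  rcases huv with h | h
  · calc _ ≤ (Finset.Icc (1 : ℤ) N).card := by
          apply Finset.card_le_card_of_injOn (fun z => z.1)
          · intro z hz
            have := mem_box.1 (mem_filter.1 hz).1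
            simp only [coe_Icc, Set.mem_Icc]
            exact this.1
          · intro z hz z' hz' h1
            have e1 := (mem_filter.1 hz).2
            have e2 := (mem_filter.1 hz').2
            simp only at h1
            ext
            · exact h1
            · apply mul_left_cancel₀ h
              rw [h1] at e1
              linarith
      _ = N := hcard
  · calc _ ≤ (Finset.Icc (1 : ℤ) N).card := by
          apply Finset.card_le_card_of_injOn (fun z => z.2)
          · intro z hz
            have := mem_box.1 (mem_filter.1 hz).1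
            simp only [coe_Icc, Set.mem_Icc]
            exact this.2
          · intro z hz z' hz' h1
            have e1 := (mem_filter.1 hz).2
            have e2 := (mem_filter.1 hz').2
            simp only at h1
            ext
            · apply mul_left_cancel₀ h
              rw [h1] at e1
              linarith
            · exact h1
      _ = N := hcard

lemma near_count {N m i : ℕ} :
    ((box N).filter (fun z => ∃ x ∈ box m, x ≠ z ∧ 1 ≤ om x z * i)).card
      ≤ (2 * i + 1) * (2 * i + 1) * (4 * i * m + 1) * N := by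
  set I : Finset ℤ := Finset.Icc (-(i : ℤ)) i with hI
  set J : Finset ℤ := Finset.Icc (-(2 * i * m : ℤ)) (2 * i * m) with hJ
  have hIcard : I.card = 2 * i + 1 := by
    rw [hI, Int.card_Icc]; omega
  have hJcard : J.card = 4 * i * m + 1 := by
    rw [hJ, Int.card_Icc]
    have : (2 * (i : ℤ) * m + 1 - -(2 * i * m)) = ((4 * i * m + 1 : ℕ) : ℤ) := by push_cast; ring
    rw [this, Int.toNat_natCast]
  have hsub : (box N).filter (fun z => ∃ x ∈ box m, x ≠ z ∧ 1 ≤ om x z * i)
      ⊆ ((I ×ˢ I) ×ˢ J).biUnion (fun d => if d.1.1 ≠ 0 ∨ d.1.2 ≠ 0 then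
          (box N).filter (fun z => d.1.1 * z.2 - d.1.2 * z.1 = d.2) else ∅) := by
    intro z hz
    rw [mem_filter] at hz
    obtain ⟨hzb, x, hx, hne, hom⟩ := hz
    obtain ⟨u, v, g, hcop, hg, a1, a2, b1, b2⟩ := dir_small hne hom
    rw [mem_biUnion]
    refine ⟨((u, v), u * z.2 - v * z.1), ?_, ?_⟩
    · simp only [mem_product, hI, hJ, Finset.mem_Icc]
      have hb1 := abs_le.1 b1
      have hb2 := abs_le.1 b2
      refine ⟨⟨hb1, hb2⟩, ?_⟩
      have e : u * z.2 - v * z.1 = u * x.2 - v * x.1 := by
        have h1 : z.1 = x.1 + g * u := by linarith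
        have h2 : z.2 = x.2 + g * v := by linarith
        rw [h1, h2]; ring
      rw [e]
      obtain ⟨⟨x1, x2⟩, x3, x4⟩ := mem_box.1 hx
      have k1 : |u * x.2| ≤ i * m := by
        rw [abs_mul]
        apply mul_le_mul b1 _ (abs_nonneg _) (by positivity)
        rw [abs_of_pos (by linarith)]; exact x4
      have k2 : |v * x.1| ≤ i * m := by
        rw [abs_mul]
        apply mul_le_mul b2 _ (abs_nonneg _) (by positivity)
        rw [abs_of_pos (by linarith)]; exact x2
      rw [abs_le] at k1 k2
      constructor <;> nlinarith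
    · have huv : u ≠ 0 ∨ v ≠ 0 := by
        by_contra hcon
        push Not at hcon
        rw [hcon.1, hcon.2] at hcop
        exact not_isCoprime_zero_zero hcop
      simp only
      rw [if_pos huv, mem_filter]
      exact ⟨hzb, rfl⟩
  calc _ ≤ _ := card_le_card hsub
    _ ≤ ∑ d ∈ (I ×ˢ I) ×ˢ J, N := by
        refine card_biUnion_le.trans (sum_le_sum ?_)
        intro d _
        split_ifs with h
        · exact line_pts h
        · simp
    _ = _ := by
        rw [sum_const, smul_eq_mul, card_product, card_product, hIcard, hJcard]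

end Pool.Agent.Helper64
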