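import Pool.Agent.Helper64.Res3

set_option autoImplicit false

namespace Pool.Agent.Helper64

open Finset
open scoped Classical

def nn (k : ℕ) : ℕ := 2 ^ (2000 * k)

noncomputable def nR (k : ℕ) : ℝ := (2 : ℝ) ^ (2000 * k)

lemma nn_cast (k : ℕ) : ((nn k : ℕ) : ℝ) = nR k := by
  unfold nn nR; push_cast; rfl

lemma nn_pos (k : ℕ) : 0 < nn k := by unfold nn; positivity
lemma nR_pos (k : ℕ) : 0 < nR k := by unfold nR; positivity
lemma one_le_nR (k : ℕ) : 1 ≤ nR k := by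
  unfold nR; exact one_le_pow₀ (by norm_num)

lemma nn_mono {j k : ℕ} (h : j ≤ k) : nn j ≤ nn k := by
  unfold nn
  exact Nat.pow_le_pow_right (by norm_num) (by omega)

lemma nR_mono {j k : ℕ} (h : j ≤ k) : nR j ≤ nR k := by
  rw [← nn_cast, ← nn_cast]
  exact_mod_cast nn_mono h

noncomputable def Bx (k : ℕ) : Finset (ℤ × ℤ) :=
  (Finset.Icc ((nn k : ℤ) + 1) (2 * nn k)) ×ˢ (Finset.Icc (1 : ℤ) (nn k))

lemma mem_Bx {k : ℕ} {p : ℤ × ℤ} :
    p ∈ Bx k ↔ ((nn k : ℤ) + 1 ≤ p.1 ∧ p.1 ≤ 2 * nn k) ∧ (1 ≤ p.2 ∧ p.2 ≤ nn k) := by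
  simp [Bx]

lemma card_Bx (k : ℕ) : (Bx k).card = nn k * nn k := by
  unfold Bx
  rw [card_product, Int.card_Icc, Int.card_Icc]
  congr 1 <;> omega

def cl (p : ℤ × ℤ) : ℕ := Nat.log 2 (p.1.toNat - 1) / 2000

lemma cl_of_mem {k : ℕ} {p : ℤ × ℤ} (h : p ∈ Bx k) : cl p = k := by
  obtain ⟨⟨h1, h2⟩, _⟩ := mem_Bx.1 h
  unfold cl
  have h3 : Nat.log 2 (p.1.toNat - 1) = 2000 * k := by
    apply Nat.log_eq_of_pow_le_of_lt_pow
    · change nn k ≤ _
      omega
    · have : 2 ^ (2000 * k + 1) = 2 * nn k := by unfold nn; rw [pow_succ]; ring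
      rw [this]
      have := nn_pos k
      omega
  rw [h3]
  omega

lemma Bx_disj {j k : ℕ} (h : j ≠ k) : Disjoint (Bx j) (Bx k) := by
  rw [disjoint_left]
  intro p hp hp'
  exact h ((cl_of_mem hp).symm.trans (cl_of_mem hp'))

lemma Bx_sub {j k : ℕ} (h : j ≤ k) : Bx j ⊆ box (2 * nn k) := by
  intro p hp
  obtain ⟨⟨h1, h2⟩, h3, h4⟩ := mem_Bx.1 hp
  have := nn_mono h
  rw [mem_box]
  push_cast
  omega

/-- union of the boxes up to `k` -/
noncomputable def UB (k : ℕ) : Finset (ℤ × ℤ) := (range (k + 1)).biUnion Bx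

lemma mem_UB {k : ℕ} {p : ℤ × ℤ} : p ∈ UB k ↔ ∃ j ≤ k, p ∈ Bx j := by
  unfold UB
  simp only [mem_biUnion, mem_range]
  constructor
  · rintro ⟨j, h1, h2⟩; exact ⟨j, by omega, h2⟩
  · rintro ⟨j, h1, h2⟩; exact ⟨j, by omega, h2⟩

lemma UB_sub (k : ℕ) : UB k ⊆ box (2 * nn k) := by
  intro p hp
  obtain ⟨j, hj, hp⟩ := mem_UB.1 hp
  exact Bx_sub hj hp

lemma sum_UB (k : ℕ) (f : ℤ × ℤ → ℝ) : ∑ p ∈ UB k, f p = ∑ j ∈ range (k + 1), ∑ p ∈ Bx j, f p := by
  unfold UB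
  rw [sum_biUnion]
  intro i _ j _ hij
  exact Bx_disj hij

noncomputable def LL (k : ℕ) : ℝ := 2 + Real.log (2 * nR k)

lemma LL_eq (k : ℕ) : LL k = 2 + Real.log ((2 * nn k : ℕ) : ℝ) := by
  unfold LL; rw [← nn_cast]; push_cast; rfl

lemma LL_le (k : ℕ) : LL k ≤ 2000 * k + 3 := by
  unfold LL nR
  have : (2 : ℝ) * 2 ^ (2000 * k) = 2 ^ (2000 * k + 1) := by ring
  rw [this, Real.log_pow]
  have h2 : Real.log 2 ≤ 1 := by
    have := Real.log_two_lt_d9; linarith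
  push_cast
  have h3 : (0 : ℝ) ≤ 2000 * k + 1 := by positivity
  nlinarith

lemma LL_pos (k : ℕ) : 2 ≤ LL k := by
  unfold LL
  have : 0 ≤ Real.log (2 * nR k) := Real.log_nonneg (by linarith [one_le_nR k])
  linarith

lemma LL_mono {j k : ℕ} (h : j ≤ k) : LL j ≤ LL k := by
  unfold LL
  have := Real.log_le_log (by linarith [nR_pos j] : 0 < 2 * nR j) (by linarith [nR_mono h] : 2 * nR j ≤ 2 * nR k)
  linarith

/-- points of the box on a line -/
lemma line_Bx {k : ℕ} {x v : ℤ × ℤ} (hx : x ∈ UB k) (hv : v ∈ UB k) (hxv : x ≠ v) :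
    (((Bx k).filter (fun r => col x v r)).card : ℝ) ≤ 4 * nR k * om x v := by
  have h1 := line_count (UB_sub k hx) (UB_sub k hv) hxv
  have h2 : ((Bx k).filter (fun r => col x v r)).card ≤ ((box (2 * nn k)).filter (fun r => col x v r)).card :=
    card_le_card (filter_subset_filter _ (Bx_sub le_rfl))
  have h3 : (((Bx k).filter (fun r => col x v r)).card : ℝ) ≤ (((box (2 * nn k)).filter (fun r => col x v r)).card : ℝ) := by
    exact_mod_cast h2
  refine h3.trans (h1.trans (le_of_eq ?_))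
  push_cast
  rw [nn_cast]
  ring

lemma line_UB {k : ℕ} {x v : ℤ × ℤ} (hx : x ∈ UB k) (hv : v ∈ UB k) (hxv : x ≠ v) :
    (((UB k).filter (fun r => col x v r)).card : ℝ) ≤ 4 * nR k * om x v := by
  have h1 := line_count (UB_sub k hx) (UB_sub k hv) hxv
  have h2 : ((UB k).filter (fun r => col x v r)).card ≤ ((box (2 * nn k)).filter (fun r => col x v r)).card :=
    card_le_card (filter_subset_filter _ (UB_sub k))
  have h3 : (((UB k).filter (fun r => col x v r)).card : ℝ) ≤ (((box (2 * nn k)).filter (fun r => col x v r)).card : ℝ) := by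
    exact_mod_cast h2
  refine h3.trans (h1.trans (le_of_eq ?_))
  push_cast
  rw [nn_cast]
  ring

lemma sum_om_UB {k : ℕ} {q : ℤ × ℤ} (hq : q ∈ UB k) :
    ∑ p ∈ UB k, om q p ≤ 16 * nR k * LL k := by
  have h1 := sum_om_le (UB_sub k hq)
  have h2 : ∑ p ∈ UB k, om q p ≤ ∑ p ∈ box (2 * nn k), om q p :=
    sum_le_sum_of_subset_of_nonneg (UB_sub k) (fun _ _ _ => om_nonneg _ _)
  refine h2.trans (h1.trans (le_of_eq ?_))
  rw [LL_eq]
  push_cast
  rw [nn_cast]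
  ring

lemma pair_sum_aux {j l k : ℕ} (hjl : j ≤ l) (hl : l ≤ k) :
    ∑ x ∈ Bx j, ∑ v ∈ Bx l, om x v ≤ nR j * nR j * (16 * nR l * LL k) := by
  have h : ∀ x ∈ Bx j, ∑ v ∈ Bx l, om x v ≤ 16 * nR l * LL k := by
    intro x hx
    have h1 : ∑ v ∈ Bx l, om x v ≤ ∑ v ∈ UB l, om x v := by
      apply sum_le_sum_of_subset_of_nonneg
      · intro v hv; exact mem_UB.2 ⟨l, le_rfl, hv⟩
      · intro _ _ _; exact om_nonneg _ _
    have h2 := sum_om_UB (k := l) (q := x) (mem_UB.2 ⟨j, hjl, hx⟩)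
    have h3 := LL_mono hl
    have h4 := nR_pos l
    calc _ ≤ _ := h1
      _ ≤ _ := h2
      _ ≤ _ := by nlinarith
  calc _ ≤ ∑ x ∈ Bx j, 16 * nR l * LL k := sum_le_sum h
    _ = _ := by
      rw [sum_const, card_Bx, nsmul_eq_mul]
      push_cast
      rw [nn_cast]

lemma pair_sum {j l k : ℕ} (hj : j ≤ k) (hl : l ≤ k) :
    ∑ x ∈ Bx j, ∑ v ∈ Bx l, om x v / (nR j * nR l) ≤ 16 * LL k * min (nR j) (nR l) := by
  have hj0 := nR_pos j
  have hl0 := nR_pos l
  simp_rw [← sum_div]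
  rcases le_total j l with h | h
  · rw [min_eq_left (nR_mono h), div_le_iff₀ (by positivity)]
    refine (pair_sum_aux h hl).trans (le_of_eq ?_)
    ring
  · rw [min_eq_right (nR_mono h), div_le_iff₀ (by positivity)]
    rw [sum_comm]
    have h1 := pair_sum_aux h hj
    refine le_trans (le_of_eq ?_) (h1.trans (le_of_eq ?_))
    · apply sum_congr rfl
      intro x _
      apply sum_congr rfl
      intro y _
      exact om_comm _ _
    · ring

lemma geom_le (x : ℝ) (hx : 2 ≤ x) (k : ℕ) : ∑ j ∈ range (k + 1), x ^ j ≤ 2 * x ^ k := by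
  induction k with
  | zero => simp
  | succ k ih =>
    rw [sum_range_succ]
    have : x ^ (k + 1) = x ^ k * x := pow_succ _ _
    have h2 : 0 ≤ x ^ k := by positivity
    nlinarith

lemma sum_min_le (k : ℕ) :
    ∑ j ∈ range (k + 1), ∑ l ∈ range (k + 1), min (nR j) (nR l) ≤ 4 * nR k := by
  obtain ⟨b, hb⟩ : ∃ b : ℝ, b = (2 : ℝ) ^ 1000 := ⟨_, rfl⟩
  have hx : (2 : ℝ) ≤ b := by
    rw [hb]
    exact le_self_pow₀ (by norm_num) (by norm_num)
  have hn : ∀ j, nR j = b ^ j * b ^ j := by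
    intro j
    unfold nR
    rw [hb, ← pow_mul, ← pow_add]
    congr 1
    omega
  clear hb
  have h1x : (1 : ℝ) ≤ b := by linarith
  have hb0 : 0 < b := by linarith
  have hp : ∀ i, 0 < b ^ i := fun i => by positivity
  have h1 : ∀ j l, min (nR j) (nR l) ≤ b ^ j * b ^ l := by
    intro j l
    rcases le_total j l with h | h
    · refine (min_le_left _ _).trans ?_
      rw [hn]
      exact mul_le_mul_of_nonneg_left (pow_le_pow_right₀ h1x h) (hp j).le
    · refine (min_le_right _ _).trans ?_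
      rw [hn]
      exact mul_le_mul_of_nonneg_right (pow_le_pow_right₀ h1x h) (hp l).le
  calc _ ≤ ∑ j ∈ range (k + 1), ∑ l ∈ range (k + 1), b ^ j * b ^ l :=
        sum_le_sum (fun j _ => sum_le_sum (fun l _ => h1 j l))
    _ = (∑ j ∈ range (k + 1), b ^ j) * (∑ l ∈ range (k + 1), b ^ l) := by
        rw [sum_mul_sum]
    _ ≤ (2 * b ^ k) * (2 * b ^ k) := by
        have h3 := geom_le _ hx k
        have h4 : 0 ≤ ∑ j ∈ range (k + 1), b ^ j := sum_nonneg (fun _ _ => by positivity)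
        exact mul_le_mul h3 h3 h4 (by positivity)
    _ = 4 * nR k := by rw [hn k]; ring

end Pool.Agent.Helper64
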