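import Pool.Agent.Helper64.Res4

set_option autoImplicit false

namespace Pool.Agent.Helper64

open Finset
open scoped Classical

/-- expected number of weighted collinear pairs -/
noncomputable def muz (k : ℕ) (z : ℤ × ℤ) : ℝ :=
  ∑ x ∈ UB k, ∑ v ∈ UB k,
    if x ≠ v ∧ x ≠ z ∧ v ≠ z ∧ col x v z then 1 / (nR (cl x) * nR (cl v)) else 0

def good1 (k : ℕ) (z : ℤ × ℤ) : Prop := ∀ j < k, ∀ x ∈ Bx j, om x z * ((k - j : ℕ) : ℝ) < 1

noncomputable def tau (k : ℕ) : ℝ := 2048 * LL k

noncomputable def Gd (k : ℕ) : Finset (ℤ × ℤ) := (Bx k).filter (fun z => good1 k z ∧ muz k z ≤ tau k)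

lemma muz_sum (k : ℕ) : ∑ z ∈ Bx k, muz k z ≤ 256 * LL k * (nR k * nR k) := by
  unfold muz
  rw [sum_comm]
  have h1 : ∀ x ∈ UB k, ∑ z ∈ Bx k, ∑ v ∈ UB k, (if x ≠ v ∧ x ≠ z ∧ v ≠ z ∧ col x v z then 1 / (nR (cl x) * nR (cl v)) else 0)
      ≤ ∑ v ∈ UB k, 4 * nR k * (om x v / (nR (cl x) * nR (cl v))) := by
    intro x hx
    rw [sum_comm]
    apply sum_le_sum
    intro v hv
    have hpx := nR_pos (cl x)
    have hpv := nR_pos (cl v)
    by_cases hxv : x = v
    · have : ∑ z ∈ Bx k, (if x ≠ v ∧ x ≠ z ∧ v ≠ z ∧ col x v z then 1 / (nR (cl x) * nR (cl v)) else 0) = 0 := by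
        apply sum_eq_zero
        intro z _
        rw [if_neg]; tauto
      rw [this]
      have := om_nonneg x v
      have := nR_pos k
      positivity
    · calc ∑ z ∈ Bx k, (if x ≠ v ∧ x ≠ z ∧ v ≠ z ∧ col x v z then 1 / (nR (cl x) * nR (cl v)) else 0)
          ≤ ∑ z ∈ Bx k, (if col x v z then 1 / (nR (cl x) * nR (cl v)) else 0) := by
            apply sum_le_sum
            intro z _
            have : 0 ≤ 1 / (nR (cl x) * nR (cl v)) := by positivity
            split_ifs with h2 h3 h3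
            · exact le_rfl
            · exact absurd h2.2.2.2 h3
            · exact this
            · exact le_rfl
        _ = (((Bx k).filter (fun z => col x v z)).card : ℝ) * (1 / (nR (cl x) * nR (cl v))) := by
            rw [← sum_filter, sum_const, nsmul_eq_mul]
        _ ≤ (4 * nR k * om x v) * (1 / (nR (cl x) * nR (cl v))) :=
            mul_le_mul_of_nonneg_right (line_Bx hx hv hxv) (by positivity)
        _ = _ := by ring
  calc _ ≤ ∑ x ∈ UB k, ∑ v ∈ UB k, 4 * nR k * (om x v / (nR (cl x) * nR (cl v))) := sum_le_sum h1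
    _ = 4 * nR k * ∑ j ∈ range (k + 1), ∑ l ∈ range (k + 1), ∑ x ∈ Bx j, ∑ v ∈ Bx l, om x v / (nR j * nR l) := by
        rw [sum_UB, mul_sum]
        apply sum_congr rfl
        intro j _
        rw [mul_sum]
        have : ∀ x ∈ Bx j, ∑ v ∈ UB k, 4 * nR k * (om x v / (nR (cl x) * nR (cl v)))
            = ∑ l ∈ range (k + 1), ∑ v ∈ Bx l, 4 * nR k * (om x v / (nR j * nR l)) := by
          intro x hx
          rw [sum_UB]
          apply sum_congr rfl
          intro l _
          apply sum_congr rfl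
          intro v hv
          rw [cl_of_mem hx, cl_of_mem hv]
        rw [sum_congr rfl this, sum_comm]
        apply sum_congr rfl
        intro l _
        rw [mul_sum]
        apply sum_congr rfl
        intro x _
        rw [mul_sum]
    _ ≤ 4 * nR k * ∑ j ∈ range (k + 1), ∑ l ∈ range (k + 1), 16 * LL k * min (nR j) (nR l) := by
        apply mul_le_mul_of_nonneg_left _ (by linarith [nR_pos k])
        apply sum_le_sum
        intro j hj
        apply sum_le_sum
        intro l hl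
        rw [mem_range] at hj hl
        exact pair_sum (by omega) (by omega)
    _ = 64 * nR k * LL k * ∑ j ∈ range (k + 1), ∑ l ∈ range (k + 1), min (nR j) (nR l) := by
        simp_rw [← mul_sum]; ring
    _ ≤ 64 * nR k * LL k * (4 * nR k) := by
        apply mul_le_mul_of_nonneg_left (sum_min_le k)
        have := nR_pos k
        have := LL_pos k
        positivity
    _ = _ := by ring

lemma bad2_count (k : ℕ) : (((Bx k).filter (fun z => ¬ muz k z ≤ tau k)).card : ℝ) ≤ nR k * nR k / 8 := by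
  have hLL := LL_pos k
  have hn := nR_pos k
  have h1 : (((Bx k).filter (fun z => ¬ muz k z ≤ tau k)).card : ℝ) * tau k ≤ ∑ z ∈ Bx k, muz k z := by
    rw [← nsmul_eq_mul, ← sum_const]
    calc ∑ z ∈ (Bx k).filter (fun z => ¬ muz k z ≤ tau k), tau k
        ≤ ∑ z ∈ (Bx k).filter (fun z => ¬ muz k z ≤ tau k), muz k z := by
          apply sum_le_sum
          intro z hz
          have := (mem_filter.1 hz).2
          push Not at this
          exact this.le
      _ ≤ ∑ z ∈ Bx k, muz k z := by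
          apply sum_le_sum_of_subset_of_nonneg (filter_subset _ _)
          intro z _ _
          unfold muz
          apply sum_nonneg
          intro x _
          apply sum_nonneg
          intro v _
          have := nR_pos (cl x)
          have := nR_pos (cl v)
          split_ifs <;> positivity
  have h2 := h1.trans (muz_sum k)
  have h3 : 0 < tau k := by unfold tau; linarith
  rw [← le_div_iff₀ h3] at h2
  refine h2.trans (le_of_eq ?_)
  unfold tau
  field_simp
  norm_num

lemma near_arith {i a : ℕ} (hi : 1 ≤ i) (ha : 1 ≤ a) :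
    (2 * i + 1) * (2 * i + 1) * (4 * i * (2 * a) + 1) * (2 * (a * 2 ^ (2000 * i))) * (16 * 2 ^ i)
      ≤ (a * 2 ^ (2000 * i)) * (a * 2 ^ (2000 * i)) := by
  have h1 : i < 2 ^ i := Nat.lt_two_pow_self
  have h2 : 2 * i + 1 ≤ 3 * 2 ^ i := by omega
  have h3 : 4 * i * (2 * a) + 1 ≤ 9 * 2 ^ i * a := by
    have : 1 ≤ 2 ^ i * a := Nat.mul_pos (by positivity) ha
    have : i * a ≤ 2 ^ i * a := Nat.mul_le_mul_right _ h1.le
    nlinarith
  have h4 : 2592 * (2 ^ i * 2 ^ i * 2 ^ i * 2 ^ i) ≤ 2 ^ (2000 * i) := by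
    calc 2592 * (2 ^ i * 2 ^ i * 2 ^ i * 2 ^ i) ≤ 2 ^ 12 * (2 ^ i * 2 ^ i * 2 ^ i * 2 ^ i) := by
          apply Nat.mul_le_mul_right; norm_num
      _ = 2 ^ (12 + 4 * i) := by rw [pow_add]; ring
      _ ≤ 2 ^ (2000 * i) := Nat.pow_le_pow_right (by norm_num) (by omega)
  calc (2 * i + 1) * (2 * i + 1) * (4 * i * (2 * a) + 1) * (2 * (a * 2 ^ (2000 * i))) * (16 * 2 ^ i)
      ≤ (3 * 2 ^ i) * (3 * 2 ^ i) * (9 * 2 ^ i * a) * (2 * (a * 2 ^ (2000 * i))) * (16 * 2 ^ i) := by
        gcongr
    _ = (2592 * (2 ^ i * 2 ^ i * 2 ^ i * 2 ^ i)) * (a * (a * 2 ^ (2000 * i))) := by ring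
    _ ≤ 2 ^ (2000 * i) * (a * (a * 2 ^ (2000 * i))) := Nat.mul_le_mul_right _ h4
    _ = _ := by ring

noncomputable def nearS (N m i : ℕ) : Finset (ℤ × ℤ) :=
  (box N).filter (fun z => ∃ x ∈ box m, x ≠ z ∧ 1 ≤ om x z * (i : ℝ))

lemma nearS_card (N m i : ℕ) : (nearS N m i).card ≤ (2 * i + 1) * (2 * i + 1) * (4 * i * m + 1) * N := by
  unfold nearS
  convert near_count (N := N) (m := m) (i := i)

lemma mem_nearS {N m i : ℕ} {z : ℤ × ℤ} :
    z ∈ nearS N m i ↔ z ∈ box N ∧ ∃ x ∈ box m, x ≠ z ∧ 1 ≤ om x z * (i : ℝ) := by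
  unfold nearS
  rw [mem_filter]

lemma nearS_bound {j k : ℕ} (hj : j < k) :
    ((nearS (2 * nn k) (2 * nn j) (k - j)).card : ℝ) ≤ nR k * nR k / 16 * (2 ^ j / 2 ^ k) := by
  have h3 := nearS_card (2 * nn k) (2 * nn j) (k - j)
  generalize (nearS (2 * nn k) (2 * nn j) (k - j)).card = c at h3 ⊢
  obtain ⟨i, hi⟩ : ∃ i, k = j + i := ⟨k - j, by omega⟩
  have hi1 : 1 ≤ i := by omega
  have hki : k - j = i := by omega
  have hnk : nn k = nn j * 2 ^ (2000 * i) := by
    unfold nn
    rw [hi, ← pow_add]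
    congr 1; ring
  have h4 := near_arith hi1 (nn_pos j)
  rw [← hnk] at h4
  rw [hki] at h3
  have h5 : c * (16 * 2 ^ i) ≤ nn k * nn k := (Nat.mul_le_mul_right _ h3).trans h4
  have h6 : (c : ℝ) * (16 * 2 ^ i) ≤ nR k * nR k := by
    rw [← nn_cast]
    exact_mod_cast h5
  have h7 : (2 : ℝ) ^ j / 2 ^ k = 1 / 2 ^ i := by
    rw [hi, pow_add]
    have : (2 : ℝ) ^ j ≠ 0 := by positivity
    field_simp
  rw [h7]
  have h8 : (0 : ℝ) < 16 * 2 ^ i := by positivity
  rw [← le_div_iff₀ h8] at h6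
  refine h6.trans (le_of_eq ?_)
  field_simp

lemma bad1_count (k : ℕ) : (((Bx k).filter (fun z => ¬ good1 k z)).card : ℝ) ≤ nR k * nR k / 16 := by
  have h1 : (Bx k).filter (fun z => ¬ good1 k z) ⊆ (range k).biUnion (fun j => nearS (2 * nn k) (2 * nn j) (k - j)) := by
    intro z hz
    rw [mem_filter] at hz
    obtain ⟨hz, hb⟩ := hz
    unfold good1 at hb
    push Not at hb
    obtain ⟨j, hj, x, hx, hom⟩ := hb
    rw [mem_biUnion]
    refine ⟨j, mem_range.2 hj, ?_⟩
    rw [mem_nearS]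
    refine ⟨Bx_sub le_rfl hz, x, Bx_sub le_rfl hx, ?_, hom⟩
    rintro rfl
    have e1 := cl_of_mem hx
    have e2 := cl_of_mem hz
    omega
  have hpow : ∀ m : ℕ, ∑ j ∈ range m, (2 : ℝ) ^ j ≤ 2 ^ m := by
    intro m
    induction m with
    | zero => simp
    | succ m ih => rw [sum_range_succ, pow_succ]; linarith
  calc (((Bx k).filter (fun z => ¬ good1 k z)).card : ℝ)
      ≤ ∑ j ∈ range k, ((nearS (2 * nn k) (2 * nn j) (k - j)).card : ℝ) := by
        exact_mod_cast (card_le_card h1).trans card_biUnion_le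
    _ ≤ ∑ j ∈ range k, nR k * nR k / 16 * (2 ^ j / 2 ^ k) :=
        sum_le_sum (fun j hj => nearS_bound (mem_range.1 hj))
    _ = nR k * nR k / 16 * ((∑ j ∈ range k, 2 ^ j) / 2 ^ k) := by rw [sum_div, mul_sum]
    _ ≤ nR k * nR k / 16 * 1 := by
        apply mul_le_mul_of_nonneg_left
        · rw [div_le_one (by positivity)]
          exact hpow k
        · have := nR_pos k
          positivity
    _ = _ := by ring

lemma Gd_card (k : ℕ) : 3 / 4 * (nR k * nR k) ≤ ((Gd k).card : ℝ) := by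
  have h1 := bad1_count k
  have h2 := bad2_count k
  have h3 : Bx k ⊆ Gd k ∪ ((Bx k).filter (fun z => ¬ good1 k z) ∪ (Bx k).filter (fun z => ¬ muz k z ≤ tau k)) := by
    intro z hz
    simp only [Gd, mem_union, mem_filter, hz, true_and]
    tauto
  have h4 := (card_le_card h3).trans ((card_union_le _ _).trans (Nat.add_le_add_left (card_union_le _ _) _))
  rw [card_Bx] at h4
  have h5 : nR k * nR k ≤ ((Gd k).card : ℝ) + ((((Bx k).filter (fun z => ¬ good1 k z)).card : ℝ)
      + (((Bx k).filter (fun z => ¬ muz k z ≤ tau k)).card : ℝ)) := by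
    rw [← nn_cast]
    exact_mod_cast h4
  have := nR_pos k
  have h6 : 0 ≤ nR k * nR k := by positivity
  linarith

/-- points of one box on a line through `z` -/
lemma line_class {j k : ℕ} {x z : ℤ × ℤ} (hj : j ≤ k) (hg : good1 k z) (hxz : x ≠ z) :
    (((Bx j).filter (fun v => v ≠ z ∧ col x z v)).card : ℝ)
      ≤ if om x z * ((k - j : ℕ) : ℝ) < 1 then 4 * nR j * om x z + 1 else 0 := by
  set S := (Bx j).filter (fun v => v ≠ z ∧ col x z v) with hS
  have hom : ∀ v ∈ S, om v z = om x z := by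
    intro v hv
    rw [hS, mem_filter] at hv
    rw [om_comm v z, om_comm x z]
    exact (om_line hxz.symm hv.2.1.symm (col_12 hv.2.2)).symm
  rcases S.eq_empty_or_nonempty with h0 | ⟨v0, hv0⟩
  · rw [h0]
    have := om_nonneg x z
    have := nR_pos j
    split_ifs
    · simp; positivity
    · simp
  · have hv0' := hv0
    rw [hS, mem_filter] at hv0'
    have hcond : om x z * ((k - j : ℕ) : ℝ) < 1 := by
      rcases Nat.lt_or_eq_of_le hj with h | h
      · rw [← hom v0 hv0]
        exact hg j h v0 hv0'.1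
      · rw [h]; simp
    rw [if_pos hcond]
    by_cases hcard : S.card ≤ 1
    · have h1 : (S.card : ℝ) ≤ 1 := by exact_mod_cast hcard
      have := om_nonneg x z
      have := nR_pos j
      have : 0 ≤ 4 * nR j * om x z := by positivity
      linarith
    · push Not at hcard
      obtain ⟨v1, hv1, hne⟩ := exists_mem_ne hcard v0
      have hv1' := hv1
      rw [hS, mem_filter] at hv1'
      -- all points of S are on line v0 v1
      have hsub : S ⊆ (Bx j).filter (fun r => col v0 v1 r) := by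
        intro r hr
        rw [hS, mem_filter] at hr
        rw [mem_filter]
        refine ⟨hr.1, ?_⟩
        have a0 : col z v0 v1 := col_trans hxz.symm (col_12 hv0'.2.2) (col_12 hv1'.2.2)
        have a1 : col z v0 r := col_trans hxz.symm (col_12 hv0'.2.2) (col_12 hr.2.2)
        exact col_trans (fun h => hv0'.2.1 h) (col_12 a0) (col_12 a1)
      have h1 : (S.card : ℝ) ≤ (((Bx j).filter (fun r => col v0 v1 r)).card : ℝ) := by
        exact_mod_cast card_le_card hsub
      have h2 := line_Bx (k := j) (mem_UB.2 ⟨j, le_rfl, hv0'.1⟩) (mem_UB.2 ⟨j, le_rfl, hv1'.1⟩) hne.symm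
      have h3 : om v0 v1 = om x z := by
        rw [← hom v0 hv0]
        have a0 : col z v0 v1 := col_trans hxz.symm (col_12 hv0'.2.2) (col_12 hv1'.2.2)
        exact om_line hne.symm hv0'.2.1 (col_231 a0)
      rw [h3] at h2
      linarith

lemma sum_inv_nR (k : ℕ) : ∑ j ∈ range (k + 1), 1 / nR j ≤ 2 := by
  have h : ∀ j, 1 / nR j ≤ (1 / 2) ^ j := by
    intro j
    rw [one_div_pow]
    apply one_div_le_one_div_of_le (by positivity)
    unfold nR
    exact pow_le_pow_right₀ (by norm_num) (by omega)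
  calc _ ≤ ∑ j ∈ range (k + 1), (1 / 2 : ℝ) ^ j := sum_le_sum (fun j _ => h j)
    _ ≤ 2 := by
      rw [geom_sum_eq (by norm_num)]
      have : (0 : ℝ) ≤ (1 / 2) ^ (k + 1) := by positivity
      rw [div_le_iff_of_neg (by norm_num)]
      linarith

lemma line_mass {k : ℕ} {x z : ℤ × ℤ} (hg : good1 k z) (hxz : x ≠ z) :
    ∑ v ∈ UB k, (if v ≠ z ∧ col x z v then 1 / nR (cl v) else 0) ≤ 10 := by
  set ω := om x z with hω
  have hω0 : 0 < ω := om_pos hxz
  have hω1 : ω ≤ 1 := om_le_one _ _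
  rw [sum_UB]
  have h1 : ∀ j ∈ range (k + 1), ∑ v ∈ Bx j, (if v ≠ z ∧ col x z v then 1 / nR (cl v) else 0)
      ≤ (if ω * ((k - j : ℕ) : ℝ) < 1 then 4 * ω else 0) + 1 / nR j := by
    intro j hj
    rw [mem_range] at hj
    have hn := nR_pos j
    have e1 : ∑ v ∈ Bx j, (if v ≠ z ∧ col x z v then 1 / nR (cl v) else 0)
        = (((Bx j).filter (fun v => v ≠ z ∧ col x z v)).card : ℝ) * (1 / nR j) := by
      rw [← nsmul_eq_mul, ← sum_const, sum_filter]
      apply sum_congr rfl
      intro v hv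
      rw [cl_of_mem hv]
    rw [e1]
    have h2 := line_class (j := j) (by omega) hg hxz
    have h3 := mul_le_mul_of_nonneg_right h2 (by positivity : 0 ≤ 1 / nR j)
    refine h3.trans ?_
    split_ifs
    · apply le_of_eq
      field_simp
      rw [hω]
    · simp; exact hn.le
  have h2 : (((range (k + 1)).filter (fun j => ω * ((k - j : ℕ) : ℝ) < 1)).card : ℝ) ≤ 1 / ω + 1 := by
    have h3 : ((range (k + 1)).filter (fun j => ω * ((k - j : ℕ) : ℝ) < 1)).card ≤ (range (⌈1 / ω⌉₊)).card := by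
      apply Finset.card_le_card_of_injOn (fun j => k - j)
      · intro j hj
        simp only [coe_filter, mem_range, Set.mem_ofPred_eq] at hj
        simp only [coe_range, Set.mem_Iio]
        rw [Nat.lt_ceil, lt_div_iff₀ hω0]
        linarith [hj.2]
      · intro a ha b hb hab
        simp only [coe_filter, mem_range, Set.mem_ofPred_eq] at ha hb
        simp only at hab
        omega
    rw [card_range] at h3
    have h4 : (((range (k + 1)).filter (fun j => ω * ((k - j : ℕ) : ℝ) < 1)).card : ℝ) ≤ (⌈1 / ω⌉₊ : ℝ) := by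
      exact_mod_cast h3
    have h5 := Nat.ceil_lt_add_one (a := 1 / ω) (by positivity)
    linarith
  calc _ ≤ ∑ j ∈ range (k + 1), ((if ω * ((k - j : ℕ) : ℝ) < 1 then 4 * ω else 0) + 1 / nR j) := sum_le_sum h1
    _ = (((range (k + 1)).filter (fun j => ω * ((k - j : ℕ) : ℝ) < 1)).card : ℝ) * (4 * ω) + ∑ j ∈ range (k + 1), 1 / nR j := by
        rw [sum_add_distrib, ← sum_filter, sum_const, nsmul_eq_mul]
    _ ≤ (1 / ω + 1) * (4 * ω) + 2 := by
        apply add_le_add _ (sum_inv_nR k)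
        exact mul_le_mul_of_nonneg_right h2 (by positivity)
    _ ≤ 10 := by
        have : (1 / ω + 1) * (4 * ω) = 4 + 4 * ω := by field_simp
        rw [this]; linarith

end Pool.Agent.Helper64
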