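import Pool.Agent.Helper64.Res5
import Pool.Agent.Helper64.Res1

set_option autoImplicit false

namespace Pool.Agent.Helper64

open Finset Res
open scoped Classical

/-- the ground set -/
noncomputable def UU (k0 N : ℕ) : Finset (ℤ × ℤ) := (Finset.Icc k0 N).biUnion Gd

noncomputable def rho (p : ℤ × ℤ) : ℝ := 2 ^ (4 * cl p) / nR (cl p)

noncomputable def lam : ℝ := 1 / 2 ^ 14

noncomputable def ww (p : ℤ × ℤ) : ℝ := lam / 2 ^ (4 * cl p)

def win (k j : ℕ) : Prop := j ≤ k ∧ 1991 * k ≤ 2000 * j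
def win3 (k j : ℕ) : Prop := j ≤ k ∧ 1973 * k ≤ 2000 * j

lemma Gd_sub (k : ℕ) : Gd k ⊆ Bx k := filter_subset _ _

lemma mem_UU {k0 N : ℕ} {p : ℤ × ℤ} : p ∈ UU k0 N ↔ (k0 ≤ cl p ∧ cl p ≤ N) ∧ p ∈ Gd (cl p) := by
  unfold UU
  rw [mem_biUnion]
  constructor
  · rintro ⟨k, hk, hp⟩
    have := cl_of_mem (Gd_sub k hp)
    rw [this]
    rw [Finset.mem_Icc] at hk
    exact ⟨hk, hp⟩
  · rintro ⟨h1, h2⟩
    exact ⟨cl p, Finset.mem_Icc.2 h1, h2⟩

/-- class `k` of the ground set -/
noncomputable def Uk (k0 N k : ℕ) : Finset (ℤ × ℤ) := (UU k0 N).filter (fun p => cl p = k)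

lemma Uk_eq {k0 N k : ℕ} (h : k0 ≤ k) (h' : k ≤ N) : Uk k0 N k = Gd k := by
  ext p
  unfold Uk
  rw [mem_filter, mem_UU]
  constructor
  · rintro ⟨⟨_, h2⟩, h3⟩
    rw [h3] at h2; exact h2
  · intro hp
    have := cl_of_mem (Gd_sub k hp)
    rw [this]
    exact ⟨⟨⟨h, h'⟩, hp⟩, rfl⟩

lemma mem_Uk {k0 N k : ℕ} {p : ℤ × ℤ} : p ∈ Uk k0 N k ↔ p ∈ UU k0 N ∧ cl p = k := by
  unfold Uk; rw [mem_filter]

lemma Uk_sub {k0 N k : ℕ} : Uk k0 N k ⊆ UU k0 N := filter_subset _ _

lemma Uk_Bx {k0 N k : ℕ} : Uk k0 N k ⊆ Bx k := by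
  intro p hp
  rw [mem_Uk, mem_UU] at hp
  rw [← hp.2]
  exact Gd_sub _ hp.1.2

lemma UU_UB {k0 N k : ℕ} {p : ℤ × ℤ} (hp : p ∈ UU k0 N) (h : cl p ≤ k) : p ∈ UB k := by
  rw [mem_UU] at hp
  exact mem_UB.2 ⟨cl p, h, Gd_sub _ hp.2⟩

lemma UU_good {k0 N : ℕ} {p : ℤ × ℤ} (hp : p ∈ UU k0 N) : good1 (cl p) p ∧ muz (cl p) p ≤ tau (cl p) := by
  rw [mem_UU] at hp
  exact (mem_filter.1 hp.2).2

lemma UU_Bx {k0 N : ℕ} {p : ℤ × ℤ} (hp : p ∈ UU k0 N) : p ∈ Bx (cl p) := by
  rw [mem_UU] at hp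
  exact Gd_sub _ hp.2

lemma lam_pos : 0 < lam := by unfold lam; positivity

lemma rho_pos (p : ℤ × ℤ) : 0 < rho p := by
  unfold rho
  have := nR_pos (cl p)
  positivity

lemma ww_pos (p : ℤ × ℤ) : 0 < ww p := by
  unfold ww
  have := lam_pos
  positivity

lemma rho_le_one (p : ℤ × ℤ) : rho p ≤ 1 := by
  unfold rho
  rw [div_le_one (nR_pos _)]
  unfold nR
  exact pow_le_pow_right₀ (by norm_num) (by omega)

lemma rho_ww (p : ℤ × ℤ) : rho p * ww p = lam / nR (cl p) := by
  unfold rho ww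
  have := nR_pos (cl p)
  field_simp

lemma rho_win {k : ℕ} {p : ℤ × ℤ} (h : win k (cl p)) : rho p ≤ 2 ^ (13 * k) / nR k := by
  unfold rho nR
  rw [div_le_div_iff₀ (by positivity) (by positivity), ← pow_add, ← pow_add]
  apply pow_le_pow_right₀ (by norm_num)
  obtain ⟨h1, h2⟩ := h
  omega

lemma rho_win3 {k : ℕ} {p : ℤ × ℤ} (h : win3 k (cl p)) : rho p ≤ 2 ^ (31 * k) / nR k := by
  unfold rho nR
  rw [div_le_div_iff₀ (by positivity) (by positivity), ← pow_add, ← pow_add]
  apply pow_le_pow_right₀ (by norm_num)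
  obtain ⟨h1, h2⟩ := h
  omega

lemma rho_Uk {k0 N k : ℕ} {p : ℤ × ℤ} (h : p ∈ Uk k0 N k) : rho p = 2 ^ (4 * k) / nR k := by
  unfold rho
  rw [(mem_Uk.1 h).2]

noncomputable abbrev EU (k0 N : ℕ) (f : Finset (ℤ × ℤ) → ℝ) : ℝ := EE (UU k0 N) rho f

lemma EU_mono {k0 N : ℕ} {f g : Finset (ℤ × ℤ) → ℝ} (h : ∀ V ⊆ UU k0 N, f V ≤ g V) : EU k0 N f ≤ EU k0 N g :=
  EE_mono (fun x _ => (rho_pos x).le) (fun x _ => rho_le_one x) h

/-- expected size of class `k` -/
noncomputable def muk (k0 N k : ℕ) : ℝ := ∑ x ∈ Uk k0 N k, rho x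

lemma muk_eq {k0 N k : ℕ} : muk k0 N k = ((Uk k0 N k).card : ℝ) * (2 ^ (4 * k) / nR k) := by
  unfold muk
  rw [← nsmul_eq_mul, ← sum_const]
  exact sum_congr rfl (fun x hx => rho_Uk hx)

lemma muk_ge {k0 N k : ℕ} (h : k0 ≤ k) (h' : k ≤ N) : 3 / 4 * (2 ^ (4 * k) * nR k) ≤ muk k0 N k := by
  rw [muk_eq, Uk_eq h h']
  have h1 := Gd_card k
  have h2 := nR_pos k
  have h3 : (0 : ℝ) ≤ 2 ^ (4 * k) / nR k := by positivity
  have h4 := mul_le_mul_of_nonneg_right h1 h3
  refine le_trans (le_of_eq ?_) h4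
  field_simp

lemma muk_le {k0 N k : ℕ} : muk k0 N k ≤ 2 ^ (4 * k) * nR k := by
  rw [muk_eq]
  have h1 : (((Uk k0 N k).card : ℕ) : ℝ) ≤ nR k * nR k := by
    have := card_le_card (Uk_Bx (k0 := k0) (N := N) (k := k))
    rw [card_Bx] at this
    rw [← nn_cast]
    exact_mod_cast this
  have h2 := nR_pos k
  have h3 : (0 : ℝ) ≤ 2 ^ (4 * k) / nR k := by positivity
  refine (mul_le_mul_of_nonneg_right h1 h3).trans (le_of_eq ?_)
  field_simp

noncomputable def vk (k : ℕ) (V : Finset (ℤ × ℤ)) : Finset (ℤ × ℤ) := V.filter (fun p => cl p = k)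

lemma vk_card {k0 N k : ℕ} {V : Finset (ℤ × ℤ)} (hV : V ⊆ UU k0 N) :
    ((vk k V).card : ℝ) = ∑ x ∈ Uk k0 N k, ind {x} V := by
  unfold vk ind
  simp only [singleton_subset_iff]
  rw [← sum_filter, sum_const, nsmul_eq_mul, mul_one]
  congr 2
  ext x
  simp only [mem_filter, mem_Uk]
  constructor
  · rintro ⟨h1, h2⟩; exact ⟨⟨hV h1, h2⟩, h1⟩
  · rintro ⟨⟨_, h1⟩, h2⟩; exact ⟨h2, h1⟩

/-- (A) size -/
lemma E_size {k0 N k : ℕ} :
    EU k0 N (fun V => (((vk k V).card : ℝ) - muk k0 N k) ^ 2) ≤ muk k0 N k := by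
  have h := EE_count_sq (U := UU k0 N) (ρ := rho) (A := Uk k0 N k) Uk_sub
  refine le_trans (le_of_eq ?_) h
  apply EE_congr
  intro V hV
  rw [vk_card hV]
  rfl

/-- product of densities -/
lemma E_ind {k0 N : ℕ} {A : Finset (ℤ × ℤ)} (hA : A ⊆ UU k0 N) : EU k0 N (ind A) = ∏ x ∈ A, rho x := EE_ind hA

lemma ind3 {x v z : ℤ × ℤ} (h1 : x ≠ v) (h2 : x ≠ z) (h3 : v ≠ z) :
    ∏ y ∈ ({x, v, z} : Finset (ℤ × ℤ)), rho y = rho x * (rho v * rho z) := by
  rw [prod_insert (by simp [h1, h2]), prod_pair h3]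

/-- configurations of type 1: a collinear triple with a point far below -/
noncomputable def I1 (k0 N k : ℕ) : Finset ((ℤ × ℤ) × (ℤ × ℤ) × (ℤ × ℤ)) :=
  ((UU k0 N) ×ˢ (UU k0 N) ×ˢ (Uk k0 N k)).filter
    (fun t => t.1 ≠ t.2.1 ∧ t.1 ≠ t.2.2 ∧ t.2.1 ≠ t.2.2 ∧ col t.1 t.2.1 t.2.2 ∧ cl t.1 ≤ k ∧ cl t.2.1 ≤ k ∧ ¬ win k (cl t.1))

noncomputable def A3 (t : (ℤ × ℤ) × (ℤ × ℤ) × (ℤ × ℤ)) : Finset (ℤ × ℤ) := {t.1, t.2.1, t.2.2}

lemma sum_UUle {k0 N k : ℕ} {f : ℤ × ℤ → ℝ} (hf : ∀ p, 0 ≤ f p) :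
    ∑ p ∈ (UU k0 N).filter (fun p => cl p ≤ k), f p ≤ ∑ p ∈ UB k, f p := by
  apply sum_le_sum_of_subset_of_nonneg
  · intro p hp
    rw [mem_filter] at hp
    exact UU_UB hp.1 hp.2
  · intro p _ _; exact hf p

lemma nR_out {j k : ℕ} (h : j ≤ k) (h' : ¬ win k j) : nR j ≤ nR k / 2 ^ (9 * k) := by
  unfold win at h'
  rw [le_div_iff₀ (by positivity)]
  unfold nR
  rw [← pow_add]
  apply pow_le_pow_right₀ (by norm_num)
  by_contra hcon
  apply h'
  refine ⟨h, ?_⟩
  omega

lemma E_bad1 {k0 N k : ℕ} :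
    EU k0 N (fun V => ∑ t ∈ I1 k0 N k, ind (A3 t) V) ≤ 64 * LL k * (k + 1) ^ 2 * (2 ^ (3 * k) * nR k) := by
  rw [EU, EE_sum]
  have hn := nR_pos k
  have hLL := LL_pos k
  have h1 : ∀ t ∈ I1 k0 N k, EE (UU k0 N) rho (ind (A3 t)) = rho t.1 * (rho t.2.1 * (2 ^ (4 * k) / nR k)) := by
    intro t ht
    unfold I1 at ht
    rw [mem_filter, mem_product, mem_product] at ht
    obtain ⟨⟨a1, a2, a3⟩, b1, b2, b3, _⟩ := ht
    rw [EE_ind]
    · unfold A3
      rw [ind3 b1 b2 b3, rho_Uk a3]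
    · intro y hy
      simp only [A3, mem_insert, mem_singleton] at hy
      rcases hy with rfl | rfl | rfl
      · exact a1
      · exact a2
      · exact Uk_sub a3
  rw [sum_congr rfl h1]
  unfold I1
  rw [sum_filter, sum_product]
  simp_rw [sum_product]
  -- bound the inner sums
  set c : ℝ := 2 ^ (4 * k) / nR k with hc
  have hc0 : 0 ≤ c := by positivity
  have h2 : ∀ x ∈ UU k0 N, ∀ v ∈ UU k0 N,
      ∑ z ∈ Uk k0 N k, (if x ≠ v ∧ x ≠ z ∧ v ≠ z ∧ col x v z ∧ cl x ≤ k ∧ cl v ≤ k ∧ ¬ win k (cl x) then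
        rho x * (rho v * c) else 0)
      ≤ if (cl x ≤ k ∧ ¬ win k (cl x)) ∧ cl v ≤ k then 4 * 2 ^ (12 * k) * (om x v / (nR (cl x) * nR (cl v))) else 0 := by
    intro x hx v hv
    have hpx := nR_pos (cl x)
    have hpv := nR_pos (cl v)
    by_cases hcond : x ≠ v ∧ (cl x ≤ k ∧ ¬ win k (cl x)) ∧ cl v ≤ k
    · obtain ⟨hxv, hcx, hcv⟩ := hcond
      rw [if_pos ⟨hcx, hcv⟩]
      calc _ ≤ ∑ z ∈ Bx k, (if col x v z then rho x * (rho v * c) else 0) := by
            refine le_trans ?_ (sum_le_sum_of_subset_of_nonneg (Uk_Bx (k0 := k0) (N := N)) ?_)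
            · apply sum_le_sum
              intro z _
              have : 0 ≤ rho x * (rho v * c) := by
                have := rho_pos x
                have := rho_pos v
                positivity
              split_ifs with h3 h4 h4
              · exact le_rfl
              · exact absurd h3.2.2.2.1 h4
              · exact this
              · exact le_rfl
            · intro z _ _
              have := rho_pos x
              have := rho_pos v
              split_ifs <;> positivity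
        _ = (((Bx k).filter (fun z => col x v z)).card : ℝ) * (rho x * (rho v * c)) := by
            rw [← sum_filter, sum_const, nsmul_eq_mul]
        _ ≤ (4 * nR k * om x v) * (rho x * (rho v * c)) := by
            apply mul_le_mul_of_nonneg_right (line_Bx (UU_UB hx hcx.1) (UU_UB hv hcv) hxv)
            have := rho_pos x
            have := rho_pos v
            positivity
        _ = 4 * (2 ^ (4 * k) * 2 ^ (4 * cl x) * 2 ^ (4 * cl v)) * (om x v / (nR (cl x) * nR (cl v))) := by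
            unfold rho
            rw [hc]
            field_simp
        _ ≤ 4 * 2 ^ (12 * k) * (om x v / (nR (cl x) * nR (cl v))) := by
            have hom := om_nonneg x v
            apply mul_le_mul_of_nonneg_right _ (by positivity)
            apply mul_le_mul_of_nonneg_left _ (by norm_num)
            rw [← pow_add, ← pow_add]
            apply pow_le_pow_right₀ (by norm_num)
            omega
    · have : ∑ z ∈ Uk k0 N k, (if x ≠ v ∧ x ≠ z ∧ v ≠ z ∧ col x v z ∧ cl x ≤ k ∧ cl v ≤ k ∧ ¬ win k (cl x) then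
        rho x * (rho v * c) else 0) = 0 := by
        apply sum_eq_zero
        intro z _
        rw [if_neg]
        tauto
      rw [this]
      have hom := om_nonneg x v
      split_ifs
      · positivity
      · exact le_rfl
  calc _ ≤ ∑ x ∈ UU k0 N, ∑ v ∈ UU k0 N, (if (cl x ≤ k ∧ ¬ win k (cl x)) ∧ cl v ≤ k then 4 * 2 ^ (12 * k) * (om x v / (nR (cl x) * nR (cl v))) else 0) :=
        sum_le_sum (fun x hx => sum_le_sum (fun v hv => h2 x hx v hv))
    _ ≤ ∑ x ∈ UB k, ∑ v ∈ UB k, (if ¬ win k (cl x) then 4 * 2 ^ (12 * k) * (om x v / (nR (cl x) * nR (cl v))) else 0) := by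
        have e1 : ∀ x, ∑ v ∈ UU k0 N, (if (cl x ≤ k ∧ ¬ win k (cl x)) ∧ cl v ≤ k then 4 * 2 ^ (12 * k) * (om x v / (nR (cl x) * nR (cl v))) else 0)
            ≤ if cl x ≤ k then ∑ v ∈ UB k, (if ¬ win k (cl x) then 4 * 2 ^ (12 * k) * (om x v / (nR (cl x) * nR (cl v))) else 0) else 0 := by
          intro x
          by_cases hx : cl x ≤ k
          · rw [if_pos hx]
            refine le_trans (le_of_eq ?_) (sum_UUle (k0 := k0) (N := N) (k := k) (f := fun v => if ¬ win k (cl x) then 4 * 2 ^ (12 * k) * (om x v / (nR (cl x) * nR (cl v))) else 0) ?_)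
            · rw [sum_filter]
              apply sum_congr rfl
              intro v _
              by_cases hv : cl v ≤ k <;> by_cases hw : win k (cl x) <;> simp [hx, hv, hw]
            · intro p
              have hom := om_nonneg x p
              have := nR_pos (cl x)
              have := nR_pos (cl p)
              split_ifs <;> positivity
          · rw [if_neg hx]
            apply le_of_eq
            apply sum_eq_zero
            intro v _
            rw [if_neg]; tauto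
        refine (sum_le_sum (fun x _ => e1 x)).trans ?_
        rw [← sum_filter]
        apply sum_UUle
        intro x
        apply sum_nonneg
        intro v _
        have hom := om_nonneg x v
        have := nR_pos (cl x)
        have := nR_pos (cl v)
        split_ifs <;> positivity
    _ = ∑ j ∈ range (k + 1), ∑ l ∈ range (k + 1), if ¬ win k j then 4 * 2 ^ (12 * k) * ∑ x ∈ Bx j, ∑ v ∈ Bx l, om x v / (nR j * nR l) else 0 := by
        rw [sum_UB]
        apply sum_congr rfl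
        intro j _
        have : ∀ x ∈ Bx j, ∑ v ∈ UB k, (if ¬ win k (cl x) then 4 * 2 ^ (12 * k) * (om x v / (nR (cl x) * nR (cl v))) else 0)
            = ∑ l ∈ range (k + 1), ∑ v ∈ Bx l, (if ¬ win k j then 4 * 2 ^ (12 * k) * (om x v / (nR j * nR l)) else 0) := by
          intro x hx
          rw [sum_UB]
          apply sum_congr rfl
          intro l _
          apply sum_congr rfl
          intro v hv
          rw [cl_of_mem hx, cl_of_mem hv]
        rw [sum_congr rfl this, sum_comm]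
        apply sum_congr rfl
        intro l _
        by_cases hw : win k j
        · simp [hw]
        · simp only [hw, not_false_eq_true, if_true]
          simp_rw [mul_sum]
    _ ≤ ∑ j ∈ range (k + 1), ∑ l ∈ range (k + 1), 64 * LL k * (2 ^ (3 * k) * nR k) := by
        apply sum_le_sum
        intro j hj
        apply sum_le_sum
        intro l hl
        rw [mem_range] at hj hl
        by_cases hw : win k j
        · rw [if_neg (not_not.2 hw)]
          positivity
        · rw [if_pos hw]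
          have h3 := pair_sum (k := k) (by omega : j ≤ k) (by omega : l ≤ k)
          have h4 : min (nR j) (nR l) ≤ nR k / 2 ^ (9 * k) := (min_le_left _ _).trans (nR_out (by omega) hw)
          calc 4 * 2 ^ (12 * k) * ∑ x ∈ Bx j, ∑ v ∈ Bx l, om x v / (nR j * nR l)
              ≤ 4 * 2 ^ (12 * k) * (16 * LL k * (nR k / 2 ^ (9 * k))) := by
                apply mul_le_mul_of_nonneg_left _ (by positivity)
                refine h3.trans ?_
                apply mul_le_mul_of_nonneg_left h4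
                linarith
            _ = 64 * LL k * (2 ^ (3 * k) * nR k) := by
                have : (2 : ℝ) ^ (12 * k) = 2 ^ (9 * k) * 2 ^ (3 * k) := by rw [← pow_add]; congr 1; ring
                rw [this]
                field_simp
                ring
    _ = _ := by
        simp only [sum_const, card_range, nsmul_eq_mul]
        push_cast
        ring

end Pool.Agent.Helper64
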