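import Pool.Agent.Helper64.Res6

set_option autoImplicit false

namespace Pool.Agent.Helper64

open Finset Res
open scoped Classical

abbrev Pt := ℤ × ℤ

noncomputable def WW (k0 N k : ℕ) : Finset Pt := (UU k0 N).filter (fun p => win3 k (cl p))

lemma WW_UB {k0 N k : ℕ} : WW k0 N k ⊆ UB k := by
  intro p hp
  unfold WW at hp
  rw [mem_filter] at hp
  exact UU_UB hp.1 hp.2.1

lemma WW_sub {k0 N k : ℕ} : WW k0 N k ⊆ UU k0 N := filter_subset _ _

noncomputable def lw (k0 N k : ℕ) (a b : Pt) : Finset Pt := (WW k0 N k).filter (fun e => col a b e)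

lemma lw_card {k0 N k : ℕ} {a b : Pt} (ha : a ∈ WW k0 N k) (hb : b ∈ WW k0 N k) (hab : a ≠ b) :
    ((lw k0 N k a b).card : ℝ) ≤ 4 * nR k * om a b := by
  have h := line_UB (WW_UB ha) (WW_UB hb) hab
  have h2 : (lw k0 N k a b).card ≤ ((UB k).filter (fun r => col a b r)).card := by
    apply card_le_card
    exact filter_subset_filter _ WW_UB
  have h3 : ((lw k0 N k a b).card : ℝ) ≤ (((UB k).filter (fun r => col a b r)).card : ℝ) := by exact_mod_cast h2
  linarith

noncomputable def CG (k : ℕ) : ℝ := (81 + 32 * LL k) * 2 ^ (1600 * k)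

lemma codeg_UB {k : ℕ} {P Q : Pt} (hP : P ∈ UB k) (hQ : Q ∈ UB k) :
    ∑ C ∈ UB k, (if ¬ col P Q C then om P C * om Q C else 0) ≤ CG k := by
  have h := codeg (m := 2 ^ (400 * k)) (UB_sub k hP) (UB_sub k hQ) Nat.one_le_two_pow
  have h1 : ∑ C ∈ UB k, (if ¬ col P Q C then om P C * om Q C else 0)
      ≤ ∑ C ∈ (box (2 * nn k)).filter (fun C => ¬ col P Q C), om P C * om Q C := by
    rw [sum_filter]
    apply sum_le_sum_of_subset_of_nonneg (UB_sub k)
    intro C _ _
    have := om_nonneg P C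
    have := om_nonneg Q C
    split_ifs <;> positivity
  refine h1.trans (h.trans ?_)
  rw [← LL_eq]
  unfold CG
  push_cast
  rw [nn_cast]
  have hm : (1 : ℝ) ≤ 2 ^ (400 * k) := one_le_pow₀ (by norm_num)
  have e1 : nR k = 2 ^ (400 * k) * 2 ^ (1600 * k) := by
    unfold nR; rw [← pow_add]; congr 1; ring
  have e2 : ((2 : ℝ) ^ (400 * k)) ^ 4 = 2 ^ (1600 * k) := by
    rw [← pow_mul]; congr 1; ring
  have e3 : (2 * (2 : ℝ) ^ (400 * k) + 1) ^ 4 ≤ 81 * 2 ^ (1600 * k) := by
    rw [← e2]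
    calc (2 * (2 : ℝ) ^ (400 * k) + 1) ^ 4 ≤ (3 * (2 : ℝ) ^ (400 * k)) ^ 4 := by
          apply pow_le_pow_left₀ (by positivity)
          linarith
      _ = _ := by ring
  have e4 : 16 * (2 * nR k * LL k) / 2 ^ (400 * k) = 32 * LL k * 2 ^ (1600 * k) := by
    rw [e1]
    field_simp
    ring
  rw [e4]
  linarith

lemma card_UB (k : ℕ) : ((UB k).card : ℝ) ≤ 4 * (nR k * nR k) := by
  have h := card_le_card (UB_sub k)
  rw [card_box] at h
  have : ((UB k).card : ℝ) ≤ ((2 * nn k * (2 * nn k) : ℕ) : ℝ) := by exact_mod_cast h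
  push_cast at this
  rw [nn_cast] at this
  linarith

lemma CG_pos (k : ℕ) : 0 ≤ CG k := by
  unfold CG
  have := LL_pos k
  positivity

lemma om3_sum (k : ℕ) :
    ∑ a ∈ UB k, ∑ b ∈ UB k, ∑ c ∈ UB k, (if ¬ col a b c then om a b * om b c * om a c else 0)
      ≤ 64 * nR k ^ 3 * LL k * CG k := by
  have hn := nR_pos k
  have hLL := LL_pos k
  have hCG := CG_pos k
  have e : ∀ a ∈ UB k, ∑ b ∈ UB k, ∑ c ∈ UB k, (if ¬ col a b c then om a b * om b c * om a c else 0)
      ≤ CG k * (16 * nR k * LL k) := by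
    intro a ha
    rw [sum_comm]
    calc _ = ∑ c ∈ UB k, om a c * ∑ b ∈ UB k, (if ¬ col a c b then om a b * om c b else 0) := by
          apply sum_congr rfl
          intro c _
          rw [mul_sum]
          apply sum_congr rfl
          intro b _
          have : col a b c ↔ col a c b := ⟨col_23, col_23⟩
          rw [om_comm b c]
          simp only [this]
          split_ifs <;> ring
      _ ≤ ∑ c ∈ UB k, om a c * CG k := by
          apply sum_le_sum
          intro c hc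
          exact mul_le_mul_of_nonneg_left (codeg_UB ha hc) (om_nonneg _ _)
      _ = CG k * ∑ c ∈ UB k, om a c := by rw [← sum_mul, mul_comm]
      _ ≤ _ := mul_le_mul_of_nonneg_left (sum_om_UB ha) hCG
  calc _ ≤ ∑ a ∈ UB k, CG k * (16 * nR k * LL k) := sum_le_sum e
    _ = ((UB k).card : ℝ) * (CG k * (16 * nR k * LL k)) := by rw [sum_const, nsmul_eq_mul]
    _ ≤ (4 * (nR k * nR k)) * (CG k * (16 * nR k * LL k)) :=
        mul_le_mul_of_nonneg_right (card_UB k) (by positivity)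
    _ = _ := by ring

lemma om4_sum (k : ℕ) :
    ∑ a ∈ UB k, ∑ b ∈ UB k, ∑ c ∈ UB k, ∑ d ∈ UB k, (if ¬ col a b c ∧ ¬ col c d a then om a b * om b c * (om c d * om d a) else 0)
      ≤ 1024 * nR k ^ 4 * LL k ^ 2 * CG k := by
  have hn := nR_pos k
  have hLL := LL_pos k
  have hCG := CG_pos k
  have e1 : ∀ a ∈ UB k, ∀ b ∈ UB k, ∀ c ∈ UB k,
      ∑ d ∈ UB k, (if ¬ col a b c ∧ ¬ col c d a then om a b * om b c * (om c d * om d a) else 0)
      ≤ om a b * om b c * CG k := by
    intro a ha b _ c hc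
    have hab := om_nonneg a b
    have hbc := om_nonneg b c
    calc _ ≤ ∑ d ∈ UB k, om a b * om b c * (if ¬ col a c d then om a d * om c d else 0) := by
          apply sum_le_sum
          intro d _
          have h1 : col c d a ↔ col a c d := ⟨col_312, col_231⟩
          rw [om_comm d a]
          simp only [h1]
          have h2 := om_nonneg a d
          have h3 := om_nonneg c d
          by_cases h5 : col a c d
          · simp [h5]
          · by_cases h6 : col a b c
            · simp only [h6, h5, not_true_eq_false, false_and, if_false, not_false_eq_true, if_true]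
              positivity
            · simp only [h6, h5, not_false_eq_true, and_self, if_true]
              apply le_of_eq; ring
      _ = om a b * om b c * ∑ d ∈ UB k, (if ¬ col a c d then om a d * om c d else 0) := by rw [mul_sum]
      _ ≤ _ := mul_le_mul_of_nonneg_left (codeg_UB ha hc) (by positivity)
  calc _ ≤ ∑ a ∈ UB k, ∑ b ∈ UB k, ∑ c ∈ UB k, om a b * om b c * CG k :=
        sum_le_sum (fun a ha => sum_le_sum (fun b hb => sum_le_sum (fun c hc => e1 a ha b hb c hc)))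
    _ ≤ ∑ a ∈ UB k, ∑ b ∈ UB k, om a b * (16 * nR k * LL k) * CG k := by
        apply sum_le_sum
        intro a _
        apply sum_le_sum
        intro b hb
        rw [← sum_mul, ← mul_sum]
        apply mul_le_mul_of_nonneg_right _ hCG
        exact mul_le_mul_of_nonneg_left (sum_om_UB hb) (om_nonneg _ _)
    _ ≤ ∑ a ∈ UB k, (16 * nR k * LL k) * (16 * nR k * LL k) * CG k := by
        apply sum_le_sum
        intro a ha
        rw [← sum_mul, ← sum_mul]
        apply mul_le_mul_of_nonneg_right _ hCG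
        exact mul_le_mul_of_nonneg_right (sum_om_UB ha) (by positivity)
    _ = ((UB k).card : ℝ) * ((16 * nR k * LL k) * (16 * nR k * LL k) * CG k) := by rw [sum_const, nsmul_eq_mul]
    _ ≤ (4 * (nR k * nR k)) * ((16 * nR k * LL k) * (16 * nR k * LL k) * CG k) :=
        mul_le_mul_of_nonneg_right (card_UB k) (by positivity)
    _ = _ := by ring

/-- six point configurations -/
noncomputable def A6 (t : (Pt × Pt × Pt) × (Pt × Pt × Pt)) : Finset Pt :=
  {t.1.1, t.1.2.1, t.1.2.2, t.2.1, t.2.2.1, t.2.2.2}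

noncomputable def I2 (k0 N k : ℕ) : Finset ((Pt × Pt × Pt) × (Pt × Pt × Pt)) :=
  (((WW k0 N k) ×ˢ (WW k0 N k) ×ˢ (WW k0 N k)) ×ˢ ((WW k0 N k) ×ˢ (WW k0 N k) ×ˢ (WW k0 N k))).filter
    (fun t => ¬ col t.1.1 t.1.2.1 t.1.2.2 ∧ (col t.1.1 t.1.2.1 t.2.1 ∧ col t.1.2.1 t.1.2.2 t.2.2.1
      ∧ col t.1.1 t.1.2.2 t.2.2.2) ∧ (A6 t).card = 6)

lemma I2_card {k0 N k : ℕ} : ((I2 k0 N k).card : ℝ) ≤ 4096 * nR k ^ 6 * LL k * CG k := by
  have hn := nR_pos k
  set W := WW k0 N k with hW
  have h1 : ((I2 k0 N k).card : ℝ) ≤ ∑ τ ∈ W ×ˢ W ×ˢ W, (if ¬ col τ.1 τ.2.1 τ.2.2 then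
      ((lw k0 N k τ.1 τ.2.1).card : ℝ) * (((lw k0 N k τ.2.1 τ.2.2).card : ℝ) * ((lw k0 N k τ.1 τ.2.2).card : ℝ)) else 0) := by
    have : ((I2 k0 N k).card : ℝ) = ∑ t ∈ I2 k0 N k, (1 : ℝ) := by simp
    rw [this]
    unfold I2
    rw [sum_filter, sum_product]
    apply sum_le_sum
    intro τ _
    by_cases hc : col τ.1 τ.2.1 τ.2.2
    · rw [if_neg (not_not.2 hc)]
      apply le_of_eq
      apply sum_eq_zero
      intro σ _
      rw [if_neg]
      rintro ⟨h, _⟩
      exact h hc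
    · rw [if_pos hc]
      calc _ ≤ ∑ σ ∈ W ×ˢ W ×ˢ W, (if (col τ.1 τ.2.1 σ.1 ∧ col τ.2.1 τ.2.2 σ.2.1 ∧ col τ.1 τ.2.2 σ.2.2) then (1 : ℝ) else 0) := by
            apply sum_le_sum
            intro σ _
            split_ifs with h2 h3 h3
            · exact le_rfl
            · exact absurd h2.2.1 h3
            · norm_num
            · exact le_rfl
        _ = (((lw k0 N k τ.1 τ.2.1) ×ˢ (lw k0 N k τ.2.1 τ.2.2) ×ˢ (lw k0 N k τ.1 τ.2.2)).card : ℝ) := by
            rw [← sum_filter, sum_const, nsmul_eq_mul, mul_one]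
            congr 2
            ext σ
            simp only [lw, mem_filter, mem_product, ← hW]
            tauto
        _ = _ := by
            rw [card_product, card_product]; push_cast; ring
  refine h1.trans ?_
  rw [sum_product]
  simp_rw [sum_product]
  calc _ ≤ ∑ a ∈ W, ∑ b ∈ W, ∑ c ∈ W, (4 * nR k) ^ 3 * (if ¬ col a b c then om a b * om b c * om a c else 0) := by
        apply sum_le_sum
        intro a ha
        apply sum_le_sum
        intro b hb
        apply sum_le_sum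
        intro c hc
        by_cases hcol : col a b c
        · rw [if_neg (not_not.2 hcol), if_neg (not_not.2 hcol), mul_zero]
        · rw [if_pos hcol, if_pos hcol]
          have hab : a ≠ b := by rintro rfl; exact hcol (col_self _ _)
          have hbc : b ≠ c := by rintro rfl; exact hcol (col_self23 _ _)
          have hac : a ≠ c := by rintro rfl; exact hcol (col_self13 _ _)
          have l1 := lw_card ha hb hab
          have l2 := lw_card hb hc hbc
          have l3 := lw_card ha hc hac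
          have o1 := om_nonneg a b
          have o2 := om_nonneg b c
          have o3 := om_nonneg a c
          calc _ ≤ (4 * nR k * om a b) * ((4 * nR k * om b c) * (4 * nR k * om a c)) := by
                gcongr
            _ = _ := by ring
    _ ≤ ∑ a ∈ UB k, ∑ b ∈ UB k, ∑ c ∈ UB k, (4 * nR k) ^ 3 * (if ¬ col a b c then om a b * om b c * om a c else 0) := by
        have hpos : ∀ a b c : Pt, 0 ≤ (4 * nR k) ^ 3 * (if ¬ col a b c then om a b * om b c * om a c else 0) := by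
          intro a b c
          have o1 := om_nonneg a b
          have o2 := om_nonneg b c
          have o3 := om_nonneg a c
          split_ifs <;> positivity
        refine (sum_le_sum (fun a _ => sum_le_sum (fun b _ => sum_le_sum_of_subset_of_nonneg WW_UB (fun c _ _ => hpos a b c)))).trans ?_
        refine (sum_le_sum (fun a _ => sum_le_sum_of_subset_of_nonneg WW_UB (fun b _ _ => sum_nonneg (fun c _ => hpos a b c)))).trans ?_
        exact sum_le_sum_of_subset_of_nonneg WW_UB (fun a _ _ => sum_nonneg (fun b _ => sum_nonneg (fun c _ => hpos a b c)))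
    _ = (4 * nR k) ^ 3 * ∑ a ∈ UB k, ∑ b ∈ UB k, ∑ c ∈ UB k, (if ¬ col a b c then om a b * om b c * om a c else 0) := by
        simp_rw [mul_sum]
    _ ≤ (4 * nR k) ^ 3 * (64 * nR k ^ 3 * LL k * CG k) := mul_le_mul_of_nonneg_left (om3_sum k) (by positivity)
    _ = _ := by ring

lemma prod_le_rs {k0 N k r : ℕ} {A : Finset Pt} (hA : A ⊆ WW k0 N k) (hr : A.card = r) :
    ∏ x ∈ A, rho x ≤ (2 ^ (31 * k) / nR k) ^ r := by
  rw [← hr, ← prod_const]
  apply prod_le_prod
  · intro x _; exact (rho_pos x).le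
  · intro x hx
    have := hA hx
    unfold WW at this
    exact rho_win3 (mem_filter.1 this).2

lemma A6_sub {k0 N k : ℕ} {t : (Pt × Pt × Pt) × (Pt × Pt × Pt)} (ht : t ∈ I2 k0 N k) : A6 t ⊆ WW k0 N k := by
  unfold I2 at ht
  rw [mem_filter] at ht
  simp only [mem_product] at ht
  intro y hy
  simp only [A6, mem_insert, mem_singleton] at hy
  rcases hy with rfl | rfl | rfl | rfl | rfl | rfl
  · exact ht.1.1.1
  · exact ht.1.1.2.1
  · exact ht.1.1.2.2
  · exact ht.1.2.1
  · exact ht.1.2.2.1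
  · exact ht.1.2.2.2

lemma E_bad2 {k0 N k : ℕ} :
    EU k0 N (fun V => ∑ t ∈ I2 k0 N k, ind (A6 t) V) ≤ 4096 * LL k * CG k * 2 ^ (186 * k) := by
  rw [EU, EE_sum]
  have hn := nR_pos k
  have h1 : ∀ t ∈ I2 k0 N k, EE (UU k0 N) rho (ind (A6 t)) ≤ (2 ^ (31 * k) / nR k) ^ 6 := by
    intro t ht
    rw [EE_ind ((A6_sub ht).trans WW_sub)]
    apply prod_le_rs (A6_sub ht)
    unfold I2 at ht
    exact (mem_filter.1 ht).2.2.2
  calc _ ≤ ∑ t ∈ I2 k0 N k, (2 ^ (31 * k) / nR k) ^ 6 := sum_le_sum h1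
    _ = ((I2 k0 N k).card : ℝ) * (2 ^ (31 * k) / nR k) ^ 6 := by rw [sum_const, nsmul_eq_mul]
    _ ≤ (4096 * nR k ^ 6 * LL k * CG k) * (2 ^ (31 * k) / nR k) ^ 6 :=
        mul_le_mul_of_nonneg_right I2_card (by positivity)
    _ = _ := by
        have : (2 : ℝ) ^ (186 * k) = (2 ^ (31 * k)) ^ 6 := by rw [← pow_mul]; congr 1; ring
        rw [this, div_pow]
        field_simp

/-- eight point configurations -/
noncomputable def A8 (t : (Pt × Pt × Pt × Pt) × (Pt × Pt × Pt × Pt)) : Finset Pt :=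
  {t.1.1, t.1.2.1, t.1.2.2.1, t.1.2.2.2, t.2.1, t.2.2.1, t.2.2.2.1, t.2.2.2.2}

noncomputable def I3 (k0 N k : ℕ) : Finset ((Pt × Pt × Pt × Pt) × (Pt × Pt × Pt × Pt)) :=
  (((WW k0 N k) ×ˢ (WW k0 N k) ×ˢ (WW k0 N k) ×ˢ (WW k0 N k)) ×ˢ
    ((WW k0 N k) ×ˢ (WW k0 N k) ×ˢ (WW k0 N k) ×ˢ (WW k0 N k))).filter
    (fun t => (¬ col t.1.1 t.1.2.1 t.1.2.2.1 ∧ ¬ col t.1.2.2.1 t.1.2.2.2 t.1.1) ∧
      (col t.1.1 t.1.2.1 t.2.1 ∧ col t.1.2.1 t.1.2.2.1 t.2.2.1
      ∧ col t.1.2.2.1 t.1.2.2.2 t.2.2.2.1 ∧ col t.1.2.2.2 t.1.1 t.2.2.2.2) ∧ (A8 t).card = 8)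

lemma I3_card {k0 N k : ℕ} : ((I3 k0 N k).card : ℝ) ≤ 262144 * nR k ^ 8 * LL k ^ 2 * CG k := by
  have hn := nR_pos k
  set W := WW k0 N k with hW
  have h1 : ((I3 k0 N k).card : ℝ) ≤ ∑ τ ∈ W ×ˢ W ×ˢ W ×ˢ W, (if ¬ col τ.1 τ.2.1 τ.2.2.1 ∧ ¬ col τ.2.2.1 τ.2.2.2 τ.1 then
      ((lw k0 N k τ.1 τ.2.1).card : ℝ) * (((lw k0 N k τ.2.1 τ.2.2.1).card : ℝ) *
        (((lw k0 N k τ.2.2.1 τ.2.2.2).card : ℝ) * ((lw k0 N k τ.2.2.2 τ.1).card : ℝ))) else 0) := by
    have : ((I3 k0 N k).card : ℝ) = ∑ t ∈ I3 k0 N k, (1 : ℝ) := by simp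
    rw [this]
    unfold I3
    rw [sum_filter, sum_product]
    apply sum_le_sum
    intro τ _
    by_cases hc : ¬ col τ.1 τ.2.1 τ.2.2.1 ∧ ¬ col τ.2.2.1 τ.2.2.2 τ.1
    · rw [if_pos hc]
      calc _ ≤ ∑ σ ∈ W ×ˢ W ×ˢ W ×ˢ W, (if (col τ.1 τ.2.1 σ.1 ∧ col τ.2.1 τ.2.2.1 σ.2.1 ∧ col τ.2.2.1 τ.2.2.2 σ.2.2.1 ∧ col τ.2.2.2 τ.1 σ.2.2.2) then (1 : ℝ) else 0) := by
            apply sum_le_sum
            intro σ _
            split_ifs with h2 h3 h3
            · exact le_rfl
            · exact absurd h2.2.1 h3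
            · norm_num
            · exact le_rfl
        _ = (((lw k0 N k τ.1 τ.2.1) ×ˢ (lw k0 N k τ.2.1 τ.2.2.1) ×ˢ (lw k0 N k τ.2.2.1 τ.2.2.2) ×ˢ (lw k0 N k τ.2.2.2 τ.1)).card : ℝ) := by
            rw [← sum_filter, sum_const, nsmul_eq_mul, mul_one]
            congr 2
            ext σ
            simp only [lw, mem_filter, mem_product, ← hW]
            tauto
        _ = _ := by
            rw [card_product, card_product, card_product]; push_cast; ring
    · rw [if_neg hc]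
      apply le_of_eq
      apply sum_eq_zero
      intro σ _
      rw [if_neg]
      rintro ⟨h, _⟩
      exact hc h
  refine h1.trans ?_
  rw [sum_product]
  simp_rw [sum_product]
  calc _ ≤ ∑ a ∈ W, ∑ b ∈ W, ∑ c ∈ W, ∑ d ∈ W, (4 * nR k) ^ 4 * (if ¬ col a b c ∧ ¬ col c d a then om a b * om b c * (om c d * om d a) else 0) := by
        apply sum_le_sum
        intro a ha
        apply sum_le_sum
        intro b hb
        apply sum_le_sum
        intro c hc
        apply sum_le_sum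
        intro d hd
        by_cases hcol : ¬ col a b c ∧ ¬ col c d a
        · rw [if_pos hcol, if_pos hcol]
          have hab : a ≠ b := by rintro rfl; exact hcol.1 (col_self _ _)
          have hbc : b ≠ c := by rintro rfl; exact hcol.1 (col_self23 _ _)
          have hcd : c ≠ d := by rintro rfl; exact hcol.2 (col_self _ _)
          have hda : d ≠ a := by rintro rfl; exact hcol.2 (col_self23 _ _)
          have l1 := lw_card ha hb hab
          have l2 := lw_card hb hc hbc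
          have l3 := lw_card hc hd hcd
          have l4 := lw_card hd ha hda
          have o1 := om_nonneg a b
          have o2 := om_nonneg b c
          have o3 := om_nonneg c d
          have o4 := om_nonneg d a
          calc _ ≤ (4 * nR k * om a b) * ((4 * nR k * om b c) * ((4 * nR k * om c d) * (4 * nR k * om d a))) := by
                gcongr
            _ = _ := by ring
        · rw [if_neg hcol, if_neg hcol, mul_zero]
    _ ≤ ∑ a ∈ UB k, ∑ b ∈ UB k, ∑ c ∈ UB k, ∑ d ∈ UB k, (4 * nR k) ^ 4 * (if ¬ col a b c ∧ ¬ col c d a then om a b * om b c * (om c d * om d a) else 0) := by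
        have hpos : ∀ a b c d : Pt, 0 ≤ (4 * nR k) ^ 4 * (if ¬ col a b c ∧ ¬ col c d a then om a b * om b c * (om c d * om d a) else 0) := by
          intro a b c d
          have o1 := om_nonneg a b
          have o2 := om_nonneg b c
          have o3 := om_nonneg c d
          have o4 := om_nonneg d a
          split_ifs <;> positivity
        refine (sum_le_sum (fun a _ => sum_le_sum (fun b _ => sum_le_sum (fun c _ => sum_le_sum_of_subset_of_nonneg WW_UB (fun d _ _ => hpos a b c d))))).trans ?_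
        refine (sum_le_sum (fun a _ => sum_le_sum (fun b _ => sum_le_sum_of_subset_of_nonneg WW_UB (fun c _ _ => sum_nonneg (fun d _ => hpos a b c d))))).trans ?_
        refine (sum_le_sum (fun a _ => sum_le_sum_of_subset_of_nonneg WW_UB (fun b _ _ => sum_nonneg (fun c _ => sum_nonneg (fun d _ => hpos a b c d))))).trans ?_
        exact sum_le_sum_of_subset_of_nonneg WW_UB (fun a _ _ => sum_nonneg (fun b _ => sum_nonneg (fun c _ => sum_nonneg (fun d _ => hpos a b c d))))
    _ = (4 * nR k) ^ 4 * ∑ a ∈ UB k, ∑ b ∈ UB k, ∑ c ∈ UB k, ∑ d ∈ UB k, (if ¬ col a b c ∧ ¬ col c d a then om a b * om b c * (om c d * om d a) else 0) := by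
        simp_rw [mul_sum]
    _ ≤ (4 * nR k) ^ 4 * (1024 * nR k ^ 4 * LL k ^ 2 * CG k) := mul_le_mul_of_nonneg_left (om4_sum k) (by positivity)
    _ = _ := by ring

lemma A8_sub {k0 N k : ℕ} {t : (Pt × Pt × Pt × Pt) × (Pt × Pt × Pt × Pt)} (ht : t ∈ I3 k0 N k) : A8 t ⊆ WW k0 N k := by
  unfold I3 at ht
  rw [mem_filter] at ht
  simp only [mem_product] at ht
  intro y hy
  simp only [A8, mem_insert, mem_singleton] at hy
  rcases hy with rfl | rfl | rfl | rfl | rfl | rfl | rfl | rfl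
  · exact ht.1.1.1
  · exact ht.1.1.2.1
  · exact ht.1.1.2.2.1
  · exact ht.1.1.2.2.2
  · exact ht.1.2.1
  · exact ht.1.2.2.1
  · exact ht.1.2.2.2.1
  · exact ht.1.2.2.2.2

lemma E_bad3 {k0 N k : ℕ} :
    EU k0 N (fun V => ∑ t ∈ I3 k0 N k, ind (A8 t) V) ≤ 262144 * LL k ^ 2 * CG k * 2 ^ (248 * k) := by
  rw [EU, EE_sum]
  have hn := nR_pos k
  have h1 : ∀ t ∈ I3 k0 N k, EE (UU k0 N) rho (ind (A8 t)) ≤ (2 ^ (31 * k) / nR k) ^ 8 := by
    intro t ht
    rw [EE_ind ((A8_sub ht).trans WW_sub)]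
    apply prod_le_rs (A8_sub ht)
    unfold I3 at ht
    exact (mem_filter.1 ht).2.2.2
  calc _ ≤ ∑ t ∈ I3 k0 N k, (2 ^ (31 * k) / nR k) ^ 8 := sum_le_sum h1
    _ = ((I3 k0 N k).card : ℝ) * (2 ^ (31 * k) / nR k) ^ 8 := by rw [sum_const, nsmul_eq_mul]
    _ ≤ (262144 * nR k ^ 8 * LL k ^ 2 * CG k) * (2 ^ (31 * k) / nR k) ^ 8 :=
        mul_le_mul_of_nonneg_right I3_card (by positivity)
    _ = _ := by
        have : (2 : ℝ) ^ (248 * k) = (2 ^ (31 * k)) ^ 8 := by rw [← pow_mul]; congr 1; ring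
        rw [this, div_pow]
        field_simp

end Pool.Agent.Helper64
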