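import Pool.Agent.Helper64.Res1

set_option autoImplicit false

namespace Pool.Agent.Helper64.Res

open Finset
open scoped Classical

variable {α : Type*}

lemma exp_moment {U : Finset α} {ρ : α → ℝ} (h0 : ∀ x ∈ U, 0 ≤ ρ x) (h1 : ∀ x ∈ U, ρ x ≤ 1)
    {w : α → ℝ} {s : ℝ} (hw : ∀ x ∈ U, 0 ≤ s * w x) (hs : ∀ x ∈ U, s * w x ≤ 1) :
    EE U ρ (fun V => Real.exp (s * ∑ v ∈ V, w v)) ≤ Real.exp (2 * s * ∑ v ∈ U, ρ v * w v) := by
  have e1 : EE U ρ (fun V => Real.exp (s * ∑ v ∈ V, w v)) = ∏ x ∈ U, (ρ x * Real.exp (s * w x) + (1 - ρ x)) := by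
    rw [← EE_prod1]
    apply EE_congr
    intro V _
    rw [mul_sum, Real.exp_sum]
  rw [e1, mul_sum, Real.exp_sum]
  apply prod_le_prod
  · intro x hx
    have := h0 x hx
    have := h1 x hx
    have := Real.exp_pos (s * w x)
    have : 0 ≤ ρ x * Real.exp (s * w x) := by positivity
    linarith
  · intro x hx
    have a0 := h0 x hx
    have b0 := hw x hx
    have b1 := hs x hx
    have e2 : Real.exp (s * w x) ≤ 1 + 2 * (s * w x) := by
      have := Real.abs_exp_sub_one_sub_id_le (x := s * w x) (by rw [abs_of_nonneg b0]; exact b1)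
      rw [abs_le] at this
      nlinarith [this.2]
    calc ρ x * Real.exp (s * w x) + (1 - ρ x) ≤ ρ x * (1 + 2 * (s * w x)) + (1 - ρ x) := by
          have := mul_le_mul_of_nonneg_left e2 a0
          linarith
      _ = 2 * s * (ρ x * w x) + 1 := by ring
      _ ≤ Real.exp (2 * s * (ρ x * w x)) := Real.add_one_le_exp _

/-- product over a union of at most five points -/
lemma five_bound [DecidableEq α] {ρ : α → ℝ} (h0 : ∀ x, 0 ≤ ρ x) {z x v x' v' : α}
    (hxv : x ≠ v) (hxz : x ≠ z) (hvz : v ≠ z) (hxv' : x' ≠ v') (hxz' : x' ≠ z) (hvz' : v' ≠ z) :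
    ∏ y ∈ ({z, x, v, x', v'} : Finset α), ρ y ≤ ρ z * (ρ x * ρ v * (ρ x' * ρ v')
      + (if x' = x then ρ x * ρ v * ρ v' else 0) + (if x' = v then ρ x * ρ v * ρ v' else 0)
      + (if v' = x then ρ x * ρ v * ρ x' else 0) + (if v' = v then ρ x * ρ v * ρ x' else 0)
      + (if x' = x ∧ v' = v then ρ x * ρ v else 0) + (if x' = v ∧ v' = x then ρ x * ρ v else 0)) := by
  have p0 := h0 z
  have p1 := h0 x
  have p2 := h0 v
  have p3 := h0 x'
  have p4 := h0 v'
  have q1 : 0 ≤ ρ x * ρ v := mul_nonneg p1 p2
  have q2 : 0 ≤ ρ x * ρ v * ρ v' := mul_nonneg q1 p4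
  have q3 : 0 ≤ ρ x * ρ v * ρ x' := mul_nonneg q1 p3
  have q4 : 0 ≤ ρ x * ρ v * (ρ x' * ρ v') := mul_nonneg q1 (mul_nonneg p3 p4)
  have hzx := hxz.symm
  have hzv := hvz.symm
  have hzx' := hxz'.symm
  have hzv' := hvz'.symm
  have i1 : 0 ≤ (if x' = x then ρ x * ρ v * ρ v' else 0) := by split_ifs <;> [exact q2; exact le_rfl]
  have i2 : 0 ≤ (if x' = v then ρ x * ρ v * ρ v' else 0) := by split_ifs <;> [exact q2; exact le_rfl]
  have i3 : 0 ≤ (if v' = x then ρ x * ρ v * ρ x' else 0) := by split_ifs <;> [exact q3; exact le_rfl]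
  have i4 : 0 ≤ (if v' = v then ρ x * ρ v * ρ x' else 0) := by split_ifs <;> [exact q3; exact le_rfl]
  have i5 : 0 ≤ (if x' = x ∧ v' = v then ρ x * ρ v else 0) := by split_ifs <;> [exact q1; exact le_rfl]
  have i6 : 0 ≤ (if x' = v ∧ v' = x then ρ x * ρ v else 0) := by split_ifs <;> [exact q1; exact le_rfl]
  have prod3 : ∏ y ∈ ({z, x, v} : Finset α), ρ y = ρ z * (ρ x * ρ v) := by
    rw [prod_insert (by simp [hzx, hzv]), prod_pair hxv]
  by_cases a1 : x' = x
  · by_cases b2 : v' = v
    · have : ({z, x, v, x', v'} : Finset α) = {z, x, v} := by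
        rw [a1, b2]; ext y; simp
      rw [this, prod3]
      have e5 : (if x' = x ∧ v' = v then ρ x * ρ v else 0) = ρ x * ρ v := if_pos ⟨a1, b2⟩
      rw [e5]
      apply mul_le_mul_of_nonneg_left _ p0
      linarith
    · have b1 : v' ≠ x := by rw [← a1]; exact hxv'.symm
      have : ({z, x, v, x', v'} : Finset α) = {z, x, v, v'} := by
        rw [a1]; ext y; simp; tauto
      rw [this, prod_insert (by simp [hzx, hzv, hzv']), prod_insert (by simp [hxv, b1.symm]), prod_pair (fun h => b2 h.symm)]
      have e5 : (if x' = x then ρ x * ρ v * ρ v' else 0) = ρ x * ρ v * ρ v' := if_pos a1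
      rw [e5]
      apply mul_le_mul_of_nonneg_left _ p0
      linarith
  · by_cases a2 : x' = v
    · by_cases b1 : v' = x
      · have : ({z, x, v, x', v'} : Finset α) = {z, x, v} := by
          rw [a2, b1]; ext y; simp; tauto
        rw [this, prod3]
        have e5 : (if x' = v ∧ v' = x then ρ x * ρ v else 0) = ρ x * ρ v := if_pos ⟨a2, b1⟩
        rw [e5]
        apply mul_le_mul_of_nonneg_left _ p0
        linarith
      · have b2 : v' ≠ v := by rw [← a2]; exact hxv'.symm
        have : ({z, x, v, x', v'} : Finset α) = {z, x, v, v'} := by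
          rw [a2]; ext y; simp
        rw [this, prod_insert (by simp [hzx, hzv, hzv']), prod_insert (by simp [hxv, Ne.symm b1]), prod_pair b2.symm]
        have e5 : (if x' = v then ρ x * ρ v * ρ v' else 0) = ρ x * ρ v * ρ v' := if_pos a2
        rw [e5]
        apply mul_le_mul_of_nonneg_left _ p0
        linarith
    · by_cases b1 : v' = x
      · have : ({z, x, v, x', v'} : Finset α) = {z, x, v, x'} := by
          rw [b1]; ext y; simp; tauto
        rw [this, prod_insert (by simp [hzx, hzv, hzx']), prod_insert (by simp [hxv, Ne.symm a1]), prod_pair (Ne.symm a2)]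
        have e5 : (if v' = x then ρ x * ρ v * ρ x' else 0) = ρ x * ρ v * ρ x' := if_pos b1
        rw [e5]
        apply mul_le_mul_of_nonneg_left _ p0
        linarith
      · by_cases b2 : v' = v
        · have : ({z, x, v, x', v'} : Finset α) = {z, x, v, x'} := by
            rw [b2]; ext y; simp; tauto
          rw [this, prod_insert (by simp [hzx, hzv, hzx']), prod_insert (by simp [hxv, Ne.symm a1]), prod_pair (Ne.symm a2)]
          have e5 : (if v' = v then ρ x * ρ v * ρ x' else 0) = ρ x * ρ v * ρ x' := if_pos b2
          rw [e5]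
          apply mul_le_mul_of_nonneg_left _ p0
          linarith
        · rw [prod_insert (by simp [hzx, hzv, hzx', hzv']), prod_insert (by simp [hxv, Ne.symm a1, Ne.symm b1]),
            prod_insert (by simp [Ne.symm a2, Ne.symm b2]), prod_pair hxv']
          apply mul_le_mul_of_nonneg_left _ p0
          linarith

lemma quad_var [DecidableEq α] {U : Finset α} {ρ : α → ℝ} (h0 : ∀ x, 0 ≤ ρ x)
    {z : α} (hz : z ∈ U) {f : α → α → ℝ} (f0 : ∀ x v, 0 ≤ f x v)
    (hf : ∀ x v, f x v ≠ 0 → x ≠ v ∧ x ≠ z ∧ v ≠ z) {B F : ℝ}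
    (hB1 : ∀ x ∈ U, ∑ v ∈ U, f x v * ρ v ≤ B) (hB2 : ∀ v ∈ U, ∑ x ∈ U, f x v * ρ x ≤ B)
    (hF : ∀ x v, f x v ≤ F) :
    EE U ρ (fun V => ind {z} V * (∑ x ∈ U, ∑ v ∈ U, f x v * ind {x, v} V - ∑ x ∈ U, ∑ v ∈ U, f x v * (ρ x * ρ v)) ^ 2)
      ≤ ρ z * ((4 * B + 2 * F) * ∑ x ∈ U, ∑ v ∈ U, f x v * (ρ x * ρ v)) := by
  set M := ∑ x ∈ U, ∑ v ∈ U, f x v * (ρ x * ρ v) with hM
  have hind : ∀ (A A' V : Finset α), ind A V * ind A' V = ind (A ∪ A') V := by
    intro A A' V
    unfold ind
    by_cases h1 : A ⊆ V <;> by_cases h2 : A' ⊆ V <;> simp [h1, h2, union_subset_iff]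
  have e1 : EE U ρ (fun V => ind {z} V * (∑ x ∈ U, ∑ v ∈ U, f x v * ind {x, v} V - M) ^ 2)
      = EE U ρ (fun V => ∑ x ∈ U, ∑ v ∈ U, ∑ x' ∈ U, ∑ v' ∈ U, (f x v * f x' v') * ind {z, x, v, x', v'} V
          + ((-2 * M) * (∑ x ∈ U, ∑ v ∈ U, f x v * ind {z, x, v} V) + M ^ 2 * ind {z} V)) := by
    apply EE_congr
    intro V _
    set S := ∑ x ∈ U, ∑ v ∈ U, f x v * ind {x, v} V with hS
    have q1 : ind {z} V * S = ∑ x ∈ U, ∑ v ∈ U, f x v * ind {z, x, v} V := by
      rw [hS, mul_sum]
      apply sum_congr rfl
      intro x _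
      rw [mul_sum]
      apply sum_congr rfl
      intro v _
      rw [mul_left_comm, hind]
      rfl
    have q2 : ind {z} V * (S * S) = ∑ x ∈ U, ∑ v ∈ U, ∑ x' ∈ U, ∑ v' ∈ U, (f x v * f x' v') * ind {z, x, v, x', v'} V := by
      have : S * S = ∑ x ∈ U, ∑ v ∈ U, ∑ x' ∈ U, ∑ v' ∈ U, (f x v * ind {x, v} V) * (f x' v' * ind {x', v'} V) := by
        rw [hS, sum_mul]
        apply sum_congr rfl
        intro x _
        rw [sum_mul]
        apply sum_congr rfl
        intro v _
        rw [mul_sum]
        apply sum_congr rfl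
        intro x' _
        rw [mul_sum]
      rw [this]
      simp_rw [mul_sum]
      apply sum_congr rfl
      intro x _
      apply sum_congr rfl
      intro v _
      apply sum_congr rfl
      intro x' _
      apply sum_congr rfl
      intro v' _
      have h1 : ind ({z, x, v, x', v'} : Finset α) V = ind {z} V * (ind {x, v} V * ind {x', v'} V) := by
        rw [hind, hind]
        congr 1
        ext y
        simp only [mem_insert, mem_singleton, mem_union]
        tauto
      rw [h1]
      ring
    rw [← q1, ← q2]
    ring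
  rw [e1, EE_add, EE_add, EE_mul, EE_mul, EE_ind (singleton_subset_iff.2 hz), prod_singleton]
  have e2 : EE U ρ (fun V => ∑ x ∈ U, ∑ v ∈ U, f x v * ind {z, x, v} V) = ρ z * M := by
    rw [EE_sum, hM, mul_sum]
    apply sum_congr rfl
    intro x hx
    rw [EE_sum, mul_sum]
    apply sum_congr rfl
    intro v hv
    rw [EE_mul]
    by_cases hfx : f x v = 0
    · rw [hfx]; ring
    · obtain ⟨a1, a2, a3⟩ := hf x v hfx
      rw [EE_ind]
      · rw [prod_insert (by simp [a2.symm, a3.symm]), prod_pair a1]; ring
      · intro y hy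
        simp only [mem_insert, mem_singleton] at hy
        rcases hy with rfl | rfl | rfl
        · exact hz
        · exact hx
        · exact hv
  have e3 : EE U ρ (fun V => ∑ x ∈ U, ∑ v ∈ U, ∑ x' ∈ U, ∑ v' ∈ U, (f x v * f x' v') * ind {z, x, v, x', v'} V)
      ≤ ρ z * (M ^ 2 + (4 * B + 2 * F) * M) := by
    rw [EE_sum]
    -- termwise
    have hterm : ∀ x ∈ U, ∀ v ∈ U, ∀ x' ∈ U, ∀ v' ∈ U, EE U ρ (fun V => (f x v * f x' v') * ind {z, x, v, x', v'} V)
        ≤ ρ z * (f x v * (ρ x * ρ v)) * (f x' v' * (ρ x' * ρ v')
          + (if x' = x then f x v' * ρ v' else 0) + (if x' = v then f v v' * ρ v' else 0)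
          + (if v' = x then f x' x * ρ x' else 0) + (if v' = v then f x' v * ρ x' else 0)
          + (if x' = x then (if v' = v then f x v else 0) else 0) + (if x' = v then (if v' = x then f v x else 0) else 0)) := by
      intro x hx v hv x' hx' v' hv'
      rw [EE_mul]
      have hrhs0 : 0 ≤ ρ z * (f x v * (ρ x * ρ v)) * (f x' v' * (ρ x' * ρ v')
          + (if x' = x then f x v' * ρ v' else 0) + (if x' = v then f v v' * ρ v' else 0)
          + (if v' = x then f x' x * ρ x' else 0) + (if v' = v then f x' v * ρ x' else 0)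
          + (if x' = x then (if v' = v then f x v else 0) else 0) + (if x' = v then (if v' = x then f v x else 0) else 0)) := by
        have p0 := h0 z
        have p1 := h0 x
        have p2 := h0 v
        have p3 := h0 x'
        have p4 := h0 v'
        have g1 := f0 x v
        have g2 := f0 x' v'
        have g3 := f0 x v'
        have g4 := f0 v v'
        have g5 := f0 x' x
        have g6 := f0 x' v
        have g7 := f0 v x
        apply mul_nonneg (by positivity)
        have t1 : 0 ≤ (if x' = x then f x v' * ρ v' else 0) := by split_ifs <;> positivity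
        have t2 : 0 ≤ (if x' = v then f v v' * ρ v' else 0) := by split_ifs <;> positivity
        have t3 : 0 ≤ (if v' = x then f x' x * ρ x' else 0) := by split_ifs <;> positivity
        have t4 : 0 ≤ (if v' = v then f x' v * ρ x' else 0) := by split_ifs <;> positivity
        have t5 : 0 ≤ (if x' = x then (if v' = v then f x v else 0) else 0) := by split_ifs <;> positivity
        have t6 : 0 ≤ (if x' = v then (if v' = x then f v x else 0) else 0) := by split_ifs <;> positivity
        positivity
      by_cases hfx : f x v = 0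
      · rw [hfx]; simp
      · by_cases hfx' : f x' v' = 0
        · rw [hfx', mul_zero, zero_mul]
          rw [hfx'] at hrhs0
          exact hrhs0
        · obtain ⟨a1, a2, a3⟩ := hf x v hfx
          obtain ⟨b1, b2, b3⟩ := hf x' v' hfx'
          rw [EE_ind]
          · have h5 := five_bound h0 a1 a2 a3 b1 b2 b3
            have h6 : 0 ≤ f x v * f x' v' := mul_nonneg (f0 _ _) (f0 _ _)
            refine (mul_le_mul_of_nonneg_left h5 h6).trans (le_of_eq ?_)
            by_cases c1 : x' = x
            · subst c1
              by_cases c2 : v' = v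
              · subst c2
                have c3 : ¬ x' = v' := b1
                have c4 : ¬ v' = x' := fun h => b1 h.symm
                simp only [c3, c4, if_true, if_false, and_self, false_and]
                ring
              · have c3 : ¬ x' = v := a1
                have c4 : ¬ v' = x' := fun h => b1 h.symm
                simp only [c2, c3, c4, if_true, if_false, and_false, false_and]
                ring
            · by_cases c2 : x' = v
              · subst c2
                by_cases c3 : v' = x
                · subst c3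
                  have c4 : ¬ v' = x' := fun h => b1 h.symm
                  simp only [c1, c4, if_true, if_false, and_self, false_and, and_false]
                  ring
                · have c4 : ¬ v' = x' := fun h => b1 h.symm
                  simp only [c1, c3, c4, if_true, if_false, and_false, false_and]
                  ring
              · by_cases c3 : v' = x
                · subst c3
                  have c4 : ¬ v' = v := a1
                  simp only [c1, c2, c4, if_true, if_false, and_false, false_and]
                  ring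
                · by_cases c4 : v' = v
                  · subst c4
                    simp only [c1, c2, c3, if_true, if_false, false_and]
                    ring
                  · simp only [c1, c2, c3, c4, if_false, and_false]
                    ring
          · intro y hy
            simp only [mem_insert, mem_singleton] at hy
            rcases hy with rfl | rfl | rfl | rfl | rfl
            · exact hz
            · exact hx
            · exact hv
            · exact hx'
            · exact hv'
    -- sum over x', v'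
    have hinner : ∀ x ∈ U, ∀ v ∈ U, ∑ x' ∈ U, ∑ v' ∈ U, (f x' v' * (ρ x' * ρ v')
          + (if x' = x then f x v' * ρ v' else 0) + (if x' = v then f v v' * ρ v' else 0)
          + (if v' = x then f x' x * ρ x' else 0) + (if v' = v then f x' v * ρ x' else 0)
          + (if x' = x then (if v' = v then f x v else 0) else 0) + (if x' = v then (if v' = x then f v x else 0) else 0))
        ≤ M + (4 * B + 2 * F) := by
      intro x hx v hv
      simp only [sum_add_distrib]
      have s1 : ∑ x' ∈ U, ∑ v' ∈ U, (if x' = x then f x v' * ρ v' else 0) ≤ B := by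
        rw [sum_comm]
        simp only [sum_ite_eq', hx, if_true]
        exact hB1 x hx
      have s2 : ∑ x' ∈ U, ∑ v' ∈ U, (if x' = v then f v v' * ρ v' else 0) ≤ B := by
        rw [sum_comm]
        simp only [sum_ite_eq', hv, if_true]
        exact hB1 v hv
      have s3 : ∑ x' ∈ U, ∑ v' ∈ U, (if v' = x then f x' x * ρ x' else 0) ≤ B := by
        simp only [sum_ite_eq', hx, if_true]
        exact hB2 x hx
      have s4 : ∑ x' ∈ U, ∑ v' ∈ U, (if v' = v then f x' v * ρ x' else 0) ≤ B := by
        simp only [sum_ite_eq', hv, if_true]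
        exact hB2 v hv
      have s5 : ∑ x' ∈ U, ∑ v' ∈ U, (if x' = x then (if v' = v then f x v else 0) else 0) ≤ F := by
        rw [sum_comm]
        simp only [sum_ite_eq', hx, hv, if_true]
        exact hF x v
      have s6 : ∑ x' ∈ U, ∑ v' ∈ U, (if x' = v then (if v' = x then f v x else 0) else 0) ≤ F := by
        rw [sum_comm]
        simp only [sum_ite_eq', hx, hv, if_true]
        exact hF v x
      linarith
    calc ∑ x ∈ U, EE U ρ (fun V => ∑ v ∈ U, ∑ x' ∈ U, ∑ v' ∈ U, (f x v * f x' v') * ind {z, x, v, x', v'} V)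
        = ∑ x ∈ U, ∑ v ∈ U, ∑ x' ∈ U, ∑ v' ∈ U, EE U ρ (fun V => (f x v * f x' v') * ind {z, x, v, x', v'} V) := by
          apply sum_congr rfl
          intro x _
          rw [EE_sum]
          apply sum_congr rfl
          intro v _
          rw [EE_sum]
          apply sum_congr rfl
          intro x' _
          rw [EE_sum]
      _ ≤ ∑ x ∈ U, ∑ v ∈ U, ∑ x' ∈ U, ∑ v' ∈ U, ρ z * (f x v * (ρ x * ρ v)) * (f x' v' * (ρ x' * ρ v')
          + (if x' = x then f x v' * ρ v' else 0) + (if x' = v then f v v' * ρ v' else 0)
          + (if v' = x then f x' x * ρ x' else 0) + (if v' = v then f x' v * ρ x' else 0)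
          + (if x' = x then (if v' = v then f x v else 0) else 0) + (if x' = v then (if v' = x then f v x else 0) else 0)) :=
          sum_le_sum (fun x hx => sum_le_sum (fun v hv => sum_le_sum (fun x' hx' => sum_le_sum (fun v' hv' =>
            hterm x hx v hv x' hx' v' hv'))))
      _ = ∑ x ∈ U, ∑ v ∈ U, ρ z * (f x v * (ρ x * ρ v)) * ∑ x' ∈ U, ∑ v' ∈ U, (f x' v' * (ρ x' * ρ v')
          + (if x' = x then f x v' * ρ v' else 0) + (if x' = v then f v v' * ρ v' else 0)
          + (if v' = x then f x' x * ρ x' else 0) + (if v' = v then f x' v * ρ x' else 0)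
          + (if x' = x then (if v' = v then f x v else 0) else 0) + (if x' = v then (if v' = x then f v x else 0) else 0)) := by
          apply sum_congr rfl
          intro x _
          apply sum_congr rfl
          intro v _
          rw [mul_sum]
          apply sum_congr rfl
          intro x' _
          rw [mul_sum]
      _ ≤ ∑ x ∈ U, ∑ v ∈ U, ρ z * (f x v * (ρ x * ρ v)) * (M + (4 * B + 2 * F)) := by
          apply sum_le_sum
          intro x hx
          apply sum_le_sum
          intro v hv
          apply mul_le_mul_of_nonneg_left (hinner x hx v hv)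
          have p0 := h0 z
          have p1 := h0 x
          have p2 := h0 v
          have g1 := f0 x v
          positivity
      _ = ρ z * M * (M + (4 * B + 2 * F)) := by
          simp_rw [← sum_mul, ← mul_sum]
          rw [← hM]
      _ = _ := by ring
  rw [e2]
  nlinarith

end Pool.Agent.Helper64.Res
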