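import Pool.Agent.Helper64.Res7
import Pool.Agent.Helper64.Res8

set_option autoImplicit false

namespace Pool.Agent.Helper64

open Finset Res
open scoped Classical

/-! ### degree -/

noncomputable def Rdeg (k0 N : ℕ) (V : Finset Pt) (y : Pt) (l : ℕ) : ℝ :=
  ∑ a ∈ UU k0 N, ∑ v ∈ Uk k0 N l,
    (if a ≠ y ∧ a ≠ v ∧ y ≠ v ∧ col a y v ∧ win l (cl a) then ind {a, y, v} V else 0)

lemma E_Rdeg {k0 N l : ℕ} {y : Pt} (hy : y ∈ UU k0 N) (hw : win l (cl y)) :
    EU k0 N (fun V => Rdeg k0 N V y l) ≤ rho y * (64 * LL l * 2 ^ (17 * l)) := by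
  unfold Rdeg
  rw [EU, EE_sum]
  have hn := nR_pos l
  have hyB : y ∈ UB l := UU_UB hy hw.1
  have h1 : ∀ a ∈ UU k0 N, EE (UU k0 N) rho (fun V => ∑ v ∈ Uk k0 N l,
      (if a ≠ y ∧ a ≠ v ∧ y ≠ v ∧ col a y v ∧ win l (cl a) then ind {a, y, v} V else 0))
      ≤ if cl a ≤ l then rho y * (2 ^ (17 * l) / (nR l * nR l)) * (4 * nR l * om y a) else 0 := by
    intro a ha
    rw [EE_sum]
    have hry := rho_pos y
    have hoy := om_nonneg y a
    by_cases hc : a ≠ y ∧ win l (cl a)
    · obtain ⟨hay, hwa⟩ := hc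
      rw [if_pos hwa.1]
      have haB : a ∈ UB l := UU_UB ha hwa.1
      have h2 : ∀ v ∈ Uk k0 N l, EE (UU k0 N) rho (fun V => (if a ≠ y ∧ a ≠ v ∧ y ≠ v ∧ col a y v ∧ win l (cl a) then ind {a, y, v} V else 0))
          ≤ if col a y v then rho y * (2 ^ (17 * l) / (nR l * nR l)) else 0 := by
        intro v hv
        by_cases h3 : a ≠ y ∧ a ≠ v ∧ y ≠ v ∧ col a y v ∧ win l (cl a)
        · simp only [h3, and_self, ne_eq, not_false_eq_true, if_true]
          have h3' := h3
          obtain ⟨a1, a2, a3, a4, a5⟩ := h3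
          rw [EE_ind, ind3 a1 a2 a3]
          · have h4 := rho_win a5
            rw [rho_Uk hv]
            calc rho a * (rho y * (2 ^ (4 * l) / nR l)) ≤ (2 ^ (13 * l) / nR l) * (rho y * (2 ^ (4 * l) / nR l)) := by
                  apply mul_le_mul_of_nonneg_right h4
                  positivity
              _ = _ := by
                  have : (2 : ℝ) ^ (17 * l) = 2 ^ (13 * l) * 2 ^ (4 * l) := by rw [← pow_add]; congr 1; ring
                  rw [this]
                  field_simp
          · intro u hu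
            simp only [mem_insert, mem_singleton] at hu
            rcases hu with rfl | rfl | rfl
            · exact ha
            · exact hy
            · exact Uk_sub hv
        · simp only [h3, if_false]
          rw [EE_const]
          split_ifs <;> positivity
      calc _ ≤ ∑ v ∈ Uk k0 N l, (if col a y v then rho y * (2 ^ (17 * l) / (nR l * nR l)) else 0) := sum_le_sum h2
        _ ≤ ∑ v ∈ Bx l, (if col a y v then rho y * (2 ^ (17 * l) / (nR l * nR l)) else 0) := by
            apply sum_le_sum_of_subset_of_nonneg Uk_Bx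
            intro v _ _
            split_ifs <;> positivity
        _ = (((Bx l).filter (fun v => col a y v)).card : ℝ) * (rho y * (2 ^ (17 * l) / (nR l * nR l))) := by
            rw [← sum_filter, sum_const, nsmul_eq_mul]
        _ ≤ (4 * nR l * om a y) * (rho y * (2 ^ (17 * l) / (nR l * nR l))) := by
            apply mul_le_mul_of_nonneg_right (line_Bx haB hyB hay)
            positivity
        _ = _ := by rw [om_comm a y]; ring
    · have : ∑ v ∈ Uk k0 N l, EE (UU k0 N) rho (fun V => (if a ≠ y ∧ a ≠ v ∧ y ≠ v ∧ col a y v ∧ win l (cl a) then ind {a, y, v} V else 0)) = 0 := by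
        apply sum_eq_zero
        intro v _
        have : ¬ (a ≠ y ∧ a ≠ v ∧ y ≠ v ∧ col a y v ∧ win l (cl a)) := by tauto
        simp only [this, if_false]
        rw [EE_const]
      rw [this]
      split_ifs <;> positivity
  calc _ ≤ ∑ a ∈ UU k0 N, (if cl a ≤ l then rho y * (2 ^ (17 * l) / (nR l * nR l)) * (4 * nR l * om y a) else 0) := sum_le_sum h1
    _ ≤ ∑ a ∈ UB l, rho y * (2 ^ (17 * l) / (nR l * nR l)) * (4 * nR l * om y a) := by
        rw [← sum_filter]
        apply sum_UUle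
        intro p
        have := om_nonneg y p
        have := rho_pos y
        positivity
    _ = rho y * (2 ^ (17 * l) / (nR l * nR l)) * (4 * nR l) * ∑ a ∈ UB l, om y a := by
        rw [mul_sum]
        apply sum_congr rfl
        intro a _
        ring
    _ ≤ rho y * (2 ^ (17 * l) / (nR l * nR l)) * (4 * nR l) * (16 * nR l * LL l) := by
        apply mul_le_mul_of_nonneg_left (sum_om_UB hyB)
        have := rho_pos y
        positivity
    _ = _ := by field_simp; ring

/-! ### pair sums -/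

noncomputable def fT (k : ℕ) (z x v : Pt) : ℝ :=
  if x ≠ v ∧ x ≠ z ∧ v ≠ z ∧ col x v z ∧ win k (cl x) ∧ win k (cl v) then ww x * ww v else 0

lemma fT_nonneg (k : ℕ) (z x v : Pt) : 0 ≤ fT k z x v := by
  unfold fT
  have := ww_pos x
  have := ww_pos v
  split_ifs <;> positivity

lemma fT_symm (k : ℕ) (z x v : Pt) : fT k z x v = fT k z v x := by
  unfold fT
  have h : (x ≠ v ∧ x ≠ z ∧ v ≠ z ∧ col x v z ∧ win k (cl x) ∧ win k (cl v))
      ↔ (v ≠ x ∧ v ≠ z ∧ x ≠ z ∧ col v x z ∧ win k (cl v) ∧ win k (cl x)) := by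
    constructor
    · rintro ⟨a, b, c, d, e, f⟩; exact ⟨a.symm, c, b, col_12 d, f, e⟩
    · rintro ⟨a, b, c, d, e, f⟩; exact ⟨a.symm, c, b, col_12 d, f, e⟩
  by_cases h1 : (x ≠ v ∧ x ≠ z ∧ v ≠ z ∧ col x v z ∧ win k (cl x) ∧ win k (cl v))
  · rw [if_pos h1, if_pos (h.1 h1)]; ring
  · rw [if_neg h1, if_neg (fun h2 => h1 (h.2 h2))]

lemma ww_win {k : ℕ} {x : Pt} (h : win k (cl x)) : ww x ≤ lam / 2 ^ (2 * k) := by
  unfold ww
  apply div_le_div_of_nonneg_left lam_pos.le (by positivity)
  apply pow_le_pow_right₀ (by norm_num)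
  obtain ⟨h1, h2⟩ := h
  omega

lemma ww_le (x : Pt) : ww x ≤ lam := by
  unfold ww
  apply div_le_self lam_pos.le
  exact one_le_pow₀ (by norm_num)

lemma fT_B {k0 N k : ℕ} {z : Pt} (hz : z ∈ Uk k0 N k) (x : Pt) :
    ∑ v ∈ UU k0 N, fT k z x v * rho v ≤ 10 * lam ^ 2 / 2 ^ (2 * k) := by
  have hl := lam_pos
  have hzk := (mem_Uk.1 hz).2
  have hgood : good1 k z := by
    have := (UU_good (Uk_sub hz)).1
    rwa [hzk] at this
  by_cases hc : x ≠ z ∧ win k (cl x)
  · obtain ⟨hxz, hw⟩ := hc
    have h1 : ∀ v ∈ UU k0 N, fT k z x v * rho v ≤ if cl v ≤ k then (lam / 2 ^ (2 * k)) * (lam * (if v ≠ z ∧ col x z v then 1 / nR (cl v) else 0)) else 0 := by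
      intro v _
      have hnv := nR_pos (cl v)
      unfold fT
      by_cases h2 : x ≠ v ∧ x ≠ z ∧ v ≠ z ∧ col x v z ∧ win k (cl x) ∧ win k (cl v)
      · rw [if_pos h2, if_pos h2.2.2.2.2.2.1, if_pos ⟨h2.2.2.1, col_23 h2.2.2.2.1⟩]
        have h3 := rho_ww v
        have h4 := ww_win hw
        calc ww x * ww v * rho v = ww x * (rho v * ww v) := by ring
          _ = ww x * (lam / nR (cl v)) := by rw [h3]
          _ ≤ (lam / 2 ^ (2 * k)) * (lam / nR (cl v)) := mul_le_mul_of_nonneg_right h4 (by positivity)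
          _ = _ := by ring
      · rw [if_neg h2, zero_mul]
        split_ifs <;> positivity
    calc _ ≤ ∑ v ∈ UU k0 N, (if cl v ≤ k then (lam / 2 ^ (2 * k)) * (lam * (if v ≠ z ∧ col x z v then 1 / nR (cl v) else 0)) else 0) := sum_le_sum h1
      _ ≤ ∑ v ∈ UB k, (lam / 2 ^ (2 * k)) * (lam * (if v ≠ z ∧ col x z v then 1 / nR (cl v) else 0)) := by
          rw [← sum_filter]
          apply sum_UUle
          intro p
          have := nR_pos (cl p)
          split_ifs <;> positivity
      _ = (lam / 2 ^ (2 * k)) * (lam * ∑ v ∈ UB k, (if v ≠ z ∧ col x z v then 1 / nR (cl v) else 0)) := by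
          rw [← mul_sum, ← mul_sum]
      _ ≤ (lam / 2 ^ (2 * k)) * (lam * 10) := by
          apply mul_le_mul_of_nonneg_left _ (by positivity)
          apply mul_le_mul_of_nonneg_left (line_mass hgood hxz) hl.le
      _ = _ := by ring
  · have : ∑ v ∈ UU k0 N, fT k z x v * rho v = 0 := by
      apply sum_eq_zero
      intro v _
      unfold fT
      rw [if_neg, zero_mul]
      tauto
    rw [this]
    positivity

lemma fT_F (k : ℕ) (z x v : Pt) : fT k z x v ≤ lam ^ 2 / 2 ^ (2 * k) := by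
  have hl := lam_pos
  unfold fT
  split_ifs with h
  · have h1 := ww_win h.2.2.2.2.1
    have h2 := ww_le v
    have h3 := ww_pos v
    calc ww x * ww v ≤ (lam / 2 ^ (2 * k)) * lam := mul_le_mul h1 h2 h3.le (by positivity)
      _ = _ := by ring
  · positivity

noncomputable def MT (k0 N k : ℕ) (z : Pt) : ℝ := ∑ x ∈ UU k0 N, ∑ v ∈ UU k0 N, fT k z x v * (rho x * rho v)

noncomputable def ST (k0 N k : ℕ) (z : Pt) (V : Finset Pt) : ℝ := ∑ x ∈ UU k0 N, ∑ v ∈ UU k0 N, fT k z x v * ind {x, v} V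

lemma MT_nonneg {k0 N k : ℕ} {z : Pt} : 0 ≤ MT k0 N k z := by
  unfold MT
  apply sum_nonneg
  intro x _
  apply sum_nonneg
  intro v _
  have := fT_nonneg k z x v
  have := rho_pos x
  have := rho_pos v
  positivity

lemma MT_le {k0 N k : ℕ} {z : Pt} (hz : z ∈ Uk k0 N k) : MT k0 N k z ≤ lam ^ 2 * tau k := by
  have hl := lam_pos
  have hzk := (mem_Uk.1 hz).2
  have hgood : muz k z ≤ tau k := by
    have := (UU_good (Uk_sub hz)).2
    rwa [hzk] at this
  refine le_trans ?_ (mul_le_mul_of_nonneg_left hgood (by positivity : 0 ≤ lam ^ 2))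
  unfold MT muz
  rw [mul_sum]
  simp_rw [mul_sum]
  have h1 : ∀ x v, fT k z x v * (rho x * rho v) ≤ if cl x ≤ k then (if cl v ≤ k then
      lam ^ 2 * (if x ≠ v ∧ x ≠ z ∧ v ≠ z ∧ col x v z then 1 / (nR (cl x) * nR (cl v)) else 0) else 0) else 0 := by
    intro x v
    have hnx := nR_pos (cl x)
    have hnv := nR_pos (cl v)
    unfold fT
    by_cases h2 : x ≠ v ∧ x ≠ z ∧ v ≠ z ∧ col x v z ∧ win k (cl x) ∧ win k (cl v)
    · rw [if_pos h2, if_pos h2.2.2.2.2.1.1, if_pos h2.2.2.2.2.2.1, if_pos ⟨h2.1, h2.2.1, h2.2.2.1, h2.2.2.2.1⟩]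
      have h3 := rho_ww x
      have h4 := rho_ww v
      calc ww x * ww v * (rho x * rho v) = (rho x * ww x) * (rho v * ww v) := by ring
        _ = (lam / nR (cl x)) * (lam / nR (cl v)) := by rw [h3, h4]
        _ = lam ^ 2 * (1 / (nR (cl x) * nR (cl v))) := by field_simp
        _ ≤ _ := le_rfl
    · rw [if_neg h2, zero_mul]
      split_ifs <;> positivity
  have hpos : ∀ x v, 0 ≤ lam ^ 2 * (if x ≠ v ∧ x ≠ z ∧ v ≠ z ∧ col x v z then 1 / (nR (cl x) * nR (cl v)) else 0) := by
    intro x v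
    have hnx := nR_pos (cl x)
    have hnv := nR_pos (cl v)
    split_ifs <;> positivity
  calc _ ≤ ∑ x ∈ UU k0 N, ∑ v ∈ UU k0 N, (if cl x ≤ k then (if cl v ≤ k then
      lam ^ 2 * (if x ≠ v ∧ x ≠ z ∧ v ≠ z ∧ col x v z then 1 / (nR (cl x) * nR (cl v)) else 0) else 0) else 0) :=
        sum_le_sum (fun x _ => sum_le_sum (fun v _ => h1 x v))
    _ ≤ ∑ x ∈ UU k0 N, (if cl x ≤ k then ∑ v ∈ UB k, lam ^ 2 * (if x ≠ v ∧ x ≠ z ∧ v ≠ z ∧ col x v z then 1 / (nR (cl x) * nR (cl v)) else 0) else 0) := by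
        apply sum_le_sum
        intro x _
        by_cases hx : cl x ≤ k
        · simp only [hx, if_true]
          rw [← sum_filter]
          exact sum_UUle (fun v => hpos x v)
        · simp [hx]
    _ ≤ _ := by
        rw [← sum_filter]
        apply sum_UUle
        intro x
        exact sum_nonneg (fun v _ => hpos x v)

lemma E_T {k0 N k : ℕ} {z : Pt} (hz : z ∈ Uk k0 N k) :
    EU k0 N (fun V => ind {z} V * (ST k0 N k z V - MT k0 N k z) ^ 2)
      ≤ rho z * (42 * lam ^ 2 / 2 ^ (2 * k) * (lam ^ 2 * tau k)) := by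
  have hl := lam_pos
  have h := quad_var (U := UU k0 N) (ρ := rho) (fun x => (rho_pos x).le) (Uk_sub hz) (f := fT k z) (fT_nonneg k z)
    (by
      intro x v hf
      unfold fT at hf
      have : (x ≠ v ∧ x ≠ z ∧ v ≠ z ∧ col x v z ∧ win k (cl x) ∧ win k (cl v)) := by
        by_contra hcon
        rw [if_neg hcon] at hf
        exact hf rfl
      exact ⟨this.1, this.2.1, this.2.2.1⟩)
    (B := 10 * lam ^ 2 / 2 ^ (2 * k)) (F := lam ^ 2 / 2 ^ (2 * k))
    (fun x _ => fT_B hz x)
    (by
      intro v _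
      have := fT_B hz v
      refine le_trans (le_of_eq ?_) this
      apply sum_congr rfl
      intro x _
      rw [fT_symm])
    (fun x v => fT_F k z x v)
  refine h.trans ?_
  apply mul_le_mul_of_nonneg_left _ (rho_pos z).le
  have h1 := MT_le hz
  have h2 : (4 * (10 * lam ^ 2 / 2 ^ (2 * k)) + 2 * (lam ^ 2 / 2 ^ (2 * k))) = 42 * lam ^ 2 / 2 ^ (2 * k) := by ring
  rw [h2]
  apply mul_le_mul_of_nonneg_left h1
  positivity

/-! ### heavy lines -/

noncomputable def wl (k : ℕ) (x z v : Pt) : ℝ := if col x z v ∧ win k (cl v) then ww v else 0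

noncomputable def hv (k : ℕ) (x z : Pt) (V : Finset Pt) : ℝ := if 1 / 256 < ∑ v ∈ V, wl k x z v then 1 else 0

lemma hv_nonneg (k : ℕ) (x z : Pt) (V : Finset Pt) : 0 ≤ hv k x z V := by
  unfold hv; split_ifs <;> norm_num

lemma E_hv {k0 N k : ℕ} {x z : Pt} (hz : z ∈ Uk k0 N k) (hxz : x ≠ z) :
    EU k0 N (hv k x z) ≤ Real.exp (-(2 ^ (2 * k) / 512)) := by
  have hl := lam_pos
  have hzk := (mem_Uk.1 hz).2
  have hgood : good1 k z := by
    have := (UU_good (Uk_sub hz)).1
    rwa [hzk] at this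
  set s : ℝ := 2 ^ (2 * k) with hs
  have hs0 : 0 < s := by positivity
  have hw0 : ∀ v, 0 ≤ wl k x z v := by
    intro v; unfold wl; have := ww_pos v; split_ifs <;> positivity
  have hw1 : ∀ v, s * wl k x z v ≤ 1 := by
    intro v
    unfold wl
    split_ifs with h
    · have h1 := ww_win h.2
      calc s * ww v ≤ s * (lam / 2 ^ (2 * k)) := mul_le_mul_of_nonneg_left h1 hs0.le
        _ = lam := by rw [hs]; field_simp
        _ ≤ 1 := by unfold lam; norm_num
    · simp
  have h1 := exp_moment (U := UU k0 N) (ρ := rho) (fun x _ => (rho_pos x).le) (fun x _ => rho_le_one x)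
    (w := wl k x z) (s := s) (fun v _ => mul_nonneg hs0.le (hw0 v)) (fun v _ => hw1 v)
  have h2 : ∑ v ∈ UU k0 N, rho v * wl k x z v ≤ 11 * lam := by
    have h3 : ∀ v ∈ UU k0 N, rho v * wl k x z v ≤ (if cl v ≤ k then lam * (if v ≠ z ∧ col x z v then 1 / nR (cl v) else 0) else 0)
        + (if v = z then lam else 0) := by
      intro v _
      have hnv := nR_pos (cl v)
      unfold wl
      by_cases h4 : col x z v ∧ win k (cl v)
      · rw [if_pos h4, rho_ww, if_pos h4.2.1]
        by_cases h5 : v = z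
        · have h6 : lam / nR (cl v) ≤ lam := by
            apply div_le_self hl.le (one_le_nR _)
          rw [if_pos h5]
          have : 0 ≤ lam * (if v ≠ z ∧ col x z v then 1 / nR (cl v) else 0) := by split_ifs <;> positivity
          linarith
        · rw [if_neg h5, if_pos ⟨h5, h4.1⟩, add_zero]
          apply le_of_eq; ring
      · rw [if_neg h4, mul_zero]
        have : 0 ≤ (if cl v ≤ k then lam * (if v ≠ z ∧ col x z v then 1 / nR (cl v) else 0) else 0) := by
          split_ifs <;> positivity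
        have : 0 ≤ (if v = z then lam else 0) := by split_ifs <;> linarith
        linarith
    calc _ ≤ ∑ v ∈ UU k0 N, ((if cl v ≤ k then lam * (if v ≠ z ∧ col x z v then 1 / nR (cl v) else 0) else 0)
        + (if v = z then lam else 0)) := sum_le_sum h3
      _ = ∑ v ∈ (UU k0 N).filter (fun v => cl v ≤ k), lam * (if v ≠ z ∧ col x z v then 1 / nR (cl v) else 0) + lam := by
          rw [sum_add_distrib, sum_filter, sum_ite_eq', if_pos (Uk_sub hz)]
      _ ≤ ∑ v ∈ UB k, lam * (if v ≠ z ∧ col x z v then 1 / nR (cl v) else 0) + lam := by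
          apply add_le_add _ le_rfl
          apply sum_UUle
          intro p
          have := nR_pos (cl p)
          split_ifs <;> positivity
      _ ≤ lam * 10 + lam := by
          apply add_le_add _ le_rfl
          rw [← mul_sum]
          exact mul_le_mul_of_nonneg_left (line_mass hgood hxz) hl.le
      _ = _ := by ring
  have h5 : EU k0 N (hv k x z) ≤ EE (UU k0 N) rho (fun V => Real.exp (-(s / 256)) * Real.exp (s * ∑ v ∈ V, wl k x z v)) := by
    apply EU_mono
    intro V _
    unfold hv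
    rw [← Real.exp_add]
    split_ifs with h6
    · apply Real.one_le_exp
      nlinarith
    · exact (Real.exp_pos _).le
  rw [EE_mul] at h5
  refine h5.trans ?_
  calc Real.exp (-(s / 256)) * EE (UU k0 N) rho (fun V => Real.exp (s * ∑ v ∈ V, wl k x z v))
      ≤ Real.exp (-(s / 256)) * Real.exp (2 * s * (11 * lam)) := by
        apply mul_le_mul_of_nonneg_left _ (Real.exp_pos _).le
        refine h1.trans ?_
        apply Real.exp_le_exp.2
        apply mul_le_mul_of_nonneg_left h2
        positivity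
    _ = Real.exp (-(s / 256) + 2 * s * (11 * lam)) := by rw [Real.exp_add]
    _ ≤ _ := by
        apply Real.exp_le_exp.2
        unfold lam
        nlinarith

end Pool.Agent.Helper64
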