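import Mathlib

set_option autoImplicit false

namespace Pool.Agent.Helper64

open Finset

/-- the box `{1,...,n}^2` -/
noncomputable def box (n : ℕ) : Finset (ℤ × ℤ) := (Finset.Icc (1 : ℤ) n) ×ˢ (Finset.Icc (1 : ℤ) n)

/-- collinearity of three lattice points -/
def col (p q r : ℤ × ℤ) : Prop :=
  (q.1 - p.1) * (r.2 - p.2) = (q.2 - p.2) * (r.1 - p.1)

instance (p q r : ℤ × ℤ) : Decidable (col p q r) := by unfold col; infer_instance

def gg (p q : ℤ × ℤ) : ℕ := Int.gcd (q.1 - p.1) (q.2 - p.2)
def hh (p q : ℤ × ℤ) : ℕ := max (q.1 - p.1).natAbs (q.2 - p.2).natAbs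

noncomputable def om (p q : ℤ × ℤ) : ℝ := (gg p q : ℝ) / (hh p q : ℝ)

lemma mem_box {n : ℕ} {p : ℤ × ℤ} :
    p ∈ box n ↔ (1 ≤ p.1 ∧ p.1 ≤ n) ∧ (1 ≤ p.2 ∧ p.2 ≤ n) := by
  simp [box]

lemma card_box (n : ℕ) : (box n).card = n * n := by
  simp [box]

lemma gg_comm (p q : ℤ × ℤ) : gg p q = gg q p := by
  unfold gg
  rw [← Int.gcd_neg, Int.gcd_comm, ← Int.gcd_neg, Int.gcd_comm]
  congr 1 <;> ring

lemma hh_comm (p q : ℤ × ℤ) : hh p q = hh q p := by
  unfold hh
  congr 1
  · rw [← Int.natAbs_neg]; congr 1; ring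
  · rw [← Int.natAbs_neg]; congr 1; ring

lemma om_comm (p q : ℤ × ℤ) : om p q = om q p := by
  unfold om; rw [gg_comm, hh_comm]

lemma om_nonneg (p q : ℤ × ℤ) : 0 ≤ om p q := by unfold om; positivity

/-- a set of integers in `[1,n]` with all differences divisible by `m ≥ 1` has at most
`(n-1)/m+1` elements. -/
lemma card_le_of_dvd {n m : ℕ} (hm : 1 ≤ m) (A : Finset ℤ)
    (hA : ∀ a ∈ A, 1 ≤ a ∧ a ≤ n) (hd : ∀ a ∈ A, ∀ b ∈ A, (m : ℤ) ∣ a - b) :
    A.card ≤ (n - 1) / m + 1 := by
  have hmap : ∀ a ∈ A, ((a - 1).toNat / m) ∈ Finset.range ((n - 1) / m + 1) := by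
    intro a ha
    obtain ⟨h1, h2⟩ := hA a ha
    rw [Finset.mem_range]
    refine Nat.lt_succ_of_le (Nat.div_le_div_right ?_)
    omega
  have hinj : Set.InjOn (fun a : ℤ => (a - 1).toNat / m) (A : Set ℤ) := by
    intro a ha b hb hab
    simp only at hab
    obtain ⟨ha1, ha2⟩ := hA a ha
    obtain ⟨hb1, hb2⟩ := hA b hb
    have hdv := hd a ha b hb
    -- |a - b| < m
    have h1 := Nat.div_add_mod (a - 1).toNat m
    have h2 := Nat.div_add_mod (b - 1).toNat m
    have h3 := Nat.mod_lt (a - 1).toNat hm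
    have h4 := Nat.mod_lt (b - 1).toNat hm
    rw [hab] at h1
    have hlt : |a - b| < m := by
      rw [abs_lt]
      constructor <;> omega
    have := Int.eq_zero_of_abs_lt_dvd hdv hlt
    omega
  calc A.card ≤ (Finset.range ((n - 1) / m + 1)).card :=
        Finset.card_le_card_of_injOn _ hmap hinj
    _ = _ := Finset.card_range _

/-- number of points of the box on the line through two of its points. -/
lemma line_count {n : ℕ} {p q : ℤ × ℤ} (hp : p ∈ box n) (hq : q ∈ box n) (hpq : p ≠ q) :
    (((box n).filter (fun r => col p q r)).card : ℝ) ≤ 2 * n * om p q := by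
  classical
  obtain ⟨⟨hp1, hp2⟩, hp3, hp4⟩ := mem_box.1 hp
  obtain ⟨⟨hq1, hq2⟩, hq3, hq4⟩ := mem_box.1 hq
  set g := gg p q with hg
  set h := hh p q with hh'
  have hgpos : 0 < g := by
    rw [hg, gg]
    apply Int.gcd_pos_iff.2
    by_contra hcon
    push Not at hcon
    apply hpq
    ext <;> omega
  obtain ⟨u, hu⟩ : (g : ℤ) ∣ q.1 - p.1 := Int.gcd_dvd_left ..
  obtain ⟨v, hv⟩ : (g : ℤ) ∣ q.2 - p.2 := Int.gcd_dvd_right ..
  have hcop : IsCoprime u v := by
    rw [Int.isCoprime_iff_gcd_eq_one]
    have : Int.gcd (q.1 - p.1) (q.2 - p.2) = g := rfl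
    rw [hu, hv, Int.gcd_mul_left] at this
    simp only [Int.natAbs_natCast] at this
    exact Nat.eq_of_mul_eq_mul_left hgpos (by simpa using this)
  have hgz : (g : ℤ) ≠ 0 := by exact_mod_cast hgpos.ne'
  -- the relation for points on the line
  have key : ∀ r, col p q r → u * (r.2 - p.2) = v * (r.1 - p.1) := by
    intro r hr
    unfold col at hr
    rw [hu, hv] at hr
    have : (g : ℤ) * (u * (r.2 - p.2)) = (g : ℤ) * (v * (r.1 - p.1)) := by linarith
    exact mul_left_cancel₀ hgz this
  -- main counting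
  have main : ∀ m : ℕ, 1 ≤ m → g * m = h → ((box n).filter (fun r => col p q r)).card ≤ (n - 1) / m + 1 →
      (((box n).filter (fun r => col p q r)).card : ℝ) ≤ 2 * n * om p q := by
    intro m hm hgm hc
    have hle : h ≤ n - 1 := by
      rw [hh', hh]
      apply max_le <;> omega
    have hmn : m ≤ n - 1 := by
      calc m ≤ g * m := Nat.le_mul_of_pos_left m hgpos
        _ = h := hgm
        _ ≤ n - 1 := hle
    have hom : om p q = 1 / (m : ℝ) := by
      unfold om
      rw [← hg, ← hh', ← hgm]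
      push_cast
      have : (g : ℝ) ≠ 0 := by positivity
      have : (m : ℝ) ≠ 0 := by positivity
      field_simp
    rw [hom]
    have h1 : (((box n).filter (fun r => col p q r)).card : ℝ) ≤ (((n - 1) / m + 1 : ℕ) : ℝ) := by
      exact_mod_cast hc
    have h2 : (((n - 1) / m + 1 : ℕ) : ℝ) ≤ ((n : ℝ) - 1) / m + 1 := by
      push_cast
      have : (((n - 1) / m : ℕ) : ℝ) ≤ ((n - 1 : ℕ) : ℝ) / m := Nat.cast_div_le
      have h3 : ((n - 1 : ℕ) : ℝ) = (n : ℝ) - 1 := by
        rw [Nat.cast_sub (by omega)]; simp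
      rw [h3] at this
      linarith
    have hmR : (0 : ℝ) < m := by positivity
    have h4 : (m : ℝ) ≤ (n : ℝ) - 1 := by
      have : ((m : ℕ) : ℝ) ≤ ((n - 1 : ℕ) : ℝ) := by exact_mod_cast hmn
      rwa [Nat.cast_sub (by omega), Nat.cast_one] at this
    have h5 : ((n : ℝ) - 1) / m + 1 ≤ 2 * n * (1 / m) := by
      rw [mul_one_div, div_add_one hmR.ne', div_le_div_iff_of_pos_right hmR]
      linarith
    linarith
  -- two cases
  have hcase : h = (q.1 - p.1).natAbs ∨ h = (q.2 - p.2).natAbs := by
    rw [hh', hh]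
    exact max_choice _ _
  rcases hcase with hc | hc
  · -- first coordinate dominates
    have hu0 : g * u.natAbs = h := by
      rw [hc, hu, Int.natAbs_mul, Int.natAbs_natCast]
    have hhpos : 0 < h := by
      rcases Nat.eq_zero_or_pos h with h0 | h0
      · exfalso
        apply hpq
        have : max (q.1 - p.1).natAbs (q.2 - p.2).natAbs = 0 := h0
        have h1 : (q.1 - p.1).natAbs = 0 := by
          have := le_max_left (q.1 - p.1).natAbs (q.2 - p.2).natAbs; omega
        have h2 : (q.2 - p.2).natAbs = 0 := by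
          have := le_max_right (q.1 - p.1).natAbs (q.2 - p.2).natAbs; omega
        ext <;> omega
      · exact h0
    have hu1 : 1 ≤ u.natAbs := by
      rcases Nat.eq_zero_or_pos u.natAbs with h0 | h0
      · rw [h0] at hu0; omega
      · exact h0
    refine main u.natAbs hu1 hu0 ?_
    have hune : u ≠ 0 := by intro h0; rw [h0] at hu1; simp at hu1
    have hinj : Set.InjOn (fun r : ℤ × ℤ => r.1) (((box n).filter (fun r => col p q r) : Finset (ℤ × ℤ)) : Set (ℤ × ℤ)) := by
      intro r hr s hs hrs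
      simp only [Finset.coe_filter, Set.mem_ofPred_eq] at hr hs
      simp only at hrs
      have e1 := key r hr.2
      have e2 := key s hs.2
      rw [hrs] at e1
      have : u * (r.2 - p.2) = u * (s.2 - p.2) := by rw [e1, e2]
      have := mul_left_cancel₀ hune this
      ext
      · exact hrs
      · linarith
    rw [← Finset.card_image_of_injOn hinj]
    apply card_le_of_dvd hu1
    · intro a ha
      rw [Finset.mem_image] at ha
      obtain ⟨r, hr, rfl⟩ := ha
      rw [Finset.mem_filter] at hr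
      exact (mem_box.1 hr.1).1
    · intro a ha b hb
      rw [Finset.mem_image] at ha hb
      obtain ⟨r, hr, rfl⟩ := ha
      obtain ⟨s, hs, rfl⟩ := hb
      rw [Finset.mem_filter] at hr hs
      have e1 := key r hr.2
      have e2 := key s hs.2
      have e3 : u * (r.2 - s.2) = v * (r.1 - s.1) := by linarith
      have : u ∣ v * (r.1 - s.1) := ⟨_, e3.symm⟩
      have := hcop.dvd_of_dvd_mul_left this
      exact Int.natAbs_dvd.2 this
  · have hu0 : g * v.natAbs = h := by
      rw [hc, hv, Int.natAbs_mul, Int.natAbs_natCast]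
    have hhpos : 0 < h := by
      rcases Nat.eq_zero_or_pos h with h0 | h0
      · exfalso
        apply hpq
        have : max (q.1 - p.1).natAbs (q.2 - p.2).natAbs = 0 := h0
        have h1 : (q.1 - p.1).natAbs = 0 := by
          have := le_max_left (q.1 - p.1).natAbs (q.2 - p.2).natAbs; omega
        have h2 : (q.2 - p.2).natAbs = 0 := by
          have := le_max_right (q.1 - p.1).natAbs (q.2 - p.2).natAbs; omega
        ext <;> omega
      · exact h0
    have hu1 : 1 ≤ v.natAbs := by
      rcases Nat.eq_zero_or_pos v.natAbs with h0 | h0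
      · rw [h0] at hu0; omega
      · exact h0
    refine main v.natAbs hu1 hu0 ?_
    have hune : v ≠ 0 := by intro h0; rw [h0] at hu1; simp at hu1
    have hinj : Set.InjOn (fun r : ℤ × ℤ => r.2) (((box n).filter (fun r => col p q r) : Finset (ℤ × ℤ)) : Set (ℤ × ℤ)) := by
      intro r hr s hs hrs
      simp only [Finset.coe_filter, Set.mem_ofPred_eq] at hr hs
      simp only at hrs
      have e1 := key r hr.2
      have e2 := key s hs.2
      rw [hrs] at e1
      have : v * (r.1 - p.1) = v * (s.1 - p.1) := by rw [← e1, ← e2]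
      have := mul_left_cancel₀ hune this
      ext
      · linarith
      · exact hrs
    rw [← Finset.card_image_of_injOn hinj]
    apply card_le_of_dvd hu1
    · intro a ha
      rw [Finset.mem_image] at ha
      obtain ⟨r, hr, rfl⟩ := ha
      rw [Finset.mem_filter] at hr
      exact (mem_box.1 hr.1).2
    · intro a ha b hb
      rw [Finset.mem_image] at ha hb
      obtain ⟨r, hr, rfl⟩ := ha
      obtain ⟨s, hs, rfl⟩ := hb
      rw [Finset.mem_filter] at hr hs
      have e1 := key r hr.2
      have e2 := key s hs.2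
      have e3 : v * (r.1 - s.1) = u * (r.2 - s.2) := by linarith
      have : v ∣ u * (r.2 - s.2) := ⟨_, e3.symm⟩
      have := hcop.symm.dvd_of_dvd_mul_left this
      exact Int.natAbs_dvd.2 this

end Pool.Agent.Helper64
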