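import Pool.Agent.Helper64.T1a

set_option autoImplicit false

namespace Pool.Agent.Helper64

open Finset

/-- `∑_{b=1}^{a} gcd(a,b) ≤ a τ(a)` -/
lemma sum_gcd_le (a : ℕ) (ha : 1 ≤ a) :
    ∑ b ∈ Finset.Icc 1 a, Nat.gcd a b ≤ a * a.divisors.card := by
  classical
  have h1 : ∑ b ∈ Finset.Icc 1 a, Nat.gcd a b
      = ∑ g ∈ a.divisors, ∑ b ∈ (Finset.Icc 1 a).filter (fun b => Nat.gcd a b = g), Nat.gcd a b := by
    rw [Finset.sum_fiberwise_of_maps_to]
    intro b hb
    rw [Nat.mem_divisors]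
    exact ⟨Nat.gcd_dvd_left a b, by omega⟩
  rw [h1]
  have h2 : ∀ g ∈ a.divisors, ∑ b ∈ (Finset.Icc 1 a).filter (fun b => Nat.gcd a b = g), Nat.gcd a b ≤ a := by
    intro g hg
    have hgd := (Nat.mem_divisors.1 hg).1
    have hgpos : 0 < g := Nat.pos_of_dvd_of_pos hgd (by omega)
    calc ∑ b ∈ (Finset.Icc 1 a).filter (fun b => Nat.gcd a b = g), Nat.gcd a b
        = ∑ b ∈ (Finset.Icc 1 a).filter (fun b => Nat.gcd a b = g), g := by
          apply Finset.sum_congr rfl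
          intro b hb
          exact (Finset.mem_filter.1 hb).2
      _ = ((Finset.Icc 1 a).filter (fun b => Nat.gcd a b = g)).card * g := by
          rw [Finset.sum_const, smul_eq_mul]
      _ ≤ ((Finset.Ioc 0 a).filter (fun b => g ∣ b)).card * g := by
          apply Nat.mul_le_mul_right
          apply Finset.card_le_card
          intro b hb
          rw [Finset.mem_filter, Finset.mem_Icc] at hb
          rw [Finset.mem_filter, Finset.mem_Ioc]
          refine ⟨by omega, ?_⟩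
          rw [← hb.2]
          exact Nat.gcd_dvd_right a b
      _ = (a / g) * g := by rw [Nat.Ioc_filter_dvd_card_eq_div]
      _ ≤ a := Nat.div_mul_le_self a g
  calc ∑ g ∈ a.divisors, ∑ b ∈ (Finset.Icc 1 a).filter (fun b => Nat.gcd a b = g), Nat.gcd a b
      ≤ ∑ g ∈ a.divisors, a := Finset.sum_le_sum h2
    _ = a * a.divisors.card := by rw [Finset.sum_const, smul_eq_mul, mul_comm]

lemma sum_divisors_card_le (n : ℕ) :
    (∑ a ∈ Finset.Icc 1 n, (a.divisors.card : ℝ)) ≤ n * (1 + Real.log n) := by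
  have h := ArithmeticFunction.sum_Ioc_sigma0_eq_sum_div n
  have h1 : ∑ a ∈ Finset.Icc 1 n, a.divisors.card = ∑ a ∈ Finset.Ioc 0 n, (n / a) := by
    rw [← h]
    apply Finset.sum_congr
    · ext x; simp [Finset.mem_Icc, Finset.mem_Ioc]; omega
    · intro x _
      rw [ArithmeticFunction.sigma_zero_apply]
  have h2 : (∑ a ∈ Finset.Icc 1 n, (a.divisors.card : ℝ)) = ((∑ a ∈ Finset.Ioc 0 n, (n / a) : ℕ) : ℝ) := by
    rw [← h1]; push_cast; rfl
  rw [h2]
  push_cast
  calc ∑ a ∈ Finset.Ioc 0 n, ((n / a : ℕ) : ℝ) ≤ ∑ a ∈ Finset.Ioc 0 n, (n : ℝ) * ((a : ℝ))⁻¹ := by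
        apply Finset.sum_le_sum
        intro a _
        rw [← div_eq_mul_inv]
        exact Nat.cast_div_le
    _ = n * (harmonic n : ℝ) := by
        rw [← Finset.mul_sum, harmonic_eq_sum_Icc]
        push_cast
        congr 1
    _ ≤ n * (1 + Real.log n) := by
        apply mul_le_mul_of_nonneg_left (harmonic_le_one_add_log n) (by positivity)

/-- sum over the first octant -/
lemma octant_sum (n : ℕ) :
    ∑ a ∈ Finset.Icc 1 n, ∑ b ∈ Finset.Icc 0 a, ((Nat.gcd a b : ℝ) / (a : ℝ))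
      ≤ n * (2 + Real.log n) := by
  have h : ∀ a ∈ Finset.Icc 1 n, ∑ b ∈ Finset.Icc 0 a, ((Nat.gcd a b : ℝ) / (a : ℝ))
      ≤ 1 + (a.divisors.card : ℝ) := by
    intro a ha
    rw [Finset.mem_Icc] at ha
    have hapos : (0 : ℝ) < a := by exact_mod_cast ha.1
    rw [← Finset.sum_div, div_le_iff₀ hapos]
    have h0 : Finset.Icc 0 a = insert 0 (Finset.Icc 1 a) := by
      ext x; simp only [Finset.mem_Icc, Finset.mem_insert]; omega
    rw [h0, Finset.sum_insert (by simp)]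
    have h1 := sum_gcd_le a ha.1
    have h2 : (∑ b ∈ Finset.Icc 1 a, (Nat.gcd a b : ℝ)) ≤ a * a.divisors.card := by
      exact_mod_cast h1
    simp only [Nat.gcd_zero_right]
    nlinarith
  calc _ ≤ ∑ a ∈ Finset.Icc 1 n, (1 + (a.divisors.card : ℝ)) := Finset.sum_le_sum h
    _ = n + ∑ a ∈ Finset.Icc 1 n, (a.divisors.card : ℝ) := by
        rw [Finset.sum_add_distrib]; simp
    _ ≤ n + n * (1 + Real.log n) := by
        have := sum_divisors_card_le n
        linarith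
    _ = n * (2 + Real.log n) := by ring

/-- the weight of a difference vector -/
noncomputable def wt (a b : ℤ) : ℝ := (Int.gcd a b : ℝ) / (max a.natAbs b.natAbs : ℕ)

lemma om_eq_wt (p q : ℤ × ℤ) : om p q = wt (q.1 - p.1) (q.2 - p.2) := rfl

lemma wt_nonneg (a b : ℤ) : 0 ≤ wt a b := by unfold wt; positivity

lemma sum_wt_le (n : ℕ) :
    ∑ a ∈ Finset.Icc (-(n:ℤ)) n, ∑ b ∈ Finset.Icc (-(n:ℤ)) n, wt a b ≤ 8 * (n * (2 + Real.log n)) := by
  classical
  -- W(i,j) for naturals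
  set f : ℕ → ℕ → ℝ := fun i j => (Nat.gcd i j : ℝ) / (max i j : ℕ) with hf
  have hwt : ∀ a b : ℤ, wt a b = f a.natAbs b.natAbs := by
    intro a b; rfl
  have hfn : ∀ i j, 0 ≤ f i j := by intro i j; simp only [hf]; positivity
  -- folding
  have fold : ∀ g : ℕ → ℝ, (∀ i, 0 ≤ g i) → ∑ a ∈ Finset.Icc (-(n:ℤ)) n, g a.natAbs ≤ 2 * ∑ i ∈ Finset.Icc 0 n, g i := by
    intro g hg
    have hsub : Finset.Icc (-(n:ℤ)) n ⊆ ((Finset.Icc 0 n).image (fun i : ℕ => (i : ℤ))) ∪ ((Finset.Icc 0 n).image (fun i : ℕ => -(i : ℤ))) := by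
      intro a ha
      rw [Finset.mem_Icc] at ha
      rw [Finset.mem_union, Finset.mem_image, Finset.mem_image]
      rcases le_or_gt 0 a with h | h
      · left; exact ⟨a.natAbs, by rw [Finset.mem_Icc]; omega, by omega⟩
      · right; exact ⟨a.natAbs, by rw [Finset.mem_Icc]; omega, by omega⟩
    calc ∑ a ∈ Finset.Icc (-(n:ℤ)) n, g a.natAbs
        ≤ ∑ a ∈ ((Finset.Icc 0 n).image (fun i : ℕ => (i : ℤ))) ∪ ((Finset.Icc 0 n).image (fun i : ℕ => -(i : ℤ))), g a.natAbs :=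
          Finset.sum_le_sum_of_subset_of_nonneg hsub (fun _ _ _ => hg _)
      _ ≤ ∑ a ∈ ((Finset.Icc 0 n).image (fun i : ℕ => (i : ℤ))), g a.natAbs + ∑ a ∈ ((Finset.Icc 0 n).image (fun i : ℕ => -(i : ℤ))), g a.natAbs := by
          rw [← Finset.sum_union_inter]
          have : 0 ≤ ∑ a ∈ ((Finset.Icc 0 n).image (fun i : ℕ => (i : ℤ))) ∩ ((Finset.Icc 0 n).image (fun i : ℕ => -(i : ℤ))), g a.natAbs :=
            Finset.sum_nonneg (fun _ _ => hg _)
          linarith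
      _ = ∑ i ∈ Finset.Icc 0 n, g i + ∑ i ∈ Finset.Icc 0 n, g i := by
          rw [Finset.sum_image (by intro x _ y _ h; simpa using h), Finset.sum_image (by intro x _ y _ h; simpa using h)]
          simp
      _ = _ := by ring
  have step1 : ∑ a ∈ Finset.Icc (-(n:ℤ)) n, ∑ b ∈ Finset.Icc (-(n:ℤ)) n, wt a b
      ≤ 4 * ∑ i ∈ Finset.Icc 0 n, ∑ j ∈ Finset.Icc 0 n, f i j := by
    calc ∑ a ∈ Finset.Icc (-(n:ℤ)) n, ∑ b ∈ Finset.Icc (-(n:ℤ)) n, wt a b
        ≤ ∑ a ∈ Finset.Icc (-(n:ℤ)) n, 2 * ∑ j ∈ Finset.Icc 0 n, f a.natAbs j := by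
          apply Finset.sum_le_sum
          intro a _
          simp_rw [hwt]
          exact fold (fun j => f a.natAbs j) (fun j => hfn _ _)
      _ ≤ 2 * ∑ i ∈ Finset.Icc 0 n, 2 * ∑ j ∈ Finset.Icc 0 n, f i j :=
          fold (fun i => 2 * ∑ j ∈ Finset.Icc 0 n, f i j) (fun i => mul_nonneg (by norm_num) (Finset.sum_nonneg (fun _ _ => hfn _ _)))
      _ = 4 * ∑ i ∈ Finset.Icc 0 n, ∑ j ∈ Finset.Icc 0 n, f i j := by
          rw [← Finset.mul_sum]; ring
  have hsymm : ∀ i j, f i j = f j i := by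
    intro i j; simp only [hf]; rw [Nat.gcd_comm, max_comm]
  have step2 : ∑ i ∈ Finset.Icc 0 n, ∑ j ∈ Finset.Icc 0 n, f i j
      ≤ 2 * ∑ a ∈ Finset.Icc 1 n, ∑ b ∈ Finset.Icc 0 a, ((Nat.gcd a b : ℝ) / (a : ℝ)) := by
    have e1 : ∑ i ∈ Finset.Icc 0 n, ∑ j ∈ Finset.Icc 0 n, f i j
        ≤ ∑ i ∈ Finset.Icc 0 n, (∑ j ∈ (Finset.Icc 0 n).filter (fun j => j ≤ i), f i j + ∑ j ∈ (Finset.Icc 0 n).filter (fun j => i ≤ j), f i j) := by
      apply Finset.sum_le_sum
      intro i _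
      rw [← Finset.sum_filter_add_sum_filter_not (Finset.Icc 0 n) (fun j => j ≤ i)]
      apply add_le_add le_rfl
      apply Finset.sum_le_sum_of_subset_of_nonneg
      · intro j hj
        rw [Finset.mem_filter] at hj ⊢
        exact ⟨hj.1, by omega⟩
      · intro _ _ _; exact hfn _ _
    have e2 : ∑ i ∈ Finset.Icc 0 n, ∑ j ∈ (Finset.Icc 0 n).filter (fun j => i ≤ j), f i j
        = ∑ i ∈ Finset.Icc 0 n, ∑ j ∈ (Finset.Icc 0 n).filter (fun j => j ≤ i), f i j := by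
      simp_rw [Finset.sum_filter]
      rw [Finset.sum_comm]
      apply Finset.sum_congr rfl
      intro i _
      apply Finset.sum_congr rfl
      intro j _
      rw [hsymm]
    have e3 : ∑ i ∈ Finset.Icc 0 n, ∑ j ∈ (Finset.Icc 0 n).filter (fun j => j ≤ i), f i j
        = ∑ a ∈ Finset.Icc 1 n, ∑ b ∈ Finset.Icc 0 a, ((Nat.gcd a b : ℝ) / (a : ℝ)) := by
      have h0 : Finset.Icc 0 n = insert 0 (Finset.Icc 1 n) := by
        ext x; simp only [Finset.mem_Icc, Finset.mem_insert]; omega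
      rw [h0, Finset.sum_insert (by simp), ← h0]
      have z : ∑ j ∈ (Finset.Icc 0 n).filter (fun j => j ≤ 0), f 0 j = 0 := by
        apply Finset.sum_eq_zero
        intro j hj
        rw [Finset.mem_filter] at hj
        have : j = 0 := by omega
        subst this
        simp [hf]
      rw [z, zero_add]
      apply Finset.sum_congr rfl
      intro a ha
      rw [Finset.mem_Icc] at ha
      apply Finset.sum_congr
      · ext x; simp only [Finset.mem_filter, Finset.mem_Icc]; omega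
      · intro b hb
        rw [Finset.mem_Icc] at hb
        simp only [hf]
        rw [max_eq_left hb.2]
    rw [Finset.sum_add_distrib, e2, e3] at e1
    linarith
  have step3 := octant_sum n
  linarith

lemma sum_om_le {n : ℕ} {q : ℤ × ℤ} (hq : q ∈ box n) :
    ∑ p ∈ box n, om q p ≤ 8 * (n * (2 + Real.log n)) := by
  classical
  obtain ⟨⟨hq1, hq2⟩, hq3, hq4⟩ := mem_box.1 hq
  refine le_trans ?_ (sum_wt_le n)
  rw [← Finset.sum_product']
  have hinj : Set.InjOn (fun p : ℤ × ℤ => (p.1 - q.1, p.2 - q.2)) (box n : Set (ℤ × ℤ)) := by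
    intro a _ b _ hab
    simp only [Prod.mk.injEq] at hab
    ext <;> omega
  calc ∑ p ∈ box n, om q p = ∑ v ∈ (box n).image (fun p : ℤ × ℤ => (p.1 - q.1, p.2 - q.2)), wt v.1 v.2 := by
        rw [Finset.sum_image hinj]
        rfl
    _ ≤ ∑ x ∈ Finset.Icc (-(n:ℤ)) n ×ˢ Finset.Icc (-(n:ℤ)) n, wt x.1 x.2 := by
        apply Finset.sum_le_sum_of_subset_of_nonneg
        · intro v hv
          rw [Finset.mem_image] at hv
          obtain ⟨p, hp, rfl⟩ := hv
          obtain ⟨⟨hp1, hp2⟩, hp3, hp4⟩ := mem_box.1 hp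
          simp only [Finset.mem_product, Finset.mem_Icc]
          refine ⟨⟨?_, ?_⟩, ?_, ?_⟩ <;> omega
        · intro _ _ _; exact wt_nonneg _ _

end Pool.Agent.Helper64
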